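import Mathlib
import Pool.Agent.Helper923.PNT

/-! The tent function, its Fourier transform, and Parseval's identity for finite sums of
indicator functions of intervals. -/

set_option autoImplicit false

namespace Pool.Agent.X25.MW
open MeasureTheory Finset

/-- the tent function -/
noncomputable def tent (L v : ℝ) : ℝ := max (L - |v|) 0

lemma tent_continuous (L : ℝ) : Continuous (tent L) := by
  unfold tent
  fun_prop

lemma tent_zero {L v : ℝ} (h : L ≤ |v|) : tent L v = 0 := by
  unfold tent
  exact max_eq_right (by linarith)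

lemma tent_nonneg (L v : ℝ) : 0 ≤ tent L v := le_max_right _ _

lemma tent_le {L : ℝ} (hL : 0 ≤ L) (v : ℝ) : tent L v ≤ L := by
  unfold tent
  apply max_le _ hL
  have := abs_nonneg v
  linarith

lemma tent_compact (L : ℝ) : HasCompactSupport (tent L) := by
  apply HasCompactSupport.intro (isCompact_Icc : IsCompact (Set.Icc (-L) L))
  intro v hv
  apply tent_zero
  by_contra h
  rw [not_le, abs_lt] at h
  exact hv ⟨h.1.le, h.2.le⟩

/-- the Fourier transform of the tent function -/
noncomputable def th (L ξ : ℝ) : ℝ := L ^ 2 * Real.sinc (Real.pi * L * ξ) ^ 2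

lemma K_eq_sinc (w : ℝ) : Pool.Agent.Helper923.PNT.K w = Real.sinc (w / 2) ^ 2 := by
  unfold Pool.Agent.Helper923.PNT.K
  split_ifs with h
  · subst h; simp
  · rw [Real.sinc_of_ne_zero (by simpa using h), div_pow]
    have h1 : Real.cos w = 1 - 2 * Real.sin (w / 2) ^ 2 := by
      have := Real.cos_two_mul (w / 2)
      rw [mul_div_cancel₀ w two_ne_zero] at this
      rw [this, Real.cos_sq']; ring
    rw [h1]
    field_simp
    ring

lemma fourier_tent {L : ℝ} (hL : 0 < L) (ξ : ℝ) :
    ∫ v : ℝ, Complex.exp (((-2 * Real.pi * v * ξ : ℝ) : ℂ) * Complex.I) * (tent L v : ℂ) =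
      (th L ξ : ℂ) := by
  have h1 : ∫ v : ℝ, Complex.exp (((-2 * Real.pi * v * ξ : ℝ) : ℂ) * Complex.I) *
      (tent L v : ℂ) = ∫ v in (-L)..L,
      Complex.exp (((-2 * Real.pi * v * ξ : ℝ) : ℂ) * Complex.I) * (tent L v : ℂ) := by
    rw [intervalIntegral.integral_of_le (by linarith), ← integral_Icc_eq_integral_Ioc]
    symm
    apply setIntegral_eq_integral_of_forall_compl_eq_zero
    intro v hv
    rw [tent_zero]
    · simp
    · by_contra h
      rw [not_le, abs_lt] at h
      exact hv ⟨h.1.le, h.2.le⟩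
  rw [h1]
  have h2 := Pool.Agent.Helper923.PNT.fejer_complex L (-2 * Real.pi * ξ) hL
  have h3 : ∫ v in (-L)..L,
      Complex.exp (((-2 * Real.pi * v * ξ : ℝ) : ℂ) * Complex.I) * (tent L v : ℂ) =
      ∫ y in (-L)..L, (L : ℂ) * (((1 - |y| / L : ℝ) : ℂ) *
        Complex.exp (Complex.I * (((-2 * Real.pi * ξ) * y : ℝ) : ℂ))) := by
    apply intervalIntegral.integral_congr
    intro v hv
    rw [Set.uIcc_of_le (by linarith)] at hv
    have hv' : |v| ≤ L := abs_le.2 hv
    simp only
    have e1 : tent L v = L * (1 - |v| / L) := by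
      unfold tent
      rw [max_eq_left (by linarith)]
      field_simp
    rw [e1]
    push_cast
    have e2 : (-2 * (Real.pi:ℂ) * v * ξ) * Complex.I = Complex.I * (-2 * (Real.pi:ℂ) * ξ * v) := by
      ring
    rw [e2]
    ring
  rw [h3, intervalIntegral.integral_const_mul, h2, K_eq_sinc]
  have e3 : L * (-2 * Real.pi * ξ) / 2 = -(Real.pi * L * ξ) := by ring
  rw [e3, Real.sinc_neg, th]
  push_cast
  ring

lemma th_continuous (L : ℝ) : Continuous (th L) := by
  unfold th
  have := Real.continuous_sinc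
  fun_prop

lemma th_nonneg (L ξ : ℝ) : 0 ≤ th L ξ := by unfold th; positivity

lemma th_ne {L ξ : ℝ} (hξ : ξ ≠ 0) : th L ξ = Real.sin (Real.pi * L * ξ) ^ 2 / (Real.pi * ξ) ^ 2 := by
  have hpi := Real.pi_pos
  unfold th
  by_cases hL : L = 0
  · subst hL; simp
  · rw [Real.sinc_of_ne_zero (by positivity)]
    field_simp

lemma th_le (L ξ : ℝ) : th L ξ ≤ L ^ 2 := by
  unfold th
  have h : |Real.sinc (Real.pi * L * ξ)| ≤ 1 := Real.abs_sinc_le_one _
  have h2 : Real.sinc (Real.pi * L * ξ) ^ 2 ≤ 1 := by
    rw [← sq_abs]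
    exact pow_le_one₀ (abs_nonneg _) h
  nlinarith [sq_nonneg L]

lemma th_mul (L ξ : ℝ) : th L ξ * ξ ^ 2 ≤ 1 := by
  by_cases hξ : ξ = 0
  · subst hξ; simp
  · rw [th_ne hξ]
    have hpi := Real.pi_gt_three
    have h : Real.sin (Real.pi * L * ξ) ^ 2 ≤ 1 := Real.sin_sq_le_one _
    have e : Real.sin (Real.pi * L * ξ) ^ 2 / (Real.pi * ξ) ^ 2 * ξ ^ 2 =
        Real.sin (Real.pi * L * ξ) ^ 2 / Real.pi ^ 2 := by
      field_simp
    rw [e, div_le_one (by positivity)]
    nlinarith

lemma th_integrable (L : ℝ) : Integrable (th L) := by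
  have h := (integrable_inv_one_add_sq).const_mul (L ^ 2 + 1)
  refine h.mono' (th_continuous L).aestronglyMeasurable (Filter.Eventually.of_forall fun ξ => ?_)
  rw [Real.norm_eq_abs, abs_of_nonneg (th_nonneg L ξ), ← div_eq_mul_inv, le_div_iff₀ (by positivity)]
  have h1 := th_le L ξ
  have h2 := th_mul L ξ
  nlinarith

open FourierTransform in
lemma tent_inv {L : ℝ} (hL : 0 < L) (v : ℝ) :
    ∫ ξ : ℝ, Complex.exp (((2 * Real.pi * ξ * v : ℝ) : ℂ) * Complex.I) * (th L ξ : ℂ) =
      (tent L v : ℂ) := by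
  set f : ℝ → ℂ := fun v => (tent L v : ℂ) with hf
  have hc : Continuous f := Complex.continuous_ofReal.comp (tent_continuous L)
  have hcs : HasCompactSupport f := by
    apply HasCompactSupport.intro (isCompact_Icc : IsCompact (Set.Icc (-L) L))
    intro v hv
    simp only [hf]
    rw [tent_zero]
    · simp
    · by_contra h
      rw [not_le, abs_lt] at h
      exact hv ⟨h.1.le, h.2.le⟩
  have hi : Integrable f := hc.integrable_of_hasCompactSupport hcs
  have hF : 𝓕 f = fun ξ => (th L ξ : ℂ) := by
    funext ξ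
    rw [Real.fourier_real_eq_integral_exp_smul, ← fourier_tent hL ξ]
    rfl
  have hFi : Integrable (𝓕 f) := by
    rw [hF]
    exact (th_integrable L).ofReal
  have h := hc.fourierInv_fourier_eq hi hFi
  have h2 := congrFun h v
  rw [hF, Real.fourierInv_eq' ] at h2
  rw [← show f v = (tent L v : ℂ) from rfl, ← h2]
  apply integral_congr_ae
  refine Filter.Eventually.of_forall fun ξ => ?_
  simp only [smul_eq_mul]
  congr 2
  simp
  ring

lemma tent_inv_cos {L : ℝ} (hL : 0 < L) (v : ℝ) :
    ∫ ξ : ℝ, th L ξ * Real.cos (2 * Real.pi * ξ * v) = tent L v := by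
  have h := congrArg Complex.re (tent_inv hL v)
  rw [Complex.ofReal_re] at h
  rw [← h]
  have hi : Integrable (fun ξ : ℝ => Complex.exp (((2 * Real.pi * ξ * v : ℝ) : ℂ) * Complex.I) *
      (th L ξ : ℂ)) := by
    refine ((th_integrable L).ofReal (𝕜 := ℂ)).bdd_mul (c := 1) ?_ ?_
    · apply Continuous.aestronglyMeasurable
      fun_prop
    · refine Filter.Eventually.of_forall fun ξ => ?_
      rw [Complex.norm_exp_ofReal_mul_I]
  rw [show (∫ ξ : ℝ, Complex.exp (((2 * Real.pi * ξ * v : ℝ) : ℂ) * Complex.I) *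
      (th L ξ : ℂ)).re = ∫ ξ : ℝ, (Complex.exp (((2 * Real.pi * ξ * v : ℝ) : ℂ) * Complex.I) *
      (th L ξ : ℂ)).re from (integral_re hi).symm]
  apply integral_congr_ae
  refine Filter.Eventually.of_forall fun ξ => ?_
  simp only [Complex.re_mul_ofReal, Complex.exp_ofReal_mul_I_re]
  ring

/-- indicator of `|s - u| ≤ L/2` as a function of `u` -/
noncomputable def ph (L s u : ℝ) : ℝ := (Set.Icc (s - L / 2) (s + L / 2)).indicator (fun _ => 1) u

lemma ph_nonneg (L s u : ℝ) : 0 ≤ ph L s u := Set.indicator_nonneg (fun _ _ => zero_le_one) _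

lemma ph_le_one (L s u : ℝ) : ph L s u ≤ 1 := by
  unfold ph
  exact Set.indicator_le' (fun _ _ => le_rfl) (fun _ _ => zero_le_one) u

lemma ph_eq (L s u : ℝ) : ph L s u = if |s - u| ≤ L / 2 then 1 else 0 := by
  unfold ph
  rw [Set.indicator_apply]
  congr 1
  rw [Set.mem_Icc, abs_le, eq_iff_iff]
  constructor
  · rintro ⟨h1, h2⟩; constructor <;> linarith
  · rintro ⟨h1, h2⟩; constructor <;> linarith

lemma ph_integrable (L s : ℝ) : Integrable (ph L s) := by
  unfold ph
  rw [integrable_indicator_iff measurableSet_Icc]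
  simp

lemma ph_measurable (L : ℝ) : Measurable (fun p : ℝ × ℝ => ph L p.1 p.2) := by
  have : (fun p : ℝ × ℝ => ph L p.1 p.2) =
      fun p : ℝ × ℝ => ({p : ℝ × ℝ | |p.1 - p.2| ≤ L / 2}.indicator (fun _ => (1:ℝ)) p) := by
    funext p
    rw [ph_eq, Set.indicator_apply]
    rfl
  rw [this]
  apply Measurable.indicator measurable_const
  apply measurableSet_le
  · fun_prop
  · fun_prop

lemma ph_integral {L : ℝ} (hL : 0 ≤ L) (s : ℝ) : ∫ u, ph L s u = L := by
  unfold ph
  rw [integral_indicator measurableSet_Icc]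
  simp
  linarith

lemma ph_mul {L : ℝ} (hL : 0 ≤ L) (a b : ℝ) : ∫ u, ph L a u * ph L b u = tent L (a - b) := by
  have h : (fun u => ph L a u * ph L b u) =
      (Set.Icc (max (a - L / 2) (b - L / 2)) (min (a + L / 2) (b + L / 2))).indicator
        (fun _ => (1:ℝ)) := by
    rw [← Set.Icc_inter_Icc]
    funext u
    unfold ph
    rw [← Set.inter_indicator_mul]
    simp
  rw [h, integral_indicator measurableSet_Icc]
  simp only [integral_const, MeasurableSet.univ, measureReal_restrict_apply, Set.univ_inter,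
    smul_eq_mul, mul_one, Real.volume_real_Icc]
  unfold tent
  rcases le_total a b with h | h
  · rw [max_eq_right (a := a - L / 2) (b := b - L / 2) (by linarith),
      min_eq_left (a := a + L / 2) (b := b + L / 2) (by linarith), abs_of_nonpos (by linarith)]
    congr 1
    ring
  · rw [max_eq_left (a := a - L / 2) (b := b - L / 2) (by linarith),
      min_eq_right (a := a + L / 2) (b := b + L / 2) (by linarith), abs_of_nonneg (by linarith)]
    congr 1
    ring

/-- `e(x)` -/
noncomputable def ex (x : ℝ) : ℂ := Complex.exp (((2 * Real.pi * x : ℝ) : ℂ) * Complex.I)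

lemma ex_norm (x : ℝ) : ‖ex x‖ = 1 := by
  unfold ex
  rw [Complex.norm_exp_ofReal_mul_I]

lemma ex_add (x y : ℝ) : ex (x + y) = ex x * ex y := by
  unfold ex
  rw [← Complex.exp_add]
  congr 1
  push_cast
  ring

lemma ex_continuous : Continuous ex := by
  unfold ex
  fun_prop

lemma ex_sum {ι : Type*} (s : Finset ι) (f : ι → ℝ) : ex (∑ i ∈ s, f i) = ∏ i ∈ s, ex (f i) := by
  classical
  induction s using Finset.induction_on with
  | empty => simp [ex]
  | insert a s ha ih => rw [sum_insert ha, prod_insert ha, ex_add, ih]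

lemma normSq_sum {Z : Type*} (B : Finset Z) (c s : Z → ℝ) (α : ℝ) :
    ‖∑ z ∈ B, (c z : ℂ) * ex (α * s z)‖ ^ 2 =
      ∑ z ∈ B, ∑ w ∈ B, c z * c w * Real.cos (2 * Real.pi * α * (s z - s w)) := by
  rw [← Complex.normSq_eq_norm_sq, Complex.normSq_apply]
  have hre : (∑ z ∈ B, (c z : ℂ) * ex (α * s z)).re =
      ∑ z ∈ B, c z * Real.cos (2 * Real.pi * α * s z) := by
    rw [Complex.re_sum]
    apply sum_congr rfl
    intro z _
    rw [Complex.re_ofReal_mul, ex, Complex.exp_ofReal_mul_I_re]
    ring_nf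
  have him : (∑ z ∈ B, (c z : ℂ) * ex (α * s z)).im =
      ∑ z ∈ B, c z * Real.sin (2 * Real.pi * α * s z) := by
    rw [Complex.im_sum]
    apply sum_congr rfl
    intro z _
    rw [Complex.im_ofReal_mul, ex, Complex.exp_ofReal_mul_I_im]
    ring_nf
  rw [hre, him, sum_mul_sum, sum_mul_sum, ← sum_add_distrib]
  apply sum_congr rfl
  intro z _
  rw [← sum_add_distrib]
  apply sum_congr rfl
  intro w _
  rw [mul_sub, Real.cos_sub]
  ring

/-- Parseval's identity for finite sums of indicator functions of intervals -/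
lemma parseval {L : ℝ} (hL : 0 < L) {Z : Type*} (B : Finset Z) (c s : Z → ℝ) :
    ∫ u, (∑ z ∈ B, c z * ph L (s z) u) ^ 2 =
      ∫ α, th L α * ‖∑ z ∈ B, (c z : ℂ) * ex (α * s z)‖ ^ 2 := by
  have h1 : ∀ u, (∑ z ∈ B, c z * ph L (s z) u) ^ 2 =
      ∑ z ∈ B, ∑ w ∈ B, c z * c w * (ph L (s z) u * ph L (s w) u) := by
    intro u
    rw [sq, sum_mul_sum]
    apply sum_congr rfl
    intro z _
    apply sum_congr rfl
    intro w _
    ring
  have hpi : ∀ a b, Integrable (fun u => ph L a u * ph L b u) := by
    intro a b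
    refine (ph_integrable L b).bdd_mul (c := 1) (ph_integrable L a).aestronglyMeasurable ?_
    refine Filter.Eventually.of_forall fun u => ?_
    rw [Real.norm_eq_abs, abs_of_nonneg (ph_nonneg _ _ _)]
    exact ph_le_one _ _ _
  have hki : ∀ v, Integrable (fun α => th L α * Real.cos (2 * Real.pi * α * v)) := by
    intro v
    refine (th_integrable L).mul_bdd (c := 1) ?_ ?_
    · apply Continuous.aestronglyMeasurable
      fun_prop
    · refine Filter.Eventually.of_forall fun u => ?_
      exact Real.abs_cos_le_one _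
  simp_rw [h1, normSq_sum, mul_sum]
  rw [integral_finset_sum, integral_finset_sum]
  · apply sum_congr rfl
    intro z _
    rw [integral_finset_sum, integral_finset_sum]
    · apply sum_congr rfl
      intro w _
      rw [integral_const_mul, ph_mul hL.le, ← tent_inv_cos hL, ← integral_const_mul]
      apply integral_congr_ae
      refine Filter.Eventually.of_forall fun α => ?_
      simp only
      ring
    · intro w _
      have := (hki (s z - s w)).const_mul (c z * c w)
      refine this.congr (Filter.Eventually.of_forall fun α => ?_)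
      simp only
      ring
    · intro w _
      exact (hpi _ _).const_mul _
  · intro z _
    apply integrable_finset_sum
    intro w _
    have := (hki (s z - s w)).const_mul (c z * c w)
    refine this.congr (Filter.Eventually.of_forall fun α => ?_)
    simp only
    ring
  · intro z _
    apply integrable_finset_sum
    intro w _
    exact (hpi _ _).const_mul _

end Pool.Agent.X25.MW
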