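import Mathlib
import Pool.Agent.X25.MW.Tent

/-! Integrals over frequencies. -/

set_option autoImplicit false

namespace Pool.Agent.X25.MW
open MeasureTheory Finset

lemma th_integral {L : ℝ} (hL : 0 < L) : ∫ α, th L α = L := by
  have h := tent_inv_cos hL 0
  simp only [mul_zero, Real.cos_zero, mul_one] at h
  rw [h]
  unfold tent
  simp [hL.le]

/-- majorant of `|α|^(-2)` on `|α| > a` -/
lemma maj_integral {a : ℝ} (ha : 0 < a) :
    Integrable (fun α : ℝ => 2 / a ^ 2 * (1 + (α / a) ^ 2)⁻¹) ∧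
    ∫ α : ℝ, 2 / a ^ 2 * (1 + (α / a) ^ 2)⁻¹ = 2 * Real.pi / a := by
  constructor
  · apply Integrable.const_mul
    exact (integrable_inv_one_add_sq).comp_div ha.ne'
  · rw [integral_const_mul, Measure.integral_comp_div (fun x : ℝ => (1 + x ^ 2)⁻¹) a,
      integral_univ_inv_one_add_sq, abs_of_pos ha, smul_eq_mul]
    field_simp

lemma maj_le {a α : ℝ} (ha : 0 < a) (h : a < |α|) : (|α|⁻¹) ^ 2 ≤ 2 / a ^ 2 * (1 + (α / a) ^ 2)⁻¹ := by
  have h0 : 0 < |α| := ha.trans h
  have e : (|α|⁻¹) ^ 2 = (α ^ 2)⁻¹ := by rw [inv_pow, sq_abs]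
  have hα : 0 < α ^ 2 := by rw [← sq_abs]; positivity
  rw [e, ← div_eq_mul_inv, div_div, inv_eq_one_div, div_le_div_iff₀ hα (by positivity)]
  have h2 : a ^ 2 ≤ α ^ 2 := by
    rw [← sq_abs α]
    gcongr
  have e2 : a ^ 2 * (1 + (α / a) ^ 2) = a ^ 2 + α ^ 2 := by field_simp
  rw [e2]
  linarith

lemma add_pow_le_two (x y : ℝ) (hx : 0 ≤ x) (hy : 0 ≤ y) (n : ℕ) :
    (x + y) ^ n ≤ 2 ^ n * (x ^ n + y ^ n) := by
  have h1 : x + y ≤ 2 * max x y := by
    have := le_max_left x y
    have := le_max_right x y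
    linarith
  have h2 : (max x y) ^ n ≤ x ^ n + y ^ n := by
    rcases le_total x y with h | h
    · rw [max_eq_right h]
      have : 0 ≤ x ^ n := by positivity
      linarith
    · rw [max_eq_left h]
      have : 0 ≤ y ^ n := by positivity
      linarith
  calc (x + y) ^ n ≤ (2 * max x y) ^ n := by gcongr
    _ = 2 ^ n * (max x y) ^ n := mul_pow _ _ _
    _ ≤ 2 ^ n * (x ^ n + y ^ n) := by gcongr

lemma alpha_bound {L a A C Bd D : ℝ} {n : ℕ} (hL : 0 < L) (ha : 0 < a) (hA : 0 ≤ A) (hC : 0 ≤ C)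
    (hB : 0 ≤ Bd) (hD : 0 ≤ D) (hn : 2 ≤ n) (Q : ℝ → ℝ) (h1 : ∀ α, |α| ≤ a → Q α ≤ A)
    (h2 : ∀ α, a < |α| → Q α ≤ C * (Bd + D / |α|) ^ n) :
    ∫⁻ α : ℝ, ENNReal.ofReal (th L α * Q α) ≤ ENNReal.ofReal
      (2 * a * (L ^ 2 * A) + C * 2 ^ n * (Bd ^ n * L + 2 * Real.pi * L ^ 2 * D ^ n * (a⁻¹) ^ (n - 1))) := by
  set W : ℝ → ℝ := fun α => (Set.Icc (-a) a).indicator (fun _ => L ^ 2 * A) α +
    C * 2 ^ n * (Bd ^ n * th L α + D ^ n * L ^ 2 * (a⁻¹) ^ (n - 2) *
      (2 / a ^ 2 * (1 + (α / a) ^ 2)⁻¹)) with hW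
  have hmaj : ∀ α : ℝ, 0 ≤ 2 / a ^ 2 * (1 + (α / a) ^ 2)⁻¹ := by intro α; positivity
  have hth := th_nonneg L
  have hW0 : ∀ α, 0 ≤ W α := by
    intro α
    simp only [hW]
    apply add_nonneg
    · exact Set.indicator_nonneg (fun _ _ => by positivity) _
    · have := hth α
      have := hmaj α
      positivity
  have hWi : Integrable W := by
    apply Integrable.add
    · rw [integrable_indicator_iff measurableSet_Icc]
      exact integrableOn_const (by simp)
    · exact (((th_integrable L).const_mul _).add ((maj_integral ha).1.const_mul _)).const_mul _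
  have hle : ∀ α, th L α * Q α ≤ W α := by
    intro α
    by_cases hα : |α| ≤ a
    · have e : W α = L ^ 2 * A + C * 2 ^ n * (Bd ^ n * th L α + D ^ n * L ^ 2 * (a⁻¹) ^ (n - 2) *
          (2 / a ^ 2 * (1 + (α / a) ^ 2)⁻¹)) := by
        simp only [hW]
        rw [Set.indicator_of_mem (Set.mem_Icc.2 (abs_le.1 hα))]
      rw [e]
      have h3 : th L α * Q α ≤ L ^ 2 * A := by
        calc th L α * Q α ≤ th L α * A := mul_le_mul_of_nonneg_left (h1 α hα) (hth α)
          _ ≤ L ^ 2 * A := mul_le_mul_of_nonneg_right (th_le L α) hA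
      have h4 : 0 ≤ C * 2 ^ n * (Bd ^ n * th L α + D ^ n * L ^ 2 * (a⁻¹) ^ (n - 2) *
          (2 / a ^ 2 * (1 + (α / a) ^ 2)⁻¹)) := by
        have := hth α
        have := hmaj α
        positivity
      linarith
    · rw [not_le] at hα
      have h0 : 0 < |α| := ha.trans hα
      have e : W α = C * 2 ^ n * (Bd ^ n * th L α + D ^ n * L ^ 2 * (a⁻¹) ^ (n - 2) *
          (2 / a ^ 2 * (1 + (α / a) ^ 2)⁻¹)) := by
        simp only [hW]
        rw [Set.indicator_of_notMem, zero_add]
        intro h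
        exact absurd (abs_le.2 (Set.mem_Icc.1 h)) (not_le.2 hα)
      rw [e]
      calc th L α * Q α ≤ th L α * (C * (Bd + D / |α|) ^ n) :=
            mul_le_mul_of_nonneg_left (h2 α hα) (hth α)
        _ ≤ th L α * (C * (2 ^ n * (Bd ^ n + (D / |α|) ^ n))) := by
            apply mul_le_mul_of_nonneg_left _ (hth α)
            apply mul_le_mul_of_nonneg_left _ hC
            exact add_pow_le_two _ _ hB (by positivity) n
        _ = C * 2 ^ n * (Bd ^ n * th L α + D ^ n * th L α * (|α|⁻¹) ^ n) := by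
            rw [div_eq_mul_inv, mul_pow]
            ring
        _ ≤ C * 2 ^ n * (Bd ^ n * th L α + D ^ n * L ^ 2 * (a⁻¹) ^ (n - 2) *
          (2 / a ^ 2 * (1 + (α / a) ^ 2)⁻¹)) := by
            apply mul_le_mul_of_nonneg_left _ (by positivity)
            refine add_le_add le_rfl ?_
            rw [mul_assoc (D ^ n * L ^ 2)]
            apply mul_le_mul
            · apply mul_le_mul_of_nonneg_left (th_le L α) (by positivity)
            · have e2 : (|α|⁻¹) ^ n = (|α|⁻¹) ^ (n - 2) * (|α|⁻¹) ^ 2 := by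
                rw [← pow_add]
                congr 1
                omega
              rw [e2]
              apply mul_le_mul _ (maj_le ha hα) (by positivity) (by positivity)
              gcongr
            · positivity
            · positivity
  have hWI : ∫ α, W α = 2 * a * (L ^ 2 * A) + C * 2 ^ n *
      (Bd ^ n * L + 2 * Real.pi * L ^ 2 * D ^ n * (a⁻¹) ^ (n - 1)) := by
    simp only [hW]
    rw [integral_add, integral_const_mul, integral_add, integral_const_mul, integral_const_mul,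
      th_integral hL, (maj_integral ha).2, integral_indicator measurableSet_Icc]
    · simp only [integral_const, MeasurableSet.univ, measureReal_restrict_apply, Set.univ_inter,
        smul_eq_mul, Real.volume_real_Icc]
      rw [max_eq_left (by linarith)]
      have e2 : (a⁻¹) ^ (n - 1) = (a⁻¹) ^ (n - 2) * a⁻¹ := by
        rw [← pow_succ]
        congr 1
        omega
      rw [e2, div_eq_mul_inv]
      ring
    · exact (th_integrable L).const_mul _
    · exact (maj_integral ha).1.const_mul _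
    · rw [integrable_indicator_iff measurableSet_Icc]
      exact integrableOn_const (by simp)
    · exact (((th_integrable L).const_mul _).add ((maj_integral ha).1.const_mul _)).const_mul _
  calc ∫⁻ α : ℝ, ENNReal.ofReal (th L α * Q α) ≤ ∫⁻ α : ℝ, ENNReal.ofReal (W α) :=
        lintegral_mono fun α => ENNReal.ofReal_le_ofReal (hle α)
    _ = ENNReal.ofReal (∫ α, W α) := by
        rw [ofReal_integral_eq_lintegral_ofReal hWi (Filter.Eventually.of_forall hW0)]
    _ = _ := by rw [hWI]

end Pool.Agent.X25.MW
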