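import Mathlib
import Pool.Agent.X25.MW.Tent

/-! Second moments of the number of solutions, averaged over random parameters. -/

set_option autoImplicit false

namespace Pool.Agent.X25.MW
open MeasureTheory Finset

/-- one variable exponential sum -/
noncomputable def fs (B : Finset ℕ) (p : ℕ → ℝ) (α : ℝ) : ℂ := ∑ x ∈ B, ex (α * p x)

/-- number of `x` in the box with `|∑ p_i(x_i) - u| ≤ L / 2` -/
noncomputable def rs {ι : Type*} [Fintype ι] [DecidableEq ι] (L : ℝ) (B : Finset ℕ) (p : ι → ℕ → ℝ) (u : ℝ) : ℝ :=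
  ∑ x ∈ Fintype.piFinset (fun _ : ι => B), ph L (∑ i, p i (x i)) u

section
variable {ι : Type*} [Fintype ι] [DecidableEq ι]

lemma rs_nonneg (L : ℝ) (B : Finset ℕ) (p : ι → ℕ → ℝ) (u : ℝ) : 0 ≤ rs L B p u :=
  sum_nonneg fun _ _ => ph_nonneg _ _ _

lemma rs_le (L : ℝ) (B : Finset ℕ) (p : ι → ℕ → ℝ) (u : ℝ) :
    rs L B p u ≤ (B.card : ℝ) ^ Fintype.card ι := by
  unfold rs
  calc _ ≤ ∑ x ∈ Fintype.piFinset (fun _ : ι => B), (1:ℝ) := sum_le_sum fun _ _ => ph_le_one _ _ _
    _ = _ := by simp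

lemma rs_integrable (L : ℝ) (B : Finset ℕ) (p : ι → ℕ → ℝ) : Integrable (rs L B p) := by
  unfold rs
  exact integrable_finsetSum _ fun _ _ => ph_integrable _ _

lemma rs_integral {L : ℝ} (hL : 0 ≤ L) (B : Finset ℕ) (p : ι → ℕ → ℝ) :
    ∫ u, rs L B p u = L * (B.card : ℝ) ^ Fintype.card ι := by
  unfold rs
  rw [integral_finsetSum _ fun _ _ => ph_integrable _ _]
  simp_rw [ph_integral hL]
  simp
  ring

lemma prod_fs (B : Finset ℕ) (p : ι → ℕ → ℝ) (α : ℝ) :
    ∏ i, fs B (p i) α = ∑ x ∈ Fintype.piFinset (fun _ : ι => B), ex (α * ∑ i, p i (x i)) := by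
  unfold fs
  rw [Finset.prod_univ_sum]
  apply sum_congr rfl
  intro x _
  rw [mul_sum, ex_sum]

lemma parseval_one {L : ℝ} (hL : 0 < L) (B : Finset ℕ) (p : ι → ℕ → ℝ) :
    ∫ u, (rs L B p u) ^ 2 = ∫ α, th L α * ‖∏ i, fs B (p i) α‖ ^ 2 := by
  have h := parseval hL (Fintype.piFinset (fun _ : ι => B)) (fun _ => 1) (fun x => ∑ i, p i (x i))
  simp only [one_mul, Complex.ofReal_one] at h
  simp_rw [prod_fs]
  exact h

lemma parseval_diff {L : ℝ} (hL : 0 < L) (B : Finset ℕ) (p q : ι → ℕ → ℝ) :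
    ∫ u, (rs L B p u - rs L B q u) ^ 2 =
      ∫ α, th L α * ‖∏ i, fs B (p i) α - ∏ i, fs B (q i) α‖ ^ 2 := by
  have h := parseval hL ((Fintype.piFinset (fun _ : ι => B)) ×ˢ (univ : Finset Bool))
    (fun z => if z.2 then 1 else -1) (fun z => if z.2 then ∑ i, p i (z.1 i) else ∑ i, q i (z.1 i))
  simp only [sum_product, Fintype.sum_bool, if_true, Bool.false_eq_true, if_false, one_mul,
    Complex.ofReal_one, Complex.ofReal_neg, neg_mul, ← sub_eq_add_neg, sum_sub_distrib] at h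
  simp_rw [prod_fs]
  exact h

lemma fs_norm_le (B : Finset ℕ) (p : ℕ → ℝ) (α : ℝ) : ‖fs B p α‖ ≤ B.card := by
  unfold fs
  refine (norm_sum_le _ _).trans ?_
  simp [ex_norm]

lemma prod_fs_norm_le (B : Finset ℕ) (p : ι → ℕ → ℝ) (α : ℝ) :
    ‖∏ i, fs B (p i) α‖ ≤ (B.card : ℝ) ^ Fintype.card ι := by
  rw [norm_prod]
  refine (prod_le_prod (fun _ _ => norm_nonneg _) (fun i _ => fs_norm_le B (p i) α)).trans ?_
  simp

lemma th_prod_integrable {L : ℝ} (B : Finset ℕ) (p q : ι → ℕ → ℝ) (s : ℂ) :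
    Integrable (fun α => th L α * ‖∏ i, fs B (p i) α - s * ∏ i, fs B (q i) α‖ ^ 2) := by
  refine (th_integrable L).mul_bdd
    (c := ((B.card : ℝ) ^ Fintype.card ι + ‖s‖ * (B.card : ℝ) ^ Fintype.card ι) ^ 2) ?_ ?_
  · apply Continuous.aestronglyMeasurable
    have := ex_continuous
    unfold fs
    fun_prop
  · refine Filter.Eventually.of_forall fun α => ?_
    rw [Real.norm_eq_abs, abs_of_nonneg (by positivity)]
    gcongr
    refine (norm_sub_le _ _).trans ?_
    rw [norm_mul]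
    gcongr
    · exact prod_fs_norm_le _ _ _
    · exact prod_fs_norm_le _ _ _

/-- product difference -/
lemma prod_sub_prod_le (s : Finset ι) (a b : ι → ℂ) {N δ : ℝ} (hN : 0 ≤ N) (hδ : 0 ≤ δ)
    (ha : ∀ i, ‖a i‖ ≤ N) (hb : ∀ i, ‖b i‖ ≤ N) (hab : ∀ i, ‖a i - b i‖ ≤ δ) :
    ‖∏ i ∈ s, a i - ∏ i ∈ s, b i‖ * N ≤ s.card * δ * N ^ s.card := by
  induction s using Finset.induction_on with
  | empty => simp
  | insert j s hj ih =>
    rw [prod_insert hj, prod_insert hj, card_insert_of_notMem hj]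
    have e : a j * ∏ i ∈ s, a i - b j * ∏ i ∈ s, b i =
      (a j - b j) * ∏ i ∈ s, a i + b j * (∏ i ∈ s, a i - ∏ i ∈ s, b i) := by ring
    rw [e]
    have h1 : ‖∏ i ∈ s, a i‖ ≤ N ^ s.card := by
      rw [norm_prod]
      refine (prod_le_prod (fun _ _ => norm_nonneg _) (fun i _ => ha i)).trans ?_
      simp
    have h2 : ‖(a j - b j) * ∏ i ∈ s, a i + b j * (∏ i ∈ s, a i - ∏ i ∈ s, b i)‖ ≤
        δ * N ^ s.card + N * ‖∏ i ∈ s, a i - ∏ i ∈ s, b i‖ := by
      refine (norm_add_le _ _).trans ?_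
      rw [norm_mul, norm_mul]
      gcongr
      · exact hab j
      · exact hb j
    push_cast
    calc _ ≤ (δ * N ^ s.card + N * ‖∏ i ∈ s, a i - ∏ i ∈ s, b i‖) * N := by gcongr
      _ = δ * N ^ (s.card + 1) + N * (‖∏ i ∈ s, a i - ∏ i ∈ s, b i‖ * N) := by ring
      _ ≤ δ * N ^ (s.card + 1) + N * (s.card * δ * N ^ s.card) := by gcongr
      _ = _ := by ring

lemma prod_sub_prod_sq (a b : ι → ℂ) {N δ : ℝ} (hN : 0 < N) (hδ : 0 ≤ δ)
    (ha : ∀ i, ‖a i‖ ≤ N) (hb : ∀ i, ‖b i‖ ≤ N) (hab : ∀ i, ‖a i - b i‖ ≤ δ) :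
    ‖∏ i, a i - ∏ i, b i‖ ^ 2 ≤ (Fintype.card ι * δ * N ^ Fintype.card ι / N) ^ 2 := by
  have h := prod_sub_prod_le univ a b hN.le hδ ha hb hab
  rw [Finset.card_univ] at h
  gcongr
  rwa [le_div_iff₀ hN]

end

section measure
variable {ι : Type*} [Fintype ι] [DecidableEq ι]

lemma measurable_rs {Z : Type*} [MeasurableSpace Z] (L : ℝ) (B : Finset ℕ) (p : Z → ι → ℕ → ℝ)
    (hp : ∀ i x, Measurable (fun z => p z i x)) :
    Measurable (fun w : Z × ℝ => rs L B (p w.1) w.2) := by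
  unfold rs
  apply Finset.measurable_sum
  intro x _
  have h : Measurable (fun w : Z × ℝ => ((∑ i, p w.1 i (x i), w.2) : ℝ × ℝ)) := by
    apply Measurable.prodMk
    · apply Finset.measurable_sum
      intro i _
      exact (hp i (x i)).comp measurable_fst
    · exact measurable_snd
  exact (ph_measurable L).comp h

lemma measurable_fs {Z : Type*} [MeasurableSpace Z] (B : Finset ℕ) (p : Z → ℕ → ℝ)
    (hp : ∀ x, Measurable (fun z => p z x)) :
    Measurable (fun w : Z × ℝ => fs B (p w.1) w.2) := by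
  unfold fs
  apply Finset.measurable_sum
  intro x _
  exact ex_continuous.measurable.comp (measurable_snd.mul ((hp x).comp measurable_fst))

/-- integrals of products over product measures, nonnegative functions -/
lemma lintegral_prod_pi (μ : Measure ℝ) [SigmaFinite μ] (g : ℝ → ℝ) (hg : Integrable g μ)
    (hg0 : ∀ x, 0 ≤ g x) :
    ∫⁻ ω, ENNReal.ofReal (∏ i, g (ω i)) ∂(Measure.pi (fun _ : ι => μ)) =
      ENNReal.ofReal ((∫ x, g x ∂μ) ^ Fintype.card ι) := by
  rw [← ofReal_integral_eq_lintegral_ofReal]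
  · rw [integral_fintype_prod_eq_pow]
  · exact Integrable.fintype_prod (fun _ => hg)
  · exact Filter.Eventually.of_forall fun ω => prod_nonneg fun i _ => hg0 _

/-- nested version -/
lemma lintegral_nested (μ ν : Measure ℝ) [IsFiniteMeasure μ] [IsFiniteMeasure ν] (h : ℝ → ℝ → ℝ)
    (hm : Measurable (fun z : ℝ × ℝ => h z.1 z.2)) (h0 : ∀ x y, 0 ≤ h x y) (C : ℝ)
    (hC : ∀ x y, h x y ≤ C) :
    ∫⁻ ω, ∫⁻ t, ENNReal.ofReal (∏ i, h (ω i) (t i)) ∂(Measure.pi (fun _ : ι => ν))
      ∂(Measure.pi (fun _ : ι => μ)) =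
      ENNReal.ofReal ((∫ x, ∫ y, h x y ∂ν ∂μ) ^ Fintype.card ι) := by
  have hi : ∀ x, Integrable (h x) ν := by
    intro x
    refine Integrable.of_bound (C := C) ?_ ?_
    · exact (hm.comp (measurable_const.prodMk measurable_id)).aestronglyMeasurable
    · refine Filter.Eventually.of_forall fun y => ?_
      rw [Real.norm_eq_abs, abs_of_nonneg (h0 x y)]
      exact hC x y
  have h1 : ∀ ω : ι → ℝ, ∫⁻ t, ENNReal.ofReal (∏ i, h (ω i) (t i)) ∂(Measure.pi (fun _ : ι => ν)) =
      ENNReal.ofReal (∏ i, ∫ y, h (ω i) y ∂ν) := by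
    intro ω
    rw [← ofReal_integral_eq_lintegral_ofReal]
    · rw [integral_fintype_prod_eq_prod]
    · exact Integrable.fintype_prod (fun i => hi (ω i))
    · exact Filter.Eventually.of_forall fun t => prod_nonneg fun i _ => h0 _ _
  simp_rw [h1]
  have h2 : Measurable (fun x => ∫ y, h x y ∂ν) := by
    apply StronglyMeasurable.measurable
    exact hm.stronglyMeasurable.integral_prod_right
  apply lintegral_prod_pi μ (fun x => ∫ y, h x y ∂ν)
  · refine Integrable.of_bound (C := C * ν.real Set.univ) h2.aestronglyMeasurable ?_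
    refine Filter.Eventually.of_forall fun x => ?_
    rw [Real.norm_eq_abs, abs_of_nonneg (integral_nonneg (h0 x))]
    calc ∫ y, h x y ∂ν ≤ ∫ y, C ∂ν := integral_mono (hi x) (integrable_const C) (hC x)
      _ = C * ν.real Set.univ := by simp [mul_comm]
  · intro x
    exact integral_nonneg (h0 x)

lemma diff_integrable (L : ℝ) (B : Finset ℕ) (p q : ι → ℕ → ℝ) :
    Integrable (fun u => (rs L B p u - rs L B q u) ^ 2) := by
  have i1 := rs_integrable L B p
  have i2 := rs_integrable L B q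
  have i3 : Integrable (fun u => (rs L B p u - rs L B q u) * (rs L B p u - rs L B q u)) := by
    refine (i1.sub i2).bdd_mul (c := (B.card : ℝ) ^ Fintype.card ι) (i1.sub i2).aestronglyMeasurable ?_
    refine Filter.Eventually.of_forall fun u => ?_
    rw [Real.norm_eq_abs]
    have h1 := rs_nonneg L B p u
    have h2 := rs_le L B p u
    have h3 := rs_nonneg L B q u
    have h4 := rs_le L B q u
    rw [abs_le]
    constructor <;> linarith
  refine i3.congr (Filter.Eventually.of_forall fun u => ?_)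
  simp only
  ring

theorem chainA {L : ℝ} (hL : 0 < L) (B : Finset ℕ) (μ ν : Measure ℝ) [IsFiniteMeasure μ]
    [IsFiniteMeasure ν] (p : ℝ → ℕ → ℝ) (q : ℝ → ℝ → ℕ → ℝ) (hp : ∀ x, Measurable (fun z => p z x))
    (hq : ∀ x, Measurable (fun z : ℝ × ℝ => q z.1 z.2 x)) (g : (ι → ℝ) → ℝ → ℝ)
    (hg : ∀ ω u, ENNReal.ofReal (g ω u ^ 2) ≤ ∫⁻ t, ENNReal.ofReal
      ((rs L B (fun i => p (ω i)) u - rs L B (fun i => q (ω i) (t i)) u) ^ 2)
        ∂(Measure.pi (fun _ : ι => ν))) :
    ∫⁻ ω, (∫⁻ u : ℝ, ENNReal.ofReal (g ω u ^ 2)) ∂(Measure.pi (fun _ : ι => μ)) ≤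
      ∫⁻ α : ℝ, ∫⁻ ω, ∫⁻ t, ENNReal.ofReal (th L α * ‖∏ i, fs B (p (ω i)) α -
        ∏ i, fs B (q (ω i) (t i)) α‖ ^ 2) ∂(Measure.pi (fun _ : ι => ν))
          ∂(Measure.pi (fun _ : ι => μ)) := by
  -- measurability
  have hq1 : ∀ ω : ι → ℝ, ∀ i x, Measurable (fun t : ι → ℝ => q (ω i) (t i) x) := by
    intro ω i x
    exact (hq x).comp (measurable_const.prodMk (measurable_pi_apply i))
  have m1 : ∀ ω : ι → ℝ, Measurable (fun w : (ι → ℝ) × ℝ =>
      ENNReal.ofReal ((rs L B (fun i => p (ω i)) w.2 - rs L B (fun i => q (ω i) (w.1 i)) w.2) ^ 2)) := by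
    intro ω
    apply ENNReal.measurable_ofReal.comp
    apply Measurable.pow_const
    apply Measurable.sub
    · exact (measurable_rs (Z := (ι → ℝ)) L B (fun _ i => p (ω i)) (fun i x => measurable_const))
    · exact (measurable_rs (Z := (ι → ℝ)) L B (fun t i => q (ω i) (t i)) (hq1 ω))
  have m2 : Measurable (fun w : (ℝ × (ι → ℝ)) × (ι → ℝ) =>
      ENNReal.ofReal (th L w.1.1 * ‖∏ i, fs B (p (w.1.2 i)) w.1.1 -
        ∏ i, fs B (q (w.1.2 i) (w.2 i)) w.1.1‖ ^ 2)) := by
    apply ENNReal.measurable_ofReal.comp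
    apply Measurable.mul
    · exact (th_continuous L).measurable.comp (measurable_fst.comp measurable_fst)
    · apply Measurable.pow_const
      apply Measurable.norm
      apply Measurable.sub
      · apply Finset.measurable_prod
        intro i _
        have := measurable_fs (Z := (ℝ × (ι → ℝ)) × (ι → ℝ)) B (fun w => p (w.1.2 i)) (fun x => by
          exact (hp x).comp ((measurable_pi_apply i).comp (measurable_snd.comp measurable_fst)))
        exact this.comp (measurable_id.prodMk (measurable_fst.comp measurable_fst))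
      · apply Finset.measurable_prod
        intro i _
        have := measurable_fs (Z := (ℝ × (ι → ℝ)) × (ι → ℝ)) B (fun w => q (w.1.2 i) (w.2 i)) (fun x => by
          have h : Measurable (fun w : (ℝ × (ι → ℝ)) × (ι → ℝ) => (w.1.2 i, w.2 i)) := by fun_prop
          exact (hq x).comp h)
        exact this.comp (measurable_id.prodMk (measurable_fst.comp measurable_fst))
  -- inner identity
  have h1 : ∀ ω : ι → ℝ, ∫⁻ u : ℝ, ENNReal.ofReal (g ω u ^ 2) ≤
      ∫⁻ t, (∫⁻ α : ℝ, ENNReal.ofReal (th L α * ‖∏ i, fs B (p (ω i)) α -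
        ∏ i, fs B (q (ω i) (t i)) α‖ ^ 2)) ∂(Measure.pi (fun _ : ι => ν)) := by
    intro ω
    calc ∫⁻ u : ℝ, ENNReal.ofReal (g ω u ^ 2) ≤ ∫⁻ u : ℝ, ∫⁻ t, ENNReal.ofReal
          ((rs L B (fun i => p (ω i)) u - rs L B (fun i => q (ω i) (t i)) u) ^ 2)
            ∂(Measure.pi (fun _ : ι => ν)) := lintegral_mono fun u => hg ω u
      _ = ∫⁻ t, (∫⁻ u : ℝ, ENNReal.ofReal
          ((rs L B (fun i => p (ω i)) u - rs L B (fun i => q (ω i) (t i)) u) ^ 2))
            ∂(Measure.pi (fun _ : ι => ν)) := by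
          rw [lintegral_lintegral_swap]
          exact ((m1 ω).comp measurable_swap).aemeasurable
      _ = _ := by
          apply lintegral_congr
          intro t
          rw [← ofReal_integral_eq_lintegral_ofReal, parseval_diff hL, ofReal_integral_eq_lintegral_ofReal]
          · have := th_prod_integrable (L := L) B (fun i => p (ω i)) (fun i => q (ω i) (t i)) 1
            simpa using this
          · exact Filter.Eventually.of_forall fun α => mul_nonneg (th_nonneg _ _) (by positivity)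
          · exact diff_integrable L B _ _
          · exact Filter.Eventually.of_forall fun α => by positivity
  calc _ ≤ ∫⁻ ω, ∫⁻ t, (∫⁻ α : ℝ, ENNReal.ofReal (th L α * ‖∏ i, fs B (p (ω i)) α -
        ∏ i, fs B (q (ω i) (t i)) α‖ ^ 2)) ∂(Measure.pi (fun _ : ι => ν))
          ∂(Measure.pi (fun _ : ι => μ)) := lintegral_mono h1
    _ = ∫⁻ ω, (∫⁻ α : ℝ, ∫⁻ t, ENNReal.ofReal (th L α * ‖∏ i, fs B (p (ω i)) α -
        ∏ i, fs B (q (ω i) (t i)) α‖ ^ 2) ∂(Measure.pi (fun _ : ι => ν)))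
          ∂(Measure.pi (fun _ : ι => μ)) := by
        apply lintegral_congr
        intro ω
        rw [lintegral_lintegral_swap]
        refine Measurable.aemeasurable ?_
        exact m2.comp (((measurable_snd).prodMk measurable_const).prodMk measurable_fst)
    _ = _ := by
        rw [lintegral_lintegral_swap]
        refine Measurable.aemeasurable ?_
        exact (m2.comp (((measurable_snd.comp measurable_fst).prodMk
          (measurable_fst.comp measurable_fst)).prodMk measurable_snd)).lintegral_prod_right'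
          (ν := Measure.pi (fun _ : ι => ν))

end measure

end Pool.Agent.X25.MW
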