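import Mathlib
import Pool.Agent.X25.MW.Chain
import Pool.Agent.X25.MW.Alpha

/-! The two second moment bounds. -/

set_option autoImplicit false

namespace Pool.Agent.X25.MW
open MeasureTheory Finset

variable {ι : Type*} [Fintype ι] [DecidableEq ι]

lemma norm_sub_sq_le (a b : ℂ) : ‖a - b‖ ^ 2 ≤ 2 * ‖a‖ ^ 2 + 2 * ‖b‖ ^ 2 := by
  have h := norm_sub_le a b
  have h0 := norm_nonneg (a - b)
  nlinarith [sq_nonneg (‖a‖ - ‖b‖)]

lemma prod_norm_sq (a : ι → ℂ) : ‖∏ i, a i‖ ^ 2 = ∏ i, ‖a i‖ ^ 2 := by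
  rw [norm_prod, prod_pow]

lemma large_bound {L : ℝ} (B : Finset ℕ) (μ ν : Measure ℝ) [IsFiniteMeasure μ]
    [IsProbabilityMeasure ν] (p : ℝ → ℕ → ℝ) (q : ℝ → ℝ → ℕ → ℝ)
    (hp : ∀ x, Measurable (fun z => p z x))
    (hq : ∀ x, Measurable (fun z : ℝ × ℝ => q z.1 z.2 x)) (α G : ℝ)
    (h3 : ∫ ω, ‖fs B (p ω) α‖ ^ 2 ∂μ ≤ G)
    (h4 : ∫ ω, ∫ t, ‖fs B (q ω t) α‖ ^ 2 ∂ν ∂μ ≤ G) :
    ∫⁻ ω, ∫⁻ t, ENNReal.ofReal (th L α * ‖∏ i, fs B (p (ω i)) α -
        ∏ i, fs B (q (ω i) (t i)) α‖ ^ 2) ∂(Measure.pi (fun _ : ι => ν))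
          ∂(Measure.pi (fun _ : ι => μ)) ≤ ENNReal.ofReal (th L α * (4 * G ^ Fintype.card ι)) := by
  have hth := th_nonneg L α
  have hG : 0 ≤ G := le_trans (integral_nonneg fun ω => by positivity) h3
  have hmp : Measurable (fun ω => ‖fs B (p ω) α‖ ^ 2) := by
    apply Measurable.pow_const
    apply Measurable.norm
    exact (measurable_fs (Z := ℝ) B p hp).comp (measurable_id.prodMk measurable_const)
  have hmq : Measurable (fun z : ℝ × ℝ => ‖fs B (q z.1 z.2) α‖ ^ 2) := by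
    apply Measurable.pow_const
    apply Measurable.norm
    exact (measurable_fs (Z := ℝ × ℝ) B (fun z => q z.1 z.2) hq).comp
      (measurable_id.prodMk measurable_const)
  have hb : ∀ (r : ℕ → ℝ), ‖fs B r α‖ ^ 2 ≤ (B.card : ℝ) ^ 2 := by
    intro r
    gcongr
    exact fs_norm_le _ _ _
  have e1 : ∀ ω t : ι → ℝ, ENNReal.ofReal (th L α * ‖∏ i, fs B (p (ω i)) α -
        ∏ i, fs B (q (ω i) (t i)) α‖ ^ 2) ≤
      ENNReal.ofReal (2 * th L α) * ENNReal.ofReal (∏ i, ‖fs B (p (ω i)) α‖ ^ 2) +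
      ENNReal.ofReal (2 * th L α) * ENNReal.ofReal (∏ i, ‖fs B (q (ω i) (t i)) α‖ ^ 2) := by
    intro ω t
    rw [← ENNReal.ofReal_mul (by positivity), ← ENNReal.ofReal_mul (by positivity),
      ← ENNReal.ofReal_add]
    · apply ENNReal.ofReal_le_ofReal
      rw [← prod_norm_sq, ← prod_norm_sq]
      have := norm_sub_sq_le (∏ i, fs B (p (ω i)) α) (∏ i, fs B (q (ω i) (t i)) α)
      calc _ ≤ th L α * (2 * ‖∏ i, fs B (p (ω i)) α‖ ^ 2 + 2 * ‖∏ i, fs B (q (ω i) (t i)) α‖ ^ 2) :=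
            mul_le_mul_of_nonneg_left this hth
        _ = _ := by ring
    · have : 0 ≤ ∏ i, ‖fs B (p (ω i)) α‖ ^ 2 := prod_nonneg fun i _ => by positivity
      positivity
    · have : 0 ≤ ∏ i, ‖fs B (q (ω i) (t i)) α‖ ^ 2 := prod_nonneg fun i _ => by positivity
      positivity
  have hm1 : Measurable (fun ω : ι → ℝ => ENNReal.ofReal (∏ i, ‖fs B (p (ω i)) α‖ ^ 2)) := by
    apply ENNReal.measurable_ofReal.comp
    apply Finset.measurable_prod
    intro i _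
    exact hmp.comp (measurable_pi_apply i)
  calc _ ≤ ∫⁻ ω, ∫⁻ t, (ENNReal.ofReal (2 * th L α) * ENNReal.ofReal (∏ i, ‖fs B (p (ω i)) α‖ ^ 2) +
      ENNReal.ofReal (2 * th L α) * ENNReal.ofReal (∏ i, ‖fs B (q (ω i) (t i)) α‖ ^ 2))
        ∂(Measure.pi (fun _ : ι => ν)) ∂(Measure.pi (fun _ : ι => μ)) :=
        lintegral_mono fun ω => lintegral_mono fun t => e1 ω t
    _ = ∫⁻ ω, (ENNReal.ofReal (2 * th L α) * ENNReal.ofReal (∏ i, ‖fs B (p (ω i)) α‖ ^ 2) +
      ∫⁻ t, ENNReal.ofReal (2 * th L α) * ENNReal.ofReal (∏ i, ‖fs B (q (ω i) (t i)) α‖ ^ 2)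
        ∂(Measure.pi (fun _ : ι => ν))) ∂(Measure.pi (fun _ : ι => μ)) := by
        apply lintegral_congr
        intro ω
        rw [lintegral_add_left measurable_const]
        simp
    _ = ENNReal.ofReal (2 * th L α) * ENNReal.ofReal ((∫ ω, ‖fs B (p ω) α‖ ^ 2 ∂μ) ^ Fintype.card ι) +
        ENNReal.ofReal (2 * th L α) * ENNReal.ofReal ((∫ ω, ∫ t, ‖fs B (q ω t) α‖ ^ 2 ∂ν ∂μ) ^ Fintype.card ι) := by
        rw [lintegral_add_left (hm1.const_mul _), lintegral_const_mul' _ _ ENNReal.ofReal_ne_top]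
        congr 1
        · rw [lintegral_prod_pi μ (fun ω => ‖fs B (p ω) α‖ ^ 2)]
          · refine Integrable.of_bound (C := (B.card : ℝ) ^ 2) hmp.aestronglyMeasurable ?_
            refine Filter.Eventually.of_forall fun x => ?_
            rw [Real.norm_eq_abs, abs_of_nonneg (by positivity)]
            exact hb _
          · intro x; positivity
        · simp_rw [lintegral_const_mul' _ _ ENNReal.ofReal_ne_top]
          congr 1
          exact lintegral_nested μ ν (fun x y => ‖fs B (q x y) α‖ ^ 2) hmq (fun _ _ => by positivity)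
            ((B.card : ℝ) ^ 2) (fun _ _ => hb _)
    _ ≤ ENNReal.ofReal (2 * th L α) * ENNReal.ofReal (G ^ Fintype.card ι) +
        ENNReal.ofReal (2 * th L α) * ENNReal.ofReal (G ^ Fintype.card ι) := by
        have n1 : 0 ≤ ∫ ω, ‖fs B (p ω) α‖ ^ 2 ∂μ := integral_nonneg fun ω => by positivity
        have n2 : 0 ≤ ∫ ω, ∫ t, ‖fs B (q ω t) α‖ ^ 2 ∂ν ∂μ :=
          integral_nonneg fun ω => integral_nonneg fun t => by positivity
        gcongr
    _ = _ := by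
        rw [← ENNReal.ofReal_mul (by positivity), ← ENNReal.ofReal_add (by positivity) (by positivity)]
        congr 1
        ring

lemma small_bound {L : ℝ} (B : Finset ℕ) (μ ν : Measure ℝ) [IsFiniteMeasure μ]
    [IsProbabilityMeasure ν] (p : ℝ → ℕ → ℝ) (q : ℝ → ℝ → ℕ → ℝ) (α N δ V : ℝ)
    (hV : μ Set.univ ≤ ENNReal.ofReal V) (hV0 : 0 ≤ V)
    (hN : (B.card : ℝ) ≤ N) (hN0 : 0 < N) (hδ0 : 0 ≤ δ)
    (hδ : ∀ ω t, ‖fs B (p ω) α - fs B (q ω t) α‖ ≤ δ) :
    ∫⁻ ω, ∫⁻ t, ENNReal.ofReal (th L α * ‖∏ i, fs B (p (ω i)) α -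
        ∏ i, fs B (q (ω i) (t i)) α‖ ^ 2) ∂(Measure.pi (fun _ : ι => ν))
          ∂(Measure.pi (fun _ : ι => μ)) ≤ ENNReal.ofReal (th L α * (V ^ Fintype.card ι *
            (Fintype.card ι * δ * N ^ Fintype.card ι / N) ^ 2)) := by
  have hth := th_nonneg L α
  set X : ℝ := (Fintype.card ι * δ * N ^ Fintype.card ι / N) ^ 2 with hX
  have hX0 : 0 ≤ X := by positivity
  calc _ ≤ ∫⁻ ω, ∫⁻ t, ENNReal.ofReal (th L α * X) ∂(Measure.pi (fun _ : ι => ν))
          ∂(Measure.pi (fun _ : ι => μ)) := by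
        apply lintegral_mono
        intro ω
        apply lintegral_mono
        intro t
        apply ENNReal.ofReal_le_ofReal
        apply mul_le_mul_of_nonneg_left _ hth
        apply prod_sub_prod_sq _ _ hN0 hδ0
        · intro i
          exact (fs_norm_le _ _ _).trans hN
        · intro i
          exact (fs_norm_le _ _ _).trans hN
        · intro i
          exact hδ _ _
    _ = ENNReal.ofReal (th L α * X) * (μ Set.univ) ^ Fintype.card ι := by
        simp [lintegral_const, Measure.pi_univ]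
    _ ≤ ENNReal.ofReal (th L α * X) * (ENNReal.ofReal V) ^ Fintype.card ι := by gcongr
    _ = _ := by
        rw [← ENNReal.ofReal_pow hV0, ← ENNReal.ofReal_mul (by positivity)]
        congr 1
        ring

theorem boundA {L : ℝ} (hL : 0 < L) (B : Finset ℕ) (μ ν : Measure ℝ) [IsFiniteMeasure μ]
    [IsProbabilityMeasure ν] (p : ℝ → ℕ → ℝ) (q : ℝ → ℝ → ℕ → ℝ)
    (hp : ∀ x, Measurable (fun z => p z x))
    (hq : ∀ x, Measurable (fun z : ℝ × ℝ => q z.1 z.2 x)) (g : (ι → ℝ) → ℝ → ℝ)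
    (hg : ∀ ω u, ENNReal.ofReal (g ω u ^ 2) ≤ ∫⁻ t, ENNReal.ofReal
      ((rs L B (fun i => p (ω i)) u - rs L B (fun i => q (ω i) (t i)) u) ^ 2)
        ∂(Measure.pi (fun _ : ι => ν)))
    {a N δ V Bd D : ℝ} {n : ℕ} (hn : Fintype.card ι = n) (hn2 : 2 ≤ n) (ha : 0 < a)
    (hV : μ Set.univ ≤ ENNReal.ofReal V) (hV0 : 0 ≤ V) (hN : (B.card : ℝ) ≤ N) (hN0 : 0 < N)
    (hδ0 : 0 ≤ δ) (hB : 0 ≤ Bd) (hD : 0 ≤ D)
    (hδ : ∀ α, |α| ≤ a → ∀ ω t, ‖fs B (p ω) α - fs B (q ω t) α‖ ≤ δ)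
    (h3 : ∀ α, a < |α| → ∫ ω, ‖fs B (p ω) α‖ ^ 2 ∂μ ≤ Bd + D / |α|)
    (h4 : ∀ α, a < |α| → ∫ ω, ∫ t, ‖fs B (q ω t) α‖ ^ 2 ∂ν ∂μ ≤ Bd + D / |α|) :
    ∫⁻ ω, (∫⁻ u : ℝ, ENNReal.ofReal (g ω u ^ 2)) ∂(Measure.pi (fun _ : ι => μ)) ≤
      ENNReal.ofReal (2 * a * (L ^ 2 * (V ^ n * (n * δ * N ^ n / N) ^ 2)) +
        4 * 2 ^ n * (Bd ^ n * L + 2 * Real.pi * L ^ 2 * D ^ n * (a⁻¹) ^ (n - 1))) := by
  classical
  refine (chainA hL B μ ν p q hp hq g hg).trans ?_
  refine le_trans ?_ (alpha_bound (n := n) hL ha (A := V ^ n * (n * δ * N ^ n / N) ^ 2) (C := 4)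
    (by positivity) (by norm_num) hB hD hn2 (fun α => if |α| ≤ a then V ^ n * (n * δ * N ^ n / N) ^ 2
      else 4 * (Bd + D / |α|) ^ n) ?_ ?_)
  · apply lintegral_mono
    intro α
    by_cases hα : |α| ≤ a
    · simp only [hα, if_true]
      have := small_bound (ι := ι) (L := L) B μ ν p q α N δ V hV hV0 hN hN0 hδ0 (hδ α hα)
      rwa [hn] at this
    · simp only [hα, if_false]
      rw [not_le] at hα
      have := large_bound (ι := ι) (L := L) B μ ν p q hp hq α _ (h3 α hα) (h4 α hα)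
      rwa [hn] at this
  · intro α hα
    simp only [hα, if_true, le_refl]
  · intro α hα
    simp only [not_le.2 hα, if_false, le_refl]

theorem boundB {L : ℝ} (hL : 0 < L) (B : Finset ℕ) (μ : Measure ℝ) [IsFiniteMeasure μ]
    (p : ℝ → ℕ → ℝ) (hp : ∀ x, Measurable (fun z => p z x))
    {a N V Bd D : ℝ} {n : ℕ} (hn : Fintype.card ι = n) (hn2 : 2 ≤ n) (ha : 0 < a)
    (hV : μ Set.univ ≤ ENNReal.ofReal V) (hV0 : 0 ≤ V) (hN : (B.card : ℝ) ≤ N)
    (hB : 0 ≤ Bd) (hD : 0 ≤ D)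
    (h3 : ∀ α, a < |α| → ∫ ω, ‖fs B (p ω) α‖ ^ 2 ∂μ ≤ Bd + D / |α|) :
    ∫⁻ ω, (∫⁻ u : ℝ, ENNReal.ofReal (rs L B (fun i => p (ω i)) u ^ 2)) ∂(Measure.pi (fun _ : ι => μ)) ≤
      ENNReal.ofReal (2 * a * (L ^ 2 * (V * N ^ 2) ^ n) +
        1 * 2 ^ n * (Bd ^ n * L + 2 * Real.pi * L ^ 2 * D ^ n * (a⁻¹) ^ (n - 1))) := by
  classical
  have hN0 : 0 ≤ N := le_trans (Nat.cast_nonneg _) hN
  have hmp : ∀ α, Measurable (fun ω => ‖fs B (p ω) α‖ ^ 2) := by
    intro α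
    apply Measurable.pow_const
    apply Measurable.norm
    exact (measurable_fs (Z := ℝ) B p hp).comp (measurable_id.prodMk measurable_const)
  have hb : ∀ (r : ℕ → ℝ) α, ‖fs B r α‖ ^ 2 ≤ N ^ 2 := by
    intro r α
    gcongr
    exact (fs_norm_le _ _ _).trans hN
  have hint : ∀ α, Integrable (fun ω => ‖fs B (p ω) α‖ ^ 2) μ := by
    intro α
    refine Integrable.of_bound (C := N ^ 2) (hmp α).aestronglyMeasurable ?_
    refine Filter.Eventually.of_forall fun x => ?_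
    rw [Real.norm_eq_abs, abs_of_nonneg (by positivity)]
    exact hb _ _
  have h1 : ∀ ω : ι → ℝ, ∫⁻ u : ℝ, ENNReal.ofReal (rs L B (fun i => p (ω i)) u ^ 2) =
      ∫⁻ α : ℝ, ENNReal.ofReal (th L α * ∏ i, ‖fs B (p (ω i)) α‖ ^ 2) := by
    intro ω
    rw [← ofReal_integral_eq_lintegral_ofReal, parseval_one hL, ofReal_integral_eq_lintegral_ofReal]
    · apply lintegral_congr
      intro α
      rw [prod_norm_sq]
    · have := th_prod_integrable (L := L) B (fun i => p (ω i)) (fun i => p (ω i)) 0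
      simpa using this
    · exact Filter.Eventually.of_forall fun α => mul_nonneg (th_nonneg _ _) (by positivity)
    · have i1 := rs_integrable L B (fun i => p (ω i))
      have i3 : Integrable (fun u => rs L B (fun i => p (ω i)) u * rs L B (fun i => p (ω i)) u) := by
        refine i1.bdd_mul (c := (B.card : ℝ) ^ Fintype.card ι) i1.aestronglyMeasurable ?_
        refine Filter.Eventually.of_forall fun u => ?_
        rw [Real.norm_eq_abs, abs_of_nonneg (rs_nonneg _ _ _ _)]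
        exact rs_le _ _ _ _
      refine i3.congr (Filter.Eventually.of_forall fun u => ?_)
      simp only
      ring
    · exact Filter.Eventually.of_forall fun α => by positivity
  simp_rw [h1]
  have hm : Measurable (fun w : (ι → ℝ) × ℝ =>
      ENNReal.ofReal (th L w.2 * ∏ i, ‖fs B (p (w.1 i)) w.2‖ ^ 2)) := by
    apply ENNReal.measurable_ofReal.comp
    apply Measurable.mul
    · exact (th_continuous L).measurable.comp measurable_snd
    · apply Finset.measurable_prod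
      intro i _
      apply Measurable.pow_const
      apply Measurable.norm
      have := measurable_fs (Z := (ι → ℝ)) B (fun ω => p (ω i)) (fun x => (hp x).comp (measurable_pi_apply i))
      exact this
  rw [lintegral_lintegral_swap hm.aemeasurable]
  refine le_trans ?_ (alpha_bound (n := n) hL ha (A := (V * N ^ 2) ^ n) (C := 1)
    (by positivity) (by norm_num) hB hD hn2 (fun α => if |α| ≤ a then (V * N ^ 2) ^ n
      else 1 * (Bd + D / |α|) ^ n) ?_ ?_)
  · apply lintegral_mono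
    intro α
    simp only
    have e1 : ∫⁻ ω, ENNReal.ofReal (th L α * ∏ i, ‖fs B (p (ω i)) α‖ ^ 2)
        ∂(Measure.pi (fun _ : ι => μ)) =
        ENNReal.ofReal (th L α * (∫ ω, ‖fs B (p ω) α‖ ^ 2 ∂μ) ^ n) := by
      simp_rw [ENNReal.ofReal_mul (th_nonneg L α)]
      rw [lintegral_const_mul' _ _ ENNReal.ofReal_ne_top,
        lintegral_prod_pi μ (fun ω => ‖fs B (p ω) α‖ ^ 2) (hint α) (fun _ => by positivity), hn]
    rw [e1]
    apply ENNReal.ofReal_le_ofReal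
    apply mul_le_mul_of_nonneg_left _ (th_nonneg L α)
    have n1 : 0 ≤ ∫ ω, ‖fs B (p ω) α‖ ^ 2 ∂μ := integral_nonneg fun ω => by positivity
    split_ifs with hα
    · gcongr
      calc ∫ ω, ‖fs B (p ω) α‖ ^ 2 ∂μ ≤ ∫ ω, N ^ 2 ∂μ :=
            integral_mono (hint α) (integrable_const _) (fun ω => hb _ _)
        _ = μ.real Set.univ * N ^ 2 := by simp
        _ ≤ V * N ^ 2 := by
            gcongr
            rw [Measure.real]
            exact ENNReal.toReal_le_of_le_ofReal hV0 hV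
    · rw [not_le] at hα
      rw [one_mul]
      gcongr
      exact h3 α hα
  · intro α hα
    simp only [hα, if_true, le_refl]
  · intro α hα
    simp only [not_le.2 hα, if_false, le_refl]

end Pool.Agent.X25.MW
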