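import Mathlib
import Pool.Agent.X25.MW.Chain

/-! Lower bound for the mean number of solutions. -/

set_option autoImplicit false

namespace Pool.Agent.X25.MW
open MeasureTheory Finset

/-- clamp to `[a, b]` -/
noncomputable def clamp (a b t : ℝ) : ℝ := max a (min t b)

lemma clamp_measurable (a b : ℝ) : Measurable (clamp a b) := by
  unfold clamp
  fun_prop

lemma le_clamp (a b t : ℝ) : a ≤ clamp a b t := le_max_left _ _

lemma clamp_le {a b : ℝ} (h : a ≤ b) (t : ℝ) : clamp a b t ≤ b := max_le h (min_le_right _ _)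

lemma clamp_eq {a b t : ℝ} (h1 : a ≤ t) (h2 : t ≤ b) : clamp a b t = t := by
  unfold clamp
  rw [min_eq_left h2, max_eq_right h1]

/-- Lebesgue measure on `[0, 1]` -/
noncomputable def nu : Measure ℝ := volume.restrict (Set.Icc 0 1)

instance : IsProbabilityMeasure nu := by
  unfold nu
  constructor
  simp

lemma pow_sub_le {X Y M : ℝ} (hX : 0 ≤ X) (hXY : X ≤ Y) (hY : Y ≤ M) (k : ℕ) :
    Y ^ k - X ^ k ≤ k * M ^ (k - 1) * (Y - X) := by
  have h0 : 0 ≤ Y := hX.trans hXY
  have hM0 : 0 ≤ M := h0.trans hY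
  have h := (Commute.all Y X).geom_sum₂_mul k
  rw [← h]
  have hd : 0 ≤ Y - X := by linarith
  apply mul_le_mul_of_nonneg_right _ hd
  calc ∑ i ∈ range k, Y ^ i * X ^ (k - 1 - i) ≤ ∑ i ∈ range k, M ^ (k - 1) := by
        apply sum_le_sum
        intro i hi
        rw [mem_range] at hi
        calc Y ^ i * X ^ (k - 1 - i) ≤ M ^ i * M ^ (k - 1 - i) := by
              have := hXY.trans hY
              gcongr
          _ = M ^ (k - 1) := by
              rw [← pow_add]
              congr 1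
              omega
    _ = k * M ^ (k - 1) := by simp

/-- summing over integers and integrating over `[0, 1]` -/
lemma sum_int {φ : ℝ → ℝ} (hφ : ∀ a b : ℝ, IntervalIntegrable φ volume a b) {P M : ℕ} (h : P ≤ M) :
    ∑ x ∈ Ico P M, ∫ t in (0:ℝ)..1, φ (x + t) = ∫ X in (P:ℝ)..M, φ X := by
  have h1 : ∀ x : ℕ, ∫ t in (0:ℝ)..1, φ (x + t) = ∫ X in ((x:ℕ):ℝ)..((x+1:ℕ):ℝ), φ X := by
    intro x
    rw [intervalIntegral.integral_comp_add_left (fun X => φ X) (x:ℝ)]
    congr 1
    · simp
    · push_cast; ring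
  simp_rw [h1]
  exact intervalIntegral.sum_integral_adjacent_intervals_Ico (a := fun i : ℕ => (i:ℝ)) h
    (fun k _ => hφ _ _)

lemma one_var {L c c0 C0 s u : ℝ} {k P M : ℕ} (hL : 0 < L) (hk : 1 ≤ k) (hc0 : 0 < c0) (hc : c0 ≤ c)
    (hC : c ≤ C0) (hPM : P ≤ M) (hM : 1 ≤ M) (hLM : L ≤ C0 * k * (M:ℝ) ^ k)
    (h1 : C0 * (P:ℝ) ^ k ≤ u - s) (h2 : u - s ≤ c0 * ((M:ℝ) / 2) ^ k) :
    L / (2 * C0 * k * (M:ℝ) ^ (k - 1)) ≤
      ∫ t, ∑ x ∈ Ico P M, ph L (c * (x + clamp 0 1 t) ^ k + s) u ∂nu := by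
  have hcp : 0 < c := hc0.trans_le hc
  have hCp : 0 < C0 := hcp.trans_le hC
  have hMp : (0:ℝ) < M := by exact_mod_cast hM
  have hkp : (0:ℝ) < k := by exact_mod_cast hk
  set φ : ℝ → ℝ := fun X => ph L (c * X ^ k + s) u with hφ
  have hφm : Measurable φ := by
    have h : Measurable (fun X : ℝ => ((c * X ^ k + s, u) : ℝ × ℝ)) := by fun_prop
    exact (ph_measurable L).comp h
  have hφb : ∀ X, ‖φ X‖ ≤ 1 := by
    intro X
    rw [Real.norm_eq_abs, abs_of_nonneg (ph_nonneg _ _ _)]
    exact ph_le_one _ _ _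
  have hφi : ∀ a b : ℝ, IntervalIntegrable φ volume a b := by
    intro a b
    rw [intervalIntegrable_iff]
    exact Measure.integrableOn_of_bounded (M := 1) (by simp) hφm.aestronglyMeasurable
      (Filter.Eventually.of_forall hφb)
  have e1 : ∫ t, ∑ x ∈ Ico P M, ph L (c * (x + clamp 0 1 t) ^ k + s) u ∂nu =
      ∑ x ∈ Ico P M, ∫ t in (0:ℝ)..1, φ (x + t) := by
    rw [integral_finsetSum]
    · apply sum_congr rfl
      intro x _
      rw [intervalIntegral.integral_of_le zero_le_one, ← integral_Icc_eq_integral_Ioc]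
      apply setIntegral_congr_fun measurableSet_Icc
      intro t ht
      simp only [hφ]
      rw [clamp_eq ht.1 ht.2]
    · intro x _
      refine Integrable.of_bound (C := 1) ?_ (Filter.Eventually.of_forall fun t => hφb (x + clamp 0 1 t))
      have : Measurable (fun t : ℝ => φ (x + clamp 0 1 t)) :=
        hφm.comp (measurable_const.add (clamp_measurable 0 1))
      exact this.aestronglyMeasurable
  rw [e1, sum_int hφi hPM]
  set w : ℝ := (u - s) / c with hw
  set δ : ℝ := L / (2 * C0 * k * (M:ℝ) ^ (k - 1)) with hδ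
  have hδ0 : 0 < δ := by positivity
  have hw1 : (P:ℝ) ^ k ≤ w := by
    rw [hw, le_div_iff₀ hcp]
    calc (P:ℝ) ^ k * c ≤ (P:ℝ) ^ k * C0 := by gcongr
      _ ≤ u - s := by linarith
  have hw2 : w ≤ ((M:ℝ) / 2) ^ k := by
    rw [hw, div_le_iff₀ hcp]
    calc u - s ≤ c0 * ((M:ℝ) / 2) ^ k := h2
      _ ≤ c * ((M:ℝ) / 2) ^ k := by gcongr
      _ = _ := by ring
  have hw0 : 0 ≤ w := le_trans (by positivity) hw1
  set X0 : ℝ := w ^ ((k:ℝ)⁻¹) with hX0
  have hX0p : 0 ≤ X0 := Real.rpow_nonneg hw0 _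
  have hX0k : X0 ^ k = w := Real.rpow_inv_natCast_pow hw0 (by omega)
  have hX1 : (P:ℝ) ≤ X0 := by
    apply le_of_pow_le_pow_left₀ (by omega : k ≠ 0) hX0p
    rw [hX0k]; exact hw1
  have hX2 : X0 ≤ (M:ℝ) / 2 := by
    apply le_of_pow_le_pow_left₀ (by omega : k ≠ 0) (by positivity)
    rw [hX0k]; exact hw2
  have hδM : δ ≤ (M:ℝ) / 2 := by
    rw [hδ, div_le_div_iff₀ (by positivity) (by norm_num)]
    have e : (M:ℝ) ^ k = (M:ℝ) ^ (k - 1) * M := by
      rw [← pow_succ]; congr 1; omega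
    rw [e] at hLM
    nlinarith
  have hX3 : X0 + δ ≤ M := by linarith
  have hval : ∀ X ∈ Set.Icc X0 (X0 + δ), φ X = 1 := by
    intro X hX
    simp only [hφ]
    rw [ph_eq, if_pos]
    have h5 := pow_sub_le hX0p hX.1 (hX.2.trans hX3) k
    have h6 : X0 ^ k ≤ X ^ k := pow_le_pow_left₀ hX0p hX.1 k
    have h7 : c * X0 ^ k = u - s := by
      rw [hX0k, hw]
      field_simp
    have h8 : c * X ^ k + s - u = c * (X ^ k - X0 ^ k) := by
      have : c * (X ^ k - X0 ^ k) = c * X ^ k - c * X0 ^ k := by ring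
      rw [this, h7]; ring
    rw [h8, abs_of_nonneg (mul_nonneg hcp.le (by linarith))]
    have h9 : X - X0 ≤ δ := by linarith [hX.2]
    calc c * (X ^ k - X0 ^ k) ≤ C0 * (k * (M:ℝ) ^ (k - 1) * δ) := by
          apply mul_le_mul hC _ (by linarith) hCp.le
          refine h5.trans ?_
          gcongr
      _ = L / 2 := by
          rw [hδ]
          field_simp
  have hpos : ∀ X, 0 ≤ φ X := fun X => ph_nonneg _ _ _
  rw [← intervalIntegral.integral_add_adjacent_intervals (hφi P X0) (hφi X0 M),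
    ← intervalIntegral.integral_add_adjacent_intervals (hφi X0 (X0 + δ)) (hφi (X0 + δ) M)]
  have i1 : 0 ≤ ∫ X in (P:ℝ)..X0, φ X := intervalIntegral.integral_nonneg hX1 (fun X _ => hpos X)
  have i2 : 0 ≤ ∫ X in (X0 + δ)..(M:ℝ), φ X := intervalIntegral.integral_nonneg hX3 (fun X _ => hpos X)
  have i3 : ∫ X in X0..(X0 + δ), φ X = δ := by
    rw [intervalIntegral.integral_congr (g := fun _ => (1:ℝ))]
    · simp
    · intro X hX
      rw [Set.uIcc_of_le (by linarith)] at hX
      exact hval X hX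
  rw [i3]
  linarith

/-- the comparison sequences -/
noncomputable def qq (k : ℕ) (c t : ℝ) (x : ℕ) : ℝ := c * (x + clamp 0 1 t) ^ k

lemma measurable_qq (k : ℕ) (c : ℝ) (x : ℕ) : Measurable (fun t => qq k c t x) := by
  unfold qq
  exact ((measurable_const.add (clamp_measurable 0 1)).pow_const k).const_mul c

lemma measurable_rq {ι : Type*} [Fintype ι] [DecidableEq ι] (L : ℝ) (B : Finset ℕ) (k : ℕ)
    (c : ι → ℝ) (u : ℝ) : Measurable (fun t : ι → ℝ => rs L B (fun i => qq k (c i) (t i)) u) := by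
  have h1 : ∀ (i : ι) (x : ℕ), Measurable (fun t : ι → ℝ => qq k (c i) (t i) x) := by
    intro i x
    have h0 := measurable_qq k (c i) x
    have h5 : Measurable (fun t : ι → ℝ => t i) := measurable_pi_apply i
    exact h0.comp h5
  have h2 := measurable_rs (Z := ι → ℝ) L B (fun t i => qq k (c i) (t i)) h1
  have h3 : Measurable (fun t : ι → ℝ => ((t, u) : (ι → ℝ) × ℝ)) :=
    measurable_id.prodMk measurable_const
  have h4 := h2.comp h3
  have h6 : (fun t : ι → ℝ => rs L B (fun i => qq k (c i) (t i)) u) =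
    ((fun w : (ι → ℝ) × ℝ => rs L B (fun i => qq k (c i) (w.1 i)) w.2) ∘
      (fun t : ι → ℝ => ((t, u) : (ι → ℝ) × ℝ))) := rfl
  rw [h6]
  exact h4

lemma rs_cons {n : ℕ} (L : ℝ) (B B' : Finset ℕ) (hB : B' ⊆ B) (p : Fin (n + 1) → ℕ → ℝ) (u : ℝ) :
    ∑ x' ∈ Fintype.piFinset (fun _ : Fin n => B'), ∑ x ∈ B,
      ph L (p 0 x + ∑ j, p (Fin.succ j) (x' j)) u ≤ rs L B p u := by
  classical
  rw [Finset.sum_comm, ← Finset.sum_product']
  unfold rs
  have hinj : Set.InjOn (fun z : ℕ × (Fin n → ℕ) => (Fin.cons z.1 z.2 : Fin (n + 1) → ℕ))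
      ↑(B ×ˢ Fintype.piFinset (fun _ : Fin n => B')) := by
    intro a _ b _ h
    simp only at h
    have h0 := congrFun h 0
    have h1 : ∀ j, a.2 j = b.2 j := by
      intro j
      have := congrFun h (Fin.succ j)
      simpa using this
    simp only [Fin.cons_zero] at h0
    exact Prod.ext h0 (funext h1)
  calc _ = ∑ z ∈ B ×ˢ Fintype.piFinset (fun _ : Fin n => B'),
        ph L (∑ i, p i ((Fin.cons z.1 z.2 : Fin (n + 1) → ℕ) i)) u := by
        apply sum_congr rfl
        intro z _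
        rw [Fin.sum_univ_succ]
        simp
    _ = ∑ x ∈ (B ×ˢ Fintype.piFinset (fun _ : Fin n => B')).image
          (fun z : ℕ × (Fin n → ℕ) => (Fin.cons z.1 z.2 : Fin (n + 1) → ℕ)),
          ph L (∑ i, p i (x i)) u := by
        rw [Finset.sum_image hinj]
    _ ≤ _ := by
        apply Finset.sum_le_sum_of_subset_of_nonneg
        · intro x hx
          rw [Finset.mem_image] at hx
          obtain ⟨z, hz, rfl⟩ := hx
          rw [Finset.mem_product, Fintype.mem_piFinset] at hz
          rw [Fintype.mem_piFinset]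
          intro i
          refine Fin.cases ?_ (fun j => ?_) i
          · simpa using hz.1
          · simpa using hB (hz.2 j)
        · intro _ _ _
          exact ph_nonneg _ _ _

lemma mean_low {n k P M : ℕ} {L c0 C0 u : ℝ} (hL : 0 < L) (hk : 1 ≤ k) (hP : 1 ≤ P)
    (hPM : 2 * P ≤ M) (hc0 : 0 < c0) (c : Fin (n + 1) → ℝ) (hc : ∀ i, c0 ≤ c i) (hC : ∀ i, c i ≤ C0)
    (hLM : L ≤ C0 * k * (M:ℝ) ^ k)
    (h1 : (n + 1) * (C0 * (2 * (P:ℝ)) ^ k) ≤ u) (h2 : u ≤ c0 * ((M:ℝ) / 2) ^ k) :
    (P:ℝ) ^ n * (L / (2 * C0 * k * (M:ℝ) ^ (k - 1))) ≤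
      ∫ t, rs L (Ico P M) (fun i => qq k (c i) (t i)) u ∂(Measure.pi (fun _ : Fin (n + 1) => nu)) := by
  classical
  have hCp : 0 < C0 := (hc0.trans_le (hc 0)).trans_le (hC 0)
  set F : ℝ × (Fin n → ℝ) → ℝ := fun z => ∑ x' ∈ Fintype.piFinset (fun _ : Fin n => Ico P (2 * P)),
    ∑ x ∈ Ico P M, ph L (qq k (c 0) z.1 x + ∑ j, qq k (c (Fin.succ j)) (z.2 j) (x' j)) u with hF
  have hqm : ∀ (c : ℝ) (x : ℕ), Measurable (fun t => qq k c t x) := by
    intro c x
    unfold qq
    exact ((measurable_const.add (clamp_measurable 0 1)).pow_const k).const_mul c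
  have hFm : Measurable F := by
    apply Finset.measurable_sum
    intro x' _
    apply Finset.measurable_sum
    intro x _
    have h : Measurable (fun z : ℝ × (Fin n → ℝ) =>
        ((qq k (c 0) z.1 x + ∑ j, qq k (c (Fin.succ j)) (z.2 j) (x' j), u) : ℝ × ℝ)) := by
      apply Measurable.prodMk _ measurable_const
      apply Measurable.add
      · exact (hqm _ _).comp measurable_fst
      · apply Finset.measurable_sum
        intro j _
        exact (hqm _ _).comp ((measurable_pi_apply j).comp measurable_snd)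
    exact (ph_measurable L).comp h
  have hF0 : ∀ z, 0 ≤ F z := fun z => sum_nonneg fun _ _ => sum_nonneg fun _ _ => ph_nonneg _ _ _
  have hFb : ∀ z, F z ≤ ((Fintype.piFinset (fun _ : Fin n => Ico P (2 * P))).card : ℝ) * (Ico P M).card := by
    intro z
    calc F z ≤ ∑ x' ∈ Fintype.piFinset (fun _ : Fin n => Ico P (2 * P)), ∑ x ∈ Ico P M, (1:ℝ) :=
          sum_le_sum fun _ _ => sum_le_sum fun _ _ => ph_le_one _ _ _
      _ = _ := by rw [sum_const, sum_const, nsmul_eq_mul, nsmul_eq_mul, mul_one]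
  have hFi : Integrable F (nu.prod (Measure.pi (fun _ : Fin n => nu))) := by
    refine Integrable.of_bound
      (C := ((Fintype.piFinset (fun _ : Fin n => Ico P (2 * P))).card : ℝ) * (Ico P M).card)
      hFm.aestronglyMeasurable ?_
    refine Filter.Eventually.of_forall fun z => ?_
    rw [Real.norm_eq_abs, abs_of_nonneg (hF0 z)]
    exact hFb z
  have hmp := measurePreserving_piFinSuccAbove (fun _ : Fin (n + 1) => nu) 0
  have hGi : Integrable (fun t : Fin (n + 1) → ℝ =>
      F (MeasurableEquiv.piFinSuccAbove (fun _ : Fin (n + 1) => ℝ) 0 t))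
      (Measure.pi (fun _ : Fin (n + 1) => nu)) := by
    refine Integrable.of_bound
      (C := ((Fintype.piFinset (fun _ : Fin n => Ico P (2 * P))).card : ℝ) * (Ico P M).card)
      (hFm.comp (MeasurableEquiv.measurable _)).aestronglyMeasurable ?_
    refine Filter.Eventually.of_forall fun z => ?_
    rw [Real.norm_eq_abs, abs_of_nonneg (hF0 _)]
    exact hFb _
  have hRi : Integrable (fun t : Fin (n + 1) → ℝ => rs L (Ico P M) (fun i => qq k (c i) (t i)) u)
      (Measure.pi (fun _ : Fin (n + 1) => nu)) := by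
    refine Integrable.of_bound (C := ((Ico P M).card : ℝ) ^ Fintype.card (Fin (n + 1))) ?_ ?_
    · exact (measurable_rq L (Ico P M) k c u).aestronglyMeasurable
    · refine Filter.Eventually.of_forall fun t => ?_
      rw [Real.norm_eq_abs, abs_of_nonneg (rs_nonneg _ _ _ _)]
      exact rs_le _ _ _ _
  have hE : ∫ t, F (MeasurableEquiv.piFinSuccAbove (fun _ : Fin (n + 1) => ℝ) 0 t)
      ∂(Measure.pi (fun _ : Fin (n + 1) => nu)) =
      ∫ z, F z ∂(nu.prod (Measure.pi (fun _ : Fin n => nu))) := hmp.integral_comp' F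
  have hle : ∀ t : Fin (n + 1) → ℝ, F (MeasurableEquiv.piFinSuccAbove (fun _ : Fin (n + 1) => ℝ) 0 t) ≤
      rs L (Ico P M) (fun i => qq k (c i) (t i)) u := by
    intro t
    have h := rs_cons L (Ico P M) (Ico P (2 * P)) (Finset.Ico_subset_Ico_right hPM)
      (fun i => qq k (c i) (t i)) u
    refine le_trans (le_of_eq ?_) h
    rfl
  have hlow : ∀ t' : Fin n → ℝ, (P:ℝ) ^ n * (L / (2 * C0 * k * (M:ℝ) ^ (k - 1))) ≤
      ∫ t0, F (t0, t') ∂nu := by
    intro t'
    simp only [hF]
    rw [integral_finsetSum]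
    · have hcard : (P:ℝ) ^ n = ∑ x' ∈ Fintype.piFinset (fun _ : Fin n => Ico P (2 * P)), (1:ℝ) := by
        simp [two_mul]
      rw [hcard, sum_mul]
      apply sum_le_sum
      intro x' hx'
      rw [Fintype.mem_piFinset] at hx'
      rw [one_mul]
      set s : ℝ := ∑ j, qq k (c (Fin.succ j)) (t' j) (x' j) with hs
      have hs0 : 0 ≤ s := by
        apply sum_nonneg
        intro j _
        unfold qq
        have := le_clamp 0 1 (t' j)
        have := hc (Fin.succ j)
        have : 0 ≤ c (Fin.succ j) := by linarith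
        positivity
      have hs1 : s ≤ n * (C0 * (2 * (P:ℝ)) ^ k) := by
        calc s ≤ ∑ j : Fin n, C0 * (2 * (P:ℝ)) ^ k := by
              apply sum_le_sum
              intro j _
              unfold qq
              have h3 := le_clamp 0 1 (t' j)
              have h4 := clamp_le (zero_le_one (α := ℝ)) (t' j)
              have h5 := mem_Ico.1 (hx' j)
              have h6 : ((x' j : ℕ) : ℝ) + 1 ≤ 2 * P := by
                have : x' j + 1 ≤ 2 * P := h5.2
                exact_mod_cast this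
              have h7 := hC (Fin.succ j)
              gcongr
              linarith
          _ = _ := by simp
      have := one_var (L := L) (c := c 0) (c0 := c0) (C0 := C0) (s := s) (u := u) (k := k) (P := P) (M := M)
        hL hk hc0 (hc 0) (hC 0) (by omega) (by omega) hLM ?_ ?_
      · exact this
      · have h8 : (P:ℝ) ^ k ≤ (2 * (P:ℝ)) ^ k := by
          gcongr
          have : (0:ℝ) ≤ P := Nat.cast_nonneg _
          linarith
        have h9 : C0 * (P:ℝ) ^ k ≤ C0 * (2 * (P:ℝ)) ^ k := by gcongr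
        linarith
      · linarith
    · intro x' _
      refine Integrable.of_bound (C := ((Ico P M).card : ℝ)) ?_ ?_
      · apply Measurable.aestronglyMeasurable
        apply Finset.measurable_sum
        intro x _
        have h : Measurable (fun t0 : ℝ =>
            ((qq k (c 0) t0 x + ∑ j, qq k (c (Fin.succ j)) (t' j) (x' j), u) : ℝ × ℝ)) := by
          apply Measurable.prodMk _ measurable_const
          exact (hqm _ _).add_const _
        exact (ph_measurable L).comp h
      · refine Filter.Eventually.of_forall fun t0 => ?_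
        rw [Real.norm_eq_abs, abs_of_nonneg (sum_nonneg fun _ _ => ph_nonneg _ _ _)]
        calc _ ≤ ∑ x ∈ Ico P M, (1:ℝ) := sum_le_sum fun _ _ => ph_le_one _ _ _
          _ = _ := by rw [sum_const, nsmul_eq_mul, mul_one]
  calc (P:ℝ) ^ n * (L / (2 * C0 * k * (M:ℝ) ^ (k - 1))) =
        ∫ t' : Fin n → ℝ, (P:ℝ) ^ n * (L / (2 * C0 * k * (M:ℝ) ^ (k - 1)))
          ∂(Measure.pi (fun _ : Fin n => nu)) := by simp
    _ ≤ ∫ t' : Fin n → ℝ, ∫ t0, F (t0, t') ∂nu ∂(Measure.pi (fun _ : Fin n => nu)) := by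
        apply integral_mono (integrable_const _) _ hlow
        exact hFi.integral_prod_right
    _ = ∫ z, F z ∂(nu.prod (Measure.pi (fun _ : Fin n => nu))) := (integral_prod_symm F hFi).symm
    _ = ∫ t, F (MeasurableEquiv.piFinSuccAbove (fun _ : Fin (n + 1) => ℝ) 0 t)
      ∂(Measure.pi (fun _ : Fin (n + 1) => nu)) := hE.symm
    _ ≤ _ := integral_mono hGi hRi hle

end Pool.Agent.X25.MW
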