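import Mathlib
import Pool.Agent.X25.MW.Low

/-! Mean square of the exponential sum over the coefficient. -/

set_option autoImplicit false

namespace Pool.Agent.X25.MW
open MeasureTheory Finset

lemma harm (M : ℕ) : ∑ h ∈ Icc 1 M, ((h:ℕ) : ℝ)⁻¹ ≤ 1 + Real.log M := by
  have h1 := harmonic_le_one_add_log M
  rw [harmonic_eq_sum_Icc] at h1
  push_cast at h1
  exact h1

lemma off_sum {P M x : ℕ} (hx : x ∈ Ico P M) :
    ∑ y ∈ (Ico P M).erase x, |(x:ℝ) - y|⁻¹ ≤ 2 * (1 + Real.log M) := by
  classical
  have hx' := mem_Ico.1 hx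
  rw [← Finset.sum_filter_add_sum_filter_not ((Ico P M).erase x) (fun y => y < x)]
  have h1 : ∑ y ∈ ((Ico P M).erase x).filter (fun y => y < x), |(x:ℝ) - y|⁻¹ ≤
      ∑ h ∈ Icc 1 M, ((h:ℕ) : ℝ)⁻¹ := by
    have e : ∑ y ∈ ((Ico P M).erase x).filter (fun y => y < x), |(x:ℝ) - y|⁻¹ =
        ∑ h ∈ (((Ico P M).erase x).filter (fun y => y < x)).image (fun y => x - y), ((h:ℕ):ℝ)⁻¹ := by
      rw [Finset.sum_image]
      · apply sum_congr rfl
        intro y hy
        rw [mem_filter] at hy
        have : ((x - y : ℕ) : ℝ) = x - y := by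
          rw [Nat.cast_sub hy.2.le]
        rw [this, abs_of_pos]
        have : (y:ℝ) < x := by exact_mod_cast hy.2
        linarith
      · intro a ha b hb hab
        simp only [coe_filter, Set.mem_setOf_eq] at ha hb
        simp only at hab
        omega
    rw [e]
    apply Finset.sum_le_sum_of_subset_of_nonneg
    · intro h hh
      rw [mem_image] at hh
      obtain ⟨y, hy, rfl⟩ := hh
      rw [mem_filter] at hy
      rw [mem_Icc]
      omega
    · intro i _ _
      positivity
  have h2 : ∑ y ∈ ((Ico P M).erase x).filter (fun y => ¬ y < x), |(x:ℝ) - y|⁻¹ ≤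
      ∑ h ∈ Icc 1 M, ((h:ℕ) : ℝ)⁻¹ := by
    have e : ∑ y ∈ ((Ico P M).erase x).filter (fun y => ¬ y < x), |(x:ℝ) - y|⁻¹ =
        ∑ h ∈ (((Ico P M).erase x).filter (fun y => ¬ y < x)).image (fun y => y - x), ((h:ℕ):ℝ)⁻¹ := by
      rw [Finset.sum_image]
      · apply sum_congr rfl
        intro y hy
        rw [mem_filter, mem_erase] at hy
        have h3 : x < y := by omega
        have : ((y - x : ℕ) : ℝ) = y - x := by
          rw [Nat.cast_sub h3.le]
        rw [this, abs_of_neg]
        · ring_nf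
        · have : (x:ℝ) < y := by exact_mod_cast h3
          linarith
      · intro a ha b hb hab
        simp only [coe_filter, Set.mem_setOf_eq, mem_erase] at ha hb
        simp only at hab
        omega
    rw [e]
    apply Finset.sum_le_sum_of_subset_of_nonneg
    · intro h hh
      rw [mem_image] at hh
      obtain ⟨y, hy, rfl⟩ := hh
      rw [mem_filter, mem_erase, mem_Ico] at hy
      rw [mem_Icc]
      omega
    · intro i _ _
      positivity
  have h3 := harm M
  linarith

lemma pow_sub_ge {X Y P : ℝ} (hP : 0 ≤ P) (hX : P ≤ X) (hXY : X ≤ Y) {k : ℕ} (hk : 1 ≤ k) :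
    (Y - X) * P ^ (k - 1) ≤ Y ^ k - X ^ k := by
  obtain ⟨m, rfl⟩ : ∃ m, k = m + 1 := ⟨k - 1, by omega⟩
  simp only [Nat.add_sub_cancel]
  have hX0 : 0 ≤ X := hP.trans hX
  have hY0 : 0 ≤ Y := hX0.trans hXY
  have h1 : P ^ m ≤ Y ^ m := pow_le_pow_left₀ hP (hX.trans hXY) m
  have h2 : X ^ m ≤ Y ^ m := pow_le_pow_left₀ hX0 hXY m
  have e : Y ^ (m + 1) - X ^ (m + 1) = (Y - X) * Y ^ m + X * (Y ^ m - X ^ m) := by ring
  rw [e]
  have h3 : (Y - X) * P ^ m ≤ (Y - X) * Y ^ m := by
    apply mul_le_mul_of_nonneg_left h1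
    linarith
  have h4 : 0 ≤ X * (Y ^ m - X ^ m) := mul_nonneg hX0 (by linarith)
  linarith

lemma cos_int_le (c0 C0 β : ℝ) (hβ : β ≠ 0) : ∫ ω in c0..C0, Real.cos (β * ω) ≤ 2 / |β| := by
  rw [intervalIntegral.integral_comp_mul_left (fun x => Real.cos x) hβ, integral_cos, smul_eq_mul]
  have h1 : |Real.sin (β * C0) - Real.sin (β * c0)| ≤ 2 := by
    have h2 := Real.abs_sin_le_one (β * C0)
    have h3 := Real.abs_sin_le_one (β * c0)
    calc _ ≤ |Real.sin (β * C0)| + |Real.sin (β * c0)| := abs_sub _ _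
      _ ≤ 2 := by linarith
  calc β⁻¹ * (Real.sin (β * C0) - Real.sin (β * c0)) ≤
        |β⁻¹ * (Real.sin (β * C0) - Real.sin (β * c0))| := le_abs_self _
    _ = |β|⁻¹ * |Real.sin (β * C0) - Real.sin (β * c0)| := by rw [abs_mul, abs_inv]
    _ ≤ |β|⁻¹ * 2 := by gcongr
    _ = 2 / |β| := by ring

lemma c2_coef {k P M : ℕ} {c0 C0 : ℝ} (hk : 1 ≤ k) (hP : 1 ≤ P) (hM : 1 ≤ M)
    (h0 : c0 ≤ C0) (t α : ℝ) (hα : α ≠ 0) :
    ∫ ω, ‖fs (Ico P M) (qq k (clamp c0 C0 ω) t) α‖ ^ 2 ∂(volume.restrict (Set.Icc c0 C0)) ≤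
      (C0 - c0) * M + M * (2 * (1 + Real.log M)) / (Real.pi * |α| * (P:ℝ) ^ (k - 1)) := by
  classical
  have hα0 : 0 < |α| := abs_pos.2 hα
  have hP0 : (0:ℝ) < P := by exact_mod_cast hP
  have hpi := Real.pi_pos
  set X : ℕ → ℝ := fun x => ((x:ℝ) + clamp 0 1 t) ^ k with hX
  have e1 : ∫ ω, ‖fs (Ico P M) (qq k (clamp c0 C0 ω) t) α‖ ^ 2 ∂(volume.restrict (Set.Icc c0 C0)) =
      ∫ ω in c0..C0, ∑ x ∈ Ico P M, ∑ y ∈ Ico P M, Real.cos ((2 * Real.pi * α * (X x - X y)) * ω) := by
    rw [intervalIntegral.integral_of_le h0, ← integral_Icc_eq_integral_Ioc]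
    apply setIntegral_congr_fun measurableSet_Icc
    intro ω hω
    simp only
    rw [clamp_eq hω.1 hω.2]
    have h := normSq_sum (Ico P M) (fun _ => (1:ℝ)) (fun x => qq k ω t x) α
    simp only [Complex.ofReal_one, one_mul] at h
    unfold fs
    rw [h]
    apply sum_congr rfl
    intro x _
    apply sum_congr rfl
    intro y _
    congr 1
    simp only [qq, hX]
    ring
  rw [e1, intervalIntegral.integral_finset_sum]
  · have e2 : ∀ x ∈ Ico P M, ∫ ω in c0..C0, ∑ y ∈ Ico P M,
        Real.cos ((2 * Real.pi * α * (X x - X y)) * ω) ≤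
        (C0 - c0) + (2 * (1 + Real.log M)) / (Real.pi * |α| * (P:ℝ) ^ (k - 1)) := by
      intro x hx
      rw [intervalIntegral.integral_finset_sum]
      · rw [← Finset.add_sum_erase _ _ hx]
        apply add_le_add
        · simp
        · calc ∑ y ∈ (Ico P M).erase x, ∫ ω in c0..C0, Real.cos ((2 * Real.pi * α * (X x - X y)) * ω)
              ≤ ∑ y ∈ (Ico P M).erase x, |(x:ℝ) - y|⁻¹ * (Real.pi * |α| * (P:ℝ) ^ (k - 1))⁻¹ := by
                apply sum_le_sum
                intro y hy
                rw [mem_erase] at hy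
                have hxy : (x:ℝ) - y ≠ 0 := by
                  intro h
                  apply hy.1
                  have : (x:ℝ) = y := by linarith
                  exact_mod_cast this.symm
                have hxy0 : 0 < |(x:ℝ) - y| := abs_pos.2 hxy
                have hD : |(x:ℝ) - y| * (P:ℝ) ^ (k - 1) ≤ |X x - X y| := by
                  have hc := le_clamp 0 1 t
                  have hxP : (P:ℝ) ≤ x + clamp 0 1 t := by
                    have : (P:ℝ) ≤ x := by exact_mod_cast (mem_Ico.1 hx).1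
                    linarith
                  have hyP : (P:ℝ) ≤ y + clamp 0 1 t := by
                    have : (P:ℝ) ≤ y := by exact_mod_cast (mem_Ico.1 hy.2).1
                    linarith
                  rcases le_total (x:ℝ) y with h | h
                  · have h5 := pow_sub_ge hP0.le hxP (by linarith : (x:ℝ) + clamp 0 1 t ≤ y + clamp 0 1 t) hk
                    have e5 : |(x:ℝ) - y| = (y + clamp 0 1 t) - (x + clamp 0 1 t) := by
                      rw [abs_of_nonpos (by linarith)]; ring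
                    rw [e5]
                    refine h5.trans ?_
                    rw [abs_sub_comm]
                    exact le_abs_self _
                  · have h5 := pow_sub_ge hP0.le hyP (by linarith : (y:ℝ) + clamp 0 1 t ≤ x + clamp 0 1 t) hk
                    have e5 : |(x:ℝ) - y| = (x + clamp 0 1 t) - (y + clamp 0 1 t) := by
                      rw [abs_of_nonneg (by linarith)]; ring
                    rw [e5]
                    refine h5.trans ?_
                    exact le_abs_self _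
                have hD0 : 0 < |X x - X y| := lt_of_lt_of_le (by positivity) hD
                have hβ : 2 * Real.pi * α * (X x - X y) ≠ 0 := by
                  have : X x - X y ≠ 0 := abs_pos.1 hD0
                  positivity
                refine (cos_int_le c0 C0 _ hβ).trans ?_
                rw [abs_mul, abs_mul, abs_of_pos (by positivity : 0 < 2 * Real.pi), ← mul_inv,
                  ← one_div, div_le_div_iff₀ (by positivity) (by positivity)]
                nlinarith [mul_le_mul_of_nonneg_left hD (by positivity : 0 ≤ Real.pi * |α|)]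
            _ = (∑ y ∈ (Ico P M).erase x, |(x:ℝ) - y|⁻¹) * (Real.pi * |α| * (P:ℝ) ^ (k - 1))⁻¹ := by
                rw [sum_mul]
            _ ≤ (2 * (1 + Real.log M)) * (Real.pi * |α| * (P:ℝ) ^ (k - 1))⁻¹ := by
                gcongr
                exact off_sum hx
            _ = _ := by rw [div_eq_mul_inv]
      · intro y _
        apply Continuous.intervalIntegrable
        fun_prop
    refine (sum_le_sum e2).trans ?_
    rw [sum_const, nsmul_eq_mul]
    have hc : ((Ico P M).card : ℝ) ≤ M := by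
      rw [Nat.card_Ico]
      exact_mod_cast Nat.sub_le _ _
    have hlog : 0 ≤ Real.log M := Real.log_natCast_nonneg M
    have hd : 0 ≤ C0 - c0 := by linarith
    calc ((Ico P M).card : ℝ) * ((C0 - c0) + (2 * (1 + Real.log M)) / (Real.pi * |α| * (P:ℝ) ^ (k - 1)))
        ≤ M * ((C0 - c0) + (2 * (1 + Real.log M)) / (Real.pi * |α| * (P:ℝ) ^ (k - 1))) := by
          gcongr
      _ = _ := by ring
  · intro x _
    apply Continuous.intervalIntegrable
    fun_prop

/-- closeness of the exponential sums for small frequencies -/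
lemma c1 {k P M : ℕ} {c C0 : ℝ} (hc : 0 ≤ c) (hC : c ≤ C0) (s t α : ℝ) :
    ‖fs (Ico P M) (qq k c s) α - fs (Ico P M) (qq k c t) α‖ ≤
      M * (2 * Real.pi * |α| * (C0 * (k * (M:ℝ) ^ (k - 1)))) := by
  unfold fs
  rw [← sum_sub_distrib]
  have hC0 : 0 ≤ C0 := hc.trans hC
  have hpi := Real.pi_pos
  have h1 : ∀ x ∈ Ico P M, ‖ex (α * qq k c s x) - ex (α * qq k c t x)‖ ≤
      2 * Real.pi * |α| * (C0 * (k * (M:ℝ) ^ (k - 1))) := by
    intro x hx
    have hx' := mem_Ico.1 hx
    have hxM : (x:ℝ) + 1 ≤ M := by exact_mod_cast hx'.2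
    have hs0 := le_clamp 0 1 s
    have hs1 := clamp_le (zero_le_one (α := ℝ)) s
    have ht0 := le_clamp 0 1 t
    have ht1 := clamp_le (zero_le_one (α := ℝ)) t
    have hx0 : (0:ℝ) ≤ x := Nat.cast_nonneg _
    have hd : |qq k c s x - qq k c t x| ≤ C0 * (k * (M:ℝ) ^ (k - 1)) := by
      unfold qq
      rw [← mul_sub, abs_mul, abs_of_nonneg hc]
      apply mul_le_mul hC _ (abs_nonneg _) hC0
      have hM : (0:ℝ) ≤ M := Nat.cast_nonneg _
      rcases le_total (clamp 0 1 s) (clamp 0 1 t) with h | h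
      · have h2 := pow_sub_le (X := x + clamp 0 1 s) (Y := x + clamp 0 1 t) (M := M) (by positivity)
          (by linarith) (by linarith) k
        have h3 : ((x:ℝ) + clamp 0 1 s) ^ k ≤ ((x:ℝ) + clamp 0 1 t) ^ k := by
          gcongr
        rw [abs_of_nonpos (by linarith), neg_sub]
        refine h2.trans ?_
        have h4 : (x:ℝ) + clamp 0 1 t - (x + clamp 0 1 s) ≤ 1 := by linarith
        calc _ ≤ k * (M:ℝ) ^ (k - 1) * 1 := by gcongr
          _ = _ := mul_one _
      · have h2 := pow_sub_le (X := x + clamp 0 1 t) (Y := x + clamp 0 1 s) (M := M) (by positivity)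
          (by linarith) (by linarith) k
        have h3 : ((x:ℝ) + clamp 0 1 t) ^ k ≤ ((x:ℝ) + clamp 0 1 s) ^ k := by
          gcongr
        rw [abs_of_nonneg (by linarith)]
        refine h2.trans ?_
        have h4 : (x:ℝ) + clamp 0 1 s - (x + clamp 0 1 t) ≤ 1 := by linarith
        calc _ ≤ k * (M:ℝ) ^ (k - 1) * 1 := by gcongr
          _ = _ := mul_one _
    have he : ∀ a b : ℝ, ‖ex a - ex b‖ ≤ 2 * Real.pi * |a - b| := by
      intro a b
      have e : ex a - ex b = ex b * (ex (a - b) - 1) := by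
        rw [mul_sub, ← ex_add]
        ring_nf
      rw [e, norm_mul, ex_norm, one_mul]
      unfold ex
      have := Real.norm_exp_I_mul_ofReal_sub_one_le (x := 2 * Real.pi * (a - b))
      rw [mul_comm Complex.I] at this
      refine this.trans ?_
      rw [Real.norm_eq_abs, abs_mul, abs_of_pos (by positivity : 0 < 2 * Real.pi)]
    refine (he _ _).trans ?_
    rw [← mul_sub, abs_mul]
    calc 2 * Real.pi * (|α| * |qq k c s x - qq k c t x|) ≤
          2 * Real.pi * (|α| * (C0 * (k * (M:ℝ) ^ (k - 1)))) := by gcongr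
      _ = _ := by ring
  refine (norm_sum_le _ _).trans ((sum_le_sum h1).trans ?_)
  rw [sum_const, nsmul_eq_mul]
  have hc : ((Ico P M).card : ℝ) ≤ M := by
    rw [Nat.card_Ico]
    exact_mod_cast Nat.sub_le _ _
  gcongr

end Pool.Agent.X25.MW
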