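import Mathlib
import Pool.Agent.X25.MW.Low
import Pool.Agent.X25.MW.Bound
import Pool.Agent.X25.MW.Coef

/-! The second moment bounds in terms of the scale. -/

set_option autoImplicit false

namespace Pool.Agent.X25.MW
open MeasureTheory Finset

/-- mean square hypothesis for a random sequence -/
def C2 (k : ℕ) (μ : Measure ℝ) (p : ℝ → ℕ → ℝ) : Prop :=
  ∀ Λ : ℕ, 1 ≤ Λ → ∃ M : ℝ, 0 ≤ M ∧ ∀ P : ℕ, 1 ≤ P → ∀ α : ℝ, α ≠ 0 →
    ∫ ω, ‖fs (Ico P (Λ * P)) (p ω) α‖ ^ 2 ∂μ ≤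
      M * P + M * (1 + Real.log ((Λ * P : ℕ) : ℝ)) * ((P:ℝ) ^ 2 / (P:ℝ) ^ k) / |α|

/-- the same with an additional average -/
def C2' (k : ℕ) (μ ν : Measure ℝ) (q : ℝ → ℝ → ℕ → ℝ) : Prop :=
  ∀ Λ : ℕ, 1 ≤ Λ → ∃ M : ℝ, 0 ≤ M ∧ ∀ P : ℕ, 1 ≤ P → ∀ α : ℝ, α ≠ 0 →
    ∫ ω, ∫ t, ‖fs (Ico P (Λ * P)) (q ω t) α‖ ^ 2 ∂ν ∂μ ≤
      M * P + M * (1 + Real.log ((Λ * P : ℕ) : ℝ)) * ((P:ℝ) ^ 2 / (P:ℝ) ^ k) / |α|

/-- deficiency -/
noncomputable def gap {ι : Type*} [Fintype ι] [DecidableEq ι] (L : ℝ) (B : Finset ℕ)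
    (κ u1 u2 : ℝ) (p : ι → ℕ → ℝ) (u : ℝ) : ℝ :=
  if u1 ≤ u ∧ u ≤ u2 then max 0 (κ - rs L B p u) else 0

lemma jensen {Z : Type*} [MeasurableSpace Z] (π : Measure Z) [IsProbabilityMeasure π] (f : Z → ℝ)
    (hf : Measurable f) (C : ℝ) (hC : ∀ z, |f z| ≤ C) (κ r : ℝ) (h : κ ≤ ∫ z, f z ∂π) :
    ENNReal.ofReal ((max 0 (κ - r)) ^ 2) ≤ ∫⁻ z, ENNReal.ofReal ((r - f z) ^ 2) ∂π := by
  rcases le_total κ r with hr | hr
  · rw [max_eq_left (by linarith)]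
    simp
  · rw [max_eq_right (by linarith)]
    have hfi : Integrable f π := Integrable.of_bound (C := C) hf.aestronglyMeasurable
      (Filter.Eventually.of_forall hC)
    have hf2 : Integrable (fun z => (r - f z) ^ 2) π := by
      refine Integrable.of_bound (C := (|r| + C) ^ 2)
        ((measurable_const.sub hf).pow_const 2).aestronglyMeasurable ?_
      refine Filter.Eventually.of_forall fun z => ?_
      rw [Real.norm_eq_abs, abs_of_nonneg (sq_nonneg _), ← sq_abs]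
      have h1 : |r - f z| ≤ |r| + C := (abs_sub _ _).trans (by linarith [hC z])
      gcongr
    rw [← ofReal_integral_eq_lintegral_ofReal hf2 (Filter.Eventually.of_forall fun z => sq_nonneg _)]
    apply ENNReal.ofReal_le_ofReal
    set m := ∫ z, f z ∂π with hm
    have h2 : 0 ≤ ∫ z, (f z - m) ^ 2 ∂π := integral_nonneg fun z => sq_nonneg _
    have e : ∫ z, (r - f z) ^ 2 ∂π = ∫ z, (f z - m) ^ 2 ∂π + (m - r) ^ 2 := by
      have e1 : ∀ z, (f z - m) ^ 2 = (r - f z) ^ 2 + (2 * (r - m)) * f z + (m ^ 2 - r ^ 2) := by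
        intro z; ring
      simp_rw [e1]
      rw [integral_add, integral_add, integral_const_mul, integral_const]
      · simp only [probReal_univ, one_smul]
        rw [← hm]
        ring
      · exact hf2
      · exact hfi.const_mul _
      · exact hf2.add (hfi.const_mul _)
      · exact integrable_const _
    rw [e]
    have h3 : (κ - r) ^ 2 ≤ (m - r) ^ 2 := by
      apply pow_le_pow_left₀ (by linarith)
      linarith
    linarith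

lemma log_bound (Λ N : ℕ) (hΛ : 1 ≤ Λ) (hN : 1 ≤ N) : ∃ Cl : ℝ, 0 ≤ Cl ∧ ∀ P : ℕ, 1 ≤ P →
    ∀ y : ℝ, 1 ≤ y → y ^ 64 = P → (1 + Real.log ((Λ * P : ℕ) : ℝ)) ^ N ≤ Cl * y := by
  have hΛ' : (1:ℝ) ≤ Λ := by exact_mod_cast hΛ
  have hl : 0 ≤ Real.log Λ := Real.log_nonneg hΛ'
  refine ⟨(1 + Real.log Λ + 64 * N) ^ N, by positivity, ?_⟩
  intro P hP y hy hyP
  have hN' : (0:ℝ) < N := by exact_mod_cast hN
  have hP' : (0:ℝ) < P := by exact_mod_cast hP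
  have h1 : Real.log ((Λ * P : ℕ) : ℝ) = Real.log Λ + 64 * Real.log y := by
    rw [Nat.cast_mul, Real.log_mul (by positivity) hP'.ne', ← hyP, Real.log_pow]
    norm_num
  have h2 : Real.log y ≤ y ^ ((N:ℝ)⁻¹) / (N:ℝ)⁻¹ :=
    Real.log_le_rpow_div (by linarith) (by positivity)
  have h3 : 1 ≤ y ^ ((N:ℝ)⁻¹) := Real.one_le_rpow hy (by positivity)
  have h4 : 0 ≤ Real.log y := Real.log_nonneg hy
  have h5 : 1 + Real.log ((Λ * P : ℕ) : ℝ) ≤ (1 + Real.log Λ + 64 * N) * y ^ ((N:ℝ)⁻¹) := by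
    rw [h1]
    rw [div_inv_eq_mul] at h2
    nlinarith
  have h6 : 0 ≤ 1 + Real.log ((Λ * P : ℕ) : ℝ) := by rw [h1]; positivity
  calc (1 + Real.log ((Λ * P : ℕ) : ℝ)) ^ N ≤ ((1 + Real.log Λ + 64 * N) * y ^ ((N:ℝ)⁻¹)) ^ N := by
        gcongr
    _ = (1 + Real.log Λ + 64 * N) ^ N * (y ^ ((N:ℝ)⁻¹)) ^ N := mul_pow _ _ _
    _ = _ := by rw [Real.rpow_inv_natCast_pow (by linarith) (by omega)]

/-- data of a random family -/
structure Fam (k : ℕ) (μ : Measure ℝ) (c d : ℝ → ℝ) (c0 C0 : ℝ) : Prop where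
  hk : 2 ≤ k
  hc0 : 0 < c0
  cm : Measurable c
  dm : Measurable d
  cl : ∀ ω, c0 ≤ c ω
  cu : ∀ ω, c ω ≤ C0
  c2 : C2 k μ (fun ω => qq k (c ω) (d ω))
  c2' : C2' k μ nu (fun ω t => qq k (c ω) t)

lemma Fam.hC0 {k : ℕ} {μ : Measure ℝ} {c d : ℝ → ℝ} {c0 C0 : ℝ} (F : Fam k μ c d c0 C0) : 0 < C0 :=
  (F.hc0.trans_le (F.cl 0)).trans_le (F.cu 0)

lemma Fam.hp {k : ℕ} {μ : Measure ℝ} {c d : ℝ → ℝ} {c0 C0 : ℝ} (F : Fam k μ c d c0 C0) (x : ℕ) :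
    Measurable (fun ω => qq k (c ω) (d ω) x) := by
  unfold qq
  exact F.cm.mul ((measurable_const.add ((clamp_measurable 0 1).comp F.dm)).pow_const k)

lemma Fam.hq {k : ℕ} {μ : Measure ℝ} {c d : ℝ → ℝ} {c0 C0 : ℝ} (F : Fam k μ c d c0 C0) (x : ℕ) :
    Measurable (fun z : ℝ × ℝ => qq k (c z.1) z.2 x) := by
  unfold qq
  exact (F.cm.comp measurable_fst).mul
    ((measurable_const.add ((clamp_measurable 0 1).comp measurable_snd)).pow_const k)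

theorem momA {k : ℕ} {μ : Measure ℝ} [IsFiniteMeasure μ] {c d : ℝ → ℝ} {c0 C0 : ℝ}
    (F : Fam k μ c d c0 C0) {n : ℕ} (hn : k ≤ n) (Λ : ℕ) (hΛ : 2 ≤ Λ) {L : ℝ} (hL : 0 < L)
    (hLC : L ≤ C0) :
    ∃ C : ℝ, 0 ≤ C ∧ ∀ P : ℕ, 1 ≤ P → ∀ y : ℝ, 1 ≤ y → y ^ 64 = P →
      ∫⁻ ω, (∫⁻ u : ℝ, ENNReal.ofReal (gap L (Ico P (Λ * P))
        ((P:ℝ) ^ n * (L / (2 * C0 * k * ((Λ * P : ℕ) : ℝ) ^ (k - 1))))
        ((n + 1) * (C0 * (2 * (P:ℝ)) ^ k)) (c0 * (((Λ * P : ℕ) : ℝ) / 2) ^ k)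
        (fun i => qq k (c (ω i)) (d (ω i))) u ^ 2)) ∂(Measure.pi (fun _ : Fin (n + 1) => μ)) ≤
      ENNReal.ofReal (C * ((P:ℝ) ^ (2 * (n + 1)) / (P:ℝ) ^ k / y ^ 31)) := by
  classical
  have hk := F.hk
  have hC0 := F.hC0
  have hpi := Real.pi_pos
  obtain ⟨M1, hM1, hM1'⟩ := F.c2 Λ (by omega)
  obtain ⟨M2, hM2, hM2'⟩ := F.c2' Λ (by omega)
  obtain ⟨Cl, hCl, hCl'⟩ := log_bound Λ (n + 1) (by omega) (by omega)
  set M : ℝ := max M1 M2 with hM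
  have hM0 : 0 ≤ M := le_max_of_le_left hM1
  set V : ℝ := (μ Set.univ).toReal with hV
  have hV0 : 0 ≤ V := ENNReal.toReal_nonneg
  have hVe : μ Set.univ ≤ ENNReal.ofReal V := by
    rw [hV, ENNReal.ofReal_toReal (measure_ne_top _ _)]
  set K1 : ℝ := 2 * Real.pi * C0 * k * (Λ:ℝ) ^ k with hK1
  have hK10 : 0 ≤ K1 := by positivity
  have hΛ' : (0:ℝ) < Λ := by
    have : 0 < Λ := by omega
    exact_mod_cast this
  refine ⟨2 * (L ^ 2 * (V ^ (n + 1) * (((n + 1 : ℕ) : ℝ) * K1 * (Λ:ℝ) ^ n) ^ 2)) +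
    4 * 2 ^ (n + 1) * (M ^ (n + 1) * L) + 4 * 2 ^ (n + 1) * (2 * Real.pi * L ^ 2 * M ^ (n + 1) * Cl),
    by positivity, ?_⟩
  intro P hP y hy hyP
  have hP' : (1:ℝ) ≤ P := by exact_mod_cast hP
  have hP0 : (0:ℝ) < P := by linarith
  have hy0 : 0 < y := by linarith
  set Q : ℝ := (P:ℝ) ^ k with hQ
  have hQ0 : 0 < Q := by positivity
  set lg : ℝ := 1 + Real.log ((Λ * P : ℕ) : ℝ) with hlg
  have hlg0 : 0 ≤ lg := by
    have := Real.log_natCast_nonneg (Λ * P)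
    positivity
  have hlgN := hCl' P hP y hy hyP
  rw [← hlg] at hlgN
  have hΛP : ((Λ * P : ℕ) : ℝ) = Λ * P := by push_cast; ring
  have hbd := boundA (ι := Fin (n + 1)) hL (Ico P (Λ * P)) μ nu (fun ω => qq k (c ω) (d ω))
    (fun ω t => qq k (c ω) t) F.hp F.hq
    (fun ω u => gap L (Ico P (Λ * P))
        ((P:ℝ) ^ n * (L / (2 * C0 * k * ((Λ * P : ℕ) : ℝ) ^ (k - 1))))
        ((n + 1) * (C0 * (2 * (P:ℝ)) ^ k)) (c0 * (((Λ * P : ℕ) : ℝ) / 2) ^ k)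
        (fun i => qq k (c (ω i)) (d (ω i))) u) ?_
    (a := y ^ 16 / Q) (N := Λ * P) (δ := K1 * y ^ 16) (V := V) (Bd := M * P)
    (D := M * lg * ((P:ℝ) ^ 2 / Q)) (n := n + 1) (by simp) (by omega) (by positivity) hVe hV0 ?_
    (by positivity) (by positivity) (by positivity) (by positivity) ?_ ?_ ?_
  · refine hbd.trans (ENNReal.ofReal_le_ofReal ?_)
    have hz0 : 0 < (P:ℝ) ^ (2 * (n + 1)) / Q := by positivity
    -- first term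
    have t1 : 2 * (y ^ 16 / Q) * (L ^ 2 * (V ^ (n + 1) *
        (((n + 1 : ℕ) : ℝ) * (K1 * y ^ 16) * (Λ * P) ^ (n + 1) / (Λ * P)) ^ 2)) ≤
        2 * (L ^ 2 * (V ^ (n + 1) * (((n + 1 : ℕ) : ℝ) * K1 * (Λ:ℝ) ^ n) ^ 2)) *
          ((P:ℝ) ^ (2 * (n + 1)) / Q / y ^ 31) := by
      have e : 2 * (y ^ 16 / Q) * (L ^ 2 * (V ^ (n + 1) *
        (((n + 1 : ℕ) : ℝ) * (K1 * y ^ 16) * (Λ * P) ^ (n + 1) / (Λ * P)) ^ 2)) =
        2 * (L ^ 2 * (V ^ (n + 1) * (((n + 1 : ℕ) : ℝ) * K1 * (Λ:ℝ) ^ n) ^ 2)) *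
          ((P:ℝ) ^ (2 * (n + 1)) / Q * (y ^ 48 / (P:ℝ) ^ 2)) := by
        have e1 : (Λ * (P:ℝ)) ^ (n + 1) / (Λ * P) = (Λ:ℝ) ^ n * P ^ n := by
          rw [pow_succ, mul_div_assoc, div_self (by positivity), mul_one, mul_pow]
        rw [mul_div_assoc, e1]
        have e2 : (P:ℝ) ^ (2 * (n + 1)) = (P ^ n) ^ 2 * P ^ 2 := by ring
        rw [e2]
        field_simp
      rw [e]
      have h1 : y ^ 48 / (P:ℝ) ^ 2 ≤ 1 / y ^ 31 := by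
        rw [div_le_div_iff₀ (by positivity) (by positivity), ← hyP, one_mul, ← pow_add, ← pow_mul]
        exact pow_le_pow_right₀ hy (by norm_num)
      calc _ ≤ 2 * (L ^ 2 * (V ^ (n + 1) * (((n + 1 : ℕ) : ℝ) * K1 * (Λ:ℝ) ^ n) ^ 2)) *
          ((P:ℝ) ^ (2 * (n + 1)) / Q * (1 / y ^ 31)) := by gcongr
        _ = _ := by ring
    have t2 : (M * (P:ℝ)) ^ (n + 1) * L ≤ (M ^ (n + 1) * L) * ((P:ℝ) ^ (2 * (n + 1)) / Q / y ^ 31) := by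
      have h1 : (P:ℝ) ^ (n + 1) ≤ (P:ℝ) ^ (2 * (n + 1)) / Q / y ^ 31 := by
        rw [div_div, le_div_iff₀ (by positivity)]
        have h2 : y ^ 31 ≤ P := by
          rw [← hyP]
          exact pow_le_pow_right₀ hy (by norm_num)
        calc (P:ℝ) ^ (n + 1) * (Q * y ^ 31) ≤ (P:ℝ) ^ (n + 1) * (Q * P) := by gcongr
          _ = (P:ℝ) ^ (n + 1) * P ^ (k + 1) := by rw [hQ]; ring
          _ ≤ (P:ℝ) ^ (n + 1) * P ^ (n + 1) := by
              apply mul_le_mul_of_nonneg_left _ (by positivity)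
              exact pow_le_pow_right₀ hP' (by omega)
          _ = (P:ℝ) ^ (2 * (n + 1)) := by ring
      rw [mul_pow]
      calc M ^ (n + 1) * (P:ℝ) ^ (n + 1) * L = (M ^ (n + 1) * L) * (P:ℝ) ^ (n + 1) := by ring
        _ ≤ _ := by gcongr
    have t3 : 2 * Real.pi * L ^ 2 * (M * lg * ((P:ℝ) ^ 2 / Q)) ^ (n + 1) *
        ((y ^ 16 / Q)⁻¹) ^ (n + 1 - 1) ≤ (2 * Real.pi * L ^ 2 * M ^ (n + 1) * Cl) *
          ((P:ℝ) ^ (2 * (n + 1)) / Q / y ^ 31) := by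
      have e : 2 * Real.pi * L ^ 2 * (M * lg * ((P:ℝ) ^ 2 / Q)) ^ (n + 1) *
          ((y ^ 16 / Q)⁻¹) ^ (n + 1 - 1) = 2 * Real.pi * L ^ 2 * M ^ (n + 1) * lg ^ (n + 1) *
          ((P:ℝ) ^ (2 * (n + 1)) / Q) * (1 / (y ^ 16) ^ n) := by
        rw [Nat.add_sub_cancel, mul_pow, mul_pow, div_pow, inv_div, div_pow]
        have e2 : (P:ℝ) ^ (2 * (n + 1)) = (P ^ 2) ^ (n + 1) := by rw [← pow_mul]
        rw [e2]
        have e3 : Q ^ (n + 1) = Q ^ n * Q := pow_succ _ _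
        rw [e3]
        field_simp
      rw [e]
      have h1 : 1 / (y ^ 16) ^ n ≤ 1 / y ^ 32 := by
        apply one_div_le_one_div_of_le (by positivity)
        rw [← pow_mul]
        exact pow_le_pow_right₀ hy (by omega)
      calc _ ≤ 2 * Real.pi * L ^ 2 * M ^ (n + 1) * (Cl * y) *
          ((P:ℝ) ^ (2 * (n + 1)) / Q) * (1 / y ^ 32) := by gcongr
        _ = _ := by field_simp
    calc _ = 2 * (y ^ 16 / Q) * (L ^ 2 * (V ^ (n + 1) *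
        (((n + 1 : ℕ) : ℝ) * (K1 * y ^ 16) * (Λ * P) ^ (n + 1) / (Λ * P)) ^ 2)) +
        4 * 2 ^ (n + 1) * ((M * (P:ℝ)) ^ (n + 1) * L) + 4 * 2 ^ (n + 1) *
        (2 * Real.pi * L ^ 2 * (M * lg * ((P:ℝ) ^ 2 / Q)) ^ (n + 1) *
        ((y ^ 16 / Q)⁻¹) ^ (n + 1 - 1)) := by ring
      _ ≤ 2 * (L ^ 2 * (V ^ (n + 1) * (((n + 1 : ℕ) : ℝ) * K1 * (Λ:ℝ) ^ n) ^ 2)) *
          ((P:ℝ) ^ (2 * (n + 1)) / Q / y ^ 31) +
        4 * 2 ^ (n + 1) * ((M ^ (n + 1) * L) * ((P:ℝ) ^ (2 * (n + 1)) / Q / y ^ 31)) +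
        4 * 2 ^ (n + 1) * ((2 * Real.pi * L ^ 2 * M ^ (n + 1) * Cl) *
          ((P:ℝ) ^ (2 * (n + 1)) / Q / y ^ 31)) := by gcongr
      _ = _ := by ring
  · -- Jensen
    intro ω u
    simp only [gap]
    split_ifs with hu
    · have := jensen (Measure.pi (fun _ : Fin (n + 1) => nu))
        (fun t => rs L (Ico P (Λ * P)) (fun i => qq k (c (ω i)) (t i)) u)
        (measurable_rq L _ k (fun i => c (ω i)) u)
        (((Ico P (Λ * P)).card : ℝ) ^ Fintype.card (Fin (n + 1)))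
        (fun t => by
          rw [abs_of_nonneg (rs_nonneg _ _ _ _)]
          exact rs_le _ _ _ _)
        ((P:ℝ) ^ n * (L / (2 * C0 * k * ((Λ * P : ℕ) : ℝ) ^ (k - 1))))
        (rs L (Ico P (Λ * P)) (fun i => qq k (c (ω i)) (d (ω i))) u)
        (mean_low hL (by omega) hP (by nlinarith) F.hc0 (fun i => c (ω i)) (fun i => F.cl _)
          (fun i => F.cu _) (by
            have h1 : (1:ℝ) ≤ ((Λ * P : ℕ) : ℝ) ^ k := by
              apply one_le_pow₀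
              have : 1 ≤ Λ * P := by nlinarith
              exact_mod_cast this
            have h2 : (1:ℝ) ≤ k := by exact_mod_cast (by omega : 1 ≤ k)
            calc L ≤ C0 := hLC
              _ = C0 * 1 * 1 := by ring
              _ ≤ _ := by gcongr) hu.1 hu.2)
      exact this
    · simp
  · rw [Nat.card_Ico, ← hΛP]
    exact_mod_cast Nat.sub_le _ _
  · intro α hα ω t
    have h1 := c1 (k := k) (P := P) (M := Λ * P) (c := c ω) (C0 := C0) (F.hc0.le.trans (F.cl ω)) (F.cu ω)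
      (d ω) t α
    refine h1.trans ?_
    rw [hΛP]
    have e1 : (Λ:ℝ) * P * (2 * Real.pi * |α| * (C0 * (k * (Λ * (P:ℝ)) ^ (k - 1)))) =
        K1 * (|α| * Q) := by
      have e2 : (Λ * (P:ℝ)) ^ k = Λ * P * (Λ * (P:ℝ)) ^ (k - 1) := by
        rw [← pow_succ']; congr 1; omega
      have e3 : K1 * (|α| * Q) = 2 * Real.pi * C0 * k * |α| * (Λ * (P:ℝ)) ^ k := by
        rw [hK1, hQ, mul_pow]; ring
      rw [e3, e2]; ring
    rw [e1]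
    gcongr
    rwa [le_div_iff₀ hQ0] at hα
  · intro α hα
    have hα0 : α ≠ 0 := by
      intro h
      rw [h, abs_zero] at hα
      have : 0 < y ^ 16 / Q := by positivity
      linarith
    have h1 := hM1' P hP α hα0
    refine h1.trans ?_
    rw [← hlg, ← hQ]
    have : M1 ≤ M := le_max_left _ _
    gcongr
  · intro α hα
    have hα0 : α ≠ 0 := by
      intro h
      rw [h, abs_zero] at hα
      have : 0 < y ^ 16 / Q := by positivity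
      linarith
    have h1 := hM2' P hP α hα0
    refine h1.trans ?_
    rw [← hlg, ← hQ]
    have : M2 ≤ M := le_max_right _ _
    gcongr

theorem momB {k : ℕ} {μ : Measure ℝ} [IsFiniteMeasure μ] {c d : ℝ → ℝ} {c0 C0 : ℝ}
    (F : Fam k μ c d c0 C0) {n : ℕ} (hn : k ≤ n + 1) (Λ : ℕ) (hΛ : 2 ≤ Λ) {L : ℝ} (hL : 0 < L) :
    ∃ C : ℝ, 0 ≤ C ∧ ∀ P : ℕ, 1 ≤ P → ∀ y : ℝ, 1 ≤ y → y ^ 64 = P →
      ∫⁻ ω, (∫⁻ u : ℝ, ENNReal.ofReal (rs L (Ico P (Λ * P))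
        (fun i => qq k (c (ω i)) (d (ω i))) u ^ 2)) ∂(Measure.pi (fun _ : Fin (n + 1) => μ)) ≤
      ENNReal.ofReal (C * (y * ((P:ℝ) ^ (2 * (n + 1)) / (P:ℝ) ^ k))) := by
  classical
  have hk := F.hk
  have hpi := Real.pi_pos
  obtain ⟨M, hM0, hM'⟩ := F.c2 Λ (by omega)
  obtain ⟨Cl, hCl, hCl'⟩ := log_bound Λ (n + 1) (by omega) (by omega)
  set V : ℝ := (μ Set.univ).toReal with hV
  have hV0 : 0 ≤ V := ENNReal.toReal_nonneg
  have hVe : μ Set.univ ≤ ENNReal.ofReal V := by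
    rw [hV, ENNReal.ofReal_toReal (measure_ne_top _ _)]
  have hΛ' : (0:ℝ) < Λ := by
    have : 0 < Λ := by omega
    exact_mod_cast this
  refine ⟨2 * (L ^ 2 * (V * (Λ:ℝ) ^ 2) ^ (n + 1)) + 2 ^ (n + 1) * (M ^ (n + 1) * L) +
    2 ^ (n + 1) * (2 * Real.pi * L ^ 2 * M ^ (n + 1) * Cl), by positivity, ?_⟩
  intro P hP y hy hyP
  have hP' : (1:ℝ) ≤ P := by exact_mod_cast hP
  have hP0 : (0:ℝ) < P := by linarith
  have hy0 : 0 < y := by linarith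
  set Q : ℝ := (P:ℝ) ^ k with hQ
  have hQ0 : 0 < Q := by positivity
  set lg : ℝ := 1 + Real.log ((Λ * P : ℕ) : ℝ) with hlg
  have hlg0 : 0 ≤ lg := by
    have := Real.log_natCast_nonneg (Λ * P)
    positivity
  have hlgN := hCl' P hP y hy hyP
  rw [← hlg] at hlgN
  have hΛP : ((Λ * P : ℕ) : ℝ) = Λ * P := by push_cast; ring
  have hbd := boundB (ι := Fin (n + 1)) hL (Ico P (Λ * P)) μ (fun ω => qq k (c ω) (d ω)) F.hp
    (a := 1 / Q) (N := Λ * P) (V := V) (Bd := M * P)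
    (D := M * lg * ((P:ℝ) ^ 2 / Q)) (n := n + 1) (by simp) (by omega) (by positivity) hVe hV0 ?_
    (by positivity) (by positivity) ?_
  · refine hbd.trans (ENNReal.ofReal_le_ofReal ?_)
    have hz0 : 0 < (P:ℝ) ^ (2 * (n + 1)) / Q := by positivity
    have hzy : (P:ℝ) ^ (2 * (n + 1)) / Q ≤ y * ((P:ℝ) ^ (2 * (n + 1)) / Q) := by nlinarith
    have t1 : 2 * (1 / Q) * (L ^ 2 * (V * (Λ * (P:ℝ)) ^ 2) ^ (n + 1)) ≤
        2 * (L ^ 2 * (V * (Λ:ℝ) ^ 2) ^ (n + 1)) * (y * ((P:ℝ) ^ (2 * (n + 1)) / Q)) := by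
      have e : 2 * (1 / Q) * (L ^ 2 * (V * (Λ * (P:ℝ)) ^ 2) ^ (n + 1)) =
          2 * (L ^ 2 * (V * (Λ:ℝ) ^ 2) ^ (n + 1)) * ((P:ℝ) ^ (2 * (n + 1)) / Q) := by
        rw [pow_mul, mul_pow (Λ:ℝ) (P:ℝ), ← mul_assoc V, mul_pow _ ((P:ℝ) ^ 2)]
        ring
      rw [e]
      gcongr
    have t2 : (M * (P:ℝ)) ^ (n + 1) * L ≤ (M ^ (n + 1) * L) * (y * ((P:ℝ) ^ (2 * (n + 1)) / Q)) := by
      have h1 : (P:ℝ) ^ (n + 1) ≤ (P:ℝ) ^ (2 * (n + 1)) / Q := by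
        rw [le_div_iff₀ (by positivity)]
        calc (P:ℝ) ^ (n + 1) * Q ≤ (P:ℝ) ^ (n + 1) * P ^ (n + 1) := by
              apply mul_le_mul_of_nonneg_left _ (by positivity)
              exact pow_le_pow_right₀ hP' hn
          _ = (P:ℝ) ^ (2 * (n + 1)) := by ring
      rw [mul_pow]
      calc M ^ (n + 1) * (P:ℝ) ^ (n + 1) * L = (M ^ (n + 1) * L) * (P:ℝ) ^ (n + 1) := by ring
        _ ≤ _ := by
          gcongr
          exact h1.trans hzy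
    have t3 : 2 * Real.pi * L ^ 2 * (M * lg * ((P:ℝ) ^ 2 / Q)) ^ (n + 1) *
        ((1 / Q)⁻¹) ^ (n + 1 - 1) ≤ (2 * Real.pi * L ^ 2 * M ^ (n + 1) * Cl) *
          (y * ((P:ℝ) ^ (2 * (n + 1)) / Q)) := by
      have e : 2 * Real.pi * L ^ 2 * (M * lg * ((P:ℝ) ^ 2 / Q)) ^ (n + 1) *
          ((1 / Q)⁻¹) ^ (n + 1 - 1) = 2 * Real.pi * L ^ 2 * M ^ (n + 1) * lg ^ (n + 1) *
          ((P:ℝ) ^ (2 * (n + 1)) / Q) := by
        rw [Nat.add_sub_cancel, mul_pow, mul_pow, div_pow, inv_div, div_one]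
        have e2 : (P:ℝ) ^ (2 * (n + 1)) = (P ^ 2) ^ (n + 1) := by rw [← pow_mul]
        rw [e2]
        have e3 : Q ^ (n + 1) = Q ^ n * Q := pow_succ _ _
        rw [e3]
        field_simp
      rw [e]
      calc _ ≤ 2 * Real.pi * L ^ 2 * M ^ (n + 1) * (Cl * y) *
          ((P:ℝ) ^ (2 * (n + 1)) / Q) := by gcongr
        _ = _ := by ring
    calc _ = 2 * (1 / Q) * (L ^ 2 * (V * (Λ * (P:ℝ)) ^ 2) ^ (n + 1)) +
        2 ^ (n + 1) * ((M * (P:ℝ)) ^ (n + 1) * L) + 2 ^ (n + 1) *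
        (2 * Real.pi * L ^ 2 * (M * lg * ((P:ℝ) ^ 2 / Q)) ^ (n + 1) *
        ((1 / Q)⁻¹) ^ (n + 1 - 1)) := by ring
      _ ≤ 2 * (L ^ 2 * (V * (Λ:ℝ) ^ 2) ^ (n + 1)) * (y * ((P:ℝ) ^ (2 * (n + 1)) / Q)) +
        2 ^ (n + 1) * ((M ^ (n + 1) * L) * (y * ((P:ℝ) ^ (2 * (n + 1)) / Q))) +
        2 ^ (n + 1) * ((2 * Real.pi * L ^ 2 * M ^ (n + 1) * Cl) *
          (y * ((P:ℝ) ^ (2 * (n + 1)) / Q))) := by gcongr
      _ = _ := by ring
  · rw [Nat.card_Ico, ← hΛP]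
    exact_mod_cast Nat.sub_le _ _
  · intro α hα
    have hα0 : α ≠ 0 := by
      intro h
      rw [h, abs_zero] at hα
      have : 0 < 1 / Q := by positivity
      linarith
    have h1 := hM' P hP α hα0
    refine h1.trans ?_
    rw [← hlg, ← hQ]

end Pool.Agent.X25.MW
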