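import Mathlib
import Pool.Agent.X25.MW.Mom

/-! Borel-Cantelli along the scales `2^j`. -/

set_option autoImplicit false

namespace Pool.Agent.X25.MW
open MeasureTheory Finset Filter

/-- the 64-th root of two -/
noncomputable def rho : ℝ := (2:ℝ) ^ ((64:ℝ)⁻¹)

lemma rho_pow : rho ^ 64 = 2 := by
  have h := Real.rpow_inv_natCast_pow (x := (2:ℝ)) (n := 64) (by norm_num) (by norm_num)
  exact_mod_cast h

lemma one_lt_rho : 1 < rho := by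
  unfold rho
  exact Real.one_lt_rpow (by norm_num) (by norm_num)

lemma rho_pow_pow (j : ℕ) : (rho ^ j) ^ 64 = ((2 ^ j : ℕ) : ℝ) := by
  rw [← pow_mul, mul_comm, pow_mul, rho_pow]
  push_cast
  rfl

lemma one_le_rho_pow (j : ℕ) : 1 ≤ rho ^ j := one_le_pow₀ one_lt_rho.le

lemma borel_cantelli {Z : Type*} [MeasurableSpace Z] (π : Measure Z) (f : ℕ → Z → ENNReal)
    (hf : ∀ j, Measurable (f j)) (e : ℕ → ℝ) (he : ∀ j, 0 < e j) (C : ℝ)
    (h : ∀ j, ∫⁻ z, f j z ∂π ≤ ENNReal.ofReal (C * (e j / rho ^ j))) :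
    ∀ᵐ z ∂π, ∀ᶠ j in atTop, f j z < ENNReal.ofReal (e j) := by
  have hrho := one_lt_rho
  set s : ℕ → Set Z := fun j => {z | ENNReal.ofReal (e j) ≤ f j z} with hs
  have h1 : ∀ j, π (s j) ≤ ENNReal.ofReal (C * (rho⁻¹) ^ j) := by
    intro j
    have he0 : ENNReal.ofReal (e j) ≠ 0 := by
      simp only [ne_eq, ENNReal.ofReal_eq_zero, not_le]
      exact he j
    refine (meas_ge_le_lintegral_div (hf j).aemeasurable he0 ENNReal.ofReal_ne_top).trans ?_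
    refine (ENNReal.div_le_div_right (h j) _).trans ?_
    rw [← ENNReal.ofReal_div_of_pos (he j)]
    apply ENNReal.ofReal_le_ofReal
    apply le_of_eq
    have := he j
    have h3 : 0 < rho ^ j := by positivity
    rw [inv_pow]
    field_simp
  have hsum : ∑' j, π (s j) ≠ ⊤ := by
    apply ne_top_of_le_ne_top _ (ENNReal.tsum_le_tsum h1)
    apply Summable.tsum_ofReal_ne_top
    apply Summable.mul_left
    apply summable_geometric_of_lt_one (by positivity)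
    exact inv_lt_one_of_one_lt₀ hrho
  filter_upwards [ae_eventually_notMem hsum] with z hz
  filter_upwards [hz] with j hj
  simp only [hs, Set.mem_setOf_eq, not_le] at hj
  exact hj

lemma measurable_gap {Z : Type*} [MeasurableSpace Z] {ι : Type*} [Fintype ι] [DecidableEq ι]
    (L : ℝ) (B : Finset ℕ) (κ u1 u2 : ℝ) (p : Z → ι → ℕ → ℝ)
    (hp : ∀ i x, Measurable (fun z => p z i x)) :
    Measurable (fun w : Z × ℝ => gap L B κ u1 u2 (p w.1) w.2) := by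
  unfold gap
  apply Measurable.ite
  · have : MeasurableSet {w : Z × ℝ | w.2 ∈ Set.Icc u1 u2} :=
      measurable_snd measurableSet_Icc
    exact this
  · exact measurable_const.max (measurable_const.sub (measurable_rs L B p hp))
  · exact measurable_const

lemma Fam.hpi {k : ℕ} {μ : Measure ℝ} {c d : ℝ → ℝ} {c0 C0 : ℝ} (F : Fam k μ c d c0 C0) {n : ℕ}
    (i : Fin (n + 1)) (x : ℕ) :
    Measurable (fun ω : Fin (n + 1) → ℝ => qq k (c (ω i)) (d (ω i)) x) := by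
  have h0 := F.hp x
  have h5 : Measurable (fun t : Fin (n + 1) → ℝ => t i) := measurable_pi_apply i
  exact h0.comp h5

theorem aeA {k : ℕ} {μ : Measure ℝ} [IsFiniteMeasure μ] {c d : ℝ → ℝ} {c0 C0 : ℝ}
    (F : Fam k μ c d c0 C0) {n : ℕ} (hn : k ≤ n) (Λ : ℕ) (hΛ : 2 ≤ Λ) {L : ℝ} (hL : 0 < L)
    (hLC : L ≤ C0) :
    ∀ᵐ ω ∂(Measure.pi (fun _ : Fin (n + 1) => μ)), ∀ᶠ j : ℕ in atTop,
      ∫⁻ u : ℝ, ENNReal.ofReal (gap L (Ico (2 ^ j) (Λ * 2 ^ j))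
        (((2 ^ j : ℕ):ℝ) ^ n * (L / (2 * C0 * k * ((Λ * 2 ^ j : ℕ) : ℝ) ^ (k - 1))))
        ((n + 1) * (C0 * (2 * ((2 ^ j : ℕ):ℝ)) ^ k)) (c0 * (((Λ * 2 ^ j : ℕ) : ℝ) / 2) ^ k)
        (fun i => qq k (c (ω i)) (d (ω i))) u ^ 2) <
      ENNReal.ofReal (((2 ^ j : ℕ):ℝ) ^ (2 * (n + 1)) / ((2 ^ j : ℕ):ℝ) ^ k / (rho ^ j) ^ 16) := by
  obtain ⟨C, hC, h⟩ := momA F hn Λ hΛ hL hLC
  have hrho := one_lt_rho
  apply borel_cantelli (Measure.pi (fun _ : Fin (n + 1) => μ)) (fun j ω =>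
      ∫⁻ u : ℝ, ENNReal.ofReal (gap L (Ico (2 ^ j) (Λ * 2 ^ j))
        (((2 ^ j : ℕ):ℝ) ^ n * (L / (2 * C0 * k * ((Λ * 2 ^ j : ℕ) : ℝ) ^ (k - 1))))
        ((n + 1) * (C0 * (2 * ((2 ^ j : ℕ):ℝ)) ^ k)) (c0 * (((Λ * 2 ^ j : ℕ) : ℝ) / 2) ^ k)
        (fun i => qq k (c (ω i)) (d (ω i))) u ^ 2)) ?_
      (fun j => ((2 ^ j : ℕ):ℝ) ^ (2 * (n + 1)) / ((2 ^ j : ℕ):ℝ) ^ k / (rho ^ j) ^ 16) ?_ C
  · intro j
    have hj : (1:ℝ) ≤ rho ^ j := one_le_rho_pow j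
    have h2 : (0:ℝ) < ((2 ^ j : ℕ):ℝ) := by positivity
    refine (h (2 ^ j) (Nat.one_le_two_pow) (rho ^ j) hj (rho_pow_pow j)).trans ?_
    apply ENNReal.ofReal_le_ofReal
    apply mul_le_mul_of_nonneg_left _ hC
    have hz : 0 < ((2 ^ j : ℕ):ℝ) ^ (2 * (n + 1)) / ((2 ^ j : ℕ):ℝ) ^ k := by positivity
    rw [div_div (((2 ^ j : ℕ):ℝ) ^ (2 * (n + 1)) / ((2 ^ j : ℕ):ℝ) ^ k)]
    apply div_le_div_of_nonneg_left hz.le (by positivity)
    rw [← pow_succ]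
    exact pow_le_pow_right₀ hj (by norm_num)
  · intro j
    have := (ENNReal.measurable_ofReal.comp ((measurable_gap (Z := Fin (n + 1) → ℝ) L (Ico (2 ^ j) (Λ * 2 ^ j))
        (((2 ^ j : ℕ):ℝ) ^ n * (L / (2 * C0 * k * ((Λ * 2 ^ j : ℕ) : ℝ) ^ (k - 1))))
        ((n + 1) * (C0 * (2 * ((2 ^ j : ℕ):ℝ)) ^ k)) (c0 * (((Λ * 2 ^ j : ℕ) : ℝ) / 2) ^ k)
        (fun ω i => qq k (c (ω i)) (d (ω i))) (fun i x => F.hpi i x)).pow_const 2)).lintegral_prod_right'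
      (ν := (volume : Measure ℝ))
    exact this
  · intro j
    have h2 : (0:ℝ) < ((2 ^ j : ℕ):ℝ) := by positivity
    have h3 : 0 < rho := by linarith
    positivity

theorem aeB {k : ℕ} {μ : Measure ℝ} [IsFiniteMeasure μ] {c d : ℝ → ℝ} {c0 C0 : ℝ}
    (F : Fam k μ c d c0 C0) {n : ℕ} (hn : k ≤ n + 1) (Λ : ℕ) (hΛ : 2 ≤ Λ) {L : ℝ} (hL : 0 < L) :
    ∀ᵐ ω ∂(Measure.pi (fun _ : Fin (n + 1) => μ)), ∀ᶠ j : ℕ in atTop,
      ∫⁻ u : ℝ, ENNReal.ofReal (rs L (Ico (2 ^ j) (Λ * 2 ^ j))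
        (fun i => qq k (c (ω i)) (d (ω i))) u ^ 2) <
      ENNReal.ofReal ((rho ^ j) ^ 4 * (((2 ^ j : ℕ):ℝ) ^ (2 * (n + 1)) / ((2 ^ j : ℕ):ℝ) ^ k)) := by
  obtain ⟨C, hC, h⟩ := momB F hn Λ hΛ hL
  have hrho := one_lt_rho
  apply borel_cantelli (Measure.pi (fun _ : Fin (n + 1) => μ)) (fun j ω =>
      ∫⁻ u : ℝ, ENNReal.ofReal (rs L (Ico (2 ^ j) (Λ * 2 ^ j))
        (fun i => qq k (c (ω i)) (d (ω i))) u ^ 2)) ?_
      (fun j => (rho ^ j) ^ 4 * (((2 ^ j : ℕ):ℝ) ^ (2 * (n + 1)) / ((2 ^ j : ℕ):ℝ) ^ k)) ?_ C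
  · intro j
    have hj : (1:ℝ) ≤ rho ^ j := one_le_rho_pow j
    have hj0 : (0:ℝ) < rho ^ j := by linarith
    have h2 : (0:ℝ) < ((2 ^ j : ℕ):ℝ) := by positivity
    refine (h (2 ^ j) (Nat.one_le_two_pow) (rho ^ j) hj (rho_pow_pow j)).trans ?_
    apply ENNReal.ofReal_le_ofReal
    apply mul_le_mul_of_nonneg_left _ hC
    have hz : 0 < ((2 ^ j : ℕ):ℝ) ^ (2 * (n + 1)) / ((2 ^ j : ℕ):ℝ) ^ k := by positivity
    rw [mul_div_right_comm]
    apply mul_le_mul_of_nonneg_right _ hz.le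
    rw [le_div_iff₀ hj0, ← sq]
    exact pow_le_pow_right₀ hj (by norm_num)
  · intro j
    have := (ENNReal.measurable_ofReal.comp ((measurable_rs (Z := Fin (n + 1) → ℝ) L (Ico (2 ^ j) (Λ * 2 ^ j))
        (fun ω i => qq k (c (ω i)) (d (ω i))) (fun i x => F.hpi i x)).pow_const 2)).lintegral_prod_right'
      (ν := (volume : Measure ℝ))
    exact this
  · intro j
    have h2 : (0:ℝ) < ((2 ^ j : ℕ):ℝ) := by positivity
    have h3 : 0 < rho := by linarith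
    positivity

/-- almost everywhere statements for two blocks of coordinates -/
lemma ae_blocks (μ : Measure ℝ) [SigmaFinite μ] (m n : ℕ) (A : (Fin m → ℝ) → Prop)
    (B : (Fin n → ℝ) → Prop) (hA : ∀ᵐ ω ∂(Measure.pi (fun _ : Fin m => μ)), A ω)
    (hB : ∀ᵐ ω ∂(Measure.pi (fun _ : Fin n => μ)), B ω) :
    ∀ᵐ ω ∂(Measure.pi (fun _ : Fin (m + n) => μ)), A (fun i => ω (Fin.castAdd n i)) ∧
      B (fun i => ω (Fin.natAdd m i)) := by
  have mp1 := (measurePreserving_piCongrLeft (fun _ : Fin (m + n) => μ) (finSumFinEquiv (m := m) (n := n))).symm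
  have mp2 := measurePreserving_sumPiEquivProdPi (fun _ : Fin m ⊕ Fin n => μ)
  have mp := mp2.comp mp1
  have h1 : ∀ᵐ z ∂((Measure.pi (fun _ : Fin m => μ)).prod (Measure.pi (fun _ : Fin n => μ))), A z.1 :=
    Measure.quasiMeasurePreserving_fst.ae hA
  have h2 : ∀ᵐ z ∂((Measure.pi (fun _ : Fin m => μ)).prod (Measure.pi (fun _ : Fin n => μ))), B z.2 :=
    Measure.quasiMeasurePreserving_snd.ae hB
  have h3 := mp.quasiMeasurePreserving.ae (h1.and h2)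
  filter_upwards [h3] with ω hω
  exact hω

end Pool.Agent.X25.MW
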