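import Mathlib
import Pool.Agent.X25.MW.Bound
import Pool.Agent.X25.MW.Alpha2

/-! The two second moment bounds, general exponent. -/

set_option autoImplicit false

namespace Pool.Agent.X25.MW
open MeasureTheory Finset

variable {ι : Type*} [Fintype ι] [DecidableEq ι]

theorem boundA2 {L : ℝ} (hL : 0 < L) (B : Finset ℕ) (μ ν : Measure ℝ) [IsFiniteMeasure μ]
    [IsProbabilityMeasure ν] (p : ℝ → ℕ → ℝ) (q : ℝ → ℝ → ℕ → ℝ)
    (hp : ∀ x, Measurable (fun z => p z x))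
    (hq : ∀ x, Measurable (fun z : ℝ × ℝ => q z.1 z.2 x)) (g : (ι → ℝ) → ℝ → ℝ)
    (hg : ∀ ω u, ENNReal.ofReal (g ω u ^ 2) ≤ ∫⁻ t, ENNReal.ofReal
      ((rs L B (fun i => p (ω i)) u - rs L B (fun i => q (ω i) (t i)) u) ^ 2)
        ∂(Measure.pi (fun _ : ι => ν)))
    {a N δ V Bd D e : ℝ} {n : ℕ} (hn : Fintype.card ι = n) (hn2 : 2 ≤ e * n) (ha : 0 < a)
    (hV : μ Set.univ ≤ ENNReal.ofReal V) (hV0 : 0 ≤ V) (hN : (B.card : ℝ) ≤ N) (hN0 : 0 < N)
    (hδ0 : 0 ≤ δ) (hB : 0 ≤ Bd) (hD : 0 ≤ D)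
    (hδ : ∀ α, |α| ≤ a → ∀ ω t, ‖fs B (p ω) α - fs B (q ω t) α‖ ≤ δ)
    (h3 : ∀ α, a < |α| → ∫ ω, ‖fs B (p ω) α‖ ^ 2 ∂μ ≤ Bd + D * (|α|⁻¹) ^ e)
    (h4 : ∀ α, a < |α| → ∫ ω, ∫ t, ‖fs B (q ω t) α‖ ^ 2 ∂ν ∂μ ≤ Bd + D * (|α|⁻¹) ^ e) :
    ∫⁻ ω, (∫⁻ u : ℝ, ENNReal.ofReal (g ω u ^ 2)) ∂(Measure.pi (fun _ : ι => μ)) ≤
      ENNReal.ofReal (2 * a * (L ^ 2 * (V ^ n * (n * δ * N ^ n / N) ^ 2)) +
        4 * 2 ^ n * (Bd ^ n * L + 2 * Real.pi * L ^ 2 * D ^ n * (a⁻¹) ^ (e * n - 1))) := by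
  classical
  refine (chainA hL B μ ν p q hp hq g hg).trans ?_
  refine le_trans ?_ (alpha_bound2 (n := n) (e := e) hL ha (A := V ^ n * (n * δ * N ^ n / N) ^ 2) (C := 4)
    (by positivity) (by norm_num) hB hD hn2 (fun α => if |α| ≤ a then V ^ n * (n * δ * N ^ n / N) ^ 2
      else 4 * (Bd + D * (|α|⁻¹) ^ e) ^ n) ?_ ?_)
  · apply lintegral_mono
    intro α
    by_cases hα : |α| ≤ a
    · simp only [hα, if_true]
      have := small_bound (ι := ι) (L := L) B μ ν p q α N δ V hV hV0 hN hN0 hδ0 (hδ α hα)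
      rwa [hn] at this
    · simp only [hα, if_false]
      rw [not_le] at hα
      have := large_bound (ι := ι) (L := L) B μ ν p q hp hq α _ (h3 α hα) (h4 α hα)
      rwa [hn] at this
  · intro α hα
    simp only [hα, if_true, le_refl]
  · intro α hα
    simp only [not_le.2 hα, if_false, le_refl]

theorem boundB2 {L : ℝ} (hL : 0 < L) (B : Finset ℕ) (μ : Measure ℝ) [IsFiniteMeasure μ]
    (p : ℝ → ℕ → ℝ) (hp : ∀ x, Measurable (fun z => p z x))
    {a N V Bd D e : ℝ} {n : ℕ} (hn : Fintype.card ι = n) (hn2 : 2 ≤ e * n) (ha : 0 < a)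
    (hV : μ Set.univ ≤ ENNReal.ofReal V) (hV0 : 0 ≤ V) (hN : (B.card : ℝ) ≤ N)
    (hB : 0 ≤ Bd) (hD : 0 ≤ D)
    (h3 : ∀ α, a < |α| → ∫ ω, ‖fs B (p ω) α‖ ^ 2 ∂μ ≤ Bd + D * (|α|⁻¹) ^ e) :
    ∫⁻ ω, (∫⁻ u : ℝ, ENNReal.ofReal (rs L B (fun i => p (ω i)) u ^ 2)) ∂(Measure.pi (fun _ : ι => μ)) ≤
      ENNReal.ofReal (2 * a * (L ^ 2 * (V * N ^ 2) ^ n) +
        1 * 2 ^ n * (Bd ^ n * L + 2 * Real.pi * L ^ 2 * D ^ n * (a⁻¹) ^ (e * n - 1))) := by
  classical
  have hN0 : 0 ≤ N := le_trans (Nat.cast_nonneg _) hN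
  have hmp : ∀ α, Measurable (fun ω => ‖fs B (p ω) α‖ ^ 2) := by
    intro α
    apply Measurable.pow_const
    apply Measurable.norm
    exact (measurable_fs (Z := ℝ) B p hp).comp (measurable_id.prodMk measurable_const)
  have hb : ∀ (r : ℕ → ℝ) α, ‖fs B r α‖ ^ 2 ≤ N ^ 2 := by
    intro r α
    gcongr
    exact (fs_norm_le _ _ _).trans hN
  have hint : ∀ α, Integrable (fun ω => ‖fs B (p ω) α‖ ^ 2) μ := by
    intro α
    refine Integrable.of_bound (C := N ^ 2) (hmp α).aestronglyMeasurable ?_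
    refine Filter.Eventually.of_forall fun x => ?_
    rw [Real.norm_eq_abs, abs_of_nonneg (by positivity)]
    exact hb _ _
  have h1 : ∀ ω : ι → ℝ, ∫⁻ u : ℝ, ENNReal.ofReal (rs L B (fun i => p (ω i)) u ^ 2) =
      ∫⁻ α : ℝ, ENNReal.ofReal (th L α * ∏ i, ‖fs B (p (ω i)) α‖ ^ 2) := by
    intro ω
    rw [← ofReal_integral_eq_lintegral_ofReal, parseval_one hL, ofReal_integral_eq_lintegral_ofReal]
    · apply lintegral_congr
      intro α
      rw [prod_norm_sq]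
    · have := th_prod_integrable (L := L) B (fun i => p (ω i)) (fun i => p (ω i)) 0
      simpa using this
    · exact Filter.Eventually.of_forall fun α => mul_nonneg (th_nonneg _ _) (by positivity)
    · have i1 := rs_integrable L B (fun i => p (ω i))
      have i3 : Integrable (fun u => rs L B (fun i => p (ω i)) u * rs L B (fun i => p (ω i)) u) := by
        refine i1.bdd_mul (c := (B.card : ℝ) ^ Fintype.card ι) i1.aestronglyMeasurable ?_
        refine Filter.Eventually.of_forall fun u => ?_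
        rw [Real.norm_eq_abs, abs_of_nonneg (rs_nonneg _ _ _ _)]
        exact rs_le _ _ _ _
      refine i3.congr (Filter.Eventually.of_forall fun u => ?_)
      simp only
      ring
    · exact Filter.Eventually.of_forall fun α => by positivity
  simp_rw [h1]
  have hm : Measurable (fun w : (ι → ℝ) × ℝ =>
      ENNReal.ofReal (th L w.2 * ∏ i, ‖fs B (p (w.1 i)) w.2‖ ^ 2)) := by
    apply ENNReal.measurable_ofReal.comp
    apply Measurable.mul
    · exact (th_continuous L).measurable.comp measurable_snd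
    · apply Finset.measurable_prod
      intro i _
      apply Measurable.pow_const
      apply Measurable.norm
      have := measurable_fs (Z := (ι → ℝ)) B (fun ω => p (ω i)) (fun x => (hp x).comp (measurable_pi_apply i))
      exact this
  rw [lintegral_lintegral_swap hm.aemeasurable]
  refine le_trans ?_ (alpha_bound2 (n := n) (e := e) hL ha (A := (V * N ^ 2) ^ n) (C := 1)
    (by positivity) (by norm_num) hB hD hn2 (fun α => if |α| ≤ a then (V * N ^ 2) ^ n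
      else 1 * (Bd + D * (|α|⁻¹) ^ e) ^ n) ?_ ?_)
  · apply lintegral_mono
    intro α
    simp only
    have e1 : ∫⁻ ω, ENNReal.ofReal (th L α * ∏ i, ‖fs B (p (ω i)) α‖ ^ 2)
        ∂(Measure.pi (fun _ : ι => μ)) =
        ENNReal.ofReal (th L α * (∫ ω, ‖fs B (p ω) α‖ ^ 2 ∂μ) ^ n) := by
      simp_rw [ENNReal.ofReal_mul (th_nonneg L α)]
      rw [lintegral_const_mul' _ _ ENNReal.ofReal_ne_top,
        lintegral_prod_pi μ (fun ω => ‖fs B (p ω) α‖ ^ 2) (hint α) (fun _ => by positivity), hn]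
    rw [e1]
    apply ENNReal.ofReal_le_ofReal
    apply mul_le_mul_of_nonneg_left _ (th_nonneg L α)
    have n1 : 0 ≤ ∫ ω, ‖fs B (p ω) α‖ ^ 2 ∂μ := integral_nonneg fun ω => by positivity
    split_ifs with hα
    · gcongr
      calc ∫ ω, ‖fs B (p ω) α‖ ^ 2 ∂μ ≤ ∫ ω, N ^ 2 ∂μ :=
            integral_mono (hint α) (integrable_const _) (fun ω => hb _ _)
        _ = μ.real Set.univ * N ^ 2 := by simp
        _ ≤ V * N ^ 2 := by
            gcongr
            rw [Measure.real]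
            exact ENNReal.toReal_le_of_le_ofReal hV0 hV
    · rw [not_le] at hα
      rw [one_mul]
      gcongr
      exact h3 α hα
  · intro α hα
    simp only [hα, if_true, le_refl]
  · intro α hα
    simp only [not_le.2 hα, if_false, le_refl]

end Pool.Agent.X25.MW
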