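import Mathlib
import Pool.Agent.X25.MW.Mom

/-! Random coefficients. -/

set_option autoImplicit false

namespace Pool.Agent.X25.MW
open MeasureTheory Finset

lemma coef_bound {k P Λ : ℕ} {c0 C0 : ℝ} (hk : 1 ≤ k) (hP : 1 ≤ P) (hΛ : 1 ≤ Λ) (h0 : c0 ≤ C0)
    (t α : ℝ) (hα : α ≠ 0) :
    ∫ ω, ‖fs (Ico P (Λ * P)) (qq k (clamp c0 C0 ω) t) α‖ ^ 2 ∂(volume.restrict (Set.Icc c0 C0)) ≤
      ((C0 - c0) * Λ + Λ) * P + ((C0 - c0) * Λ + Λ) * (1 + Real.log ((Λ * P : ℕ) : ℝ)) *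
        ((P:ℝ) ^ 2 / (P:ℝ) ^ k) / |α| := by
  have h := c2_coef (k := k) (P := P) (M := Λ * P) hk hP (Nat.mul_pos hΛ hP) h0 t α hα
  refine h.trans ?_
  have hα0 : 0 < |α| := abs_pos.2 hα
  have hP0 : (0:ℝ) < P := by exact_mod_cast hP
  have hΛ0 : (0:ℝ) < Λ := by exact_mod_cast hΛ
  have hd : 0 ≤ C0 - c0 := by linarith
  have hlog : 0 ≤ Real.log ((Λ * P : ℕ) : ℝ) := Real.log_natCast_nonneg _
  have hΛP : ((Λ * P : ℕ) : ℝ) = Λ * P := by push_cast; ring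
  have t1 : (C0 - c0) * ((Λ * P : ℕ) : ℝ) ≤ ((C0 - c0) * Λ + Λ) * P := by
    rw [hΛP]
    have : 0 ≤ (Λ:ℝ) * P := by positivity
    nlinarith
  have t2 : ((Λ * P : ℕ) : ℝ) * (2 * (1 + Real.log ((Λ * P : ℕ) : ℝ))) /
      (Real.pi * |α| * (P:ℝ) ^ (k - 1)) ≤ ((C0 - c0) * Λ + Λ) * (1 + Real.log ((Λ * P : ℕ) : ℝ)) *
        ((P:ℝ) ^ 2 / (P:ℝ) ^ k) / |α| := by
    have e1 : ((Λ * P : ℕ) : ℝ) * (2 * (1 + Real.log ((Λ * P : ℕ) : ℝ))) /
      (Real.pi * |α| * (P:ℝ) ^ (k - 1)) = (2 / Real.pi) * (Λ * (1 + Real.log ((Λ * P : ℕ) : ℝ)) *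
        ((P:ℝ) ^ 2 / (P:ℝ) ^ k) / |α|) := by
      have e2 : (P:ℝ) ^ k = P ^ (k - 1) * P := by
        rw [← pow_succ]; congr 1; omega
      rw [hΛP, e2]
      field_simp
    rw [e1]
    have hpi := Real.pi_gt_three
    have h2 : 2 / Real.pi ≤ 1 := by
      rw [div_le_one (by linarith)]; linarith
    have h3 : 0 ≤ (Λ * (1 + Real.log ((Λ * P : ℕ) : ℝ)) * ((P:ℝ) ^ 2 / (P:ℝ) ^ k) / |α|) := by positivity
    calc (2 / Real.pi) * (Λ * (1 + Real.log ((Λ * P : ℕ) : ℝ)) * ((P:ℝ) ^ 2 / (P:ℝ) ^ k) / |α|) ≤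
          1 * (Λ * (1 + Real.log ((Λ * P : ℕ) : ℝ)) * ((P:ℝ) ^ 2 / (P:ℝ) ^ k) / |α|) := by gcongr
      _ ≤ _ := by
          rw [one_mul]
          have : (Λ:ℝ) ≤ (C0 - c0) * Λ + Λ := by nlinarith
          gcongr
  linarith

/-- the mean square over `c` of an average over `t` -/
lemma swap_bound (μ : Measure ℝ) [IsFiniteMeasure μ] (B : Finset ℕ) (k : ℕ) (c : ℝ → ℝ)
    (hc : Measurable c) (α X : ℝ) (h : ∀ t, ∫ ω, ‖fs B (qq k (c ω) t) α‖ ^ 2 ∂μ ≤ X) :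
    ∫ ω, ∫ t, ‖fs B (qq k (c ω) t) α‖ ^ 2 ∂nu ∂μ ≤ X := by
  have hm : Measurable (fun z : ℝ × ℝ => ‖fs B (qq k (c z.1) z.2) α‖ ^ 2) := by
    apply Measurable.pow_const
    apply Measurable.norm
    have h1 := measurable_fs (Z := ℝ × ℝ) B (fun z => qq k (c z.1) z.2) (fun x => by
      unfold qq
      exact (hc.comp measurable_fst).mul
        ((measurable_const.add ((clamp_measurable 0 1).comp measurable_snd)).pow_const k))
    exact h1.comp (measurable_id.prodMk measurable_const)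
  have hi : Integrable (fun z : ℝ × ℝ => ‖fs B (qq k (c z.1) z.2) α‖ ^ 2) (μ.prod nu) := by
    refine Integrable.of_bound (C := (B.card : ℝ) ^ 2) hm.aestronglyMeasurable ?_
    refine Filter.Eventually.of_forall fun z => ?_
    rw [Real.norm_eq_abs, abs_of_nonneg (by positivity)]
    gcongr
    exact fs_norm_le _ _ _
  rw [integral_integral_swap (f := fun ω t => ‖fs B (qq k (c ω) t) α‖ ^ 2) hi]
  calc ∫ t, ∫ ω, ‖fs B (qq k (c ω) t) α‖ ^ 2 ∂μ ∂nu ≤ ∫ t, X ∂nu := by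
        apply integral_mono _ (integrable_const X) h
        exact hi.integral_prod_right
    _ = X := by simp

/-- random coefficients in `[c0, C0]`, no shift -/
theorem famCoef {k : ℕ} (hk : 2 ≤ k) {c0 C0 : ℝ} (hc0 : 0 < c0) (hC0 : c0 ≤ C0) :
    Fam k (volume.restrict (Set.Icc c0 C0)) (clamp c0 C0) (fun _ => 0) c0 C0 where
  hk := hk
  hc0 := hc0
  cm := clamp_measurable _ _
  dm := measurable_const
  cl := le_clamp _ _
  cu := clamp_le hC0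
  c2 := by
    intro Λ hΛ
    have hd : 0 ≤ C0 - c0 := by linarith
    refine ⟨(C0 - c0) * Λ + Λ, by positivity, fun P hP α hα => ?_⟩
    exact coef_bound (by omega) hP hΛ hC0 0 α hα
  c2' := by
    intro Λ hΛ
    have hd : 0 ≤ C0 - c0 := by linarith
    refine ⟨(C0 - c0) * Λ + Λ, by positivity, fun P hP α hα => ?_⟩
    exact swap_bound _ _ k _ (clamp_measurable _ _) α _
      (fun t => coef_bound (by omega) hP hΛ hC0 t α hα)

end Pool.Agent.X25.MW
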