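import Mathlib
import Pool.Agent.X25.MW.FamCoef
import Pool.Agent.Helper276.VdC

/-! Random shifts. -/

set_option autoImplicit false

namespace Pool.Agent.X25.MW
open MeasureTheory Finset

/-- symmetric double sums -/
lemma sym_sum (F : ℕ → ℕ → ℝ) (hF : ∀ x y, F x y = F y x) (P M : ℕ) :
    ∑ x ∈ Ico P M, ∑ y ∈ Ico P M, F x y =
      ∑ x ∈ Ico P M, F x x + 2 * ∑ y ∈ Ico P M, ∑ x ∈ Ico (y + 1) M, F x y := by
  have h1 : ∀ x ∈ Ico P M, ∑ y ∈ Ico P M, F x y =
      F x x + ∑ y ∈ Ico P x, F x y + ∑ y ∈ Ico (x + 1) M, F y x := by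
    intro x hx
    rw [mem_Ico] at hx
    rw [← Finset.sum_Ico_consecutive (fun y => F x y) hx.1 hx.2.le,
      Finset.sum_eq_sum_Ico_succ_bot hx.2 (fun y => F x y)]
    rw [Finset.sum_congr rfl (fun y _ => hF x y : ∀ y ∈ Ico (x + 1) M, F x y = F y x)]
    ring
  have h2 : ∑ x ∈ Ico P M, ∑ y ∈ Ico P x, F x y = ∑ y ∈ Ico P M, ∑ x ∈ Ico (y + 1) M, F x y := by
    apply Finset.sum_comm'
    intro x y
    simp only [mem_Ico]
    omega
  rw [sum_congr rfl h1, sum_add_distrib, sum_add_distrib, h2]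
  ring

lemma diag_sum (F : ℕ → ℕ → ℝ) (P M : ℕ) :
    ∑ y ∈ Ico P M, ∑ x ∈ Ico (y + 1) M, F x y = ∑ h ∈ Ico 1 M, ∑ y ∈ Ico P (M - h), F (y + h) y := by
  have h1 : ∀ y ∈ Ico P M, ∑ x ∈ Ico (y + 1) M, F x y = ∑ h ∈ Ico 1 (M - y), F (y + h) y := by
    intro y hy
    rw [mem_Ico] at hy
    have := Finset.sum_Ico_add (fun x => F x y) 1 (M - y) y
    rw [add_comm 1 y, Nat.sub_add_cancel hy.2.le] at this
    rw [← this]
  rw [sum_congr rfl h1]
  apply Finset.sum_comm'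
  intro x y
  simp only [mem_Ico]
  omega

lemma phase_bound {k h : ℕ} (hk : 2 ≤ k) (hh : 1 ≤ h) {P M : ℝ} (hP : 1 ≤ P) (hPM : P ≤ M) {b : ℝ}
    (hb : 0 < b) : ∫ Y in P..M, Real.cos (b * ((Y + h) ^ k - Y ^ k)) ≤
      4 / (b * (k * (h * P ^ (k - 2)))) := by
  obtain ⟨m, rfl⟩ : ∃ m, k = m + 2 := ⟨k - 2, by omega⟩
  have hh0 : (0:ℝ) < h := by exact_mod_cast hh
  have hh1 : (1:ℝ) ≤ h := by exact_mod_cast hh
  have hP0 : 0 < P := by linarith
  set ψ : ℝ → ℝ := fun Y => b * ((Y + h) ^ (m + 2) - Y ^ (m + 2)) with hψ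
  set ψ1 : ℝ → ℝ := fun Y => b * (((m + 2 : ℕ) : ℝ) * ((Y + h) ^ (m + 1) - Y ^ (m + 1))) with hψ1
  set ψ2 : ℝ → ℝ := fun Y => b * (((m + 2 : ℕ) : ℝ) * (((m + 1 : ℕ) : ℝ) * ((Y + h) ^ m - Y ^ m))) with hψ2
  have d1 : ∀ Y ∈ Set.Icc P M, HasDerivAt ψ (ψ1 Y) Y := by
    intro Y _
    have h1 := ((((hasDerivAt_id Y).add_const (h:ℝ)).pow (m + 2)).sub ((hasDerivAt_id Y).pow (m + 2))).const_mul b
    convert! h1 using 1
    simp only [hψ1, id, Nat.add_sub_cancel, mul_one, Nat.add_succ_sub_one]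
    ring
  have d2 : ∀ Y ∈ Set.Icc P M, HasDerivAt ψ1 (ψ2 Y) Y := by
    intro Y _
    have h1 := (((((hasDerivAt_id Y).add_const (h:ℝ)).pow (m + 1)).sub
      ((hasDerivAt_id Y).pow (m + 1))).const_mul (((m + 2 : ℕ) : ℝ))).const_mul b
    convert! h1 using 1
    simp only [hψ2, id, Nat.add_sub_cancel, mul_one]
    ring
  have d3 : ContinuousOn ψ2 (Set.Icc P M) := by
    apply Continuous.continuousOn
    simp only [hψ2]
    fun_prop
  have d4 : ∀ Y ∈ Set.Icc P M, 0 ≤ ψ2 Y := by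
    intro Y hY
    simp only [hψ2]
    have hY0 : 0 ≤ Y := by linarith [hY.1]
    have : Y ^ m ≤ (Y + h) ^ m := by
      gcongr
      linarith
    have h2 : 0 ≤ (Y + h) ^ m - Y ^ m := by linarith
    positivity
  have d5 : ∀ Y ∈ Set.Icc P M, b * (((m + 2 : ℕ) : ℝ) * (h * P ^ m)) ≤ |ψ1 Y| := by
    intro Y hY
    refine le_trans ?_ (le_abs_self _)
    simp only [hψ1]
    have h3 := pow_sub_ge (X := Y) (Y := Y + h) (P := P) hP0.le hY.1 (by linarith) (k := m + 1) (by omega)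
    simp only [Nat.add_sub_cancel, add_sub_cancel_left] at h3
    gcongr
  have ht := Pool.Agent.Helper276.VdC.first_test hPM (by positivity) d1 d2 d3 d4 d5
  have e1 : ∫ Y in P..M, Real.cos (b * ((Y + h) ^ (m + 2) - Y ^ (m + 2))) =
      (∫ Y in P..M, Complex.exp (Complex.I * (ψ Y : ℂ))).re := by
    have hi : IntervalIntegrable (fun Y => Complex.exp (Complex.I * (ψ Y : ℂ))) volume P M := by
      apply Continuous.intervalIntegrable
      simp only [hψ]
      fun_prop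
    have h5 := Complex.reCLM.intervalIntegral_comp_comm hi
    simp only [Complex.reCLM_apply] at h5
    rw [← h5]
    apply intervalIntegral.integral_congr
    intro Y _
    simp only
    rw [mul_comm Complex.I, Complex.exp_ofReal_mul_I_re]
  rw [e1]
  refine (Complex.re_le_norm _).trans (ht.trans (le_of_eq ?_))
  simp

lemma shift_bound {k P M : ℕ} (hk : 2 ≤ k) (hP : 1 ≤ P) (hM : 1 ≤ M) (α : ℝ) (hα : α ≠ 0) :
    ∫ ω, ‖fs (Ico P M) (qq k 1 ω) α‖ ^ 2 ∂nu ≤
      M + (1 + Real.log M) * ((P:ℝ) ^ 2 / (P:ℝ) ^ k) / |α| := by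
  classical
  have hα0 : 0 < |α| := abs_pos.2 hα
  have hP0 : (0:ℝ) < P := by exact_mod_cast hP
  have hP1 : (1:ℝ) ≤ P := by exact_mod_cast hP
  have hpi := Real.pi_gt_three
  have hk0 : (0:ℝ) < k := by
    have : 0 < k := by omega
    exact_mod_cast this
  set b : ℝ := 2 * Real.pi * |α| with hb
  have hb0 : 0 < b := by positivity
  set F : ℕ → ℕ → ℝ := fun x y => ∫ ω in (0:ℝ)..1, Real.cos (b * ((x + ω) ^ k - (y + ω) ^ k)) with hF
  have e1 : ∫ ω, ‖fs (Ico P M) (qq k 1 ω) α‖ ^ 2 ∂nu =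
      ∑ x ∈ Ico P M, ∑ y ∈ Ico P M, F x y := by
    have e2 : ∫ ω, ‖fs (Ico P M) (qq k 1 ω) α‖ ^ 2 ∂nu =
      ∫ ω in (0:ℝ)..1, ∑ x ∈ Ico P M, ∑ y ∈ Ico P M,
        Real.cos (b * (((x:ℝ) + ω) ^ k - ((y:ℝ) + ω) ^ k)) := by
      rw [intervalIntegral.integral_of_le zero_le_one, ← integral_Icc_eq_integral_Ioc]
      unfold nu
      apply setIntegral_congr_fun measurableSet_Icc
      intro ω hω
      simp only
      have h := normSq_sum (Ico P M) (fun _ => (1:ℝ)) (fun x => qq k 1 ω x) α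
      simp only [Complex.ofReal_one, one_mul] at h
      unfold fs
      rw [h]
      apply sum_congr rfl
      intro x _
      apply sum_congr rfl
      intro y _
      have e3 : 2 * Real.pi * α * (qq k 1 ω x - qq k 1 ω y) =
          2 * Real.pi * α * (((x:ℝ) + ω) ^ k - ((y:ℝ) + ω) ^ k) := by
        unfold qq
        rw [clamp_eq hω.1 hω.2, one_mul, one_mul]
      rw [e3, hb]
      rcases abs_choice α with h' | h'
      · rw [h']
      · rw [h', ← Real.cos_neg]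
        congr 1
        ring
    rw [e2, intervalIntegral.integral_finsetSum]
    · apply sum_congr rfl
      intro x _
      rw [intervalIntegral.integral_finsetSum]
      intro y _
      apply Continuous.intervalIntegrable
      fun_prop
    · intro x _
      apply Continuous.intervalIntegrable
      fun_prop
  have hsym : ∀ x y, F x y = F y x := by
    intro x y
    simp only [hF]
    apply intervalIntegral.integral_congr
    intro ω _
    simp only
    rw [← Real.cos_neg]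
    congr 1
    ring
  rw [e1, sym_sum F hsym, diag_sum]
  have hdiag : ∑ x ∈ Ico P M, F x x ≤ M := by
    have : ∀ x ∈ Ico P M, F x x = 1 := by
      intro x _
      simp [hF]
    rw [sum_congr rfl this, sum_const, nsmul_eq_mul, mul_one, Nat.card_Ico]
    exact_mod_cast Nat.sub_le _ _
  have hoff : ∀ h ∈ Ico 1 M, ∑ y ∈ Ico P (M - h), F (y + h) y ≤
      4 / (b * (k * (P:ℝ) ^ (k - 2))) * ((h:ℕ) : ℝ)⁻¹ := by
    intro h hh
    rw [mem_Ico] at hh
    by_cases hc : P ≤ M - h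
    · set φ : ℝ → ℝ := fun Y => Real.cos (b * ((Y + h) ^ k - Y ^ k)) with hφ
      have h1 : ∀ y : ℕ, F (y + h) y = ∫ t in (0:ℝ)..1, φ (y + t) := by
        intro y
        simp only [hF, hφ]
        apply intervalIntegral.integral_congr
        intro t _
        simp only
        push_cast
        congr 3
        ring
      simp_rw [h1]
      rw [sum_int (fun a b => by
        apply Continuous.intervalIntegrable
        simp only [hφ]
        fun_prop) hc]
      have h2 := phase_bound hk hh.1 hP1 (by exact_mod_cast hc : (P:ℝ) ≤ ((M - h : ℕ) : ℝ)) hb0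
      refine h2.trans (le_of_eq ?_)
      have hh0 : (0:ℝ) < h := by exact_mod_cast hh.1
      field_simp
    · rw [Ico_eq_empty (by omega), sum_empty]
      positivity
  have hsum : ∑ h ∈ Ico 1 M, ∑ y ∈ Ico P (M - h), F (y + h) y ≤
      4 / (b * (k * (P:ℝ) ^ (k - 2))) * (1 + Real.log M) := by
    refine (sum_le_sum hoff).trans ?_
    rw [← mul_sum]
    apply mul_le_mul_of_nonneg_left _ (by positivity)
    refine le_trans ?_ (harm M)
    apply Finset.sum_le_sum_of_subset_of_nonneg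
    · intro h hh
      rw [mem_Ico] at hh
      rw [mem_Icc]
      omega
    · intro _ _ _
      positivity
  have hlog : 0 ≤ Real.log M := Real.log_natCast_nonneg M
  have hfin : 2 * (4 / (b * (k * (P:ℝ) ^ (k - 2))) * (1 + Real.log M)) ≤
      (1 + Real.log M) * ((P:ℝ) ^ 2 / (P:ℝ) ^ k) / |α| := by
    have e2 : (P:ℝ) ^ k = P ^ (k - 2) * P ^ 2 := by
      rw [← pow_add]; congr 1; omega
    have e3 : 2 * (4 / (b * (k * (P:ℝ) ^ (k - 2))) * (1 + Real.log M)) =
        (4 / (Real.pi * k)) * ((1 + Real.log M) * ((P:ℝ) ^ 2 / (P:ℝ) ^ k) / |α|) := by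
      rw [e2, hb]
      field_simp
    rw [e3]
    have h4 : 4 / (Real.pi * k) ≤ 1 := by
      rw [div_le_one (by positivity)]
      have : (2:ℝ) ≤ k := by exact_mod_cast hk
      nlinarith
    have h5 : 0 ≤ (1 + Real.log M) * ((P:ℝ) ^ 2 / (P:ℝ) ^ k) / |α| := by positivity
    nlinarith
  linarith

/-- random shifts -/
theorem famShift {k : ℕ} (hk : 2 ≤ k) : Fam k nu (fun _ => 1) (fun ω => ω) 1 1 where
  hk := hk
  hc0 := one_pos
  cm := measurable_const
  dm := measurable_id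
  cl := fun _ => le_rfl
  cu := fun _ => le_rfl
  c2 := by
    intro Λ hΛ
    refine ⟨Λ, by positivity, fun P hP α hα => ?_⟩
    have hP0 : (0:ℝ) < P := by exact_mod_cast hP
    have hα0 : 0 < |α| := abs_pos.2 hα
    have h := shift_bound (k := k) (P := P) (M := Λ * P) hk hP (Nat.mul_pos hΛ hP) α hα
    refine h.trans ?_
    have hlog : 0 ≤ Real.log ((Λ * P : ℕ) : ℝ) := Real.log_natCast_nonneg _
    have hΛ1 : (1:ℝ) ≤ Λ := by exact_mod_cast hΛ
    have e : ((Λ * P : ℕ) : ℝ) = Λ * P := by push_cast; ring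
    have h2 : (1 + Real.log ((Λ * P : ℕ) : ℝ)) * ((P:ℝ) ^ 2 / (P:ℝ) ^ k) / |α| ≤
        Λ * (1 + Real.log ((Λ * P : ℕ) : ℝ)) * ((P:ℝ) ^ 2 / (P:ℝ) ^ k) / |α| := by
      gcongr
      nlinarith
    rw [e] at h2 ⊢
    linarith
  c2' := by
    intro Λ hΛ
    refine ⟨Λ, by positivity, fun P hP α hα => ?_⟩
    have hP0 : (0:ℝ) < P := by exact_mod_cast hP
    have hα0 : 0 < |α| := abs_pos.2 hα
    have h := shift_bound (k := k) (P := P) (M := Λ * P) hk hP (Nat.mul_pos hΛ hP) α hα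
    rw [integral_const, probReal_univ, one_smul]
    refine h.trans ?_
    have hlog : 0 ≤ Real.log ((Λ * P : ℕ) : ℝ) := Real.log_natCast_nonneg _
    have hΛ1 : (1:ℝ) ≤ Λ := by exact_mod_cast hΛ
    have e : ((Λ * P : ℕ) : ℝ) = Λ * P := by push_cast; ring
    have h2 : (1 + Real.log ((Λ * P : ℕ) : ℝ)) * ((P:ℝ) ^ 2 / (P:ℝ) ^ k) / |α| ≤
        Λ * (1 + Real.log ((Λ * P : ℕ) : ℝ)) * ((P:ℝ) ^ 2 / (P:ℝ) ^ k) / |α| := by
      gcongr
      nlinarith
    rw [e] at h2 ⊢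
    linarith

end Pool.Agent.X25.MW
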