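import Mathlib
import Pool.Agent.X25.MW.FamShift

/-! Two sided families: all integers, distances to a random point. -/

set_option autoImplicit false

namespace Pool.Agent.X25.MW
open MeasureTheory Finset

/-- integers `-(P-1), ..., P` indexed by `0, ..., 2 P - 1` -/
def mm (P x : ℕ) : ℤ := if x < P then -(x:ℤ) else (x:ℤ) - P + 1

/-- the power of the distance to the point `t` of the unit interval -/
noncomputable def pp (k P : ℕ) (t : ℝ) (x : ℕ) : ℝ := |(mm P x : ℝ) - clamp 0 1 t| ^ k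

lemma clamp_symm (t : ℝ) : clamp 0 1 (1 - t) = 1 - clamp 0 1 t := by
  unfold clamp
  rcases le_total t 0 with h0 | h0
  · rw [min_eq_right (by linarith), min_eq_left (by linarith), max_eq_right zero_le_one,
      max_eq_left h0]
    ring
  · rcases le_total t 1 with h1 | h1
    · rw [min_eq_left (by linarith), min_eq_left (by linarith), max_eq_right (by linarith),
        max_eq_right (by linarith)]
    · rw [min_eq_left (by linarith), min_eq_right (by linarith), max_eq_left (by linarith),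
        max_eq_right (by linarith)]
      ring

lemma pp_left (k P : ℕ) (t : ℝ) {x : ℕ} (hx : x < P) : pp k P t x = qq k 1 t x := by
  have h0 := le_clamp 0 1 t
  have hx0 : (0:ℝ) ≤ x := Nat.cast_nonneg _
  unfold pp mm qq
  rw [if_pos hx, one_mul]
  push_cast
  rw [show -(x:ℝ) - clamp 0 1 t = -((x:ℝ) + clamp 0 1 t) by ring, abs_neg, abs_of_nonneg (by positivity)]

lemma pp_right (k P : ℕ) (t : ℝ) (x : ℕ) : pp k P t (P + x) = qq k 1 (1 - t) x := by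
  have h0 := clamp_le (zero_le_one (α := ℝ)) t
  have hx0 : (0:ℝ) ≤ x := Nat.cast_nonneg _
  unfold pp mm qq
  rw [if_neg (by omega), one_mul, clamp_symm]
  push_cast
  rw [show (P:ℝ) + x - P + 1 - clamp 0 1 t = x + (1 - clamp 0 1 t) by ring, abs_of_nonneg (by linarith)]

lemma measurable_pp (k P x : ℕ) : Measurable (fun t => pp k P t x) := by
  unfold pp
  have := clamp_measurable 0 1
  exact ((measurable_const.sub this).abs).pow_const k

lemma fs_pp (k P : ℕ) (t α : ℝ) : fs (range (2 * P)) (pp k P t) α =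
    fs (range P) (qq k 1 t) α + fs (range P) (qq k 1 (1 - t)) α := by
  unfold fs
  rw [two_mul, Finset.sum_range_add]
  congr 1
  · apply sum_congr rfl
    intro x hx
    rw [pp_left k P t (mem_range.1 hx)]
  · apply sum_congr rfl
    intro x _
    rw [pp_right]

/-- the dyadic blocks -/
def dy : ℕ → Finset ℕ
  | 0 => {0}
  | j + 1 => Ico (2 ^ j) (2 ^ (j + 1))

lemma fs_dy (r : ℕ → ℝ) (α : ℝ) (J : ℕ) : fs (range (2 ^ J)) r α = ∑ j ∈ range (J + 1), fs (dy j) r α := by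
  induction J with
  | zero => simp [dy]
  | succ J ih =>
    rw [sum_range_succ, ← ih]
    unfold fs dy
    rw [range_eq_Ico, range_eq_Ico]
    exact (Finset.sum_Ico_consecutive _ (Nat.zero_le _) (Nat.pow_le_pow_right (by norm_num) (by omega))).symm

lemma fs_dy_sq (r : ℕ → ℝ) (α : ℝ) (J : ℕ) : ‖fs (range (2 ^ J)) r α‖ ^ 2 ≤
    (J + 1) * ∑ j ∈ range (J + 1), ‖fs (dy j) r α‖ ^ 2 := by
  rw [fs_dy]
  calc _ ≤ (∑ j ∈ range (J + 1), ‖fs (dy j) r α‖) ^ 2 := by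
        gcongr
        exact norm_sum_le _ _
    _ ≤ _ := by
        have := sq_sum_le_card_mul_sum_sq (s := range (J + 1)) (f := fun j => ‖fs (dy j) r α‖)
        simpa using this

lemma pow_min {k : ℕ} (hk : 2 ≤ k) {x a : ℝ} (hx : 0 < x) (ha : 0 < a) :
    min (x ^ 2) (x ^ 2 / x ^ k / a) ≤ (a⁻¹) ^ ((2:ℝ) / k) := by
  have hk0 : (0:ℝ) < k := by
    have : 0 < k := by omega
    exact_mod_cast this
  have hk2 : (2:ℝ) ≤ k := by exact_mod_cast hk
  have e1 : x ^ 2 = (x ^ k) ^ ((2:ℝ) / k) := by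
    rw [← Real.rpow_natCast x k, ← Real.rpow_mul hx.le, ← Real.rpow_natCast x 2]
    congr 1
    field_simp
    norm_num
  rcases le_total (x ^ k) a⁻¹ with h | h
  · refine (min_le_left _ _).trans ?_
    rw [e1]
    exact Real.rpow_le_rpow (by positivity) h (by positivity)
  · refine (min_le_right _ _).trans ?_
    have h1 : 1 ≤ a * x ^ k := by
      rw [inv_le_iff_one_le_mul₀ ha] at h
      linarith [mul_comm a (x ^ k)]
    rw [div_div, e1]
    have e2 : (x ^ k) ^ ((2:ℝ) / k) = (a⁻¹) ^ ((2:ℝ) / k) * (a * x ^ k) ^ ((2:ℝ) / k) := by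
      rw [← Real.mul_rpow (by positivity) (by positivity)]
      congr 1
      field_simp
    rw [e2, mul_div_assoc, mul_comm (x ^ k) a]
    have h2 : (a * x ^ k) ^ ((2:ℝ) / k) ≤ a * x ^ k := by
      calc _ ≤ (a * x ^ k) ^ (1:ℝ) := Real.rpow_le_rpow_of_exponent_le h1 (by
            rw [div_le_one hk0]; exact hk2)
        _ = _ := Real.rpow_one _
    have h3 : (a * x ^ k) ^ ((2:ℝ) / k) / (a * x ^ k) ≤ 1 := by
      rw [div_le_one (by linarith)]
      exact h2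
    have h4 : 0 ≤ (a⁻¹) ^ ((2:ℝ) / k) := by positivity
    nlinarith

lemma sq_norm_int (B : Finset ℕ) (p : ℝ → ℕ → ℝ) (hp : ∀ x, Measurable (fun z => p z x)) (α : ℝ)
    (μ : Measure ℝ) [IsFiniteMeasure μ] :
    Integrable (fun ω => ‖fs B (p ω) α‖ ^ 2) μ := by
  refine Integrable.of_bound (C := (B.card : ℝ) ^ 2) ?_ ?_
  · apply Measurable.aestronglyMeasurable
    apply Measurable.pow_const
    apply Measurable.norm
    exact (measurable_fs (Z := ℝ) B p hp).comp (measurable_id.prodMk measurable_const)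
  · refine Filter.Eventually.of_forall fun x => ?_
    rw [Real.norm_eq_abs, abs_of_nonneg (by positivity)]
    gcongr
    exact fs_norm_le _ _ _

lemma qq_meas (k : ℕ) (x : ℕ) : Measurable (fun t => qq k 1 t x) := measurable_qq k 1 x

lemma block_bound {k : ℕ} (hk : 2 ≤ k) {J j : ℕ} (hj : j < J) (α : ℝ) (hα : α ≠ 0) :
    ∫ ω, ‖fs (dy (j + 1)) (qq k 1 ω) α‖ ^ 2 ∂nu ≤
      2 * 2 ^ j + (J + 1) * (|α|⁻¹) ^ ((2:ℝ) / k) := by
  have hα0 : 0 < |α| := abs_pos.2 hα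
  have h1 := shift_bound (k := k) (P := 2 ^ j) (M := 2 ^ (j + 1)) hk Nat.one_le_two_pow
    Nat.one_le_two_pow α hα
  have h2 : ∫ ω, ‖fs (dy (j + 1)) (qq k 1 ω) α‖ ^ 2 ∂nu ≤ ((2:ℝ) ^ j) ^ 2 := by
    calc _ ≤ ∫ ω, ((2:ℝ) ^ j) ^ 2 ∂nu := by
          apply integral_mono (sq_norm_int _ _ (qq_meas k) _ _) (integrable_const _)
          intro ω
          simp only
          gcongr
          refine (fs_norm_le _ _ _).trans (le_of_eq ?_)
          unfold dy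
          rw [Nat.card_Ico, pow_succ, Nat.mul_two, Nat.add_sub_cancel]
          push_cast
          rfl
      _ = _ := by simp
  have hlog : 1 + Real.log ((2 ^ (j + 1) : ℕ) : ℝ) ≤ J + 1 := by
    push_cast
    rw [Real.log_pow]
    have h3 : Real.log 2 ≤ 1 := by linarith [Real.log_two_lt_d9]
    have h4 : ((j + 1 : ℕ) : ℝ) ≤ J := by exact_mod_cast hj
    have h5 : (0:ℝ) ≤ ((j + 1 : ℕ) : ℝ) := Nat.cast_nonneg _
    have h6 : 0 ≤ Real.log 2 := Real.log_nonneg (by norm_num)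
    nlinarith
  set A : ℝ := ((2:ℝ) ^ j) ^ 2 / ((2:ℝ) ^ j) ^ k / |α| with hA
  have hA0 : 0 ≤ A := by positivity
  have h3 : ∫ ω, ‖fs (dy (j + 1)) (qq k 1 ω) α‖ ^ 2 ∂nu ≤ 2 * 2 ^ j + (J + 1) * A := by
    have h4 : ∫ ω, ‖fs (dy (j + 1)) (qq k 1 ω) α‖ ^ 2 ∂nu ≤ ((2 ^ (j + 1) : ℕ) : ℝ) +
        (1 + Real.log ((2 ^ (j + 1) : ℕ) : ℝ)) * (((2 ^ j : ℕ):ℝ) ^ 2 / ((2 ^ j : ℕ):ℝ) ^ k) / |α| := h1
    refine h4.trans ?_
    have e1 : ((2 ^ (j + 1) : ℕ) : ℝ) = 2 * 2 ^ j := by push_cast; ring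
    have e2 : ((2 ^ j : ℕ):ℝ) = 2 ^ j := by push_cast; rfl
    rw [e2, mul_div_assoc]
    have h5 : ((2:ℝ) ^ j) ^ 2 / (2 ^ j) ^ k / |α| = A := rfl
    rw [h5]
    have : ((2 ^ (j + 1) : ℕ) : ℝ) ≤ 2 * 2 ^ j := e1.le
    gcongr
  have h6 := pow_min hk (x := (2:ℝ) ^ j) (by positivity) hα0
  rw [← hA] at h6
  have hJ : (0:ℝ) ≤ J := Nat.cast_nonneg _
  have hb : (0:ℝ) < 2 * 2 ^ j := by positivity
  rcases le_total (((2:ℝ) ^ j) ^ 2) A with h | h
  · rw [min_eq_left h] at h6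
    have : 0 ≤ (|α|⁻¹) ^ ((2:ℝ) / k) := by positivity
    nlinarith
  · rw [min_eq_right h] at h6
    calc _ ≤ 2 * 2 ^ j + (J + 1) * A := h3
      _ ≤ _ := by gcongr

lemma full_bound {k : ℕ} (hk : 2 ≤ k) (J : ℕ) (α : ℝ) (hα : α ≠ 0) :
    ∫ ω, ‖fs (range (2 ^ J)) (qq k 1 ω) α‖ ^ 2 ∂nu ≤
      3 * ((J:ℝ) + 1) ^ 3 * (2 ^ J + (|α|⁻¹) ^ ((2:ℝ) / k)) := by
  have hα0 : 0 < |α| := abs_pos.2 hα
  set A : ℝ := (|α|⁻¹) ^ ((2:ℝ) / k) with hA
  have hA0 : 0 ≤ A := by positivity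
  have hJ : (0:ℝ) ≤ J := Nat.cast_nonneg _
  have hi : ∀ B : Finset ℕ, Integrable (fun ω => ‖fs B (qq k 1 ω) α‖ ^ 2) nu := fun B =>
    sq_norm_int B _ (qq_meas k) α nu
  calc ∫ ω, ‖fs (range (2 ^ J)) (qq k 1 ω) α‖ ^ 2 ∂nu
      ≤ ∫ ω, (J + 1) * ∑ j ∈ range (J + 1), ‖fs (dy j) (qq k 1 ω) α‖ ^ 2 ∂nu := by
        apply integral_mono (hi _) ((integrable_finsetSum _ fun j _ => hi _).const_mul _)
        intro ω
        exact fs_dy_sq _ _ _
    _ = (J + 1) * ∑ j ∈ range (J + 1), ∫ ω, ‖fs (dy j) (qq k 1 ω) α‖ ^ 2 ∂nu := by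
        rw [integral_const_mul, integral_finsetSum _ fun j _ => hi _]
    _ = (J + 1) * (∑ j ∈ range J, ∫ ω, ‖fs (dy (j + 1)) (qq k 1 ω) α‖ ^ 2 ∂nu +
        ∫ ω, ‖fs (dy 0) (qq k 1 ω) α‖ ^ 2 ∂nu) := by rw [sum_range_succ']
    _ ≤ (J + 1) * (∑ j ∈ range J, (2 * 2 ^ j + (J + 1) * A) + 1) := by
        gcongr with j hj
        · exact block_bound hk (mem_range.1 hj) α hα
        · have : ∀ ω, ‖fs (dy 0) (qq k 1 ω) α‖ ^ 2 = 1 := by
            intro ω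
            simp [fs, dy, ex_norm]
          simp [this]
    _ = (J + 1) * (2 * (2 ^ J - 1) + J * ((J + 1) * A) + 1) := by
        rw [sum_add_distrib, ← mul_sum, sum_const, card_range, nsmul_eq_mul]
        have : ∑ j ∈ range J, (2:ℝ) ^ j = 2 ^ J - 1 := by
          have := geom_sum_eq (x := (2:ℝ)) (by norm_num) J
          rw [this]; norm_num
        rw [this]
    _ ≤ _ := by
        have h2 : (1:ℝ) ≤ 2 ^ J := one_le_pow₀ (by norm_num)
        have h3 : (J:ℝ) + 1 ≤ (J + 1) ^ 3 := by nlinarith [sq_nonneg (J:ℝ)]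
        have h4 : ((J:ℝ) + 1) * (J * (J + 1)) ≤ (J + 1) ^ 3 := by nlinarith [sq_nonneg (J:ℝ)]
        have h5 : ((J:ℝ) + 1) * (2 * 2 ^ J) ≤ (J + 1) ^ 3 * (2 * 2 ^ J) := by gcongr
        have h6 : ((J:ℝ) + 1) * (J * (J + 1)) * A ≤ (J + 1) ^ 3 * A := by gcongr
        have h7 : 0 ≤ ((J:ℝ) + 1) ^ 3 * A := by positivity
        have h8 : 0 ≤ ((J:ℝ) + 1) ^ 3 * 2 ^ J := by positivity
        nlinarith

lemma nu_symm (f : ℝ → ℝ) : ∫ t, f (1 - t) ∂nu = ∫ t, f t ∂nu := by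
  unfold nu
  rw [integral_Icc_eq_integral_Ioc, integral_Icc_eq_integral_Ioc,
    ← intervalIntegral.integral_of_le zero_le_one, ← intervalIntegral.integral_of_le zero_le_one,
    intervalIntegral.integral_comp_sub_left f 1]
  norm_num

lemma pp_bound {k : ℕ} (hk : 2 ≤ k) (J : ℕ) (α : ℝ) (hα : α ≠ 0) :
    ∫ ω, ‖fs (range (2 * 2 ^ J)) (pp k (2 ^ J) ω) α‖ ^ 2 ∂nu ≤
      12 * ((J:ℝ) + 1) ^ 3 * (2 ^ J + (|α|⁻¹) ^ ((2:ℝ) / k)) := by
  have h1 := full_bound hk J α hα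
  have hm : ∀ x, Measurable (fun t => qq k 1 (1 - t) x) := by
    intro x
    exact (qq_meas k x).comp (measurable_const.sub measurable_id)
  have hi1 := sq_norm_int (range (2 ^ J)) (fun ω => qq k 1 ω) (qq_meas k) α nu
  have hi2 := sq_norm_int (range (2 ^ J)) (fun ω => qq k 1 (1 - ω)) hm α nu
  calc _ ≤ ∫ ω, (2 * ‖fs (range (2 ^ J)) (qq k 1 ω) α‖ ^ 2 +
        2 * ‖fs (range (2 ^ J)) (qq k 1 (1 - ω)) α‖ ^ 2) ∂nu := by
        apply integral_mono (sq_norm_int _ _ (measurable_pp k (2 ^ J)) _ _)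
          ((hi1.const_mul 2).add (hi2.const_mul 2))
        intro ω
        simp only [Pi.add_apply]
        rw [fs_pp]
        have := norm_add_le (fs (range (2 ^ J)) (qq k 1 ω) α) (fs (range (2 ^ J)) (qq k 1 (1 - ω)) α)
        have h0 := norm_nonneg (fs (range (2 ^ J)) (qq k 1 ω) α + fs (range (2 ^ J)) (qq k 1 (1 - ω)) α)
        nlinarith [sq_nonneg (‖fs (range (2 ^ J)) (qq k 1 ω) α‖ - ‖fs (range (2 ^ J)) (qq k 1 (1 - ω)) α‖)]
    _ = 2 * ∫ ω, ‖fs (range (2 ^ J)) (qq k 1 ω) α‖ ^ 2 ∂nu +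
        2 * ∫ ω, ‖fs (range (2 ^ J)) (qq k 1 (1 - ω)) α‖ ^ 2 ∂nu := by
        rw [integral_add (hi1.const_mul 2) (hi2.const_mul 2), integral_const_mul, integral_const_mul]
    _ = 4 * ∫ ω, ‖fs (range (2 ^ J)) (qq k 1 ω) α‖ ^ 2 ∂nu := by
        rw [nu_symm (fun ω => ‖fs (range (2 ^ J)) (qq k 1 ω) α‖ ^ 2)]
        ring
    _ ≤ _ := by
        calc _ ≤ 4 * (3 * ((J:ℝ) + 1) ^ 3 * (2 ^ J + (|α|⁻¹) ^ ((2:ℝ) / k))) := by gcongr
          _ = _ := by ring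

lemma pp_lip (k P : ℕ) (hk : 1 ≤ k) (s t α : ℝ) :
    ‖fs (range (2 * P)) (pp k P s) α - fs (range (2 * P)) (pp k P t) α‖ ≤
      4 * Real.pi * k * (|α| * (P:ℝ) ^ k) := by
  rw [fs_pp, fs_pp]
  have h1 := c1 (k := k) (P := 0) (M := P) (c := 1) (C0 := 1) zero_le_one le_rfl s t α
  have h2 := c1 (k := k) (P := 0) (M := P) (c := 1) (C0 := 1) zero_le_one le_rfl (1 - s) (1 - t) α
  rw [← range_eq_Ico] at h1 h2
  have e : fs (range P) (qq k 1 s) α + fs (range P) (qq k 1 (1 - s)) α -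
      (fs (range P) (qq k 1 t) α + fs (range P) (qq k 1 (1 - t)) α) =
      (fs (range P) (qq k 1 s) α - fs (range P) (qq k 1 t) α) +
      (fs (range P) (qq k 1 (1 - s)) α - fs (range P) (qq k 1 (1 - t)) α) := by ring
  rw [e]
  refine (norm_add_le _ _).trans ?_
  have e2 : (P:ℝ) * (2 * Real.pi * |α| * (1 * (k * (P:ℝ) ^ (k - 1)))) = 2 * Real.pi * k * (|α| * (P:ℝ) ^ k) := by
    obtain ⟨m, rfl⟩ : ∃ m, k = m + 1 := ⟨k - 1, by omega⟩
    rw [Nat.add_sub_cancel, pow_succ]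
    ring
  rw [e2] at h1 h2
  linarith

end Pool.Agent.X25.MW
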