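import Mathlib
import Pool.Agent.X25.MW.Fam2

/-! The mean number of solutions is a volume. -/

set_option autoImplicit false

namespace Pool.Agent.X25.MW
open MeasureTheory Finset

/-- volume of the unit ball of the `k`-norm -/
noncomputable def Vk (k n : ℕ) : ℝ := (2 * Real.Gamma (1 / k + 1)) ^ n / Real.Gamma ((n:ℝ) / k + 1)

/-- truncated power -/
noncomputable def hh (e w : ℝ) : ℝ := (max w 0) ^ e

lemma hh_nonneg (e w : ℝ) : 0 ≤ hh e w := by unfold hh; positivity

lemma hh_of_nonneg {e w : ℝ} (h : 0 ≤ w) : hh e w = w ^ e := by unfold hh; rw [max_eq_left h]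

lemma hh_of_nonpos {e w : ℝ} (he : 0 < e) (h : w ≤ 0) : hh e w = 0 := by
  unfold hh; rw [max_eq_right h, Real.zero_rpow he.ne']

lemma hh_mono {e : ℝ} (he : 0 ≤ e) : Monotone (hh e) := by
  intro a b h
  unfold hh
  exact Real.rpow_le_rpow (le_max_right _ _) (max_le_max_right 0 h) he

/-- the mean -/
noncomputable def Mn (k n : ℕ) (L u : ℝ) : ℝ :=
  Vk k n * (hh ((n:ℝ) / k) (u + L / 2) - hh ((n:ℝ) / k) (u - L / 2))

lemma Vk_pos (k n : ℕ) : 0 < Vk k n := by
  unfold Vk
  have h1 : 0 < Real.Gamma (1 / (k:ℝ) + 1) := Real.Gamma_pos_of_pos (by positivity)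
  have h2 : 0 < Real.Gamma ((n:ℝ) / k + 1) := Real.Gamma_pos_of_pos (by positivity)
  positivity

lemma vol_le {k n : ℕ} (hk : 1 ≤ k) (hn : 1 ≤ n) (s : ℝ) :
    volume {X : Fin n → ℝ | ∑ i, |X i| ^ k ≤ s} = ENNReal.ofReal (Vk k n * hh ((n:ℝ) / k) s) := by
  have : Nonempty (Fin n) := ⟨⟨0, by omega⟩⟩
  have hk0 : (0:ℝ) < k := by exact_mod_cast hk
  have hn0 : (0:ℝ) < n := by exact_mod_cast hn
  have hV := Vk_pos k n
  rcases lt_or_ge s 0 with hs | hs
  · rw [hh_of_nonpos (by positivity) hs.le, mul_zero, ENNReal.ofReal_zero]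
    have : {X : Fin n → ℝ | ∑ i, |X i| ^ k ≤ s} = ∅ := by
      ext X
      simp only [Set.mem_ofPred_eq, Set.mem_empty_iff_false, iff_false, not_le]
      exact hs.trans_le (sum_nonneg fun i _ => by positivity)
    rw [this, measure_empty]
  · have h := MeasureTheory.volume_sum_rpow_le (ι := Fin n) (p := (k:ℝ)) (by exact_mod_cast hk) (s ^ (1 / (k:ℝ)))
    have e1 : {x : Fin n → ℝ | (∑ i, |x i| ^ (k:ℝ)) ^ (1 / (k:ℝ)) ≤ s ^ (1 / (k:ℝ))} =
        {X : Fin n → ℝ | ∑ i, |X i| ^ k ≤ s} := by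
      ext X
      simp only [Set.mem_ofPred_eq, Real.rpow_natCast]
      rw [Real.rpow_le_rpow_iff (sum_nonneg fun i _ => by positivity) hs (by positivity)]
    rw [e1] at h
    rw [h, Fintype.card_fin, ← ENNReal.ofReal_pow (by positivity), ← ENNReal.ofReal_mul (by positivity)]
    congr 1
    rw [mul_comm, hh_of_nonneg hs, Vk]
    congr 1
    rw [← Real.rpow_natCast (s ^ (1 / (k:ℝ))) n, ← Real.rpow_mul hs]
    congr 1
    field_simp

lemma vol_lt {k n : ℕ} (hk : 1 ≤ k) (hn : 1 ≤ n) (s : ℝ) :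
    volume {X : Fin n → ℝ | ∑ i, |X i| ^ k < s} = ENNReal.ofReal (Vk k n * hh ((n:ℝ) / k) s) := by
  have : Nonempty (Fin n) := ⟨⟨0, by omega⟩⟩
  have hk0 : (0:ℝ) < k := by exact_mod_cast hk
  have hn0 : (0:ℝ) < n := by exact_mod_cast hn
  have hV := Vk_pos k n
  rcases lt_or_ge s 0 with hs | hs
  · rw [hh_of_nonpos (by positivity) hs.le, mul_zero, ENNReal.ofReal_zero]
    have : {X : Fin n → ℝ | ∑ i, |X i| ^ k < s} = ∅ := by
      ext X
      simp only [Set.mem_ofPred_eq, Set.mem_empty_iff_false, iff_false, not_lt]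
      exact hs.le.trans (sum_nonneg fun i _ => by positivity)
    rw [this, measure_empty]
  · have h := MeasureTheory.volume_sum_rpow_lt (ι := Fin n) (p := (k:ℝ)) (by exact_mod_cast hk) (s ^ (1 / (k:ℝ)))
    have e1 : {x : Fin n → ℝ | (∑ i, |x i| ^ (k:ℝ)) ^ (1 / (k:ℝ)) < s ^ (1 / (k:ℝ))} =
        {X : Fin n → ℝ | ∑ i, |X i| ^ k < s} := by
      ext X
      simp only [Set.mem_ofPred_eq, Real.rpow_natCast]
      rw [Real.rpow_lt_rpow_iff (sum_nonneg fun i _ => by positivity) hs (by positivity)]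
    rw [e1] at h
    rw [h, Fintype.card_fin, ← ENNReal.ofReal_pow (by positivity), ← ENNReal.ofReal_mul (by positivity)]
    congr 1
    rw [mul_comm, hh_of_nonneg hs, Vk]
    congr 1
    rw [← Real.rpow_natCast (s ^ (1 / (k:ℝ))) n, ← Real.rpow_mul hs]
    congr 1
    field_simp

/-- the shell -/
def Sh (k n : ℕ) (L u : ℝ) : Set (Fin n → ℝ) := {X | |∑ i, |X i| ^ k - u| ≤ L / 2}

lemma Sh_meas (k n : ℕ) (L u : ℝ) : MeasurableSet (Sh k n L u) := by
  unfold Sh
  apply measurableSet_le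
  · fun_prop
  · fun_prop

lemma vol_Sh {k n : ℕ} (hk : 1 ≤ k) (hn : 1 ≤ n) {L : ℝ} (hL : 0 ≤ L) (u : ℝ) :
    volume (Sh k n L u) = ENNReal.ofReal (Mn k n L u) := by
  have e : Sh k n L u = {X : Fin n → ℝ | ∑ i, |X i| ^ k ≤ u + L / 2} \
      {X : Fin n → ℝ | ∑ i, |X i| ^ k < u - L / 2} := by
    ext X
    simp only [Sh, Set.mem_ofPred_eq, Set.mem_sdiff, abs_le, not_lt]
    constructor
    · rintro ⟨h1, h2⟩
      constructor <;> linarith
    · rintro ⟨h1, h2⟩
      constructor <;> linarith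
  rw [e, measure_sdiff _ _ _, vol_le hk hn, vol_lt hk hn, ← ENNReal.ofReal_sub, Mn, mul_sub]
  · have := Vk_pos k n
    have := hh_nonneg ((n:ℝ) / k) (u - L / 2)
    positivity
  · intro X hX
    simp only [Set.mem_ofPred_eq] at hX ⊢
    linarith
  · apply MeasurableSet.nullMeasurableSet
    apply measurableSet_lt
    · fun_prop
    · fun_prop
  · rw [vol_lt hk hn]
    exact ENNReal.ofReal_ne_top

lemma mm_inj (P : ℕ) {x y : ℕ} (h : mm P x = mm P y) : x = y := by
  unfold mm at h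
  split_ifs at h <;> omega

lemma mm_surj (P : ℕ) (z : ℤ) (h1 : -(P:ℤ) < z) (h2 : z ≤ P) : ∃ x < 2 * P, mm P x = z := by
  rcases le_or_gt z 0 with h | h
  · refine ⟨(-z).toNat, by omega, ?_⟩
    unfold mm
    rw [if_pos (by omega)]
    omega
  · refine ⟨(z + P - 1).toNat, by omega, ?_⟩
    unfold mm
    rw [if_neg (by omega)]
    omega

/-- cells -/
def cel (n P : ℕ) (x : Fin n → ℕ) : Set (Fin n → ℝ) :=
  Set.univ.pi fun i => Set.Ioc ((mm P (x i) : ℝ) - 1) (mm P (x i))

lemma cel_meas (n P : ℕ) (x : Fin n → ℕ) : MeasurableSet (cel n P x) :=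
  MeasurableSet.univ_pi fun _ => measurableSet_Ioc

lemma cel_disj {n P : ℕ} : Set.PairwiseDisjoint (↑(Fintype.piFinset (fun _ : Fin n => range (2 * P))))
    (cel n P) := by
  intro x hx y hy hxy
  rw [Function.onFun, Set.disjoint_left]
  intro X hX hY
  apply hxy
  ext i
  apply mm_inj P
  have h1 := Set.mem_univ_pi.1 hX i
  have h2 := Set.mem_univ_pi.1 hY i
  have h3 : mm P (x i) < mm P (y i) + 1 := by
    have : (mm P (x i) : ℝ) < mm P (y i) + 1 := by linarith [h1.1, h2.2]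
    exact_mod_cast this
  have h4 : mm P (y i) < mm P (x i) + 1 := by
    have : (mm P (y i) : ℝ) < mm P (x i) + 1 := by linarith [h2.1, h1.2]
    exact_mod_cast this
  omega

lemma Sh_cover {k n P : ℕ} {L u : ℝ} (hu : u + L / 2 < (P:ℝ) ^ k) :
    Sh k n L u = ⋃ x ∈ Fintype.piFinset (fun _ : Fin n => range (2 * P)), (Sh k n L u ∩ cel n P x) := by
  ext X
  constructor
  · intro hX
    have h1 : ∀ i, ∃ x < 2 * P, mm P x = ⌈X i⌉ := by
      intro i
      have h2 : |X i| ^ k < (P:ℝ) ^ k := by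
        have h3 : |X i| ^ k ≤ ∑ i, |X i| ^ k :=
          single_le_sum (f := fun i => |X i| ^ k) (fun _ _ => by positivity) (mem_univ i)
        have h4 : |∑ i, |X i| ^ k - u| ≤ L / 2 := hX
        linarith [(abs_le.1 h4).2]
      have h5 : |X i| < P := lt_of_pow_lt_pow_left₀ k (Nat.cast_nonneg _) h2
      rw [abs_lt] at h5
      apply mm_surj
      · rw [Int.lt_ceil]
        push_cast
        exact h5.1
      · rw [Int.ceil_le]
        push_cast
        exact h5.2.le
    choose x hx1 hx2 using h1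
    rw [Set.mem_iUnion₂]
    refine ⟨x, Fintype.mem_piFinset.2 fun i => mem_range.2 (hx1 i), hX, ?_⟩
    rw [cel, Set.mem_univ_pi]
    intro i
    rw [hx2 i]
    exact ⟨by linarith [Int.ceil_lt_add_one (X i)], Int.le_ceil _⟩
  · intro h
    rw [Set.mem_iUnion₂] at h
    obtain ⟨x, _, hX, _⟩ := h
    exact hX

lemma nu_eq : nu = volume.restrict (Set.Ico (0:ℝ) 1) := by
  unfold nu
  exact (Measure.restrict_congr_set Ico_ae_eq_Icc).symm

lemma tile {k n P : ℕ} (hk : 1 ≤ k) (hn : 1 ≤ n) {L u : ℝ} (hL : 0 ≤ L) (hu : u + L / 2 < (P:ℝ) ^ k) :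
    ∫⁻ t, ENNReal.ofReal (rs L (range (2 * P)) (fun i => pp k P (t i)) u)
      ∂(Measure.pi (fun _ : Fin n => nu)) = ENNReal.ofReal (Mn k n L u) := by
  classical
  rw [← vol_Sh hk hn hL u]
  have hpi : Measure.pi (fun _ : Fin n => nu) =
      (volume : Measure (Fin n → ℝ)).restrict (Set.univ.pi fun _ => Set.Ico (0:ℝ) 1) := by
    rw [nu_eq, ← Measure.restrict_pi_pi]
    rfl
  have hcube : MeasurableSet (Set.univ.pi fun _ : Fin n => Set.Ico (0:ℝ) 1) :=
    MeasurableSet.univ_pi fun _ => measurableSet_Ico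
  rw [hpi]
  have h1 : ∫⁻ t in (Set.univ.pi fun _ : Fin n => Set.Ico (0:ℝ) 1),
      ENNReal.ofReal (rs L (range (2 * P)) (fun i => pp k P (t i)) u) =
      ∫⁻ t in (Set.univ.pi fun _ : Fin n => Set.Ico (0:ℝ) 1),
        ∑ x ∈ Fintype.piFinset (fun _ : Fin n => range (2 * P)),
          (Sh k n L u).indicator (fun _ => (1:ENNReal)) ((fun i => (mm P (x i) : ℝ)) - t) := by
    apply setLIntegral_congr_fun hcube
    intro t ht
    simp only
    unfold rs
    rw [ENNReal.ofReal_sum_of_nonneg (fun _ _ => ph_nonneg _ _ _)]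
    apply sum_congr rfl
    intro x _
    have e1 : ∑ i, pp k P (t i) (x i) = ∑ i, |((fun i => (mm P (x i) : ℝ)) - t) i| ^ k := by
      apply sum_congr rfl
      intro i _
      have h2 := Set.mem_univ_pi.1 ht i
      unfold pp
      rw [clamp_eq h2.1 h2.2.le]
      rfl
    rw [e1, ph_eq]
    by_cases h : ((fun i => (mm P (x i) : ℝ)) - t) ∈ Sh k n L u
    · have h' : |∑ i, |((fun i => (mm P (x i) : ℝ)) - t) i| ^ k - u| ≤ L / 2 := h
      rw [Set.indicator_of_mem h, if_pos h', ENNReal.ofReal_one]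
    · have h' : ¬ |∑ i, |((fun i => (mm P (x i) : ℝ)) - t) i| ^ k - u| ≤ L / 2 := h
      rw [Set.indicator_of_notMem h, if_neg h', ENNReal.ofReal_zero]
  rw [h1]
  have hm : ∀ x : Fin n → ℕ, Measurable (fun t : Fin n → ℝ =>
      (Sh k n L u).indicator (fun _ => (1:ENNReal)) ((fun i => (mm P (x i) : ℝ)) - t)) := by
    intro x
    exact (measurable_const.indicator (Sh_meas k n L u)).comp (measurable_const.sub measurable_id)
  rw [lintegral_finsetSum _ fun x _ => hm x]
  conv_rhs => rw [Sh_cover hu]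
  rw [measure_biUnion_finset]
  · apply sum_congr rfl
    intro x _
    have mp := Measure.measurePreserving_sub_left (volume : Measure (Fin n → ℝ)) (fun i => (mm P (x i) : ℝ))
    rw [← mp.measure_preimage ((Sh_meas k n L u).inter (cel_meas n P x)).nullMeasurableSet]
    have e2 : ∀ t : Fin n → ℝ, (Sh k n L u).indicator (fun _ => (1:ENNReal))
        ((fun i => (mm P (x i) : ℝ)) - t) =
        ((fun t => (fun i => (mm P (x i) : ℝ)) - t) ⁻¹' (Sh k n L u)).indicator (fun _ => 1) t := by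
      intro t
      by_cases h : ((fun i => (mm P (x i) : ℝ)) - t) ∈ Sh k n L u
      · rw [Set.indicator_of_mem h, Set.indicator_of_mem]
        exact h
      · rw [Set.indicator_of_notMem h, Set.indicator_of_notMem]
        exact h
    simp_rw [e2]
    have hms : MeasurableSet ((fun t => (fun i => (mm P (x i) : ℝ)) - t) ⁻¹' (Sh k n L u)) :=
      mp.measurable (Sh_meas k n L u)
    rw [lintegral_indicator hms]
    simp only [lintegral_const, one_mul, Measure.restrict_apply MeasurableSet.univ, Set.univ_inter]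
    rw [Measure.restrict_apply hms]
    congr 1
    ext t
    simp only [Set.mem_inter_iff, Set.mem_preimage, cel, Set.mem_univ_pi, Set.mem_Ico, Set.mem_Ioc,
      Pi.sub_apply]
    constructor
    · rintro ⟨h2, h3⟩
      refine ⟨h2, fun i => ?_⟩
      have := h3 i
      constructor <;> linarith [this.1, this.2]
    · rintro ⟨h2, h3⟩
      refine ⟨h2, fun i => ?_⟩
      have := h3 i
      constructor <;> linarith [this.1, this.2]
  · intro x hx y hy hxy
    exact (cel_disj hx hy hxy).mono Set.inter_subset_right Set.inter_subset_right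
  · intro x _
    exact (Sh_meas k n L u).inter (cel_meas n P x)

end Pool.Agent.X25.MW
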