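import Mathlib
import Pool.Agent.X25.MW.Tile
import Pool.Agent.X25.MW.Bound2
import Pool.Agent.X25.MW.BC

/-! The second moments, two sided families. -/

set_option autoImplicit false

namespace Pool.Agent.X25.MW
open MeasureTheory Finset

lemma jensen2 {Z : Type*} [MeasurableSpace Z] (π : Measure Z) [IsProbabilityMeasure π] (f : Z → ℝ)
    (hf : Measurable f) (C : ℝ) (hC : ∀ z, |f z| ≤ C) (r : ℝ) :
    ENNReal.ofReal ((r - ∫ z, f z ∂π) ^ 2) ≤ ∫⁻ z, ENNReal.ofReal ((r - f z) ^ 2) ∂π := by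
  rcases le_total r (∫ z, f z ∂π) with h | h
  · have := jensen π f hf C hC (∫ z, f z ∂π) r le_rfl
    rw [max_eq_right (by linarith)] at this
    rwa [show (r - ∫ z, f z ∂π) ^ 2 = (∫ z, f z ∂π - r) ^ 2 by ring]
  · have := jensen π (fun z => - f z) hf.neg C (fun z => by rw [abs_neg]; exact hC z)
      (∫ z, - f z ∂π) (-r) le_rfl
    rw [integral_neg, max_eq_right (by linarith)] at this
    have e1 : (-∫ z, f z ∂π - -r) ^ 2 = (r - ∫ z, f z ∂π) ^ 2 := by ring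
    rw [e1] at this
    refine this.trans (le_of_eq ?_)
    apply lintegral_congr
    intro z
    congr 1
    ring

lemma measurable_rp {n : ℕ} (L : ℝ) (B : Finset ℕ) (k P : ℕ) (u : ℝ) :
    Measurable (fun t : Fin n → ℝ => rs L B (fun i => pp k P (t i)) u) := by
  have h := measurable_rs (Z := Fin n → ℝ) L B (fun t i => pp k P (t i))
    (fun i x => (measurable_pp k P x).comp (measurable_pi_apply i))
  have h2 : (fun t : Fin n → ℝ => rs L B (fun i => pp k P (t i)) u) =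
      (fun w : (Fin n → ℝ) × ℝ => rs L B (fun i => pp k P (w.1 i)) w.2) ∘ (fun t => (t, u)) := rfl
  rw [h2]
  exact h.comp (measurable_id.prodMk measurable_const)

lemma mean_eq {k n P : ℕ} (hk : 1 ≤ k) (hn : 1 ≤ n) {L u : ℝ} (hL : 0 ≤ L)
    (hu : u + L / 2 < (P:ℝ) ^ k) :
    ∫ t, rs L (range (2 * P)) (fun i => pp k P (t i)) u ∂(Measure.pi (fun _ : Fin n => nu)) =
      Mn k n L u := by
  rw [integral_eq_lintegral_of_nonneg_ae (Filter.Eventually.of_forall fun t => rs_nonneg _ _ _ _)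
    (measurable_rp _ _ _ _ _).aestronglyMeasurable, tile hk hn hL hu, ENNReal.toReal_ofReal]
  unfold Mn
  have h1 := Vk_pos k n
  have h2 : hh ((n:ℝ) / k) (u - L / 2) ≤ hh ((n:ℝ) / k) (u + L / 2) :=
    hh_mono (by positivity) (by linarith)
  have h3 : 0 ≤ hh ((n:ℝ) / k) (u + L / 2) - hh ((n:ℝ) / k) (u - L / 2) := by linarith
  positivity

/-- the deviation from the mean, below the top -/
noncomputable def gg (k P n : ℕ) (L : ℝ) (ω : Fin n → ℝ) (u : ℝ) : ℝ :=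
  if u + L / 2 < (P:ℝ) ^ k then rs L (range (2 * P)) (fun i => pp k P (ω i)) u - Mn k n L u else 0

lemma gg_jensen {k n P : ℕ} (hk : 1 ≤ k) (hn : 1 ≤ n) {L : ℝ} (hL : 0 ≤ L) (ω : Fin n → ℝ) (u : ℝ) :
    ENNReal.ofReal (gg k P n L ω u ^ 2) ≤ ∫⁻ t, ENNReal.ofReal
      ((rs L (range (2 * P)) (fun i => pp k P (ω i)) u -
        rs L (range (2 * P)) (fun i => pp k P (t i)) u) ^ 2) ∂(Measure.pi (fun _ : Fin n => nu)) := by
  unfold gg
  split_ifs with hu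
  · rw [← mean_eq hk hn hL hu]
    exact jensen2 _ _ (measurable_rp _ _ _ _ _) (((range (2 * P)).card : ℝ) ^ Fintype.card (Fin n))
      (fun t => by
        rw [abs_of_nonneg (rs_nonneg _ _ _ _)]
        exact rs_le _ _ _ _) _
  · simp

lemma lam_bound (N : ℕ) (hN : 1 ≤ N) : ∃ Cl : ℝ, 0 ≤ Cl ∧ ∀ J : ℕ, ((J:ℝ) + 1) ^ N ≤ Cl * rho ^ J := by
  obtain ⟨Cl, hCl, h⟩ := log_bound 1 N le_rfl hN
  refine ⟨2 ^ N * Cl, by positivity, fun J => ?_⟩
  have h1 := h (2 ^ J) Nat.one_le_two_pow (rho ^ J) (one_le_rho_pow J) (rho_pow_pow J)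
  have h2 : ((J:ℝ) + 1) ≤ 2 * (1 + Real.log ((1 * 2 ^ J : ℕ) : ℝ)) := by
    push_cast
    rw [one_mul, Real.log_pow]
    have h3 : (1/2:ℝ) ≤ Real.log 2 := by linarith [Real.log_two_gt_d9]
    have h4 : (0:ℝ) ≤ J := Nat.cast_nonneg _
    nlinarith
  calc ((J:ℝ) + 1) ^ N ≤ (2 * (1 + Real.log ((1 * 2 ^ J : ℕ) : ℝ))) ^ N := by gcongr
    _ = 2 ^ N * (1 + Real.log ((1 * 2 ^ J : ℕ) : ℝ)) ^ N := mul_pow _ _ _
    _ ≤ 2 ^ N * (Cl * rho ^ J) := by gcongr
    _ = _ := by ring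

theorem momA2 {k n : ℕ} (hk : 2 ≤ k) (hn : k + 1 ≤ n) {L : ℝ} (hL : 0 < L) :
    ∃ C : ℝ, 0 ≤ C ∧ ∀ J : ℕ,
      ∫⁻ ω, (∫⁻ u : ℝ, ENNReal.ofReal (gg k (2 ^ J) n L ω u ^ 2)) ∂(Measure.pi (fun _ : Fin n => nu)) ≤
      ENNReal.ofReal (C * (((2 ^ J : ℕ):ℝ) ^ (2 * n) / ((2 ^ J : ℕ):ℝ) ^ k / (rho ^ J) ^ 31)) := by
  classical
  have hpi := Real.pi_pos
  obtain ⟨Cl, hCl, hCl'⟩ := lam_bound (3 * n) (by omega)
  have hk0 : (0:ℝ) < k := by
    have : 0 < k := by omega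
    exact_mod_cast this
  have hnk : (k:ℝ) ≤ n := by
    have : k ≤ n := by omega
    exact_mod_cast this
  obtain ⟨m, rfl⟩ : ∃ m, n = m + 1 := ⟨n - 1, by omega⟩
  set n : ℕ := m + 1 with hnm
  set K1 : ℝ := 4 * Real.pi * k with hK1
  have hK10 : 0 ≤ K1 := by positivity
  refine ⟨2 * (L ^ 2 * ((n : ℝ) * K1 * 2 ^ m) ^ 2) + 4 * 2 ^ n * (12 ^ n * Cl * L) +
    4 * 2 ^ n * (2 * Real.pi * L ^ 2 * 12 ^ n * Cl), by positivity, ?_⟩
  intro J
  set P : ℝ := ((2 ^ J : ℕ) : ℝ) with hPdef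
  set y : ℝ := rho ^ J with hy'
  have hy : 1 ≤ y := one_le_rho_pow J
  have hyP : y ^ 64 = P := rho_pow_pow J
  have hP' : (1:ℝ) ≤ P := by
    have : 1 ≤ 2 ^ J := Nat.one_le_two_pow
    rw [hPdef]
    exact_mod_cast this
  have hP0 : (0:ℝ) < P := by linarith
  have hy0 : 0 < y := by linarith
  set Q : ℝ := P ^ k with hQ
  have hQ0 : 0 < Q := by positivity
  set lam : ℝ := ((J:ℝ) + 1) with hlam
  have hlam0 : 0 ≤ lam := by positivity
  have hlamN : lam ^ (3 * n) ≤ Cl * y := hCl' J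
  have hbd := boundA2 (ι := Fin n) hL (range (2 * 2 ^ J)) nu nu (fun ω => pp k (2 ^ J) ω)
    (fun _ t => pp k (2 ^ J) t) (measurable_pp k (2 ^ J))
    (fun x => (measurable_pp k (2 ^ J) x).comp measurable_snd)
    (fun ω u => gg k (2 ^ J) n L ω u) (gg_jensen (by omega) (by omega) hL.le)
    (a := y ^ 32 / Q) (N := 2 * P) (δ := K1 * y ^ 32) (V := 1) (Bd := 12 * lam ^ 3 * P)
    (D := 12 * lam ^ 3) (e := 2 / k) (n := n) (by simp) (by
      rw [div_mul_eq_mul_div, le_div_iff₀ hk0]; linarith) (by positivity) (by simp) zero_le_one (by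
      rw [card_range, hPdef]; push_cast; exact le_rfl)
    (by positivity) (by positivity) (by positivity) (by positivity) ?_ ?_ ?_
  · refine hbd.trans (ENNReal.ofReal_le_ofReal ?_)
    have hz0 : 0 < P ^ (2 * n) / Q := by positivity
    -- first term
    have t1 : 2 * (y ^ 32 / Q) * (L ^ 2 * (1 ^ n *
        ((n : ℝ) * (K1 * y ^ 32) * (2 * P) ^ n / (2 * P)) ^ 2)) ≤
        2 * (L ^ 2 * ((n : ℝ) * K1 * 2 ^ m) ^ 2) * (P ^ (2 * n) / Q / y ^ 31) := by
      have e : 2 * (y ^ 32 / Q) * (L ^ 2 * (1 ^ n *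
        ((n : ℝ) * (K1 * y ^ 32) * (2 * P) ^ n / (2 * P)) ^ 2)) =
        2 * (L ^ 2 * ((n : ℝ) * K1 * 2 ^ m) ^ 2) * (P ^ (2 * n) / Q * (y ^ 96 / P ^ 2)) := by
        have e1 : (2 * P) ^ n / (2 * P) = 2 ^ m * P ^ m := by
          rw [hnm, pow_succ, mul_div_assoc, div_self (by positivity), mul_one, mul_pow]
        rw [mul_div_assoc, e1, one_pow, one_mul]
        have e2 : P ^ (2 * n) = (P ^ m) ^ 2 * P ^ 2 := by rw [hnm]; ring
        rw [e2]
        field_simp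
      rw [e]
      have h1 : y ^ 96 / P ^ 2 ≤ 1 / y ^ 31 := by
        rw [div_le_div_iff₀ (by positivity) (by positivity), ← hyP, one_mul]
        have h7 : y ^ 127 ≤ y ^ 128 := pow_le_pow_right₀ hy (by norm_num)
        calc y ^ 96 * y ^ 31 = y ^ 127 := by ring
          _ ≤ y ^ 128 := h7
          _ = (y ^ 64) ^ 2 := by ring
      calc _ ≤ 2 * (L ^ 2 * ((n : ℝ) * K1 * 2 ^ m) ^ 2) * (P ^ (2 * n) / Q * (1 / y ^ 31)) := by gcongr
        _ = _ := by ring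
    have t2 : (12 * lam ^ 3 * P) ^ n * L ≤ (12 ^ n * Cl * L) * (P ^ (2 * n) / Q / y ^ 31) := by
      have h1 : y * P ^ n ≤ P ^ (2 * n) / Q / y ^ 31 := by
        rw [div_div, le_div_iff₀ (by positivity)]
        have h2 : y ^ 32 ≤ P := by
          rw [← hyP]
          exact pow_le_pow_right₀ hy (by norm_num)
        calc y * P ^ n * (Q * y ^ 31) = P ^ n * (Q * y ^ 32) := by ring
          _ ≤ P ^ n * (Q * P) := by gcongr
          _ = P ^ n * P ^ (k + 1) := by rw [hQ]; ring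
          _ ≤ P ^ n * P ^ n := by
              apply mul_le_mul_of_nonneg_left _ (by positivity)
              exact pow_le_pow_right₀ hP' (by omega)
          _ = P ^ (2 * n) := by ring
      calc (12 * lam ^ 3 * P) ^ n * L = 12 ^ n * lam ^ (3 * n) * P ^ n * L := by
            rw [mul_pow, mul_pow, ← pow_mul]
        _ ≤ 12 ^ n * (Cl * y) * P ^ n * L := by gcongr
        _ = (12 ^ n * Cl * L) * (y * P ^ n) := by ring
        _ ≤ _ := by gcongr
    have t3 : 2 * Real.pi * L ^ 2 * (12 * lam ^ 3) ^ n *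
        ((y ^ 32 / Q)⁻¹) ^ ((2:ℝ) / k * n - 1) ≤ (2 * Real.pi * L ^ 2 * 12 ^ n * Cl) *
          (P ^ (2 * n) / Q / y ^ 31) := by
      have hexp : 1 ≤ (2:ℝ) / k * n - 1 := by
        have : 2 ≤ (2:ℝ) / k * n := by
          rw [div_mul_eq_mul_div, le_div_iff₀ hk0]; linarith
        linarith
      have e1 : ((y ^ 32 / Q)⁻¹) ^ ((2:ℝ) / k * n - 1) ≤ P ^ (2 * n) / Q / y ^ 32 := by
        rw [inv_div, Real.div_rpow hQ0.le (by positivity)]
        have e2 : Q ^ ((2:ℝ) / k * n - 1) = P ^ (2 * n) / Q := by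
          rw [Real.rpow_sub_one hQ0.ne', hQ, ← Real.rpow_natCast P k, ← Real.rpow_mul hP0.le]
          congr 1
          rw [← Real.rpow_natCast P (2 * n)]
          congr 1
          push_cast
          field_simp
        rw [e2]
        apply div_le_div_of_nonneg_left hz0.le (by positivity)
        have h5 : (1:ℝ) ≤ y ^ 32 := one_le_pow₀ hy
        calc y ^ 32 = (y ^ 32) ^ (1:ℝ) := (Real.rpow_one _).symm
          _ ≤ _ := Real.rpow_le_rpow_of_exponent_le h5 hexp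
      calc _ ≤ 2 * Real.pi * L ^ 2 * (12 * lam ^ 3) ^ n * (P ^ (2 * n) / Q / y ^ 32) := by gcongr
        _ = 2 * Real.pi * L ^ 2 * 12 ^ n * lam ^ (3 * n) * (P ^ (2 * n) / Q / y ^ 32) := by
            rw [mul_pow, ← pow_mul]; ring
        _ ≤ 2 * Real.pi * L ^ 2 * 12 ^ n * (Cl * y) * (P ^ (2 * n) / Q / y ^ 32) := by gcongr
        _ = _ := by field_simp
    calc _ = 2 * (y ^ 32 / Q) * (L ^ 2 * (1 ^ n *
        ((n : ℝ) * (K1 * y ^ 32) * (2 * P) ^ n / (2 * P)) ^ 2)) +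
        4 * 2 ^ n * ((12 * lam ^ 3 * P) ^ n * L) + 4 * 2 ^ n *
        (2 * Real.pi * L ^ 2 * (12 * lam ^ 3) ^ n *
        ((y ^ 32 / Q)⁻¹) ^ ((2:ℝ) / k * n - 1)) := by ring
      _ ≤ 2 * (L ^ 2 * ((n : ℝ) * K1 * 2 ^ m) ^ 2) * (P ^ (2 * n) / Q / y ^ 31) +
        4 * 2 ^ n * ((12 ^ n * Cl * L) * (P ^ (2 * n) / Q / y ^ 31)) +
        4 * 2 ^ n * ((2 * Real.pi * L ^ 2 * 12 ^ n * Cl) * (P ^ (2 * n) / Q / y ^ 31)) := by gcongr
      _ = _ := by ring
  · intro α hα ω t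
    have h1 := pp_lip k (2 ^ J) (by omega) ω t α
    refine h1.trans ?_
    rw [← hK1, ← hPdef, ← hQ]
    gcongr
    rwa [le_div_iff₀ hQ0] at hα
  · intro α hα
    have hα0 : α ≠ 0 := by
      intro h
      rw [h, abs_zero] at hα
      have : 0 < y ^ 32 / Q := by positivity
      linarith
    refine (pp_bound hk J α hα0).trans (le_of_eq ?_)
    rw [hPdef]
    push_cast
    ring
  · intro α hα
    have hα0 : α ≠ 0 := by
      intro h
      rw [h, abs_zero] at hα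
      have : 0 < y ^ 32 / Q := by positivity
      linarith
    rw [integral_const, probReal_univ, one_smul]
    refine (pp_bound hk J α hα0).trans (le_of_eq ?_)
    rw [hPdef]
    push_cast
    ring

theorem momB2 {k n : ℕ} (hk : 2 ≤ k) (hn : k ≤ n) {L : ℝ} (hL : 0 < L) :
    ∃ C : ℝ, 0 ≤ C ∧ ∀ J : ℕ,
      ∫⁻ ω, (∫⁻ u : ℝ, ENNReal.ofReal (rs L (range (2 * 2 ^ J)) (fun i => pp k (2 ^ J) (ω i)) u ^ 2))
        ∂(Measure.pi (fun _ : Fin n => nu)) ≤
      ENNReal.ofReal (C * (rho ^ J * (((2 ^ J : ℕ):ℝ) ^ (2 * n) / ((2 ^ J : ℕ):ℝ) ^ k))) := by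
  classical
  have hpi := Real.pi_pos
  obtain ⟨Cl, hCl, hCl'⟩ := lam_bound (3 * n) (by omega)
  have hk0 : (0:ℝ) < k := by
    have : 0 < k := by omega
    exact_mod_cast this
  have hnk : (k:ℝ) ≤ n := by exact_mod_cast hn
  refine ⟨2 * (L ^ 2 * 4 ^ n) + 2 ^ n * (12 ^ n * Cl * L) +
    2 ^ n * (2 * Real.pi * L ^ 2 * 12 ^ n * Cl), by positivity, ?_⟩
  intro J
  set P : ℝ := ((2 ^ J : ℕ) : ℝ) with hPdef
  set y : ℝ := rho ^ J with hy'
  have hy : 1 ≤ y := one_le_rho_pow J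
  have hyP : y ^ 64 = P := rho_pow_pow J
  have hP' : (1:ℝ) ≤ P := by
    have : 1 ≤ 2 ^ J := Nat.one_le_two_pow
    rw [hPdef]
    exact_mod_cast this
  have hP0 : (0:ℝ) < P := by linarith
  have hy0 : 0 < y := by linarith
  set Q : ℝ := P ^ k with hQ
  have hQ0 : 0 < Q := by positivity
  set lam : ℝ := ((J:ℝ) + 1) with hlam
  have hlam0 : 0 ≤ lam := by positivity
  have hlamN : lam ^ (3 * n) ≤ Cl * y := hCl' J
  have hbd := boundB2 (ι := Fin n) hL (range (2 * 2 ^ J)) nu (fun ω => pp k (2 ^ J) ω)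
    (measurable_pp k (2 ^ J))
    (a := 1 / Q) (N := 2 * P) (V := 1) (Bd := 12 * lam ^ 3 * P)
    (D := 12 * lam ^ 3) (e := 2 / k) (n := n) (by simp) (by
      rw [div_mul_eq_mul_div, le_div_iff₀ hk0]; linarith) (by positivity) (by simp) zero_le_one (by
      rw [card_range, hPdef]; push_cast; exact le_rfl)
    (by positivity) (by positivity) ?_
  · refine hbd.trans (ENNReal.ofReal_le_ofReal ?_)
    have hz0 : 0 < P ^ (2 * n) / Q := by positivity
    have hzy : P ^ (2 * n) / Q ≤ y * (P ^ (2 * n) / Q) := by nlinarith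
    have t1 : 2 * (1 / Q) * (L ^ 2 * (1 * (2 * P) ^ 2) ^ n) ≤
        2 * (L ^ 2 * 4 ^ n) * (y * (P ^ (2 * n) / Q)) := by
      have e : 2 * (1 / Q) * (L ^ 2 * (1 * (2 * P) ^ 2) ^ n) =
          2 * (L ^ 2 * 4 ^ n) * (P ^ (2 * n) / Q) := by
        rw [pow_mul, one_mul, mul_pow 2 P, mul_pow _ (P ^ 2)]
        norm_num
        ring
      rw [e]
      gcongr
    have t2 : (12 * lam ^ 3 * P) ^ n * L ≤ (12 ^ n * Cl * L) * (y * (P ^ (2 * n) / Q)) := by
      have h1 : P ^ n ≤ P ^ (2 * n) / Q := by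
        rw [le_div_iff₀ (by positivity)]
        calc P ^ n * Q ≤ P ^ n * P ^ n := by
              apply mul_le_mul_of_nonneg_left _ (by positivity)
              exact pow_le_pow_right₀ hP' hn
          _ = P ^ (2 * n) := by ring
      calc (12 * lam ^ 3 * P) ^ n * L = 12 ^ n * lam ^ (3 * n) * P ^ n * L := by
            rw [mul_pow, mul_pow, ← pow_mul]
        _ ≤ 12 ^ n * (Cl * y) * P ^ n * L := by gcongr
        _ = (12 ^ n * Cl * L) * (y * P ^ n) := by ring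
        _ ≤ _ := by gcongr
    have t3 : 2 * Real.pi * L ^ 2 * (12 * lam ^ 3) ^ n *
        ((1 / Q)⁻¹) ^ ((2:ℝ) / k * n - 1) ≤ (2 * Real.pi * L ^ 2 * 12 ^ n * Cl) *
          (y * (P ^ (2 * n) / Q)) := by
      have e2 : ((1 / Q)⁻¹) ^ ((2:ℝ) / k * n - 1) = P ^ (2 * n) / Q := by
        rw [inv_div, div_one, Real.rpow_sub_one hQ0.ne', hQ, ← Real.rpow_natCast P k, ← Real.rpow_mul hP0.le]
        congr 1
        rw [← Real.rpow_natCast P (2 * n)]
        congr 1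
        push_cast
        field_simp
      rw [e2]
      calc _ = 2 * Real.pi * L ^ 2 * 12 ^ n * lam ^ (3 * n) * (P ^ (2 * n) / Q) := by
            rw [mul_pow, ← pow_mul]; ring
        _ ≤ 2 * Real.pi * L ^ 2 * 12 ^ n * (Cl * y) * (P ^ (2 * n) / Q) := by gcongr
        _ = _ := by ring
    calc _ = 2 * (1 / Q) * (L ^ 2 * (1 * (2 * P) ^ 2) ^ n) +
        2 ^ n * ((12 * lam ^ 3 * P) ^ n * L) + 2 ^ n *
        (2 * Real.pi * L ^ 2 * (12 * lam ^ 3) ^ n *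
        ((1 / Q)⁻¹) ^ ((2:ℝ) / k * n - 1)) := by ring
      _ ≤ 2 * (L ^ 2 * 4 ^ n) * (y * (P ^ (2 * n) / Q)) +
        2 ^ n * ((12 ^ n * Cl * L) * (y * (P ^ (2 * n) / Q))) +
        2 ^ n * ((2 * Real.pi * L ^ 2 * 12 ^ n * Cl) * (y * (P ^ (2 * n) / Q))) := by gcongr
      _ = _ := by ring
  · intro α hα
    have hα0 : α ≠ 0 := by
      intro h
      rw [h, abs_zero] at hα
      have : 0 < 1 / Q := by positivity
      linarith
    refine (pp_bound hk J α hα0).trans (le_of_eq ?_)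
    rw [hPdef]
    push_cast
    ring

end Pool.Agent.X25.MW
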