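import Mathlib
import Pool.Agent.X25.MW.Mom2

/-! Almost sure bounds along the scales. -/

set_option autoImplicit false

namespace Pool.Agent.X25.MW
open MeasureTheory Finset Filter

lemma pp_meas_pi (k P : ℕ) {n : ℕ} (i : Fin n) (x : ℕ) :
    Measurable (fun ω : Fin n → ℝ => pp k P (ω i) x) := by
  have h0 := measurable_pp k P x
  have h5 : Measurable (fun t : Fin n → ℝ => t i) := measurable_pi_apply i
  exact h0.comp h5

lemma Mn_meas (k n : ℕ) (L : ℝ) : Measurable (Mn k n L) := by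
  unfold Mn hh
  fun_prop

lemma gg_meas {k n : ℕ} (P : ℕ) (L : ℝ) :
    Measurable (fun w : (Fin n → ℝ) × ℝ => gg k P n L w.1 w.2) := by
  unfold gg
  apply Measurable.ite
  · have : MeasurableSet {w : (Fin n → ℝ) × ℝ | w.2 + L / 2 < (P:ℝ) ^ k} := by
      apply measurableSet_lt
      · fun_prop
      · fun_prop
    exact this
  · apply Measurable.sub
    · exact measurable_rs (Z := Fin n → ℝ) L _ (fun ω i => pp k P (ω i)) (fun i x => pp_meas_pi k P i x)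
    · exact (Mn_meas k n L).comp measurable_snd
  · exact measurable_const

theorem aeA2 {k n : ℕ} (hk : 2 ≤ k) (hn : k + 1 ≤ n) {L : ℝ} (hL : 0 < L) :
    ∀ᵐ ω ∂(Measure.pi (fun _ : Fin n => nu)), ∀ᶠ J : ℕ in atTop,
      ∫⁻ u : ℝ, ENNReal.ofReal (gg k (2 ^ J) n L ω u ^ 2) <
      ENNReal.ofReal (((2 ^ J : ℕ):ℝ) ^ (2 * n) / ((2 ^ J : ℕ):ℝ) ^ k / (rho ^ J) ^ 30) := by
  obtain ⟨C, hC, h⟩ := momA2 hk hn hL
  have hrho := one_lt_rho
  apply borel_cantelli (Measure.pi (fun _ : Fin n => nu)) (fun J ω =>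
      ∫⁻ u : ℝ, ENNReal.ofReal (gg k (2 ^ J) n L ω u ^ 2)) ?_
      (fun J => ((2 ^ J : ℕ):ℝ) ^ (2 * n) / ((2 ^ J : ℕ):ℝ) ^ k / (rho ^ J) ^ 30) ?_ C
  · intro J
    have hj : (1:ℝ) ≤ rho ^ J := one_le_rho_pow J
    have hj0 : (0:ℝ) < rho ^ J := by linarith
    refine (h J).trans ?_
    apply ENNReal.ofReal_le_ofReal
    apply mul_le_mul_of_nonneg_left _ hC
    apply le_of_eq
    field_simp
  · intro J
    have := (ENNReal.measurable_ofReal.comp ((gg_meas (k := k) (n := n) (2 ^ J) L).pow_const 2)).lintegral_prod_right'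
      (ν := (volume : Measure ℝ))
    exact this
  · intro J
    have h2 : (0:ℝ) < ((2 ^ J : ℕ):ℝ) := by positivity
    have h3 : 0 < rho := by linarith
    positivity

theorem aeB2 {k n : ℕ} (hk : 2 ≤ k) (hn : k ≤ n) {L : ℝ} (hL : 0 < L) :
    ∀ᵐ ω ∂(Measure.pi (fun _ : Fin n => nu)), ∀ᶠ J : ℕ in atTop,
      ∫⁻ u : ℝ, ENNReal.ofReal (rs L (range (2 * 2 ^ J)) (fun i => pp k (2 ^ J) (ω i)) u ^ 2) <
      ENNReal.ofReal ((rho ^ J) ^ 2 * (((2 ^ J : ℕ):ℝ) ^ (2 * n) / ((2 ^ J : ℕ):ℝ) ^ k)) := by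
  obtain ⟨C, hC, h⟩ := momB2 hk hn hL
  have hrho := one_lt_rho
  apply borel_cantelli (Measure.pi (fun _ : Fin n => nu)) (fun J ω =>
      ∫⁻ u : ℝ, ENNReal.ofReal (rs L (range (2 * 2 ^ J)) (fun i => pp k (2 ^ J) (ω i)) u ^ 2)) ?_
      (fun J => (rho ^ J) ^ 2 * (((2 ^ J : ℕ):ℝ) ^ (2 * n) / ((2 ^ J : ℕ):ℝ) ^ k)) ?_ C
  · intro J
    have hj : (1:ℝ) ≤ rho ^ J := one_le_rho_pow J
    have hj0 : (0:ℝ) < rho ^ J := by linarith
    refine (h J).trans ?_
    apply ENNReal.ofReal_le_ofReal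
    apply mul_le_mul_of_nonneg_left _ hC
    apply le_of_eq
    field_simp
  · intro J
    have := (ENNReal.measurable_ofReal.comp ((measurable_rs (Z := Fin n → ℝ) L (range (2 * 2 ^ J))
        (fun ω i => pp k (2 ^ J) (ω i)) (fun i x => pp_meas_pi k _ i x)).pow_const 2)).lintegral_prod_right'
      (ν := (volume : Measure ℝ))
    exact this
  · intro J
    have h2 : (0:ℝ) < ((2 ^ J : ℕ):ℝ) := by positivity
    have h3 : 0 < rho := by linarith
    positivity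

end Pool.Agent.X25.MW
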