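import Mathlib
import Pool.Agent.X25.MW.Mom

/-! Combination of two blocks of variables. -/

set_option autoImplicit false

namespace Pool.Agent.X25.MW
open MeasureTheory Finset Filter

section
variable {ι : Type*} [Fintype ι] [DecidableEq ι]

lemma rs_sq_integrable (L : ℝ) (B : Finset ℕ) (p : ι → ℕ → ℝ) :
    Integrable (fun u => rs L B p u ^ 2) := by
  have i1 := rs_integrable L B p
  have i3 : Integrable (fun u => rs L B p u * rs L B p u) := by
    refine i1.bdd_mul (c := (B.card : ℝ) ^ Fintype.card ι) i1.aestronglyMeasurable ?_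
    refine Filter.Eventually.of_forall fun u => ?_
    rw [Real.norm_eq_abs, abs_of_nonneg (rs_nonneg _ _ _ _)]
    exact rs_le _ _ _ _
  refine i3.congr (Filter.Eventually.of_forall fun u => ?_)
  simp only
  ring

lemma rs_measurable (L : ℝ) (B : Finset ℕ) (p : ι → ℕ → ℝ) : Measurable (rs L B p) := by
  have h := measurable_rs (Z := Unit) L B (fun _ => p) (fun _ _ => measurable_const)
  have h2 : Measurable (fun u : ℝ => (((), u) : Unit × ℝ)) := measurable_const.prodMk measurable_id
  have h3 := h.comp h2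
  exact h3

lemma gap_measurable (L : ℝ) (B : Finset ℕ) (κ u1 u2 : ℝ) (p : ι → ℕ → ℝ) :
    Measurable (gap L B κ u1 u2 p) := by
  unfold gap
  apply Measurable.ite
  · exact measurableSet_Icc
  · exact measurable_const.max (measurable_const.sub (rs_measurable L B p))
  · exact measurable_const

lemma gap_nonneg (L : ℝ) (B : Finset ℕ) (κ u1 u2 : ℝ) (p : ι → ℕ → ℝ) (u : ℝ) :
    0 ≤ gap L B κ u1 u2 p u := by
  unfold gap
  split_ifs
  · exact le_max_left _ _
  · exact le_rfl

lemma gap_le {κ : ℝ} (hκ : 0 ≤ κ) (L : ℝ) (B : Finset ℕ) (u1 u2 : ℝ) (p : ι → ℕ → ℝ) (u : ℝ) :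
    gap L B κ u1 u2 p u ≤ κ := by
  unfold gap
  split_ifs
  · apply max_le hκ
    have := rs_nonneg L B p u
    linarith
  · exact hκ

lemma gap_sq_integrable {κ : ℝ} (hκ : 0 ≤ κ) (L : ℝ) (B : Finset ℕ) (u1 u2 : ℝ) (p : ι → ℕ → ℝ) :
    Integrable (fun u => gap L B κ u1 u2 p u ^ 2) := by
  have h1 : IntegrableOn (fun u => gap L B κ u1 u2 p u ^ 2) (Set.Icc u1 u2) := by
    refine Measure.integrableOn_of_bounded (M := κ ^ 2) (by simp)
      ((gap_measurable L B κ u1 u2 p).pow_const 2).aestronglyMeasurable ?_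
    refine Filter.Eventually.of_forall fun u => ?_
    rw [Real.norm_eq_abs, abs_of_nonneg (sq_nonneg _)]
    have := gap_nonneg L B κ u1 u2 p u
    have := gap_le hκ L B u1 u2 p u
    gcongr
  rw [← integrableOn_iff_integrable_of_support_subset (s := Set.Icc u1 u2)]
  · exact h1
  · intro u hu
    by_contra h
    apply hu
    simp only [gap]
    rw [if_neg]
    · simp
    · exact h

end

/-- number of pairs with values near `τ` -/
noncomputable def cnt {ι ι' : Type*} [Fintype ι] [DecidableEq ι] [Fintype ι'] [DecidableEq ι'] (L : ℝ)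
    (B : Finset ℕ) (p : ι → ℕ → ℝ) (B' : Finset ℕ) (p' : ι' → ℕ → ℝ) (τ : ℝ) : ℕ :=
  (((Fintype.piFinset (fun _ : ι => B)) ×ˢ (Fintype.piFinset (fun _ : ι' => B'))).filter
    (fun z => |∑ i, p i (z.1 i) + ∑ i, p' i (z.2 i) - τ| ≤ L)).card

variable {ι ι' : Type*} [Fintype ι] [DecidableEq ι] [Fintype ι'] [DecidableEq ι']

lemma conv_le {L : ℝ} (hL : 0 < L) (B : Finset ℕ) (p : ι → ℕ → ℝ) (B' : Finset ℕ)
    (p' : ι' → ℕ → ℝ) (τ : ℝ) :
    ∫ v, rs L B p (τ - v) * rs L B' p' v ≤ L * cnt L B p B' p' τ := by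
  have hpi : ∀ a b, Integrable (fun u => ph L a u * ph L b u) := by
    intro a b
    refine (ph_integrable L b).bdd_mul (c := 1) (ph_integrable L a).aestronglyMeasurable ?_
    refine Filter.Eventually.of_forall fun u => ?_
    rw [Real.norm_eq_abs, abs_of_nonneg (ph_nonneg _ _ _)]
    exact ph_le_one _ _ _
  have e1 : ∀ s v : ℝ, ph L s (τ - v) = ph L (τ - s) v := by
    intro s v
    rw [ph_eq, ph_eq]
    have : |s - (τ - v)| = |τ - s - v| := by
      rw [← abs_neg]
      congr 1
      ring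
    rw [this]
  have e2 : ∀ v, rs L B p (τ - v) * rs L B' p' v =
      ∑ x ∈ Fintype.piFinset (fun _ : ι => B), ∑ y ∈ Fintype.piFinset (fun _ : ι' => B'),
        ph L (τ - ∑ i, p i (x i)) v * ph L (∑ i, p' i (y i)) v := by
    intro v
    unfold rs
    rw [sum_mul_sum]
    apply sum_congr rfl
    intro x _
    apply sum_congr rfl
    intro y _
    rw [e1]
  simp_rw [e2]
  rw [integral_finsetSum _ fun x _ => integrable_finsetSum _ fun y _ => hpi _ _]
  simp_rw [integral_finsetSum _ fun y _ => hpi _ _, ph_mul hL.le]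
  unfold cnt
  rw [card_filter, ← sum_product']
  push_cast
  rw [mul_sum]
  apply sum_le_sum
  intro z _
  split_ifs with h
  · rw [mul_one]
    exact tent_le hL.le _
  · rw [mul_zero, tent_zero]
    rw [not_le] at h
    have : |τ - ∑ i, p i (z.1 i) - ∑ i, p' i (z.2 i)| =
        |∑ i, p i (z.1 i) + ∑ i, p' i (z.2 i) - τ| := by
      rw [← abs_neg]
      congr 1
      ring
    rw [this]
    exact h.le

lemma combine {L κ u1 u2 S τ δ : ℝ} (hL : 0 < L) (hκ : 0 ≤ κ) (hδ : 0 < δ) (B : Finset ℕ)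
    (p : ι → ℕ → ℝ) (B' : Finset ℕ) (p' : ι' → ℕ → ℝ)
    (hS0 : ∀ y ∈ Fintype.piFinset (fun _ : ι' => B'), 0 ≤ ∑ i, p' i (y i))
    (hS : ∀ y ∈ Fintype.piFinset (fun _ : ι' => B'), ∑ i, p' i (y i) ≤ S)
    (h1 : u1 + S + L ≤ τ) (h2 : τ + L ≤ u2) :
    κ * (L * (B'.card : ℝ) ^ Fintype.card ι') - δ * (∫ u, gap L B κ u1 u2 p u ^ 2) -
      (∫ u, rs L B' p' u ^ 2) / δ ≤ L * cnt L B p B' p' τ := by
  refine le_trans ?_ (conv_le hL B p B' p' τ)
  have ir := rs_integrable L B' p'
  have ir2 := rs_sq_integrable L B' p'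
  have ig := gap_sq_integrable hκ L B u1 u2 p
  have ig' : Integrable (fun v => gap L B κ u1 u2 p (τ - v) ^ 2) := ig.comp_sub_left τ
  have eg : ∫ v, gap L B κ u1 u2 p (τ - v) ^ 2 = ∫ u, gap L B κ u1 u2 p u ^ 2 :=
    integral_sub_left_eq_self (fun u => gap L B κ u1 u2 p u ^ 2) volume τ
  have key : ∀ v, κ * rs L B' p' v - δ * gap L B κ u1 u2 p (τ - v) ^ 2 - (rs L B' p' v ^ 2) / δ ≤
      rs L B p (τ - v) * rs L B' p' v := by
    intro v
    have hr := rs_nonneg L B p (τ - v)
    have hr' := rs_nonneg L B' p' v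
    have hg := gap_nonneg L B κ u1 u2 p (τ - v)
    rcases hr'.eq_or_lt with h0 | h0
    · rw [← h0]
      have : 0 ≤ δ * gap L B κ u1 u2 p (τ - v) ^ 2 := by positivity
      simp
      exact this
    · -- some pair is near
      have hex : ∃ y ∈ Fintype.piFinset (fun _ : ι' => B'), 0 < ph L (∑ i, p' i (y i)) v := by
        by_contra hno
        push Not at hno
        have : rs L B' p' v ≤ 0 := sum_nonpos hno
        linarith
      obtain ⟨y, hy, hy2⟩ := hex
      rw [ph_eq] at hy2
      have hy3 : |∑ i, p' i (y i) - v| ≤ L / 2 := by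
        by_contra h
        rw [if_neg h] at hy2
        exact lt_irrefl _ hy2
      have hy4 := abs_le.1 hy3
      have hy5 := hS0 y hy
      have hy6 := hS y hy
      have hmem : u1 ≤ τ - v ∧ τ - v ≤ u2 := by
        constructor <;> linarith [hy4.1, hy4.2]
      have hgv : κ - rs L B p (τ - v) ≤ gap L B κ u1 u2 p (τ - v) := by
        unfold gap
        rw [if_pos hmem]
        exact le_max_right _ _
      have h3 : κ * rs L B' p' v - gap L B κ u1 u2 p (τ - v) * rs L B' p' v ≤
          rs L B p (τ - v) * rs L B' p' v := by nlinarith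
      have h4 : gap L B κ u1 u2 p (τ - v) * rs L B' p' v ≤
          δ * gap L B κ u1 u2 p (τ - v) ^ 2 + (rs L B' p' v ^ 2) / δ := by
        set g := gap L B κ u1 u2 p (τ - v)
        set r := rs L B' p' v
        have e : δ * g ^ 2 + r ^ 2 / δ = ((δ * g) ^ 2 + r ^ 2) / δ := by
          field_simp
        rw [e, le_div_iff₀ hδ]
        nlinarith [sq_nonneg (δ * g - r), sq_nonneg (δ * g), sq_nonneg r]
      linarith
  calc _ = ∫ v, (κ * rs L B' p' v - δ * gap L B κ u1 u2 p (τ - v) ^ 2 - (rs L B' p' v ^ 2) / δ) := by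
        rw [integral_sub, integral_sub, integral_const_mul, integral_const_mul, integral_div,
          rs_integral hL.le, eg]
        · exact ir.const_mul _
        · exact ig'.const_mul _
        · exact (ir.const_mul _).sub (ig'.const_mul _)
        · exact ir2.div_const _
    _ ≤ ∫ v, rs L B p (τ - v) * rs L B' p' v := by
        apply integral_mono (((ir.const_mul _).sub (ig'.const_mul _)).sub (ir2.div_const _)) _ key
        refine ir.bdd_mul (c := (B.card : ℝ) ^ Fintype.card ι) ?_ ?_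
        · exact ((rs_measurable L B p).comp (measurable_const.sub measurable_id)).aestronglyMeasurable
        · refine Filter.Eventually.of_forall fun u => ?_
          rw [Real.norm_eq_abs, abs_of_nonneg (rs_nonneg _ _ _ _)]
          exact rs_le _ _ _ _

lemma integral_le_of_lintegral {f : ℝ → ℝ} (hf : Integrable f) (h0 : ∀ u, 0 ≤ f u) {e : ℝ}
    (h : ∫⁻ u, ENNReal.ofReal (f u) < ENNReal.ofReal e) : ∫ u, f u ≤ e := by
  rw [← ofReal_integral_eq_lintegral_ofReal hf (Filter.Eventually.of_forall h0)] at h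
  have := (ENNReal.ofReal_lt_ofReal_iff_of_nonneg (integral_nonneg h0)).1 h
  exact this.le

end Pool.Agent.X25.MW
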