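import Mathlib
import Pool.Agent.X25.MW.Tile

/-! Properties of the mean. -/

set_option autoImplicit false

namespace Pool.Agent.X25.MW
open MeasureTheory Finset

lemma hh_cont {e : ℝ} (he : 0 < e) : Continuous (hh e) := by
  unfold hh
  exact (continuous_id.max continuous_const).rpow_const (fun _ => Or.inr he.le)

lemma hh_convex {e : ℝ} (he : 1 ≤ e) : ConvexOn ℝ Set.univ (hh e) := by
  have h1 : ConvexOn ℝ Set.univ (fun w : ℝ => max w 0) := (convexOn_id convex_univ).sup (convexOn_const 0 convex_univ)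
  refine ⟨convex_univ, fun x _ y _ a b ha hb hab => ?_⟩
  have h2 := h1.2 (Set.mem_univ x) (Set.mem_univ y) ha hb hab
  have h3 := (convexOn_rpow he).2 (Set.mem_Ici.2 (le_max_right x 0)) (Set.mem_Ici.2 (le_max_right y 0)) ha hb hab
  unfold hh
  refine le_trans ?_ h3
  exact Real.rpow_le_rpow (le_max_right _ _) h2 (by linarith)

lemma incr_mono {f : ℝ → ℝ} (hf : ConvexOn ℝ Set.univ f) {x y δ : ℝ} (hxy : x ≤ y) (hδ : 0 ≤ δ) :
    f (x + δ) - f x ≤ f (y + δ) - f y := by
  rcases (add_nonneg (sub_nonneg.2 hxy) hδ).eq_or_lt with h | h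
  · have h1 : y = x := by linarith
    rw [h1]
  · set D : ℝ := y - x + δ with hD
    have hD0 : 0 < D := h
    have ha : 0 ≤ (y - x) / D := div_nonneg (by linarith) hD0.le
    have hb : 0 ≤ δ / D := div_nonneg hδ hD0.le
    have hab : (y - x) / D + δ / D = 1 := by
      rw [← add_div, div_self hD0.ne']
    have h1 := hf.2 (Set.mem_univ x) (Set.mem_univ (y + δ)) ha hb hab
    have h2 := hf.2 (Set.mem_univ x) (Set.mem_univ (y + δ)) hb ha (by linarith)
    simp only [smul_eq_mul] at h1 h2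
    have e1 : (y - x) / D * x + δ / D * (y + δ) = x + δ := by
      rw [div_mul_eq_mul_div, div_mul_eq_mul_div, ← add_div, div_eq_iff hD0.ne', hD]; ring
    have e2 : δ / D * x + (y - x) / D * (y + δ) = y := by
      rw [div_mul_eq_mul_div, div_mul_eq_mul_div, ← add_div, div_eq_iff hD0.ne', hD]; ring
    rw [e1] at h1
    rw [e2] at h2
    have h3 : (y - x) / D * f x + δ / D * f (y + δ) + (δ / D * f x + (y - x) / D * f (y + δ)) =
        f x + f (y + δ) := by
      calc _ = ((y - x) / D + δ / D) * f x + ((y - x) / D + δ / D) * f (y + δ) := by ring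
        _ = _ := by rw [hab]; ring
    linarith

lemma Mn_nonneg (k n : ℕ) {L : ℝ} (hL : 0 ≤ L) (u : ℝ) : 0 ≤ Mn k n L u := by
  unfold Mn
  have h1 := Vk_pos k n
  have h2 : hh ((n:ℝ) / k) (u - L / 2) ≤ hh ((n:ℝ) / k) (u + L / 2) :=
    hh_mono (by positivity) (by linarith)
  have h3 : 0 ≤ hh ((n:ℝ) / k) (u + L / 2) - hh ((n:ℝ) / k) (u - L / 2) := by linarith
  positivity

lemma Mn_mono {k n : ℕ} (hk : 1 ≤ k) (hn : k ≤ n) {L : ℝ} (hL : 0 ≤ L) : Monotone (Mn k n L) := by
  intro u v huv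
  have hk0 : (0:ℝ) < k := by exact_mod_cast hk
  have he : 1 ≤ (n:ℝ) / k := by
    rw [le_div_iff₀ hk0, one_mul]
    exact_mod_cast hn
  unfold Mn
  apply mul_le_mul_of_nonneg_left _ (Vk_pos k n).le
  have h := incr_mono (hh_convex he) (x := u - L / 2) (y := v - L / 2) (δ := L) (by linarith) hL
  have e1 : u - L / 2 + L = u + L / 2 := by ring
  have e2 : v - L / 2 + L = v + L / 2 := by ring
  rw [e1, e2] at h
  exact h

lemma Mn_zero {k n : ℕ} (hk : 1 ≤ k) (hn : 1 ≤ n) {L : ℝ} (hL : 0 ≤ L) {u : ℝ} (hu : u ≤ -(L / 2)) :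
    Mn k n L u = 0 := by
  have hk0 : (0:ℝ) < k := by exact_mod_cast hk
  have hn0 : (0:ℝ) < n := by exact_mod_cast hn
  unfold Mn
  rw [hh_of_nonpos (by positivity) (by linarith), hh_of_nonpos (by positivity) (by linarith)]
  ring

lemma Mn_cont {k n : ℕ} (hk : 1 ≤ k) (hn : 1 ≤ n) (L : ℝ) : Continuous (Mn k n L) := by
  have hk0 : (0:ℝ) < k := by exact_mod_cast hk
  have hn0 : (0:ℝ) < n := by exact_mod_cast hn
  have h := hh_cont (e := (n:ℝ) / k) (by positivity)
  unfold Mn
  exact continuous_const.mul ((h.comp (continuous_id.add continuous_const)).sub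
    (h.comp (continuous_id.sub continuous_const)))

lemma hh_diff {e : ℝ} (he : 1 ≤ e) {a b : ℝ} (hab : a ≤ b) (hb : 0 < b) :
    hh e b - hh e a ≤ e * b ^ (e - 1) * (b - a) := by
  set a' : ℝ := max a 0 with ha'
  have h0 : 0 ≤ a' := le_max_right _ _
  have h1 : a' ≤ b := max_le hab hb.le
  have h2 := one_add_mul_self_le_rpow_one_add (s := a' / b - 1) (by
    have : 0 ≤ a' / b := by positivity
    linarith) he
  rw [add_sub_cancel, Real.div_rpow h0 hb.le] at h2
  have hbe : 0 < b ^ e := by positivity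
  rw [le_div_iff₀ hbe] at h2
  have e1 : b ^ e = b ^ (e - 1) * b := by
    rw [← Real.rpow_add_one hb.ne']
    congr 1; ring
  have h3 : hh e b = b ^ e := hh_of_nonneg hb.le
  have h4 : hh e a = a' ^ e := rfl
  rw [h3, h4]
  have h5 : (1 + e * (a' / b - 1)) * b ^ e = b ^ e + e * b ^ (e - 1) * (a' - b) := by
    rw [e1]
    field_simp
  rw [h5] at h2
  have h6 : e * b ^ (e - 1) * (b - a') ≤ e * b ^ (e - 1) * (b - a) := by
    apply mul_le_mul_of_nonneg_left _ (by positivity)
    have : a ≤ a' := le_max_left _ _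
    linarith
  linarith

lemma Mn_le {k n : ℕ} (hk : 1 ≤ k) (hn : k ≤ n) {L : ℝ} (hL : 0 < L) {u : ℝ} (hu : 0 ≤ u) :
    Mn k n L u ≤ Vk k n * ((n:ℝ) / k * (u + L / 2) ^ ((n:ℝ) / k - 1) * L) := by
  have hk0 : (0:ℝ) < k := by exact_mod_cast hk
  have he : 1 ≤ (n:ℝ) / k := by
    rw [le_div_iff₀ hk0, one_mul]
    exact_mod_cast hn
  unfold Mn
  apply mul_le_mul_of_nonneg_left _ (Vk_pos k n).le
  have h := hh_diff he (a := u - L / 2) (b := u + L / 2) (by linarith) (by linarith)
  have e1 : u + L / 2 - (u - L / 2) = L := by ring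
  rwa [e1] at h

/-- the case of `k` variables -/
lemma Mk_le {k : ℕ} (hk : 1 ≤ k) {H : ℝ} (hH : 0 ≤ H) (v : ℝ) : Mn k k H v ≤ Vk k k * H := by
  have hk0 : (k:ℝ) ≠ 0 := by
    have : (0:ℝ) < k := by exact_mod_cast hk
    exact this.ne'
  unfold Mn hh
  rw [div_self hk0, Real.rpow_one, Real.rpow_one]
  apply mul_le_mul_of_nonneg_left _ (Vk_pos k k).le
  rcases le_total (v + H / 2) 0 with h | h
  · rw [max_eq_right h]
    have := le_max_right (v - H / 2) 0
    linarith
  · rw [max_eq_left h]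
    have := le_max_left (v - H / 2) 0
    linarith

lemma Mk_eq {k : ℕ} (hk : 1 ≤ k) {H : ℝ} (hH : 0 ≤ H) {v : ℝ} (hv : H / 2 ≤ v) : Mn k k H v = Vk k k * H := by
  have hk0 : (k:ℝ) ≠ 0 := by
    have : (0:ℝ) < k := by exact_mod_cast hk
    exact this.ne'
  unfold Mn hh
  rw [div_self hk0, Real.rpow_one, Real.rpow_one, max_eq_left (by linarith), max_eq_left (by linarith)]
  ring

lemma int_Mn {k n : ℕ} (hk : 1 ≤ k) (hn : 1 ≤ n) {L U : ℝ} (hL : 0 ≤ L) :
    ∫ u in (-(L / 2))..U, Mn k n L u = Vk k n * ∫ w in (U - L / 2)..(U + L / 2), hh ((n:ℝ) / k) w := by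
  have hk0 : (0:ℝ) < k := by exact_mod_cast hk
  have hn0 : (0:ℝ) < n := by exact_mod_cast hn
  have he : 0 < (n:ℝ) / k := by positivity
  have hc := hh_cont he
  have hi : ∀ a b : ℝ, IntervalIntegrable (hh ((n:ℝ) / k)) volume a b := fun a b => hc.intervalIntegrable a b
  unfold Mn
  rw [intervalIntegral.integral_const_mul]
  congr 1
  rw [intervalIntegral.integral_sub]
  · rw [intervalIntegral.integral_comp_add_right (fun w => hh ((n:ℝ) / k) w) (L / 2),
      intervalIntegral.integral_comp_sub_right (fun w => hh ((n:ℝ) / k) w) (L / 2)]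
    have e1 : -(L / 2) + L / 2 = 0 := by ring
    have e2 : -(L / 2) - L / 2 = -L := by ring
    rw [e1, e2]
    have h0 : ∫ w in (-L)..0, hh ((n:ℝ) / k) w = 0 := by
      rw [intervalIntegral.integral_congr (g := fun _ => (0:ℝ))]
      · simp
      · intro w hw
        rw [Set.uIcc_of_le (by linarith)] at hw
        exact hh_of_nonpos he hw.2
    have h1 := intervalIntegral.integral_add_adjacent_intervals (hi (-L) 0) (hi 0 (U - L / 2))
    have h2 := intervalIntegral.integral_add_adjacent_intervals (hi 0 (U - L / 2)) (hi (U - L / 2) (U + L / 2))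
    linarith
  · exact (hc.comp (continuous_id.add continuous_const)).intervalIntegrable _ _
  · exact (hc.comp (continuous_id.sub continuous_const)).intervalIntegrable _ _

lemma int_Mn_le {k n : ℕ} (hk : 1 ≤ k) (hn : 1 ≤ n) {L U : ℝ} (hL : 0 ≤ L) :
    ∫ u in (-(L / 2))..U, Mn k n L u ≤ Vk k n * (L * hh ((n:ℝ) / k) (U + L / 2)) := by
  have hk0 : (0:ℝ) < k := by exact_mod_cast hk
  have hn0 : (0:ℝ) < n := by exact_mod_cast hn
  have he : 0 < (n:ℝ) / k := by positivity
  rw [int_Mn hk hn hL]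
  apply mul_le_mul_of_nonneg_left _ (Vk_pos k n).le
  calc _ ≤ ∫ w in (U - L / 2)..(U + L / 2), hh ((n:ℝ) / k) (U + L / 2) := by
        apply intervalIntegral.integral_mono_on (by linarith) ((hh_cont he).intervalIntegrable _ _)
          intervalIntegrable_const
        intro w hw
        exact hh_mono he.le hw.2
    _ = _ := by
        rw [intervalIntegral.integral_const, smul_eq_mul]
        ring

lemma le_int_Mn {k n : ℕ} (hk : 1 ≤ k) (hn : 1 ≤ n) {L U : ℝ} (hL : 0 ≤ L) :
    Vk k n * (L * hh ((n:ℝ) / k) (U - L / 2)) ≤ ∫ u in (-(L / 2))..U, Mn k n L u := by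
  have hk0 : (0:ℝ) < k := by exact_mod_cast hk
  have hn0 : (0:ℝ) < n := by exact_mod_cast hn
  have he : 0 < (n:ℝ) / k := by positivity
  rw [int_Mn hk hn hL]
  apply mul_le_mul_of_nonneg_left _ (Vk_pos k n).le
  calc L * hh ((n:ℝ) / k) (U - L / 2) = ∫ w in (U - L / 2)..(U + L / 2), hh ((n:ℝ) / k) (U - L / 2) := by
        rw [intervalIntegral.integral_const, smul_eq_mul]
        ring
    _ ≤ _ := by
        apply intervalIntegral.integral_mono_on (by linarith) intervalIntegrable_const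
          ((hh_cont he).intervalIntegrable _ _)
        intro w hw
        exact hh_mono he.le hw.1

end Pool.Agent.X25.MW
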