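import Mathlib
import Pool.Agent.X25.MW.Fam2

/-! Sums of monotone functions of the sum of distances depend little on the centre. -/

set_option autoImplicit false

namespace Pool.Agent.X25.MW
open Finset

lemma one_side {k P : ℕ} {G : ℝ → ℝ} (hG : Antitone G) (h0 : ∀ s, 0 ≤ G s) {K : ℝ} (hK : ∀ s, G s ≤ K)
    (s t t' : ℝ) : ∑ x ∈ range P, G (s + qq k 1 t x) ≤ ∑ x ∈ range P, G (s + qq k 1 t' x) + K := by
  have h1 : ∑ x ∈ range P, G (s + qq k 1 t x) ≤ ∑ x ∈ range P, G (s + (x:ℝ) ^ k) := by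
    apply sum_le_sum
    intro x _
    apply hG
    have := le_clamp 0 1 t
    unfold qq
    rw [one_mul]
    have : (x:ℝ) ^ k ≤ ((x:ℝ) + clamp 0 1 t) ^ k := by
      gcongr
      linarith
    linarith
  have h2 : ∑ x ∈ range P, G (s + ((x + 1 : ℕ):ℝ) ^ k) ≤ ∑ x ∈ range P, G (s + qq k 1 t' x) := by
    apply sum_le_sum
    intro x _
    apply hG
    have h3 := le_clamp 0 1 t'
    have h4 := clamp_le (zero_le_one (α := ℝ)) t'
    unfold qq
    rw [one_mul]
    have : ((x:ℝ) + clamp 0 1 t') ^ k ≤ ((x + 1 : ℕ):ℝ) ^ k := by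
      push_cast
      gcongr
    linarith
  have h3 := Finset.sum_range_sub' (fun x : ℕ => G (s + (x:ℝ) ^ k)) P
  rw [sum_sub_distrib] at h3
  have h4 := hK (s + ((0:ℕ):ℝ) ^ k)
  have h5 := h0 (s + (P:ℝ) ^ k)
  linarith

lemma one_var2 {k P : ℕ} {G : ℝ → ℝ} (hG : Antitone G) (h0 : ∀ s, 0 ≤ G s) {K : ℝ} (hK : ∀ s, G s ≤ K)
    (s t t' : ℝ) : ∑ x ∈ range (2 * P), G (s + pp k P t x) ≤
      ∑ x ∈ range (2 * P), G (s + pp k P t' x) + 2 * K := by
  have e : ∀ t, ∑ x ∈ range (2 * P), G (s + pp k P t x) =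
      ∑ x ∈ range P, G (s + qq k 1 t x) + ∑ x ∈ range P, G (s + qq k 1 (1 - t) x) := by
    intro t
    rw [two_mul, Finset.sum_range_add]
    congr 1
    · apply sum_congr rfl
      intro x hx
      rw [pp_left k P t (mem_range.1 hx)]
    · apply sum_congr rfl
      intro x _
      rw [pp_right]
  rw [e, e]
  have h1 := one_side (k := k) (P := P) hG h0 hK s t t'
  have h2 := one_side (k := k) (P := P) hG h0 hK s (1 - t) (1 - t')
  linarith

lemma sum_cons {n : ℕ} (B : Finset ℕ) (F : (Fin (n + 1) → ℕ) → ℝ) :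
    ∑ x ∈ Fintype.piFinset (fun _ : Fin (n + 1) => B), F x =
      ∑ a ∈ B, ∑ x ∈ Fintype.piFinset (fun _ : Fin n => B), F (Fin.cons a x) := by
  classical
  rw [← Finset.sum_product']
  symm
  apply Finset.sum_bij (fun (z : ℕ × (Fin n → ℕ)) _ => (Fin.cons z.1 z.2 : Fin (n + 1) → ℕ))
  · intro z hz
    rw [Finset.mem_product, Fintype.mem_piFinset] at hz
    rw [Fintype.mem_piFinset]
    intro i
    refine Fin.cases ?_ (fun j => ?_) i
    · simpa using hz.1
    · simpa using hz.2 j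
  · intro a _ b _ h
    have h0 := congrFun h 0
    have h1 : ∀ j, a.2 j = b.2 j := by
      intro j
      have := congrFun h (Fin.succ j)
      simpa using this
    simp only [Fin.cons_zero] at h0
    exact Prod.ext h0 (funext h1)
  · intro x hx
    rw [Fintype.mem_piFinset] at hx
    refine ⟨(x 0, Fin.tail x), ?_, Fin.cons_self_tail x⟩
    rw [Finset.mem_product, Fintype.mem_piFinset]
    exact ⟨hx 0, fun j => hx _⟩
  · intro _ _
    rfl

lemma many_var {k P : ℕ} {G : ℝ → ℝ} (hG : Antitone G) (h0 : ∀ s, 0 ≤ G s) {K : ℝ} (hK : ∀ s, G s ≤ K)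
    (n : ℕ) : ∀ (s : ℝ) (θ θ' : Fin n → ℝ),
    (2 * P : ℝ) * (∑ x ∈ Fintype.piFinset (fun _ : Fin n => range (2 * P)), G (s + ∑ i, pp k P (θ i) (x i)) -
      ∑ x ∈ Fintype.piFinset (fun _ : Fin n => range (2 * P)), G (s + ∑ i, pp k P (θ' i) (x i))) ≤
      n * (2 * P : ℝ) ^ n * (2 * K) := by
  induction n with
  | zero => intro s θ θ'; simp
  | succ n ih =>
    intro s θ θ'
    have hK0 : 0 ≤ K := (h0 0).trans (hK 0)
    have e1 : ∀ θ : Fin (n + 1) → ℝ, ∑ x ∈ Fintype.piFinset (fun _ : Fin (n + 1) => range (2 * P)),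
        G (s + ∑ i, pp k P (θ i) (x i)) = ∑ a ∈ range (2 * P),
          ∑ x ∈ Fintype.piFinset (fun _ : Fin n => range (2 * P)),
            G ((s + pp k P (θ 0) a) + ∑ i, pp k P (θ (Fin.succ i)) (x i)) := by
      intro θ
      rw [sum_cons]
      apply sum_congr rfl
      intro a _
      apply sum_congr rfl
      intro x _
      rw [Fin.sum_univ_succ]
      simp only [Fin.cons_zero, Fin.cons_succ]
      congr 1
      ring
    have h1 : (2 * P : ℝ) * (∑ a ∈ range (2 * P), ∑ x ∈ Fintype.piFinset (fun _ : Fin n => range (2 * P)),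
          G ((s + pp k P (θ 0) a) + ∑ i, pp k P (θ (Fin.succ i)) (x i)) -
        ∑ a ∈ range (2 * P), ∑ x ∈ Fintype.piFinset (fun _ : Fin n => range (2 * P)),
          G ((s + pp k P (θ 0) a) + ∑ i, pp k P (θ' (Fin.succ i)) (x i))) ≤
        (2 * P : ℝ) * (n * (2 * P : ℝ) ^ n * (2 * K)) := by
      rw [← sum_sub_distrib, mul_sum]
      calc _ ≤ ∑ a ∈ range (2 * P), (n * (2 * P : ℝ) ^ n * (2 * K)) :=
            sum_le_sum fun a _ => ih _ _ _
        _ = _ := by simp
    have h2 : (2 * P : ℝ) * (∑ a ∈ range (2 * P), ∑ x ∈ Fintype.piFinset (fun _ : Fin n => range (2 * P)),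
          G ((s + pp k P (θ 0) a) + ∑ i, pp k P (θ' (Fin.succ i)) (x i)) -
        ∑ a ∈ range (2 * P), ∑ x ∈ Fintype.piFinset (fun _ : Fin n => range (2 * P)),
          G ((s + pp k P (θ' 0) a) + ∑ i, pp k P (θ' (Fin.succ i)) (x i))) ≤
        (2 * P : ℝ) * ((2 * P : ℝ) ^ n * (2 * K)) := by
      apply mul_le_mul_of_nonneg_left _ (by positivity)
      rw [sum_comm, sum_comm (s := range (2 * P)), ← sum_sub_distrib]
      calc _ ≤ ∑ x ∈ Fintype.piFinset (fun _ : Fin n => range (2 * P)), (2 * K) := by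
            apply sum_le_sum
            intro x _
            have h3 := one_var2 (k := k) (P := P) hG h0 hK (s + ∑ i, pp k P (θ' (Fin.succ i)) (x i)) (θ 0) (θ' 0)
            have e2 : ∀ t, ∑ a ∈ range (2 * P), G ((s + pp k P t a) + ∑ i, pp k P (θ' (Fin.succ i)) (x i)) =
                ∑ a ∈ range (2 * P), G ((s + ∑ i, pp k P (θ' (Fin.succ i)) (x i)) + pp k P t a) := by
              intro t
              apply sum_congr rfl
              intro a _
              congr 1
              ring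
            rw [e2, e2]
            linarith
        _ = _ := by simp
    rw [e1 θ, e1 θ']
    push_cast
    have h3 : (2 * P : ℝ) ^ (n + 1) = (2 * P) * (2 * P : ℝ) ^ n := by ring
    rw [h3]
    linarith

end Pool.Agent.X25.MW
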