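import Mathlib
import Pool.Agent.X25.MW.Mean2
import Pool.Agent.X25.MW.BC2
import Pool.Agent.X25.MW.Var2
import Pool.Agent.X25.MW.Comb

/-! Convolution of the two blocks. -/

set_option autoImplicit false

namespace Pool.Agent.X25.MW
open MeasureTheory Finset

lemma ph_flip (L τ s v : ℝ) : ph L s (τ - v) = ph L (τ - s) v := by
  rw [ph_eq, ph_eq]
  have : |s - (τ - v)| = |τ - s - v| := by
    rw [← abs_neg]
    congr 1
    ring
  rw [this]

lemma phph_int (L H a b : ℝ) : Integrable (fun u => ph L a u * ph H b u) := by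
  refine (ph_integrable H b).bdd_mul (c := 1) (ph_integrable L a).aestronglyMeasurable ?_
  refine Filter.Eventually.of_forall fun u => ?_
  rw [Real.norm_eq_abs, abs_of_nonneg (ph_nonneg _ _ _)]
  exact ph_le_one _ _ _

lemma ker_nonneg (L H a b : ℝ) : 0 ≤ ∫ v, ph L a v * ph H b v :=
  integral_nonneg fun v => mul_nonneg (ph_nonneg _ _ _) (ph_nonneg _ _ _)

lemma ker_le {L : ℝ} (hL : 0 ≤ L) (H a b : ℝ) : ∫ v, ph L a v * ph H b v ≤ L := by
  calc _ ≤ ∫ v, ph L a v := by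
        apply integral_mono (phph_int L H a b) (ph_integrable L a)
        intro v
        exact mul_le_of_le_one_right (ph_nonneg _ _ _) (ph_le_one _ _ _)
    _ = L := ph_integral hL a

lemma ker_zero {L H a b : ℝ} (h : (L + H) / 2 < |b - a|) : ∫ v, ph L a v * ph H b v = 0 := by
  have : ∀ v, ph L a v * ph H b v = 0 := by
    intro v
    rw [ph_eq, ph_eq]
    split_ifs with h1 h2
    · exfalso
      have h3 : |b - a| ≤ |b - v| + |a - v| := by
        calc |b - a| = |(b - v) - (a - v)| := by congr 1; ring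
          _ ≤ _ := abs_sub _ _
      linarith
    · simp
    · simp
    · simp
  simp [this]

lemma ker_full {L H a b : ℝ} (hL : 0 ≤ L) (h : |b - a| ≤ (H - L) / 2) : ∫ v, ph L a v * ph H b v = L := by
  have : ∀ v, ph L a v * ph H b v = ph L a v := by
    intro v
    rw [ph_eq, ph_eq]
    split_ifs with h1 h2 h2
    · simp
    · exfalso
      apply h2
      calc |b - v| = |(b - a) + (a - v)| := by congr 1; ring
        _ ≤ |b - a| + |a - v| := abs_add_le _ _
        _ ≤ _ := by linarith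
    · simp
    · simp
  simp_rw [this]
  exact ph_integral hL a

/-- the number of pairs -/
noncomputable def cnt2 {ι ι' : Type*} [Fintype ι] [DecidableEq ι] [Fintype ι'] [DecidableEq ι']
    (B : Finset ℕ) (p : ι → ℕ → ℝ) (p' : ι' → ℕ → ℝ) (τ a : ℝ) : ℕ :=
  (((Fintype.piFinset (fun _ : ι => B)) ×ˢ (Fintype.piFinset (fun _ : ι' => B))).filter
    (fun z => |∑ i, p i (z.1 i) + ∑ i, p' i (z.2 i) - τ| ≤ a)).card

section
variable {ι ι' : Type*} [Fintype ι] [DecidableEq ι] [Fintype ι'] [DecidableEq ι']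

lemma conv_eq (L H : ℝ) (B : Finset ℕ) (p : ι → ℕ → ℝ) (p' : ι' → ℕ → ℝ) (τ : ℝ) :
    ∫ v, rs L B p (τ - v) * rs H B p' v =
      ∑ z ∈ (Fintype.piFinset (fun _ : ι => B)) ×ˢ (Fintype.piFinset (fun _ : ι' => B)),
        ∫ v, ph L (τ - ∑ i, p i (z.1 i)) v * ph H (∑ i, p' i (z.2 i)) v := by
  have e2 : ∀ v, rs L B p (τ - v) * rs H B p' v =
      ∑ z ∈ (Fintype.piFinset (fun _ : ι => B)) ×ˢ (Fintype.piFinset (fun _ : ι' => B)),
        ph L (τ - ∑ i, p i (z.1 i)) v * ph H (∑ i, p' i (z.2 i)) v := by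
    intro v
    unfold rs
    rw [sum_mul_sum, ← sum_product']
    apply sum_congr rfl
    intro z _
    rw [ph_flip]
  simp_rw [e2]
  rw [integral_finsetSum _ fun z _ => phph_int _ _ _ _]

lemma conv_upper {L : ℝ} (hL : 0 ≤ L) (H : ℝ) (B : Finset ℕ) (p : ι → ℕ → ℝ) (p' : ι' → ℕ → ℝ) (τ : ℝ) :
    ∫ v, rs L B p (τ - v) * rs H B p' v ≤ L * cnt2 B p p' τ ((L + H) / 2) := by
  rw [conv_eq]
  unfold cnt2
  rw [card_filter]
  push_cast
  rw [mul_sum]
  apply sum_le_sum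
  intro z _
  have e : |∑ i, p' i (z.2 i) - (τ - ∑ i, p i (z.1 i))| = |∑ i, p i (z.1 i) + ∑ i, p' i (z.2 i) - τ| := by
    congr 1; ring
  split_ifs with h
  · rw [mul_one]
    exact ker_le hL _ _ _
  · rw [mul_zero]
    apply le_of_eq
    apply ker_zero
    rw [e]
    exact not_le.1 h

lemma conv_lower {L : ℝ} (hL : 0 ≤ L) (H : ℝ) (B : Finset ℕ) (p : ι → ℕ → ℝ) (p' : ι' → ℕ → ℝ) (τ : ℝ) :
    L * cnt2 B p p' τ ((H - L) / 2) ≤ ∫ v, rs L B p (τ - v) * rs H B p' v := by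
  rw [conv_eq]
  unfold cnt2
  rw [card_filter]
  push_cast
  rw [mul_sum]
  apply sum_le_sum
  intro z _
  have e : |∑ i, p' i (z.2 i) - (τ - ∑ i, p i (z.1 i))| = |∑ i, p i (z.1 i) + ∑ i, p' i (z.2 i) - τ| := by
    congr 1; ring
  split_ifs with h
  · rw [mul_one, ker_full hL]
    rw [e]
    exact h
  · rw [mul_zero]
    exact ker_nonneg _ _ _ _

end

/-- truncated mean -/
noncomputable def Mt (k n : ℕ) (L U u : ℝ) : ℝ := Mn k n L (min u U)

lemma Mt_mono {k n : ℕ} (hk : 1 ≤ k) (hn : k ≤ n) {L : ℝ} (hL : 0 ≤ L) (U : ℝ) : Monotone (Mt k n L U) := by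
  intro a b h
  exact Mn_mono hk hn hL (min_le_min_right U h)

lemma Mt_nonneg (k n : ℕ) {L : ℝ} (hL : 0 ≤ L) (U u : ℝ) : 0 ≤ Mt k n L U u := Mn_nonneg k n hL _

lemma Mt_le {k n : ℕ} (hk : 1 ≤ k) (hn : k ≤ n) {L : ℝ} (hL : 0 ≤ L) (U u : ℝ) : Mt k n L U u ≤ Mn k n L U :=
  Mn_mono hk hn hL (min_le_right _ _)

lemma Mt_cont {k n : ℕ} (hk : 1 ≤ k) (hn : 1 ≤ n) (L U : ℝ) : Continuous (Mt k n L U) :=
  (Mn_cont hk hn L).comp (continuous_id.min continuous_const)

/-- smoothed mean -/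
noncomputable def GG (k n : ℕ) (L H τ s : ℝ) : ℝ := ∫ v, Mt k n L (τ + H / 2) (τ - v) * ph H s v

section
variable {k n : ℕ} {L H τ : ℝ}

lemma GG_int (hk : 1 ≤ k) (hn : k ≤ n) (hL : 0 ≤ L) (U : ℝ) (s : ℝ) :
    Integrable (fun v => Mt k n L U (τ - v) * ph H s v) := by
  refine (ph_integrable H s).bdd_mul (c := Mn k n L U)
    ((Mt_cont hk (hk.trans hn) L U).comp (continuous_const.sub continuous_id)).aestronglyMeasurable ?_
  refine Filter.Eventually.of_forall fun u => ?_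
  rw [Real.norm_eq_abs, abs_of_nonneg (Mt_nonneg _ _ hL _ _)]
  exact Mt_le hk hn hL _ _

lemma GG_eq (s : ℝ) : GG k n L H τ s = ∫ w, Mt k n L (τ + H / 2) (τ - s - w) * ph H 0 w := by
  unfold GG
  rw [← integral_add_left_eq_self (fun v => Mt k n L (τ + H / 2) (τ - v) * ph H s v) s]
  apply integral_congr_ae
  refine Filter.Eventually.of_forall fun w => ?_
  simp only
  congr 1
  · congr 1; ring
  · rw [ph_eq, ph_eq]
    have : s - (s + w) = 0 - w := by ring
    rw [this]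

lemma GG_anti (hk : 1 ≤ k) (hn : k ≤ n) (hL : 0 ≤ L) : Antitone (GG k n L H τ) := by
  intro s t hst
  rw [GG_eq, GG_eq]
  apply integral_mono
  · exact GG_int (τ := τ - t) hk hn hL _ 0
  · exact GG_int (τ := τ - s) hk hn hL _ 0
  · intro w
    apply mul_le_mul_of_nonneg_right _ (ph_nonneg _ _ _)
    apply Mt_mono hk hn hL
    linarith

lemma GG_nonneg (hL : 0 ≤ L) (s : ℝ) : 0 ≤ GG k n L H τ s :=
  integral_nonneg fun _ => mul_nonneg (Mt_nonneg _ _ hL _ _) (ph_nonneg _ _ _)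

lemma GG_le (hk : 1 ≤ k) (hn : k ≤ n) (hL : 0 ≤ L) (hH : 0 ≤ H) (s : ℝ) :
    GG k n L H τ s ≤ Mn k n L (τ + H / 2) * H := by
  unfold GG
  calc _ ≤ ∫ v, Mn k n L (τ + H / 2) * ph H s v := by
        apply integral_mono (GG_int hk hn hL _ s) ((ph_integrable H s).const_mul _)
        intro v
        exact mul_le_mul_of_nonneg_right (Mt_le hk hn hL _ _) (ph_nonneg _ _ _)
    _ = _ := by rw [integral_const_mul, ph_integral hH]

lemma phi_sum {m : ℕ} (hk : 1 ≤ k) (hn : k ≤ n) (hL : 0 ≤ L) (P : ℕ) (θ : Fin m → ℝ) :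
    ∫ v, Mt k n L (τ + H / 2) (τ - v) * rs H (range (2 * P)) (fun i => pp k P (θ i)) v =
      ∑ x ∈ Fintype.piFinset (fun _ : Fin m => range (2 * P)), GG k n L H τ (0 + ∑ i, pp k P (θ i) (x i)) := by
  unfold rs GG
  simp_rw [mul_sum]
  rw [integral_finsetSum _ fun x _ => GG_int hk hn hL _ _]
  simp_rw [zero_add]

/-- averaging over the centre -/
lemma mean_phi {P : ℕ} (hk : 1 ≤ k) (hn : k ≤ n) (hL : 0 < L) (hH : 0 < H) (hτ : τ + L + H < (P:ℝ) ^ k) :
    ∫⁻ θ, ENNReal.ofReal (∫ v, Mt k n L (τ + H / 2) (τ - v) *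
      rs H (range (2 * P)) (fun i => pp k P (θ i)) v) ∂(Measure.pi (fun _ : Fin k => nu)) =
    ∫⁻ v, ENNReal.ofReal (Mt k n L (τ + H / 2) (τ - v) * Mn k k H v) := by
  have hMc := Mt_cont hk (hk.trans hn) L (τ + H / 2)
  have h1 : ∀ θ : Fin k → ℝ, ENNReal.ofReal (∫ v, Mt k n L (τ + H / 2) (τ - v) *
      rs H (range (2 * P)) (fun i => pp k P (θ i)) v) =
      ∫⁻ v, ENNReal.ofReal (Mt k n L (τ + H / 2) (τ - v)) *
        ENNReal.ofReal (rs H (range (2 * P)) (fun i => pp k P (θ i)) v) := by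
    intro θ
    rw [ofReal_integral_eq_lintegral_ofReal]
    · apply lintegral_congr
      intro v
      rw [ENNReal.ofReal_mul (Mt_nonneg _ _ hL.le _ _)]
    · unfold rs
      simp_rw [mul_sum]
      exact integrable_finsetSum _ fun x _ => GG_int hk hn hL.le _ _
    · exact Filter.Eventually.of_forall fun v => mul_nonneg (Mt_nonneg _ _ hL.le _ _) (rs_nonneg _ _ _ _)
  simp_rw [h1]
  have hm : Measurable (fun w : (Fin k → ℝ) × ℝ => ENNReal.ofReal (Mt k n L (τ + H / 2) (τ - w.2)) *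
        ENNReal.ofReal (rs H (range (2 * P)) (fun i => pp k P (w.1 i)) w.2)) := by
    have m1 : Measurable (fun w : (Fin k → ℝ) × ℝ => ENNReal.ofReal (Mt k n L (τ + H / 2) (τ - w.2))) := by
      apply ENNReal.measurable_ofReal.comp
      exact hMc.measurable.comp (measurable_const.sub measurable_snd)
    have m2 : Measurable (fun w : (Fin k → ℝ) × ℝ =>
        ENNReal.ofReal (rs H (range (2 * P)) (fun i => pp k P (w.1 i)) w.2)) := by
      apply ENNReal.measurable_ofReal.comp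
      exact measurable_rs (Z := Fin k → ℝ) H _ (fun ω i => pp k P (ω i)) (fun i x => pp_meas_pi k P i x)
    exact m1.mul m2
  rw [lintegral_lintegral_swap hm.aemeasurable]
  apply lintegral_congr
  intro v
  have hm2 : Measurable (fun θ : Fin k → ℝ => ENNReal.ofReal (rs H (range (2 * P)) (fun i => pp k P (θ i)) v)) :=
    ENNReal.measurable_ofReal.comp (measurable_rp _ _ _ _ _)
  rw [lintegral_const_mul _ hm2]
  rcases lt_or_ge (v + H / 2) ((P:ℝ) ^ k) with hv | hv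
  · rw [tile hk hk hH.le hv, ENNReal.ofReal_mul (Mt_nonneg _ _ hL.le _ _)]
  · have h0 : Mt k n L (τ + H / 2) (τ - v) = 0 := by
      unfold Mt
      apply Mn_zero hk (hk.trans hn) hL.le
      exact (min_le_left _ _).trans (by linarith)
    rw [h0]
    simp

end

end Pool.Agent.X25.MW
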