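import Mathlib
import Pool.Agent.X25.MW.Conv2

/-! Two sided bounds for the convolution. -/

set_option autoImplicit false

namespace Pool.Agent.X25.MW
open MeasureTheory Finset

section
variable {k n : ℕ} {L H τ : ℝ}

lemma int_shift (hk : 1 ≤ k) (hn : 1 ≤ n) (a b C : ℝ) (hC : 0 ≤ C) (hL : 0 ≤ L) (hab : a ≤ b) :
    ∫⁻ v in Set.Icc a b, ENNReal.ofReal (C * Mn k n L (τ - v)) =
      ENNReal.ofReal (C * ∫ u in (τ - b)..(τ - a), Mn k n L u) := by
  have hc := Mn_cont hk hn L
  have hc2 : Continuous (fun v => C * Mn k n L (τ - v)) :=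
    continuous_const.mul (hc.comp (continuous_const.sub continuous_id))
  rw [← ofReal_integral_eq_lintegral_ofReal (hc2.integrableOn_Icc)
    (Filter.Eventually.of_forall fun v => mul_nonneg hC (Mn_nonneg _ _ hL _)),
    integral_Icc_eq_integral_Ioc, ← intervalIntegral.integral_of_le hab,
    intervalIntegral.integral_const_mul, intervalIntegral.integral_comp_sub_left (fun u => Mn k n L u) τ]

lemma main_up (hk : 1 ≤ k) (hn : k ≤ n) (hL : 0 < L) (hH : 0 < H) (hτ : 0 ≤ τ) :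
    ∫⁻ v, ENNReal.ofReal (Mt k n L (τ + H / 2) (τ - v) * Mn k k H v) ≤
      ENNReal.ofReal (Vk k k * H * (Vk k n * (L * hh ((n:ℝ) / k) (τ + H / 2 + L / 2)))) := by
  have hV := Vk_pos k k
  have h1 : ∀ v, ENNReal.ofReal (Mt k n L (τ + H / 2) (τ - v) * Mn k k H v) ≤
      (Set.Icc (-(H / 2)) (τ + L / 2)).indicator (fun v => ENNReal.ofReal (Vk k k * H * Mn k n L (τ - v))) v := by
    intro v
    by_cases hv : v ∈ Set.Icc (-(H / 2)) (τ + L / 2)
    · rw [Set.indicator_of_mem hv]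
      apply ENNReal.ofReal_le_ofReal
      rw [mul_comm]
      apply mul_le_mul (Mk_le hk hH.le v) _ (Mt_nonneg _ _ hL.le _ _) (by positivity)
      exact Mn_mono hk hn hL.le (min_le_left _ _)
    · rw [Set.indicator_of_notMem hv]
      rw [Set.mem_Icc, not_and_or, not_le, not_le] at hv
      rcases hv with hv | hv
      · rw [Mn_zero hk hk hH.le hv.le]
        simp
      · have : Mt k n L (τ + H / 2) (τ - v) = 0 := by
          unfold Mt
          apply Mn_zero hk (hk.trans hn) hL.le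
          exact (min_le_left _ _).trans (by linarith)
        rw [this]
        simp
  calc _ ≤ ∫⁻ v, (Set.Icc (-(H / 2)) (τ + L / 2)).indicator
        (fun v => ENNReal.ofReal (Vk k k * H * Mn k n L (τ - v))) v := lintegral_mono h1
    _ = ∫⁻ v in Set.Icc (-(H / 2)) (τ + L / 2), ENNReal.ofReal (Vk k k * H * Mn k n L (τ - v)) :=
        lintegral_indicator measurableSet_Icc _
    _ = ENNReal.ofReal (Vk k k * H * ∫ u in (τ - (τ + L / 2))..(τ - (-(H / 2))), Mn k n L u) :=
        int_shift hk (hk.trans hn) _ _ _ (by positivity) hL.le (by linarith)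
    _ ≤ _ := by
        apply ENNReal.ofReal_le_ofReal
        apply mul_le_mul_of_nonneg_left _ (by positivity)
        have h2 := int_Mn_le (k := k) (n := n) (L := L) (U := τ + H / 2) hk (hk.trans hn) hL.le
        have e1 : τ - (τ + L / 2) = -(L / 2) := by ring
        have e2 : τ - (-(H / 2)) = τ + H / 2 := by ring
        rw [e1, e2]
        exact h2

lemma main_low (hk : 1 ≤ k) (hn : k ≤ n) (hL : 0 < L) (hH : 0 < H) (hτ : H ≤ τ) :
    ENNReal.ofReal (Vk k k * H * (Vk k n * (L * hh ((n:ℝ) / k) (τ - H / 2 - L / 2)))) ≤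
    ∫⁻ v, ENNReal.ofReal (Mt k n L (τ + H / 2) (τ - v) * Mn k k H v) := by
  have hV := Vk_pos k k
  calc _ ≤ ENNReal.ofReal (Vk k k * H * ∫ u in (τ - (τ + L / 2))..(τ - H / 2), Mn k n L u) := by
        apply ENNReal.ofReal_le_ofReal
        apply mul_le_mul_of_nonneg_left _ (by positivity)
        have h2 := le_int_Mn (k := k) (n := n) (L := L) (U := τ - H / 2) hk (hk.trans hn) hL.le
        have e1 : τ - (τ + L / 2) = -(L / 2) := by ring
        rw [e1]
        exact h2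
    _ = ∫⁻ v in Set.Icc (H / 2) (τ + L / 2), ENNReal.ofReal (Vk k k * H * Mn k n L (τ - v)) :=
        (int_shift hk (hk.trans hn) _ _ _ (by positivity) hL.le (by linarith)).symm
    _ ≤ ∫⁻ v in Set.Icc (H / 2) (τ + L / 2), ENNReal.ofReal (Mt k n L (τ + H / 2) (τ - v) * Mn k k H v) := by
        apply setLIntegral_mono'  measurableSet_Icc
        intro v hv
        apply ENNReal.ofReal_le_ofReal
        rw [Mk_eq hk hH.le hv.1]
        unfold Mt
        rw [min_eq_left (by linarith [hv.1]), mul_comm]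
    _ ≤ _ := setLIntegral_le_lintegral _ _

/-- the smooth part, for all centres -/
noncomputable def Phi (k n P : ℕ) (L H τ : ℝ) (θ : Fin k → ℝ) : ℝ :=
  ∫ v, Mt k n L (τ + H / 2) (τ - v) * rs H (range (2 * P)) (fun i => pp k P (θ i)) v

lemma Phi_diff {P : ℕ} (hk : 1 ≤ k) (hn : k ≤ n) (hL : 0 < L) (hH : 0 < H) (hP : 1 ≤ P)
    (θ θ' : Fin k → ℝ) : Phi k n P L H τ θ ≤ Phi k n P L H τ θ' +
      k * (2 * (P:ℝ)) ^ (k - 1) * (2 * (Mn k n L (τ + H / 2) * H)) := by
  unfold Phi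
  rw [phi_sum hk hn hL.le, phi_sum hk hn hL.le]
  have hP0 : (0:ℝ) < P := by exact_mod_cast hP
  have h := many_var (k := k) (P := P) (GG_anti (k := k) (n := n) (L := L) (H := H) (τ := τ) hk hn hL.le)
    (fun s => GG_nonneg hL.le s) (fun s => GG_le hk hn hL.le hH.le s) k 0 θ θ'
  have e : (2 * (P:ℝ)) ^ k = 2 * P * (2 * (P:ℝ)) ^ (k - 1) := by
    rw [← pow_succ']; congr 1; omega
  rw [e] at h
  have h2 : (2 * P : ℝ) * (∑ x ∈ Fintype.piFinset (fun _ : Fin k => range (2 * P)), GG k n L H τ (0 + ∑ i, pp k P (θ i) (x i)) -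
      ∑ x ∈ Fintype.piFinset (fun _ : Fin k => range (2 * P)), GG k n L H τ (0 + ∑ i, pp k P (θ' i) (x i))) ≤
      (2 * P : ℝ) * (k * (2 * (P:ℝ)) ^ (k - 1) * (2 * (Mn k n L (τ + H / 2) * H))) := by
    refine h.trans (le_of_eq ?_)
    ring
  have h3 := le_of_mul_le_mul_left h2 (by positivity)
  linarith

lemma Phi_up {P : ℕ} (hk : 1 ≤ k) (hn : k ≤ n) (hL : 0 < L) (hH : 0 < H) (hP : 1 ≤ P) (hτ0 : 0 ≤ τ)
    (hτ : τ + L + H < (P:ℝ) ^ k) (θ : Fin k → ℝ) : Phi k n P L H τ θ ≤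
      Vk k k * H * (Vk k n * (L * hh ((n:ℝ) / k) (τ + H / 2 + L / 2))) +
      k * (2 * (P:ℝ)) ^ (k - 1) * (2 * (Mn k n L (τ + H / 2) * H)) := by
  set E : ℝ := k * (2 * (P:ℝ)) ^ (k - 1) * (2 * (Mn k n L (τ + H / 2) * H)) with hE
  have h1 : ENNReal.ofReal (Phi k n P L H τ θ - E) ≤
      ENNReal.ofReal (Vk k k * H * (Vk k n * (L * hh ((n:ℝ) / k) (τ + H / 2 + L / 2)))) := by
    calc _ = ∫⁻ _ : Fin k → ℝ, ENNReal.ofReal (Phi k n P L H τ θ - E) ∂(Measure.pi (fun _ : Fin k => nu)) := by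
          simp
      _ ≤ ∫⁻ θ' : Fin k → ℝ, ENNReal.ofReal (Phi k n P L H τ θ') ∂(Measure.pi (fun _ : Fin k => nu)) := by
          apply lintegral_mono
          intro θ'
          apply ENNReal.ofReal_le_ofReal
          have := Phi_diff (τ := τ) hk hn hL hH hP θ θ'
          rw [← hE] at this
          linarith
      _ = _ := mean_phi hk hn hL hH hτ
      _ ≤ _ := main_up hk hn hL hH hτ0
  have hV := Vk_pos k k
  have hV' := Vk_pos k n
  have hh0 := hh_nonneg ((n:ℝ) / k) (τ + H / 2 + L / 2)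
  rw [ENNReal.ofReal_le_ofReal_iff (by positivity)] at h1
  linarith

lemma Phi_low {P : ℕ} (hk : 1 ≤ k) (hn : k ≤ n) (hL : 0 < L) (hH : 0 < H) (hP : 1 ≤ P) (hτ0 : H ≤ τ)
    (hτ : τ + L + H < (P:ℝ) ^ k) (θ : Fin k → ℝ) :
      Vk k k * H * (Vk k n * (L * hh ((n:ℝ) / k) (τ - H / 2 - L / 2))) ≤ Phi k n P L H τ θ +
      k * (2 * (P:ℝ)) ^ (k - 1) * (2 * (Mn k n L (τ + H / 2) * H)) := by
  set E : ℝ := k * (2 * (P:ℝ)) ^ (k - 1) * (2 * (Mn k n L (τ + H / 2) * H)) with hE
  have hE0 : 0 ≤ E := by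
    have := Mn_nonneg k n hL.le (τ + H / 2)
    positivity
  have hP0 : 0 ≤ Phi k n P L H τ θ := integral_nonneg fun v => mul_nonneg (Mt_nonneg _ _ hL.le _ _) (rs_nonneg _ _ _ _)
  have h1 : ENNReal.ofReal (Vk k k * H * (Vk k n * (L * hh ((n:ℝ) / k) (τ - H / 2 - L / 2)))) ≤
      ENNReal.ofReal (Phi k n P L H τ θ + E) := by
    calc _ ≤ _ := main_low hk hn hL hH hτ0
      _ = ∫⁻ θ' : Fin k → ℝ, ENNReal.ofReal (Phi k n P L H τ θ') ∂(Measure.pi (fun _ : Fin k => nu)) :=
          (mean_phi hk hn hL hH hτ).symm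
      _ ≤ ∫⁻ _ : Fin k → ℝ, ENNReal.ofReal (Phi k n P L H τ θ + E) ∂(Measure.pi (fun _ : Fin k => nu)) := by
          apply lintegral_mono
          intro θ'
          apply ENNReal.ofReal_le_ofReal
          exact Phi_diff (τ := τ) hk hn hL hH hP θ' θ
      _ = _ := by simp
  rwa [ENNReal.ofReal_le_ofReal_iff (by positivity)] at h1

/-- the error from the irregular part -/
lemma err_bound {P : ℕ} (θ : Fin n → ℝ) (p' : Fin k → ℕ → ℝ) {E1 E2 δ : ℝ} (hδ : 0 < δ)
    (h1 : ∫⁻ u : ℝ, ENNReal.ofReal (gg k P n L θ u ^ 2) < ENNReal.ofReal E1)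
    (h2 : ∫⁻ u : ℝ, ENNReal.ofReal (rs H (range (2 * P)) p' u ^ 2) < ENNReal.ofReal E2) :
    Integrable (fun v => gg k P n L θ (τ - v) * rs H (range (2 * P)) p' v) ∧
    |∫ v, gg k P n L θ (τ - v) * rs H (range (2 * P)) p' v| ≤ δ * E1 + E2 / δ := by
  have hgm : Measurable (gg k P n L θ) := by
    have h := gg_meas (k := k) (n := n) P L
    have e : gg k P n L θ = (fun w : (Fin n → ℝ) × ℝ => gg k P n L w.1 w.2) ∘ (fun u => (θ, u)) := rfl
    rw [e]
    exact h.comp (measurable_const.prodMk measurable_id)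
  have hg2 : Integrable (fun u => gg k P n L θ u ^ 2) := by
    refine ⟨(hgm.pow_const 2).aestronglyMeasurable, ?_⟩
    rw [hasFiniteIntegral_iff_ofReal (Filter.Eventually.of_forall fun u => sq_nonneg _)]
    exact h1.trans ENNReal.ofReal_lt_top
  have hr2 := rs_sq_integrable H (range (2 * P)) p'
  have hg2' : Integrable (fun v => gg k P n L θ (τ - v) ^ 2) := hg2.comp_sub_left τ
  have eg : ∫ v, gg k P n L θ (τ - v) ^ 2 = ∫ u, gg k P n L θ u ^ 2 :=
    integral_sub_left_eq_self (fun u => gg k P n L θ u ^ 2) volume τ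
  have i1 : ∫ u, gg k P n L θ u ^ 2 ≤ E1 := integral_le_of_lintegral hg2 (fun u => sq_nonneg _) h1
  have i2 : ∫ u, rs H (range (2 * P)) p' u ^ 2 ≤ E2 := integral_le_of_lintegral hr2 (fun u => sq_nonneg _) h2
  have hb : Integrable (fun v => δ * gg k P n L θ (τ - v) ^ 2 + rs H (range (2 * P)) p' v ^ 2 / δ) :=
    (hg2'.const_mul δ).add (hr2.div_const δ)
  have hpt : ∀ v, |gg k P n L θ (τ - v) * rs H (range (2 * P)) p' v| ≤
      δ * gg k P n L θ (τ - v) ^ 2 + rs H (range (2 * P)) p' v ^ 2 / δ := by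
    intro v
    set g := gg k P n L θ (τ - v)
    set r := rs H (range (2 * P)) p' v
    have e : δ * g ^ 2 + r ^ 2 / δ = ((δ * g) ^ 2 + r ^ 2) / δ := by
      field_simp
    rw [e, le_div_iff₀ hδ, abs_mul, ← sq_abs (δ * g), ← sq_abs r, abs_mul, abs_of_pos hδ]
    nlinarith [sq_nonneg (δ * |g| - |r|), sq_nonneg (δ * |g|), sq_nonneg |r|, abs_nonneg g, abs_nonneg r]
  have hm : AEStronglyMeasurable (fun v => gg k P n L θ (τ - v) * rs H (range (2 * P)) p' v) volume := by
    apply AEStronglyMeasurable.mul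
    · exact (hgm.comp (measurable_const.sub measurable_id)).aestronglyMeasurable
    · exact (rs_measurable H (range (2 * P)) p').aestronglyMeasurable
  have hI : Integrable (fun v => gg k P n L θ (τ - v) * rs H (range (2 * P)) p' v) :=
    hb.mono' hm (Filter.Eventually.of_forall fun v => by rw [Real.norm_eq_abs]; exact hpt v)
  refine ⟨hI, ?_⟩
  calc _ ≤ ∫ v, |gg k P n L θ (τ - v) * rs H (range (2 * P)) p' v| := abs_integral_le_integral_abs
    _ ≤ ∫ v, (δ * gg k P n L θ (τ - v) ^ 2 + rs H (range (2 * P)) p' v ^ 2 / δ) :=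
        integral_mono hI.abs hb hpt
    _ = δ * (∫ u, gg k P n L θ u ^ 2) + (∫ u, rs H (range (2 * P)) p' u ^ 2) / δ := by
        rw [integral_add (hg2'.const_mul δ) (hr2.div_const δ), integral_const_mul, integral_div, eg]
    _ ≤ _ := by gcongr

/-- splitting of the convolution -/
lemma conv_split {P : ℕ} (hk : 1 ≤ k) (hn : k ≤ n) (hL : 0 < L) (hH : 0 < H)
    (hτ : τ + L + H < (P:ℝ) ^ k) (θ : Fin n → ℝ) (θ' : Fin k → ℝ)
    (hI : Integrable (fun v => gg k P n L θ (τ - v) * rs H (range (2 * P)) (fun i => pp k P (θ' i)) v)) :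
    ∫ v, rs L (range (2 * P)) (fun i => pp k P (θ i)) (τ - v) *
      rs H (range (2 * P)) (fun i => pp k P (θ' i)) v = Phi k n P L H τ θ' +
      ∫ v, gg k P n L θ (τ - v) * rs H (range (2 * P)) (fun i => pp k P (θ' i)) v := by
  unfold Phi
  rw [← integral_add _ hI]
  · apply integral_congr_ae
    refine Filter.Eventually.of_forall fun v => ?_
    simp only
    rw [← add_mul]
    by_cases h0 : rs H (range (2 * P)) (fun i => pp k P (θ' i)) v = 0
    · rw [h0, mul_zero, mul_zero]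
    · congr 1
      have hv : -(H / 2) ≤ v := by
        by_contra hcon
        apply h0
        unfold rs
        apply sum_eq_zero
        intro x _
        rw [ph_eq, if_neg]
        intro h
        have h1 : 0 ≤ ∑ i, pp k P (θ' i) (x i) := sum_nonneg fun i _ => by unfold pp; positivity
        rw [not_le] at hcon
        linarith [(abs_le.1 h).2]
      unfold gg Mt
      rw [if_pos (by linarith), min_eq_left (by linarith)]
      ring
  · unfold rs
    simp_rw [mul_sum]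
    exact integrable_finsetSum _ fun x _ => GG_int hk hn hL.le _ _

end

end Pool.Agent.X25.MW
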