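import Mathlib
import Pool.Agent.X25.MW.Conv3

/-! The asymptotic formula for boxes. -/

set_option autoImplicit false

namespace Pool.Agent.X25.MW
open MeasureTheory Finset Filter

lemma shift_lim {e : ℝ} (he : 0 < e) (c : ℝ) :
    Tendsto (fun τ : ℝ => hh e (τ + c) / τ ^ e) atTop (nhds 1) := by
  have h1 : Tendsto (fun τ : ℝ => 1 + c / τ) atTop (nhds 1) := by
    have : Tendsto (fun τ : ℝ => c / τ) atTop (nhds 0) := tendsto_const_nhds.div_atTop tendsto_id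
    simpa using this.const_add 1
  have h2 : Tendsto (fun τ : ℝ => (1 + c / τ) ^ e) atTop (nhds (1 ^ e)) :=
    h1.rpow_const (Or.inr he.le)
  rw [Real.one_rpow] at h2
  refine h2.congr' ?_
  filter_upwards [eventually_ge_atTop (max 1 (-c))] with τ hτ
  have hτ1 : 1 ≤ τ := (le_max_left _ _).trans hτ
  have hτ2 : -c ≤ τ := (le_max_right _ _).trans hτ
  rw [hh_of_nonneg (by linarith), ← Real.div_rpow (by linarith) (by linarith)]
  congr 1
  field_simp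

lemma scale {k : ℕ} (hk : 1 ≤ k) {x : ℝ} (hx : 1 ≤ x) :
    ∃ J : ℕ, x < ((2 ^ J : ℕ) : ℝ) ^ k ∧ ((2 ^ J : ℕ) : ℝ) ^ k ≤ 2 ^ k * x := by
  obtain ⟨n, h1, h2⟩ := exists_nat_pow_near hx (one_lt_pow₀ (by norm_num : (1:ℝ) < 2) (by omega : k ≠ 0))
  refine ⟨n + 1, ?_, ?_⟩
  · refine h2.trans_le (le_of_eq ?_)
    push_cast
    rw [← pow_mul, ← pow_mul, mul_comm]
  · push_cast
    calc ((2:ℝ) ^ (n + 1)) ^ k = 2 ^ k * (2 ^ k) ^ n := by
          rw [← pow_mul, ← pow_mul, ← pow_add]; congr 1; ring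
      _ ≤ _ := by gcongr

theorem asy_box {k n : ℕ} (hk : 2 ≤ k) (hn : k + 1 ≤ n) {L H : ℝ} (hL : 0 < L) (hH : 0 < H)
    (θ : Fin n → ℝ) (θ' : Fin k → ℝ)
    (hA : ∀ᶠ J : ℕ in atTop, ∫⁻ u : ℝ, ENNReal.ofReal (gg k (2 ^ J) n L θ u ^ 2) <
      ENNReal.ofReal (((2 ^ J : ℕ):ℝ) ^ (2 * n) / ((2 ^ J : ℕ):ℝ) ^ k / (rho ^ J) ^ 30))
    (hB : ∀ᶠ J : ℕ in atTop,
      ∫⁻ u : ℝ, ENNReal.ofReal (rs H (range (2 * 2 ^ J)) (fun i => pp k (2 ^ J) (θ' i)) u ^ 2) <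
      ENNReal.ofReal ((rho ^ J) ^ 2 * (((2 ^ J : ℕ):ℝ) ^ (2 * k) / ((2 ^ J : ℕ):ℝ) ^ k)))
    {ε : ℝ} (hε : 0 < ε) :
    ∃ τ0 : ℝ, ∀ τ : ℝ, τ0 ≤ τ → ∃ P : ℕ, τ + L + H < (P:ℝ) ^ k ∧
      L * cnt2 (range (2 * P)) (fun i => pp k P (θ i)) (fun i => pp k P (θ' i)) τ ((H - L) / 2) ≤
        (L * H * (Vk k k * Vk k n) + ε) * τ ^ ((n:ℝ) / k) ∧
      (L * H * (Vk k k * Vk k n) - ε) * τ ^ ((n:ℝ) / k) ≤
        L * cnt2 (range (2 * P)) (fun i => pp k P (θ i)) (fun i => pp k P (θ' i)) τ ((L + H) / 2) := by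
  have hk1 : 1 ≤ k := by omega
  have hkn : k ≤ n := by omega
  have hk0 : (0:ℝ) < k := by exact_mod_cast hk1
  have hn0 : (0:ℝ) < n := by exact_mod_cast (by omega : 0 < n)
  set e : ℝ := (n:ℝ) / k with he
  have he0 : 0 < e := by positivity
  have he1 : 1 ≤ e := by
    rw [he, le_div_iff₀ hk0, one_mul]
    exact_mod_cast hkn
  set W : ℝ := L * H * (Vk k k * Vk k n) with hW
  have hV := Vk_pos k k
  have hV' := Vk_pos k n
  have hW0 : 0 < W := by positivity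
  -- constants
  set C4 : ℝ := k * 2 ^ (k - 1) * (2 * (Vk k n * (e * L) * H)) with hC4
  have hC40 : 0 ≤ C4 := by positivity
  set C5 : ℝ := (2 + C4) * (2 ^ (k + 1)) ^ e with hC5
  have hC50 : 0 < C5 := by positivity
  have hrho := one_lt_rho
  have hlim : Tendsto (fun J : ℕ => C5 / (rho ^ J) ^ 14) atTop (nhds 0) := by
    have h1 : Tendsto (fun J : ℕ => (rho ^ J) ^ 14) atTop atTop :=
      (tendsto_pow_atTop (by norm_num)).comp (tendsto_pow_atTop_atTop_of_one_lt hrho)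
    exact tendsto_const_nhds.div_atTop h1
  have hev := ((hA.and hB).and (hlim.eventually (gt_mem_nhds (half_pos hε)))).and (eventually_ge_atTop 1)
  obtain ⟨J1, hJ1⟩ := eventually_atTop.1 hev
  have hs1 := (shift_lim he0 (H / 2 + L / 2)).eventually
    (gt_mem_nhds (show (1:ℝ) < 1 + ε / (2 * W) by have : 0 < ε / (2 * W) := by positivity
                                                  linarith))
  have hs2 := (shift_lim he0 (-(H / 2) - L / 2)).eventually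
    (lt_mem_nhds (show 1 - ε / (2 * W) < (1:ℝ) by have : 0 < ε / (2 * W) := by positivity
                                                  linarith))
  obtain ⟨τ1, hτ1⟩ := eventually_atTop.1 (hs1.and hs2)
  refine ⟨max (max τ1 (((2 ^ J1 : ℕ) : ℝ) ^ k)) (max (L + H) 1), fun τ hτ => ?_⟩
  have g1 : τ1 ≤ τ := (le_max_left _ _).trans ((le_max_left _ _).trans hτ)
  have g2 : ((2 ^ J1 : ℕ) : ℝ) ^ k ≤ τ := (le_max_right _ _).trans ((le_max_left _ _).trans hτ)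
  have g3 : L + H ≤ τ := (le_max_left _ _).trans ((le_max_right _ _).trans hτ)
  have g4 : 1 ≤ τ := (le_max_right _ _).trans ((le_max_right _ _).trans hτ)
  obtain ⟨J, hJa, hJb⟩ := scale (k := k) hk1 (x := τ + L + H) (by linarith)
  have hJJ : J1 ≤ J := by
    by_contra hcon
    have h1 : 2 ^ J ≤ 2 ^ J1 := Nat.pow_le_pow_right (by norm_num) (by omega)
    have h2 : ((2 ^ J : ℕ) : ℝ) ^ k ≤ ((2 ^ J1 : ℕ) : ℝ) ^ k := by
      have : ((2 ^ J : ℕ) : ℝ) ≤ ((2 ^ J1 : ℕ) : ℝ) := by exact_mod_cast h1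
      gcongr
    linarith
  obtain ⟨⟨⟨hA', hB'⟩, hC'⟩, _⟩ := hJ1 J hJJ
  set y : ℝ := rho ^ J with hy'
  have hy : 1 ≤ y := one_le_rho_pow J
  have hy0 : 0 < y := by linarith
  set P : ℕ := 2 ^ J with hPd
  have hyP : y ^ 64 = (P:ℝ) := rho_pow_pow J
  have hP1 : 1 ≤ P := Nat.one_le_two_pow
  have hP1' : (1:ℝ) ≤ P := by exact_mod_cast hP1
  have hP0 : (0:ℝ) < P := by linarith
  refine ⟨P, hJa, ?_⟩
  set δ : ℝ := y ^ 16 * ((P:ℝ) ^ k / (P:ℝ) ^ n) with hδ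
  have hδ0 : 0 < δ := by positivity
  obtain ⟨hI, herr⟩ := err_bound (τ := τ) θ (fun i => pp k P (θ' i)) hδ0 hA' hB'
  have hsplit := conv_split hk1 hkn hL hH hJa θ θ' hI
  have hup := conv_upper hL.le H (range (2 * P)) (fun i => pp k P (θ i)) (fun i => pp k P (θ' i)) τ
  have hlow := conv_lower hL.le H (range (2 * P)) (fun i => pp k P (θ i)) (fun i => pp k P (θ' i)) τ
  have hPu := Phi_up hk1 hkn hL hH hP1 (by linarith) hJa θ'
  have hPl := Phi_low hk1 hkn hL hH hP1 (by linarith) hJa θ'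
  -- the error terms
  have t1 : δ * ((P:ℝ) ^ (2 * n) / (P:ℝ) ^ k / y ^ 30) + y ^ 2 * ((P:ℝ) ^ (2 * k) / (P:ℝ) ^ k) / δ =
      2 * ((P:ℝ) ^ n / y ^ 14) := by
    have e1 : (P:ℝ) ^ (2 * n) = P ^ n * P ^ n := by ring
    have e2 : (P:ℝ) ^ (2 * k) = P ^ k * P ^ k := by ring
    rw [hδ, e1, e2]
    field_simp
    ring
  have hPk : (P:ℝ) ^ n = ((P:ℝ) ^ k) ^ e := by
    rw [← Real.rpow_natCast (P:ℝ) k, ← Real.rpow_mul hP0.le, he, ← Real.rpow_natCast (P:ℝ) n]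
    congr 1
    field_simp
  have t2 : k * (2 * (P:ℝ)) ^ (k - 1) * (2 * (Mn k n L (τ + H / 2) * H)) ≤ C4 * ((P:ℝ) ^ n / y ^ 14) := by
    have h1 := Mn_le hk1 hkn hL (u := τ + H / 2) (by linarith)
    rw [← he] at h1
    have h2 : (τ + H / 2 + L / 2) ^ (e - 1) ≤ ((P:ℝ) ^ k) ^ (e - 1) := by
      apply Real.rpow_le_rpow (by linarith) _ (by linarith)
      linarith
    have h3 : ((P:ℝ) ^ k) ^ (e - 1) = (P:ℝ) ^ n / (P:ℝ) ^ k := by
      rw [Real.rpow_sub_one (by positivity), ← hPk]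
    have h4 : Mn k n L (τ + H / 2) ≤ Vk k n * (e * L) * ((P:ℝ) ^ n / (P:ℝ) ^ k) := by
      calc _ ≤ Vk k n * (e * (τ + H / 2 + L / 2) ^ (e - 1) * L) := h1
        _ ≤ Vk k n * (e * ((P:ℝ) ^ n / (P:ℝ) ^ k) * L) := by
            rw [← h3]
            gcongr
        _ = _ := by ring
    have h5 : (P:ℝ) ^ (k - 1) * ((P:ℝ) ^ n / (P:ℝ) ^ k) ≤ (P:ℝ) ^ n / y ^ 14 := by
      have e1 : (P:ℝ) ^ k = P ^ (k - 1) * P := by
        rw [← pow_succ]; congr 1; omega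
      rw [e1]
      have e2 : (P:ℝ) ^ (k - 1) * ((P:ℝ) ^ n / (P ^ (k - 1) * P)) = (P:ℝ) ^ n / P := by
        field_simp
      rw [e2]
      apply div_le_div_of_nonneg_left (by positivity) (by positivity)
      rw [← hyP]
      exact pow_le_pow_right₀ hy (by norm_num)
    calc _ ≤ k * (2 * (P:ℝ)) ^ (k - 1) * (2 * (Vk k n * (e * L) * ((P:ℝ) ^ n / (P:ℝ) ^ k) * H)) := by gcongr
      _ = C4 * ((P:ℝ) ^ (k - 1) * ((P:ℝ) ^ n / (P:ℝ) ^ k)) := by
          rw [hC4, mul_pow]; ring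
      _ ≤ _ := by gcongr
  have t3 : (2 + C4) * ((P:ℝ) ^ n / y ^ 14) ≤ ε / 2 * τ ^ e := by
    have h1 : (P:ℝ) ^ n ≤ (2 ^ (k + 1)) ^ e * τ ^ e := by
      rw [hPk, ← Real.mul_rpow (by positivity) (by linarith)]
      apply Real.rpow_le_rpow (by positivity) _ he0.le
      calc (P:ℝ) ^ k ≤ 2 ^ k * (τ + L + H) := hJb
        _ ≤ 2 ^ k * (2 * τ) := by
            apply mul_le_mul_of_nonneg_left _ (by positivity)
            linarith
        _ = _ := by ring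
    have h2 : 0 ≤ τ ^ e := by positivity
    calc (2 + C4) * ((P:ℝ) ^ n / y ^ 14) ≤ (2 + C4) * ((2 ^ (k + 1)) ^ e * τ ^ e / y ^ 14) := by gcongr
      _ = C5 / y ^ 14 * τ ^ e := by rw [hC5]; ring
      _ ≤ _ := by gcongr
  rw [t1] at herr
  have herr' := abs_le.1 herr
  obtain ⟨hq1, hq2⟩ := hτ1 τ g1
  have hτe : 0 < τ ^ e := by positivity
  rw [div_lt_iff₀ hτe] at hq1
  rw [lt_div_iff₀ hτe] at hq2
  rw [← he] at hPu hPl
  have e3 : τ + (H / 2 + L / 2) = τ + H / 2 + L / 2 := by ring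
  have e4 : τ + (-(H / 2) - L / 2) = τ - H / 2 - L / 2 := by ring
  rw [e3] at hq1
  rw [e4] at hq2
  have u1 : Vk k k * H * (Vk k n * (L * hh e (τ + H / 2 + L / 2))) ≤ (W + ε / 2) * τ ^ e := by
    calc _ = W * hh e (τ + H / 2 + L / 2) := by rw [hW]; ring
      _ ≤ W * ((1 + ε / (2 * W)) * τ ^ e) := by gcongr
      _ = _ := by field_simp
  have u2 : (W - ε / 2) * τ ^ e ≤ Vk k k * H * (Vk k n * (L * hh e (τ - H / 2 - L / 2))) := by
    calc (W - ε / 2) * τ ^ e = W * ((1 - ε / (2 * W)) * τ ^ e) := by field_simp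
      _ ≤ W * hh e (τ - H / 2 - L / 2) := by gcongr
      _ = _ := by rw [hW]; ring
  constructor
  · calc _ ≤ _ := hlow
      _ = _ := hsplit
      _ ≤ (W + ε) * τ ^ e := by
          have := herr'.2
          nlinarith
  · calc (W - ε) * τ ^ e ≤ _ := ?_
      _ = _ := hsplit.symm
      _ ≤ _ := hup
    have := herr'.1
    nlinarith

end Pool.Agent.X25.MW
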