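import Mathlib
import Pool.Agent.X25.MW.Asy

/-! Lattice points. -/

set_option autoImplicit false

namespace Pool.Agent.X25.MW
open MeasureTheory Finset Filter

/-- lattice points in a thin shell around `θ` -/
def latt (k d : ℕ) (θ : Fin d → ℝ) (τ η : ℝ) : Set (Fin d → ℤ) :=
  {m | |∑ i, |(m i : ℝ) - θ i| ^ k - τ| ≤ η}

lemma near_range {k P : ℕ} {t : ℝ} (ht : t ∈ Set.Icc (0:ℝ) 1) {z : ℤ}
    (h : |(z:ℝ) - t| ^ k < (P:ℝ) ^ k) : ∃ x < 2 * P, mm P x = z := by
  have h5 : |(z:ℝ) - t| < P := lt_of_pow_lt_pow_left₀ k (Nat.cast_nonneg _) h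
  rw [abs_lt] at h5
  apply mm_surj
  · have : (-(P:ℤ) : ℝ) < z := by
      push_cast
      linarith [h5.1, ht.1]
    exact_mod_cast this
  · have : (z:ℝ) < (P:ℤ) + 1 := by
      push_cast
      linarith [h5.2, ht.2]
    have h6 : z < (P:ℤ) + 1 := by exact_mod_cast this
    omega

lemma pp_unit {k P : ℕ} {t : ℝ} (ht : t ∈ Set.Icc (0:ℝ) 1) (x : ℕ) : pp k P t x = |(mm P x : ℝ) - t| ^ k := by
  unfold pp
  rw [clamp_eq ht.1 ht.2]

lemma term_lt {k d : ℕ} {θ : Fin d → ℝ} {τ η X : ℝ} (h : τ + η < X) {m : Fin d → ℤ}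
    (hm : m ∈ latt k d θ τ η) (i : Fin d) : |(m i : ℝ) - θ i| ^ k < X := by
  have h3 : |(m i : ℝ) - θ i| ^ k ≤ ∑ i, |(m i : ℝ) - θ i| ^ k :=
    single_le_sum (f := fun i => |(m i : ℝ) - θ i| ^ k) (fun _ _ => by positivity) (mem_univ i)
  have h4 : |∑ i, |(m i : ℝ) - θ i| ^ k - τ| ≤ η := hm
  linarith [(abs_le.1 h4).2]

lemma latt_card {k d P : ℕ} {θ : Fin d → ℝ} (hθ : ∀ i, θ i ∈ Set.Icc (0:ℝ) 1) {τ η : ℝ}
    (h : τ + η < (P:ℝ) ^ k) : ((latt k d θ τ η).ncard : ℝ) =
      rs (2 * η) (range (2 * P)) (fun i => pp k P (θ i)) τ := by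
  classical
  have h1 : latt k d θ τ η = (fun (x : Fin d → ℕ) i => mm P (x i)) ''
      ↑((Fintype.piFinset (fun _ : Fin d => range (2 * P))).filter
        (fun x => |∑ i, pp k P (θ i) (x i) - τ| ≤ η)) := by
    ext m
    constructor
    · intro hm
      have h2 : ∀ i, ∃ x < 2 * P, mm P x = m i := fun i => near_range (hθ i) (term_lt h hm i)
      choose x hx1 hx2 using h2
      refine ⟨x, ?_, funext hx2⟩
      rw [Finset.mem_coe, Finset.mem_filter, Fintype.mem_piFinset]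
      refine ⟨fun i => mem_range.2 (hx1 i), ?_⟩
      have h4 : |∑ i, |(m i : ℝ) - θ i| ^ k - τ| ≤ η := hm
      simp_rw [pp_unit (hθ _), hx2]
      exact h4
    · rintro ⟨x, hx, rfl⟩
      rw [Finset.mem_coe, Finset.mem_filter] at hx
      have h4 := hx.2
      simp_rw [pp_unit (hθ _)] at h4
      exact h4
  have hinj : Set.InjOn (fun (x : Fin d → ℕ) i => mm P (x i))
      ↑((Fintype.piFinset (fun _ : Fin d => range (2 * P))).filter
        (fun x => |∑ i, pp k P (θ i) (x i) - τ| ≤ η)) := by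
    intro x _ y _ hxy
    funext i
    exact mm_inj P (congrFun hxy i)
  rw [h1, Set.InjOn.ncard_image hinj, Set.ncard_coe_finset, card_filter]
  unfold rs
  push_cast
  apply sum_congr rfl
  intro x _
  rw [ph_eq]
  have : 2 * η / 2 = η := by ring
  rw [this]

lemma latt_cnt2 {k n l P : ℕ} {θ : Fin (n + l) → ℝ} (hθ : ∀ i, θ i ∈ Set.Icc (0:ℝ) 1)
    {τ η : ℝ} (h : τ + η < (P:ℝ) ^ k) : (latt k (n + l) θ τ η).ncard =
      cnt2 (range (2 * P)) (fun i => pp k P (θ (Fin.castAdd l i))) (fun i => pp k P (θ (Fin.natAdd n i)))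
        τ η := by
  classical
  set Ψ : (Fin n → ℕ) × (Fin l → ℕ) → (Fin (n + l) → ℤ) :=
    fun z i => mm P ((Fin.append z.1 z.2 : Fin (n + l) → ℕ) i) with hΨ
  have hsum : ∀ z : (Fin n → ℕ) × (Fin l → ℕ), ∑ i, |(Ψ z i : ℝ) - θ i| ^ k =
      ∑ i, pp k P (θ (Fin.castAdd l i)) (z.1 i) + ∑ i, pp k P (θ (Fin.natAdd n i)) (z.2 i) := by
    intro z
    rw [Fin.sum_univ_add]
    simp only [hΨ, Fin.append_left, Fin.append_right]
    congr 1
    · apply sum_congr rfl
      intro i _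
      rw [pp_unit (hθ _)]
    · apply sum_congr rfl
      intro i _
      rw [pp_unit (hθ _)]
  have h1 : latt k (n + l) θ τ η = Ψ ''
      ↑(((Fintype.piFinset (fun _ : Fin n => range (2 * P))) ×ˢ
        (Fintype.piFinset (fun _ : Fin l => range (2 * P)))).filter
        (fun z => |∑ i, pp k P (θ (Fin.castAdd l i)) (z.1 i) +
          ∑ i, pp k P (θ (Fin.natAdd n i)) (z.2 i) - τ| ≤ η)) := by
    ext m
    constructor
    · intro hm
      have h2 : ∀ i, ∃ x < 2 * P, mm P x = m i := fun i => near_range (hθ i) (term_lt h hm i)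
      choose x hx1 hx2 using h2
      have hx3 : Ψ (fun i => x (Fin.castAdd l i), fun i => x (Fin.natAdd n i)) = m := by
        funext i
        simp only [hΨ]
        rw [← hx2 i]
        congr 1
        refine Fin.addCases (fun j => ?_) (fun j => ?_) i
        · simp
        · simp
      refine ⟨(fun i => x (Fin.castAdd l i), fun i => x (Fin.natAdd n i)), ?_, hx3⟩
      rw [Finset.mem_coe, Finset.mem_filter, Finset.mem_product, Fintype.mem_piFinset, Fintype.mem_piFinset]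
      refine ⟨⟨fun i => mem_range.2 (hx1 _), fun i => mem_range.2 (hx1 _)⟩, ?_⟩
      rw [← hsum, hx3]
      exact hm
    · rintro ⟨z, hz, rfl⟩
      rw [Finset.mem_coe, Finset.mem_filter, ← hsum] at hz
      exact hz.2
  have hinj : Set.InjOn Ψ ↑(((Fintype.piFinset (fun _ : Fin n => range (2 * P))) ×ˢ
        (Fintype.piFinset (fun _ : Fin l => range (2 * P)))).filter
        (fun z => |∑ i, pp k P (θ (Fin.castAdd l i)) (z.1 i) +
          ∑ i, pp k P (θ (Fin.natAdd n i)) (z.2 i) - τ| ≤ η)) := by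
    intro x _ y _ hxy
    have h2 : ∀ i, (Fin.append x.1 x.2 : Fin (n + l) → ℕ) i = (Fin.append y.1 y.2 : Fin (n + l) → ℕ) i :=
      fun i => mm_inj P (congrFun hxy i)
    apply Prod.ext
    · funext i
      have := h2 (Fin.castAdd l i)
      simpa using this
    · funext i
      have := h2 (Fin.natAdd n i)
      simpa using this
  rw [h1, Set.InjOn.ncard_image hinj, Set.ncard_coe_finset]
  rfl

/-- finiteness -/
lemma latt_finite {k d : ℕ} (hk : 1 ≤ k) {θ : Fin d → ℝ} (hθ : ∀ i, θ i ∈ Set.Icc (0:ℝ) 1) (τ η : ℝ) :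
    (latt k d θ τ η).Finite := by
  classical
  obtain ⟨J, hJ, _⟩ := scale (k := k) hk (x := max 1 (τ + η)) (le_max_left _ _)
  have h : τ + η < (((2 ^ J : ℕ) : ℕ) : ℝ) ^ k := (le_max_right _ _).trans_lt hJ
  set P : ℕ := 2 ^ J
  apply Set.Finite.subset ((Fintype.piFinset (fun _ : Fin d => range (2 * P))).finite_toSet.image
    (fun (x : Fin d → ℕ) i => mm P (x i)))
  intro m hm
  have h2 : ∀ i, ∃ x < 2 * P, mm P x = m i := fun i => near_range (hθ i) (term_lt h hm i)
  choose x hx1 hx2 using h2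
  refine ⟨x, ?_, funext hx2⟩
  rw [Finset.mem_coe, Fintype.mem_piFinset]
  exact fun i => mem_range.2 (hx1 i)

lemma latt_mono {k d : ℕ} (hk : 1 ≤ k) {θ : Fin d → ℝ} (hθ : ∀ i, θ i ∈ Set.Icc (0:ℝ) 1) (τ : ℝ) {η η' : ℝ}
    (h : η ≤ η') : (latt k d θ τ η).ncard ≤ (latt k d θ τ η').ncard := by
  apply Set.ncard_le_ncard _ (latt_finite hk hθ τ η')
  intro m hm
  have h4 : |∑ i, |(m i : ℝ) - θ i| ^ k - τ| ≤ η := hm
  exact h4.trans h

/-- translations by integer vectors -/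
lemma latt_add {k d : ℕ} (θ : Fin d → ℝ) (z : Fin d → ℤ) (τ η : ℝ) :
    (latt k d (fun i => θ i + z i) τ η).ncard = (latt k d θ τ η).ncard := by
  have h : latt k d (fun i => θ i + z i) τ η = (fun m => m + z) '' latt k d θ τ η := by
    ext m
    constructor
    · intro hm
      refine ⟨m - z, ?_, by simp⟩
      have h4 : |∑ i, |(m i : ℝ) - (θ i + z i)| ^ k - τ| ≤ η := hm
      have e : ∀ i, ((m - z) i : ℝ) - θ i = (m i : ℝ) - (θ i + z i) := by
        intro i
        simp only [Pi.sub_apply]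
        push_cast
        ring
      show |∑ i, |((m - z) i : ℝ) - θ i| ^ k - τ| ≤ η
      simp_rw [e]
      exact h4
    · rintro ⟨m, hm, rfl⟩
      have h4 : |∑ i, |(m i : ℝ) - θ i| ^ k - τ| ≤ η := hm
      have e : ∀ i, ((m + z) i : ℝ) - (θ i + z i) = (m i : ℝ) - θ i := by
        intro i
        simp only [Pi.add_apply]
        push_cast
        ring
      show |∑ i, |((m + z) i : ℝ) - (θ i + z i)| ^ k - τ| ≤ η
      simp_rw [e]
      exact h4
  rw [h, Set.ncard_image_of_injective _ (add_left_injective z)]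

end Pool.Agent.X25.MW
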