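import Mathlib
import Pool.Agent.X25.MW.BC
import Pool.Agent.X25.MW.Comb

/-! All large numbers, `2k+1` variables. -/

set_option autoImplicit false

namespace Pool.Agent.X25.MW
open MeasureTheory Finset Filter

lemma qq_nonneg {k : ℕ} {c : ℝ} (hc : 0 ≤ c) (t : ℝ) (x : ℕ) : 0 ≤ qq k c t x := by
  unfold qq
  have := le_clamp 0 1 t
  positivity

lemma qq_le {k : ℕ} {c C0 : ℝ} (hc : 0 ≤ c) (hC : c ≤ C0) (t : ℝ) {x M : ℕ} (hx : x < M) :
    qq k c t x ≤ C0 * (M:ℝ) ^ k := by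
  unfold qq
  have h1 := le_clamp 0 1 t
  have h2 := clamp_le (zero_le_one (α := ℝ)) t
  have h3 : (x:ℝ) + 1 ≤ M := by exact_mod_cast hx
  have hx0 : (0:ℝ) ≤ x := Nat.cast_nonneg _
  gcongr
  all_goals linarith

/-- turning pairs into solutions in all variables -/
lemma cnt_le {m n : ℕ} (L : ℝ) (B B' : Finset ℕ) (p : Fin (m + n) → ℕ → ℝ) (τ : ℝ)
    (hB : ∀ x ∈ B, 1 ≤ x) (hB' : ∀ x ∈ B', 1 ≤ x) :
    ∃ T : Finset (Fin (m + n) → ℕ), cnt L B (fun i => p (Fin.castAdd n i)) B'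
      (fun i => p (Fin.natAdd m i)) τ ≤ T.card ∧
      ∀ x ∈ T, (∀ i, 1 ≤ x i) ∧ |∑ i, p i (x i) - τ| ≤ L := by
  classical
  set S := (((Fintype.piFinset (fun _ : Fin m => B)) ×ˢ (Fintype.piFinset (fun _ : Fin n => B'))).filter
    (fun z => |∑ i, p (Fin.castAdd n i) (z.1 i) + ∑ i, p (Fin.natAdd m i) (z.2 i) - τ| ≤ L)) with hS
  refine ⟨S.image (fun z => (Fin.append z.1 z.2 : Fin (m + n) → ℕ)), ?_, ?_⟩
  · rw [Finset.card_image_of_injOn]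
    · unfold cnt
      apply le_of_eq
      congr 1
    · intro a _ b _ h
      simp only at h
      have h1 : ∀ i, a.1 i = b.1 i := by
        intro i
        have := congrFun h (Fin.castAdd n i)
        simpa using this
      have h2 : ∀ i, a.2 i = b.2 i := by
        intro i
        have := congrFun h (Fin.natAdd m i)
        simpa using this
      exact Prod.ext (funext h1) (funext h2)
  · intro x hx
    rw [Finset.mem_image] at hx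
    obtain ⟨z, hz, rfl⟩ := hx
    rw [hS, mem_filter, mem_product, Fintype.mem_piFinset, Fintype.mem_piFinset] at hz
    constructor
    · intro i
      refine Fin.addCases (fun i => ?_) (fun i => ?_) i
      · simpa using hB _ (hz.1.1 i)
      · simpa using hB' _ (hz.1.2 i)
    · rw [Fin.sum_univ_add]
      simpa using hz.2

theorem main1 {k : ℕ} {μ : Measure ℝ} [IsFiniteMeasure μ] {c d : ℝ → ℝ} {c0 C0 : ℝ}
    (F : Fam k μ c d c0 C0) {n m : ℕ} (hn : k ≤ n) (hm : k ≤ m + 1) {L : ℝ} (hL : 0 < L)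
    (hLC : L ≤ C0) :
    ∀ᵐ ω ∂(Measure.pi (fun _ : Fin ((n + 1) + (m + 1)) => μ)), ∃ cc : ℝ, 0 < cc ∧ ∃ τ0 : ℝ,
      ∀ τ : ℝ, τ0 ≤ τ → ∃ T : Finset (Fin ((n + 1) + (m + 1)) → ℕ),
        cc * τ ^ ((((n + 1) + (m + 1) : ℕ) : ℝ) / k - 1) ≤ T.card ∧
        ∀ x ∈ T, (∀ i, 1 ≤ x i) ∧ |∑ i, qq k (c (ω i)) (d (ω i)) (x i) - τ| ≤ L := by
  have hk := F.hk
  have hC0 := F.hC0
  have hc0 := F.hc0
  have hrho := one_lt_rho
  have hk0 : (0:ℝ) < k := by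
    have : 0 < k := by omega
    exact_mod_cast this
  set s : ℕ := (n + 1) + (m + 1) with hs
  -- the width of the box
  set A : ℕ := ⌈((s:ℝ) + 2) * C0 / c0⌉₊ with hA
  have hA1 : ((s:ℝ) + 2) * C0 / c0 ≤ A := Nat.le_ceil _
  have hA0 : 1 ≤ A := by
    have h1 : 0 < ((s:ℝ) + 2) * C0 / c0 := by positivity
    exact Nat.one_le_iff_ne_zero.2 (by
      intro h
      rw [h] at hA1
      simp at hA1
      linarith)
  set Λ : ℕ := 8 * A with hΛ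
  have hΛ2 : 2 ≤ Λ := by omega
  have hΛr : (Λ:ℝ) = 8 * A := by rw [hΛ]; push_cast; ring
  have hΛ0 : (0:ℝ) < Λ := by
    have : 0 < Λ := by omega
    exact_mod_cast this
  have hcov : ((s:ℝ) + 2) * C0 * 4 ^ k ≤ c0 * ((Λ:ℝ) / 2) ^ k := by
    have h1 : ((Λ:ℝ) / 2) ^ k = 4 ^ k * (A:ℝ) ^ k := by
      rw [hΛr, ← mul_pow]
      congr 1
      ring
    have h2 : (A:ℝ) ≤ (A:ℝ) ^ k := by
      apply le_self_pow₀
      · exact_mod_cast hA0
      · omega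
    rw [div_le_iff₀ hc0] at hA1
    rw [h1]
    calc ((s:ℝ) + 2) * C0 * 4 ^ k ≤ (A * c0) * 4 ^ k := by gcongr
      _ = c0 * (4 ^ k * A) := by ring
      _ ≤ _ := by gcongr
  have hae := ae_blocks μ (n + 1) (m + 1) _ _ (aeA F hn Λ hΛ2 hL hLC) (aeB F hm 2 le_rfl hL)
  set κ0 : ℝ := L / (2 * C0 * k * (Λ:ℝ) ^ (k - 1)) with hκ0
  have hκ00 : 0 < κ0 := by positivity
  set e : ℝ := (s:ℝ) / k - 1 with he
  have he0 : 0 ≤ e := by
    rw [he, sub_nonneg, le_div_iff₀ hk0, one_mul]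
    exact_mod_cast (by omega : k ≤ s)
  filter_upwards [hae] with ω hω
  obtain ⟨jA, hjA⟩ := eventually_atTop.1 hω.1
  obtain ⟨jB, hjB⟩ := eventually_atTop.1 hω.2
  -- `y^6` is large
  obtain ⟨jC, hjC⟩ : ∃ jC : ℕ, ∀ j, jC ≤ j → 4 / (κ0 * L) ≤ (rho ^ j) ^ 6 := by
    have h1 : Tendsto (fun j : ℕ => rho ^ j) atTop atTop := tendsto_pow_atTop_atTop_of_one_lt hrho
    obtain ⟨jC, h2⟩ := eventually_atTop.1 (h1.eventually_ge_atTop (4 / (κ0 * L)))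
    refine ⟨jC, fun j hj => (h2 j hj).trans ?_⟩
    exact le_self_pow₀ (one_le_rho_pow j) (by norm_num)
  set j0 : ℕ := max jA (max jB jC) with hj0
  refine ⟨κ0 / 2 / (c0 * ((Λ:ℝ) / 2) ^ k) ^ e, by positivity,
    ((s:ℝ) + 1) * C0 * 2 ^ k * ((2:ℝ) ^ k) ^ (j0 + 1), ?_⟩
  intro τ hτ
  have hb0 : 0 < ((s:ℝ) + 1) * C0 * 2 ^ k := by positivity
  have h2k : (1:ℝ) < 2 ^ k := one_lt_pow₀ (by norm_num) (by omega)
  have hx : ((2:ℝ) ^ k) ^ (j0 + 1) ≤ τ / (((s:ℝ) + 1) * C0 * 2 ^ k) := by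
    rw [le_div_iff₀ hb0]
    linarith
  have hx1 : 1 ≤ τ / (((s:ℝ) + 1) * C0 * 2 ^ k) := le_trans (one_le_pow₀ h2k.le) hx
  obtain ⟨j, hj1, hj2⟩ := exists_nat_pow_near hx1 h2k
  have hj : j0 < j + 1 := by
    by_contra hno
    rw [not_lt] at hno
    have : ((2:ℝ) ^ k) ^ (j + 1) ≤ ((2:ℝ) ^ k) ^ (j0 + 1) := pow_le_pow_right₀ h2k.le (by omega)
    linarith
  have hjA' := hjA j (by omega)
  have hjB' := hjB j (by omega)
  have hjC' := hjC j (by omega)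
  set P : ℕ := 2 ^ j with hP
  have hP1 : 1 ≤ P := Nat.one_le_two_pow
  have hP1' : (1:ℝ) ≤ P := by exact_mod_cast hP1
  have hP0 : (0:ℝ) < P := by linarith
  set y : ℝ := rho ^ j with hy
  have hy1 : 1 ≤ y := one_le_rho_pow j
  have hy0 : 0 < y := by linarith
  have hPk : (P:ℝ) ^ k = ((2:ℝ) ^ k) ^ j := by
    rw [hP]; push_cast
    rw [← pow_mul, ← pow_mul, mul_comm]
  have hPk1 : 1 ≤ (P:ℝ) ^ k := one_le_pow₀ hP1'
  rw [← hPk, le_div_iff₀ hb0] at hj1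
  rw [pow_succ, ← hPk, div_lt_iff₀ hb0] at hj2
  have h2P : (2 * (P:ℝ)) ^ k = 2 ^ k * P ^ k := mul_pow _ _ _
  have hΛP : ((Λ * P : ℕ) : ℝ) = Λ * P := by push_cast; ring
  have hu2 : c0 * (((Λ * P : ℕ) : ℝ) / 2) ^ k = c0 * ((Λ:ℝ) / 2) ^ k * P ^ k := by
    rw [hΛP, mul_div_right_comm, mul_pow]; ring
  have h2k1 : (1:ℝ) ≤ 2 ^ k * P ^ k := by nlinarith
  set κ : ℝ := (P:ℝ) ^ n * (L / (2 * C0 * k * ((Λ * P : ℕ) : ℝ) ^ (k - 1))) with hκ
  have hκe : κ = κ0 * ((P:ℝ) ^ (n + 1) / P ^ k) := by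
    have e1 : (P:ℝ) ^ k = P ^ (k - 1) * P := by
      rw [← pow_succ]; congr 1; omega
    rw [hκ, hκ0, hΛP, mul_pow, e1, pow_succ]
    field_simp
  have hκ1 : 0 ≤ κ := by rw [hκe]; positivity
  set W : ℝ := (P:ℝ) ^ (n + 1) * P ^ (m + 1) / P ^ k with hW
  have hW0 : 0 < W := by positivity
  have hcomb := combine (ι := Fin (n + 1)) (ι' := Fin (m + 1)) (L := L) (κ := κ)
    (u1 := (n + 1) * (C0 * (2 * (P:ℝ)) ^ k)) (u2 := c0 * (((Λ * P : ℕ) : ℝ) / 2) ^ k)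
    (S := (m + 1) * (C0 * (2 * (P:ℝ)) ^ k)) (τ := τ)
    (δ := (P:ℝ) ^ (m + 1) / P ^ (n + 1) * y ^ 10) hL hκ1 (by positivity) (Ico P (Λ * P))
    (fun i => qq k (c (ω (Fin.castAdd (m + 1) i))) (d (ω (Fin.castAdd (m + 1) i))))
    (Ico P (2 * P))
    (fun i => qq k (c (ω (Fin.natAdd (n + 1) i))) (d (ω (Fin.natAdd (n + 1) i)))) ?_ ?_ ?_ ?_
  · -- main case
    have hg := integral_le_of_lintegral
      (gap_sq_integrable hκ1 L (Ico P (Λ * P)) ((n + 1) * (C0 * (2 * (P:ℝ)) ^ k))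
        (c0 * (((Λ * P : ℕ) : ℝ) / 2) ^ k)
        (fun i => qq k (c (ω (Fin.castAdd (m + 1) i))) (d (ω (Fin.castAdd (m + 1) i)))))
      (fun u => sq_nonneg _) hjA'
    have hr := integral_le_of_lintegral
      (rs_sq_integrable L (Ico P (2 * P))
        (fun i => qq k (c (ω (Fin.natAdd (n + 1) i))) (d (ω (Fin.natAdd (n + 1) i)))))
      (fun u => sq_nonneg _) hjB'
    have hcard : ((Ico P (2 * P)).card : ℝ) = P := by
      rw [Nat.card_Ico, two_mul, Nat.add_sub_cancel]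
    rw [hcard, Fintype.card_fin] at hcomb
    have t1 : κ * (L * (P:ℝ) ^ (m + 1)) = κ0 * L * W := by
      rw [hκe, hW]; ring
    have t2 : (P:ℝ) ^ (m + 1) / P ^ (n + 1) * y ^ 10 * (∫ u, gap L (Ico P (Λ * P)) κ
        ((n + 1) * (C0 * (2 * (P:ℝ)) ^ k)) (c0 * (((Λ * P : ℕ) : ℝ) / 2) ^ k)
        (fun i => qq k (c (ω (Fin.castAdd (m + 1) i))) (d (ω (Fin.castAdd (m + 1) i)))) u ^ 2) ≤
        W / y ^ 6 := by
      calc _ ≤ (P:ℝ) ^ (m + 1) / P ^ (n + 1) * y ^ 10 *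
            ((P:ℝ) ^ (2 * (n + 1)) / (P:ℝ) ^ k / y ^ 16) := by gcongr
        _ = W / y ^ 6 := by
            rw [hW]
            have e1 : (P:ℝ) ^ (2 * (n + 1)) = P ^ (n + 1) * P ^ (n + 1) := by ring
            rw [e1]
            field_simp
    have t3 : (∫ u, rs L (Ico P (2 * P))
        (fun i => qq k (c (ω (Fin.natAdd (n + 1) i))) (d (ω (Fin.natAdd (n + 1) i)))) u ^ 2) /
        ((P:ℝ) ^ (m + 1) / P ^ (n + 1) * y ^ 10) ≤ W / y ^ 6 := by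
      calc _ ≤ (y ^ 4 * ((P:ℝ) ^ (2 * (m + 1)) / (P:ℝ) ^ k)) /
            ((P:ℝ) ^ (m + 1) / P ^ (n + 1) * y ^ 10) := by gcongr
        _ = W / y ^ 6 := by
            rw [hW]
            have e1 : (P:ℝ) ^ (2 * (m + 1)) = P ^ (m + 1) * P ^ (m + 1) := by ring
            rw [e1]
            field_simp
    have t4 : W / y ^ 6 ≤ κ0 * L / 4 * W := by
      rw [div_le_iff₀ (by positivity)]
      rw [div_le_iff₀ (by positivity)] at hjC'
      nlinarith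
    obtain ⟨T, hT1, hT2⟩ := cnt_le (m := n + 1) (n := m + 1) L (Ico P (Λ * P)) (Ico P (2 * P))
      (fun i => qq k (c (ω i)) (d (ω i))) τ (fun x hx => hP1.trans (mem_Ico.1 hx).1)
      (fun x hx => hP1.trans (mem_Ico.1 hx).1)
    refine ⟨T, ?_, hT2⟩
    set N : ℕ := cnt L (Ico P (Λ * P))
      (fun i => qq k (c (ω (Fin.castAdd (m + 1) i))) (d (ω (Fin.castAdd (m + 1) i))))
      (Ico P (2 * P))
      (fun i => qq k (c (ω (Fin.natAdd (n + 1) i))) (d (ω (Fin.natAdd (n + 1) i)))) τ with hN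
    have t5 : κ0 / 2 * W ≤ N := by
      have h5 : κ0 * L / 2 * W ≤ L * N := by
        rw [t1] at hcomb
        linarith
      have h6 : L * (κ0 / 2 * W) ≤ L * N := by
        calc L * (κ0 / 2 * W) = κ0 * L / 2 * W := by ring
          _ ≤ _ := h5
      exact le_of_mul_le_mul_left h6 hL
    have hNT : (N:ℝ) ≤ T.card := by exact_mod_cast hT1
    refine le_trans ?_ (t5.trans hNT)
    -- the size of `τ`
    have hτ1 : τ ≤ c0 * ((Λ:ℝ) / 2) ^ k * P ^ k := by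
      have h7 : ((s:ℝ) + 1) * C0 * 4 ^ k * P ^ k ≤ ((s:ℝ) + 2) * C0 * 4 ^ k * P ^ k := by
        gcongr
        norm_num
      have h8 : ((s:ℝ) + 2) * C0 * 4 ^ k * P ^ k ≤ c0 * ((Λ:ℝ) / 2) ^ k * P ^ k := by gcongr
      have h9 : (P:ℝ) ^ k * 2 ^ k * (((s:ℝ) + 1) * C0 * 2 ^ k) = ((s:ℝ) + 1) * C0 * 4 ^ k * P ^ k := by
        have : (4:ℝ) ^ k = 2 ^ k * 2 ^ k := by rw [← mul_pow]; norm_num
        rw [this]; ring
      linarith
    have hτ0 : 0 ≤ τ := by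
      have : 0 ≤ (P:ℝ) ^ k * (((s:ℝ) + 1) * C0 * 2 ^ k) := by positivity
      linarith
    have hpow : τ ^ e ≤ (c0 * ((Λ:ℝ) / 2) ^ k) ^ e * W := by
      have h10 : ((P:ℝ) ^ k) ^ e = W := by
        rw [← Real.rpow_natCast (P:ℝ) k, ← Real.rpow_mul hP0.le]
        have h11 : (k:ℝ) * e = ((s - k : ℕ) : ℝ) := by
          rw [he, Nat.cast_sub (by omega)]
          field_simp
        rw [h11, Real.rpow_natCast, hW, eq_div_iff (by positivity), ← pow_add, ← pow_add]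
        congr 1
        omega
      calc τ ^ e ≤ (c0 * ((Λ:ℝ) / 2) ^ k * P ^ k) ^ e := Real.rpow_le_rpow hτ0 hτ1 he0
        _ = (c0 * ((Λ:ℝ) / 2) ^ k) ^ e * ((P:ℝ) ^ k) ^ e := by
            rw [Real.mul_rpow (by positivity) (by positivity)]
        _ = _ := by rw [h10]
    have hDe : 0 < (c0 * ((Λ:ℝ) / 2) ^ k) ^ e := by positivity
    calc κ0 / 2 / (c0 * ((Λ:ℝ) / 2) ^ k) ^ e * τ ^ e ≤
          κ0 / 2 / (c0 * ((Λ:ℝ) / 2) ^ k) ^ e * ((c0 * ((Λ:ℝ) / 2) ^ k) ^ e * W) := by gcongr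
      _ = κ0 / 2 * W := by field_simp
  · intro y' hy'
    apply sum_nonneg
    intro i _
    exact qq_nonneg (hc0.le.trans (F.cl _)) _ _
  · intro y' hy'
    rw [Fintype.mem_piFinset] at hy'
    calc ∑ i : Fin (m + 1), qq k (c (ω (Fin.natAdd (n + 1) i))) (d (ω (Fin.natAdd (n + 1) i))) (y' i)
        ≤ ∑ i : Fin (m + 1), C0 * (2 * (P:ℝ)) ^ k := by
          apply sum_le_sum
          intro i _
          have := qq_le (k := k) (hc0.le.trans (F.cl (ω (Fin.natAdd (n + 1) i)))) (F.cu _)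
            (d (ω (Fin.natAdd (n + 1) i))) (mem_Ico.1 (hy' i)).2
          refine this.trans (le_of_eq ?_)
          push_cast
          rfl
      _ = _ := by simp
  · -- lower end
    rw [h2P]
    have h7 : L ≤ C0 * (2 ^ k * P ^ k) := by nlinarith
    have h8 : ((n:ℝ) + 1) * (C0 * (2 ^ k * (P:ℝ) ^ k)) + ((m:ℝ) + 1) * (C0 * (2 ^ k * (P:ℝ) ^ k)) +
        C0 * (2 ^ k * P ^ k) = P ^ k * (((s:ℝ) + 1) * C0 * 2 ^ k) := by
      rw [hs]; push_cast; ring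
    linarith
  · rw [hu2]
    have h9 : (P:ℝ) ^ k * 2 ^ k * (((s:ℝ) + 1) * C0 * 2 ^ k) = ((s:ℝ) + 1) * C0 * 4 ^ k * P ^ k := by
      have : (4:ℝ) ^ k = 2 ^ k * 2 ^ k := by rw [← mul_pow]; norm_num
      rw [this]; ring
    have h4 : (1:ℝ) ≤ 4 ^ k := one_le_pow₀ (by norm_num)
    have h7 : L ≤ C0 * (4 ^ k * P ^ k) := by
      have : (1:ℝ) ≤ 4 ^ k * P ^ k := by nlinarith
      nlinarith
    have h8 : ((s:ℝ) + 2) * C0 * 4 ^ k * P ^ k ≤ c0 * ((Λ:ℝ) / 2) ^ k * P ^ k := by gcongr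
    have h10 : ((s:ℝ) + 2) * C0 * 4 ^ k * P ^ k = ((s:ℝ) + 1) * C0 * 4 ^ k * P ^ k +
        C0 * (4 ^ k * P ^ k) := by ring
    linarith

end Pool.Agent.X25.MW
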