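import Mathlib
import Pool.Agent.X25.MW.BC
import Pool.Agent.X25.MW.Comb

/-! Almost all numbers, `k+1` variables. -/

set_option autoImplicit false

namespace Pool.Agent.X25.MW
open MeasureTheory Finset Filter

theorem main2 {k : ℕ} {μ : Measure ℝ} [IsFiniteMeasure μ] {c d : ℝ → ℝ} {c0 C0 : ℝ}
    (F : Fam k μ c d c0 C0) {n : ℕ} (hn : k ≤ n) {L : ℝ} (hL : 0 < L) (hLC : L ≤ C0) :
    ∀ᵐ ω ∂(Measure.pi (fun _ : Fin (n + 1) => μ)), ∃ cc : ℝ, 0 < cc ∧ ∃ T0 : ℝ, ∀ T : ℝ, T0 ≤ T →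
      volume {τ : ℝ | 0 ≤ τ ∧ τ ≤ T ∧ ¬ ∃ S : Finset (Fin (n + 1) → ℕ),
        cc * τ ^ (((n + 1 : ℕ) : ℝ) / k - 1) ≤ S.card ∧
        ∀ x ∈ S, (∀ i, 1 ≤ x i) ∧ |∑ i, qq k (c (ω i)) (d (ω i)) (x i) - τ| ≤ L} ≤
        ENNReal.ofReal (T ^ (1 - 1 / (8 * (k:ℝ)))) := by
  have hk := F.hk
  have hC0 := F.hC0
  have hc0 := F.hc0
  have hrho := one_lt_rho
  have hrho0 : 0 < rho := by linarith
  have hk2 : (2:ℝ) ≤ k := by exact_mod_cast hk
  have hk0 : (0:ℝ) < k := by linarith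
  -- the width of the box
  set A : ℕ := ⌈((n:ℝ) + 2) * C0 / c0⌉₊ with hA
  have hA1 : ((n:ℝ) + 2) * C0 / c0 ≤ A := Nat.le_ceil _
  have hA0 : 1 ≤ A := by
    have h1 : 0 < ((n:ℝ) + 2) * C0 / c0 := by positivity
    exact Nat.one_le_iff_ne_zero.2 (by
      intro h
      rw [h] at hA1
      simp at hA1
      linarith)
  set Λ : ℕ := 8 * A with hΛ
  have hΛ2 : 2 ≤ Λ := by omega
  have hΛr : (Λ:ℝ) = 8 * A := by rw [hΛ]; push_cast; ring
  have hΛ0 : (0:ℝ) < Λ := by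
    have : 0 < Λ := by omega
    exact_mod_cast this
  have hcov : ((n:ℝ) + 2) * C0 * 4 ^ k ≤ c0 * ((Λ:ℝ) / 2) ^ k := by
    have h1 : ((Λ:ℝ) / 2) ^ k = 4 ^ k * (A:ℝ) ^ k := by
      rw [hΛr, ← mul_pow]
      congr 1
      ring
    have h2 : (A:ℝ) ≤ (A:ℝ) ^ k := by
      apply le_self_pow₀
      · exact_mod_cast hA0
      · omega
    rw [div_le_iff₀ hc0] at hA1
    rw [h1]
    calc ((n:ℝ) + 2) * C0 * 4 ^ k ≤ (A * c0) * 4 ^ k := by gcongr
      _ = c0 * (4 ^ k * A) := by ring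
      _ ≤ _ := by gcongr
  set κ0 : ℝ := L / (2 * C0 * k * (Λ:ℝ) ^ (k - 1)) with hκ0
  have hκ00 : 0 < κ0 := by positivity
  set e : ℝ := ((n + 1 : ℕ) : ℝ) / k - 1 with he
  have he0 : 0 ≤ e := by
    rw [he, sub_nonneg, le_div_iff₀ hk0, one_mul]
    exact_mod_cast (by omega : k ≤ n + 1)
  set bb : ℝ := ((n:ℝ) + 1) * C0 * 2 ^ k with hbb
  have hb0 : 0 < bb := by positivity
  have h2k : (1:ℝ) < 2 ^ k := one_lt_pow₀ (by norm_num) (by omega)
  set z : ℝ := 2 ^ k / rho ^ 16 with hz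
  have hr16 : rho ^ 16 < 2 := by
    rw [← rho_pow]
    exact pow_lt_pow_right₀ hrho (by norm_num)
  have hz1 : 1 < z := by
    rw [hz, one_lt_div (by positivity)]
    calc rho ^ 16 < 2 := hr16
      _ = 2 ^ 1 := (pow_one _).symm
      _ ≤ 2 ^ k := pow_le_pow_right₀ (by norm_num) (by omega)
  filter_upwards [aeA F hn Λ hΛ2 hL hLC] with ω hω
  obtain ⟨j0, hj0⟩ := eventually_atTop.1 hω
  set cc : ℝ := κ0 / 2 / (c0 * ((Λ:ℝ) / 2) ^ k) ^ e with hcc
  have hcc0 : 0 < cc := by positivity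
  set X0 : ℝ := bb * ((2:ℝ) ^ k) ^ (j0 + 1) with hX0
  have hX00 : 0 < X0 := by positivity
  set Good : ℝ → Prop := fun τ => ∃ S : Finset (Fin (n + 1) → ℕ),
        cc * τ ^ e ≤ S.card ∧
        ∀ x ∈ S, (∀ i, 1 ≤ x i) ∧ |∑ i, qq k (c (ω i)) (d (ω i)) (x i) - τ| ≤ L with hGood
  -- bad sets at each scale
  set bad : ℕ → Set ℝ := fun j => {u | bb * ((2:ℝ) ^ k) ^ j ≤ u ∧ u < bb * ((2:ℝ) ^ k) ^ (j + 1) ∧
    ¬ Good u} with hbad
  have hbadm : ∀ j, j0 ≤ j → volume (bad j) ≤ ENNReal.ofReal (4 / κ0 ^ 2 * z ^ j) := by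
    intro j hj
    have hj' := hj0 j hj
    set P : ℕ := 2 ^ j with hP
    have hP1 : 1 ≤ P := Nat.one_le_two_pow
    have hP1' : (1:ℝ) ≤ P := by exact_mod_cast hP1
    have hP0 : (0:ℝ) < P := by linarith
    set y : ℝ := rho ^ j with hy
    have hy1 : 1 ≤ y := one_le_rho_pow j
    have hy0 : 0 < y := by linarith
    have hPk : (P:ℝ) ^ k = ((2:ℝ) ^ k) ^ j := by
      rw [hP]; push_cast
      rw [← pow_mul, ← pow_mul, mul_comm]
    have h2P : (2 * (P:ℝ)) ^ k = 2 ^ k * P ^ k := mul_pow _ _ _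
    have hΛP : ((Λ * P : ℕ) : ℝ) = Λ * P := by push_cast; ring
    have hu2 : c0 * (((Λ * P : ℕ) : ℝ) / 2) ^ k = c0 * ((Λ:ℝ) / 2) ^ k * P ^ k := by
      rw [hΛP, mul_div_right_comm, mul_pow]; ring
    set κ : ℝ := (P:ℝ) ^ n * (L / (2 * C0 * k * ((Λ * P : ℕ) : ℝ) ^ (k - 1))) with hκ
    have hκe : κ = κ0 * ((P:ℝ) ^ (n + 1) / P ^ k) := by
      have e1 : (P:ℝ) ^ k = P ^ (k - 1) * P := by
        rw [← pow_succ]; congr 1; omega
      rw [hκ, hκ0, hΛP, mul_pow, e1, pow_succ]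
      field_simp
    have hκ1 : 0 < κ := by rw [hκe]; positivity
    set g : ℝ → ℝ := gap L (Ico P (Λ * P)) κ ((n + 1) * (C0 * (2 * (P:ℝ)) ^ k))
      (c0 * (((Λ * P : ℕ) : ℝ) / 2) ^ k) (fun i => qq k (c (ω i)) (d (ω i))) with hg
    have hsub : bad j ⊆ {u | ENNReal.ofReal ((κ / 2) ^ 2) ≤ ENNReal.ofReal (g u ^ 2)} := by
      intro u hu
      obtain ⟨hu1, hu2', hu3⟩ := hu
      by_contra hno
      apply hu3
      have hgu : g u < κ / 2 := by
        by_contra h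
        rw [not_lt] at h
        apply hno
        simp only [Set.mem_setOf_eq]
        apply ENNReal.ofReal_le_ofReal
        gcongr
      have hmem1 : ((n:ℝ) + 1) * (C0 * (2 * (P:ℝ)) ^ k) ≤ u := by
        rw [h2P, hPk]
        refine le_trans (le_of_eq ?_) hu1
        rw [hbb]; ring
      have h4 : bb * ((2:ℝ) ^ k) ^ (j + 1) ≤ ((n:ℝ) + 2) * C0 * 4 ^ k * P ^ k := by
        rw [pow_succ, ← hPk, hbb]
        have : (4:ℝ) ^ k = 2 ^ k * 2 ^ k := by rw [← mul_pow]; norm_num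
        rw [this]
        have h5 : ((n:ℝ) + 1) ≤ (n:ℝ) + 2 := by linarith
        calc ((n:ℝ) + 1) * C0 * 2 ^ k * ((P:ℝ) ^ k * 2 ^ k) = ((n:ℝ) + 1) * (C0 * (2 ^ k * 2 ^ k) * P ^ k) := by ring
          _ ≤ ((n:ℝ) + 2) * (C0 * (2 ^ k * 2 ^ k) * P ^ k) := by gcongr
          _ = _ := by ring
      have hu4 : u ≤ c0 * ((Λ:ℝ) / 2) ^ k * P ^ k := by
        have h8 : ((n:ℝ) + 2) * C0 * 4 ^ k * P ^ k ≤ c0 * ((Λ:ℝ) / 2) ^ k * P ^ k := by gcongr
        linarith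
      have hrs : κ / 2 ≤ rs L (Ico P (Λ * P)) (fun i => qq k (c (ω i)) (d (ω i))) u := by
        have h6 : κ - rs L (Ico P (Λ * P)) (fun i => qq k (c (ω i)) (d (ω i))) u ≤ g u := by
          rw [hg]
          unfold gap
          rw [if_pos ⟨hmem1, by rw [hu2]; exact hu4⟩]
          exact le_max_right _ _
        linarith
      have hu0 : 0 ≤ u := le_trans (by positivity) hu1
      refine ⟨(Fintype.piFinset (fun _ : Fin (n + 1) => Ico P (Λ * P))).filter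
        (fun x => |∑ i, qq k (c (ω i)) (d (ω i)) (x i) - u| ≤ L / 2), ?_, ?_⟩
      · have e1 : rs L (Ico P (Λ * P)) (fun i => qq k (c (ω i)) (d (ω i))) u =
            (((Fintype.piFinset (fun _ : Fin (n + 1) => Ico P (Λ * P))).filter
              (fun x => |∑ i, qq k (c (ω i)) (d (ω i)) (x i) - u| ≤ L / 2)).card : ℝ) := by
          unfold rs
          rw [card_filter]
          push_cast
          apply sum_congr rfl
          intro x _
          rw [ph_eq]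
        rw [← e1]
        refine le_trans ?_ hrs
        have hpow : u ^ e ≤ (c0 * ((Λ:ℝ) / 2) ^ k) ^ e * ((P:ℝ) ^ (n + 1) / P ^ k) := by
          have h10 : ((P:ℝ) ^ k) ^ e = (P:ℝ) ^ (n + 1) / P ^ k := by
            rw [← Real.rpow_natCast (P:ℝ) k, ← Real.rpow_mul hP0.le]
            have h11 : (k:ℝ) * e = ((n + 1 - k : ℕ) : ℝ) := by
              rw [he, Nat.cast_sub (by omega)]
              field_simp
            rw [h11, Real.rpow_natCast, Real.rpow_natCast, eq_div_iff (by positivity), ← pow_add]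
            congr 1
            omega
          calc u ^ e ≤ (c0 * ((Λ:ℝ) / 2) ^ k * P ^ k) ^ e := Real.rpow_le_rpow hu0 hu4 he0
            _ = (c0 * ((Λ:ℝ) / 2) ^ k) ^ e * ((P:ℝ) ^ k) ^ e := by
                rw [Real.mul_rpow (by positivity) (by positivity)]
            _ = _ := by rw [h10]
        have hDe : 0 < (c0 * ((Λ:ℝ) / 2) ^ k) ^ e := by positivity
        rw [hκe]
        calc cc * u ^ e ≤ cc * ((c0 * ((Λ:ℝ) / 2) ^ k) ^ e * ((P:ℝ) ^ (n + 1) / P ^ k)) := by gcongr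
          _ = κ0 * ((P:ℝ) ^ (n + 1) / P ^ k) / 2 := by rw [hcc]; field_simp
      · intro x hx
        rw [mem_filter, Fintype.mem_piFinset] at hx
        refine ⟨fun i => hP1.trans (mem_Ico.1 (hx.1 i)).1, hx.2.trans (by linarith)⟩
    refine (measure_mono hsub).trans ?_
    have hgm : Measurable (fun u => ENNReal.ofReal (g u ^ 2)) :=
      ENNReal.measurable_ofReal.comp ((gap_measurable L (Ico P (Λ * P)) κ _ _ _).pow_const 2)
    have hk4 : ENNReal.ofReal ((κ / 2) ^ 2) ≠ 0 := by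
      simp only [ne_eq, ENNReal.ofReal_eq_zero, not_le]
      positivity
    refine (meas_ge_le_lintegral_div hgm.aemeasurable hk4 ENNReal.ofReal_ne_top).trans ?_
    refine (ENNReal.div_le_div_right hj'.le _).trans ?_
    rw [← ENNReal.ofReal_div_of_pos (by positivity)]
    apply ENNReal.ofReal_le_ofReal
    apply le_of_eq
    have e5 : z ^ j = P ^ k / y ^ 16 := by
      rw [hz, div_pow, ← hPk, hy, ← pow_mul, ← pow_mul, mul_comm 16 j]
    rw [e5, hκe]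
    have e6 : (P:ℝ) ^ (2 * (n + 1)) = P ^ (n + 1) * P ^ (n + 1) := by ring
    rw [e6]
    field_simp
    norm_num
  -- constants
  set c8 : ℝ := 1 - 1 / (4 * (k:ℝ)) with hc8
  have hc80 : 0 < c8 := by
    rw [hc8, sub_pos, div_lt_one (by positivity)]
    linarith
  set CC : ℝ := 4 / κ0 ^ 2 * (z / (z - 1)) * (bb⁻¹) ^ c8 with hCC
  have hCC0 : 0 < CC := by
    have : 0 < z - 1 := by linarith
    positivity
  obtain ⟨T1, hT1⟩ : ∃ T1 : ℝ, ∀ T, T1 ≤ T → X0 + CC * T ^ c8 ≤ T ^ (1 - 1 / (8 * (k:ℝ))) := by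
    have ha : 0 < 1 / (8 * (k:ℝ)) := by positivity
    have h1 : Tendsto (fun T : ℝ => T ^ (1 / (8 * (k:ℝ)))) atTop atTop := tendsto_rpow_atTop ha
    obtain ⟨T1, h2⟩ := eventually_atTop.1 (h1.eventually_ge_atTop (X0 + CC))
    refine ⟨max T1 1, fun T hT => ?_⟩
    have hTT : 1 ≤ T := le_trans (le_max_right _ _) hT
    have h3 := h2 T (le_trans (le_max_left _ _) hT)
    have h4 : 1 ≤ T ^ c8 := Real.one_le_rpow hTT hc80.le
    have h5 : T ^ (1 - 1 / (8 * (k:ℝ))) = T ^ c8 * T ^ (1 / (8 * (k:ℝ))) := by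
      rw [← Real.rpow_add (by linarith)]
      congr 1
      rw [hc8]
      field_simp
      ring
    rw [h5]
    calc X0 + CC * T ^ c8 ≤ T ^ c8 * (X0 + CC) := by nlinarith
      _ ≤ _ := by gcongr
  refine ⟨cc, hcc0, max T1 X0, ?_⟩
  intro T hT
  have hTX : X0 ≤ T := le_trans (le_max_right _ _) hT
  have hT1' := hT1 T (le_trans (le_max_left _ _) hT)
  -- the last scale
  have hxx : 1 ≤ T / bb := by
    rw [le_div_iff₀ hb0, one_mul]
    refine le_trans ?_ hTX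
    rw [hX0]
    have : (1:ℝ) ≤ ((2:ℝ) ^ k) ^ (j0 + 1) := one_le_pow₀ h2k.le
    nlinarith
  obtain ⟨J, hJ1, hJ2⟩ := exists_nat_pow_near hxx h2k
  have hcover : {τ : ℝ | 0 ≤ τ ∧ τ ≤ T ∧ ¬ Good τ} ⊆ Set.Icc 0 X0 ∪ ⋃ j ∈ Icc j0 J, bad j := by
    intro τ hτ
    obtain ⟨h1, h2, h3⟩ := hτ
    by_cases hτX : τ ≤ X0
    · exact Or.inl ⟨h1, hτX⟩
    · right
      rw [not_le] at hτX
      have hx : ((2:ℝ) ^ k) ^ (j0 + 1) ≤ τ / bb := by
        rw [le_div_iff₀ hb0, mul_comm]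
        exact hτX.le
      have hx1 : 1 ≤ τ / bb := le_trans (one_le_pow₀ h2k.le) hx
      obtain ⟨j, hj1, hj2⟩ := exists_nat_pow_near hx1 h2k
      have hj : j0 ≤ j := by
        by_contra hno
        rw [not_le] at hno
        have : ((2:ℝ) ^ k) ^ (j + 1) ≤ ((2:ℝ) ^ k) ^ (j0 + 1) := pow_le_pow_right₀ h2k.le (by omega)
        linarith
      have hjJ : j ≤ J := by
        by_contra hno
        rw [not_le] at hno
        have h5 : ((2:ℝ) ^ k) ^ (J + 1) ≤ ((2:ℝ) ^ k) ^ j := pow_le_pow_right₀ h2k.le (by omega)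
        have h6 : τ / bb ≤ T / bb := by gcongr
        linarith
      simp only [Set.mem_iUnion]
      refine ⟨j, mem_Icc.2 ⟨hj, hjJ⟩, ?_, ?_, h3⟩
      · rw [le_div_iff₀ hb0] at hj1; linarith
      · rw [div_lt_iff₀ hb0] at hj2; linarith
  have hzs : ∑ j ∈ Icc j0 J, 4 / κ0 ^ 2 * z ^ j ≤ CC * T ^ c8 := by
    rw [← mul_sum]
    have h1 : ∑ j ∈ Icc j0 J, z ^ j ≤ ∑ j ∈ range (J + 1), z ^ j := by
      apply Finset.sum_le_sum_of_subset_of_nonneg
      · intro j hj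
        rw [mem_Icc] at hj
        rw [mem_range]
        omega
      · intro j _ _
        positivity
    have hz0 : 0 < z - 1 := by linarith
    have h2 : ∑ j ∈ range (J + 1), z ^ j ≤ z / (z - 1) * z ^ J := by
      rw [geom_sum_eq hz1.ne']
      rw [div_mul_eq_mul_div]
      gcongr
      rw [pow_succ]
      linarith
    have h3 : z ^ J ≤ (bb⁻¹) ^ c8 * T ^ c8 := by
      have h4 : z ^ J = (((2:ℝ) ^ k) ^ J) ^ c8 := by
        have e1 : ((2:ℝ) ^ k) ^ J = (2:ℝ) ^ ((k * J : ℕ) : ℝ) := by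
          rw [Real.rpow_natCast, pow_mul]
        have e2 : rho ^ 16 = (2:ℝ) ^ ((4:ℝ)⁻¹) := by
          unfold rho
          rw [← Real.rpow_natCast, ← Real.rpow_mul (by norm_num)]
          norm_num
        rw [hz, div_pow, e2, ← Real.rpow_natCast _ J, ← Real.rpow_natCast _ J, ← Real.rpow_natCast 2 k,
          ← Real.rpow_mul (by norm_num), ← Real.rpow_mul (by norm_num), ← Real.rpow_sub (by norm_num),
          ← Real.rpow_mul (by norm_num)]
        congr 1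
        rw [hc8]
        field_simp
      rw [h4, ← Real.mul_rpow (by positivity) (by linarith)]
      apply Real.rpow_le_rpow (by positivity) _ hc80.le
      rw [inv_mul_eq_div]
      exact hJ1
    have h4 : 0 ≤ z / (z - 1) := by positivity
    calc 4 / κ0 ^ 2 * ∑ j ∈ Icc j0 J, z ^ j ≤ 4 / κ0 ^ 2 * (z / (z - 1) * ((bb⁻¹) ^ c8 * T ^ c8)) := by
          apply mul_le_mul_of_nonneg_left _ (by positivity)
          exact (h1.trans h2).trans (mul_le_mul_of_nonneg_left h3 h4)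
      _ = _ := by rw [hCC]; ring
  calc volume {τ : ℝ | 0 ≤ τ ∧ τ ≤ T ∧ ¬ Good τ} ≤
        volume (Set.Icc 0 X0 ∪ ⋃ j ∈ Icc j0 J, bad j) := measure_mono hcover
    _ ≤ volume (Set.Icc 0 X0) + volume (⋃ j ∈ Icc j0 J, bad j) := measure_union_le _ _
    _ ≤ ENNReal.ofReal X0 + ∑ j ∈ Icc j0 J, volume (bad j) := by
        gcongr
        · rw [Real.volume_Icc, sub_zero]
        · exact measure_biUnion_finset_le _ _
    _ ≤ ENNReal.ofReal X0 + ∑ j ∈ Icc j0 J, ENNReal.ofReal (4 / κ0 ^ 2 * z ^ j) := by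
        gcongr with j hj
        exact hbadm j (mem_Icc.1 hj).1
    _ = ENNReal.ofReal (X0 + ∑ j ∈ Icc j0 J, 4 / κ0 ^ 2 * z ^ j) := by
        rw [← ENNReal.ofReal_sum_of_nonneg (fun j _ => by positivity), ← ENNReal.ofReal_add hX00.le]
        exact sum_nonneg fun j _ => by positivity
    _ ≤ ENNReal.ofReal (T ^ (1 - 1 / (8 * (k:ℝ)))) := by
        apply ENNReal.ofReal_le_ofReal
        linarith

end Pool.Agent.X25.MW
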