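import Mathlib
import Pool.Agent.X25.MW.FamCoef
import Pool.Agent.X25.MW.Main
import Pool.Agent.X25.MW.Most

/-! Final form for random coefficients. -/

set_option autoImplicit false

namespace Pool.Agent.X25.MW
open MeasureTheory Finset Filter

lemma finite_sol {s : ℕ} (f : Fin s → ℕ → ℝ) (hf : ∀ i, ∃ b : ℝ, 0 < b ∧ ∀ x : ℕ, b * x ≤ f i x)
    (τ η : ℝ) : {x : Fin s → ℕ | (∀ i, 1 ≤ x i) ∧ |∑ i, f i (x i) - τ| ≤ η}.Finite := by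
  classical
  choose b hb hbf using hf
  apply Set.Finite.subset (Finset.finite_toSet (Fintype.piFinset
    (fun i => range (⌊(τ + η) / b i⌋₊ + 1))))
  intro x hx
  obtain ⟨_, h2⟩ := hx
  rw [Finset.mem_coe, Fintype.mem_piFinset]
  intro i
  rw [mem_range, Nat.lt_succ_iff]
  apply Nat.le_floor
  rw [le_div_iff₀ (hb i)]
  have h0 : ∀ j, 0 ≤ f j (x j) := fun j => le_trans (mul_nonneg (hb j).le (Nat.cast_nonneg _)) (hbf j _)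
  have h3 : f i (x i) ≤ ∑ j, f j (x j) := Finset.single_le_sum (fun j _ => h0 j) (mem_univ i)
  have h4 := (abs_le.1 h2).2
  have h5 := hbf i (x i)
  linarith

lemma card_le_ncard {s : ℕ} (f : Fin s → ℕ → ℝ) (hf : ∀ i, ∃ b : ℝ, 0 < b ∧ ∀ x : ℕ, b * x ≤ f i x)
    (τ η L : ℝ) (hL : L ≤ η) (T : Finset (Fin s → ℕ))
    (hT : ∀ x ∈ T, (∀ i, 1 ≤ x i) ∧ |∑ i, f i (x i) - τ| ≤ L) :
    (T.card : ℝ) ≤ ({x : Fin s → ℕ | (∀ i, 1 ≤ x i) ∧ |∑ i, f i (x i) - τ| ≤ η}.ncard : ℝ) := by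
  rw [← Set.ncard_coe_finset T]
  have h := Set.ncard_le_ncard (s := (T : Set (Fin s → ℕ)))
    (t := {x : Fin s → ℕ | (∀ i, 1 ≤ x i) ∧ |∑ i, f i (x i) - τ| ≤ η}) ?_ (finite_sol f hf τ η)
  · exact_mod_cast h
  · intro x hx
    have := hT x (by simpa using hx)
    exact ⟨this.1, this.2.trans hL⟩

/-- passing from boxes to all positive vectors -/
lemma ae_pos {s : ℕ} (Q : ℕ → (Fin s → ℝ) → Prop)
    (h : ∀ N : ℕ, ∀ᵐ a ∂(Measure.pi (fun _ : Fin s => (volume : Measure ℝ).restrict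
      (Set.Icc (1 / ((N:ℝ) + 1)) ((N:ℝ) + 1)))), Q N a) :
    ∀ᵐ a : Fin s → ℝ, (∀ i, 0 < a i) → ∃ N : ℕ, (∀ i, 1 / ((N:ℝ) + 1) ≤ a i ∧ a i ≤ (N:ℝ) + 1) ∧ Q N a := by
  have h1 : ∀ N : ℕ, ∀ᵐ a : Fin s → ℝ, a ∈ Set.univ.pi (fun _ : Fin s =>
      Set.Icc (1 / ((N:ℝ) + 1)) ((N:ℝ) + 1)) → Q N a := by
    intro N
    have h2 := h N
    rw [← Measure.restrict_pi_pi, ae_restrict_iff' (MeasurableSet.univ_pi fun _ => measurableSet_Icc)] at h2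
    exact h2
  have h3 := ae_all_iff.2 h1
  filter_upwards [h3] with a ha hpos
  have hex : ∃ N : ℕ, ∀ i, 1 / ((N:ℝ) + 1) ≤ a i ∧ a i ≤ (N:ℝ) + 1 := by
    have h4 : ∀ i, ∃ N : ℕ, (a i)⁻¹ ≤ N ∧ a i ≤ N := by
      intro i
      obtain ⟨N, hN⟩ := exists_nat_ge (max (a i)⁻¹ (a i))
      exact ⟨N, (le_max_left _ _).trans hN, (le_max_right _ _).trans hN⟩
    choose N hN1 hN2 using h4
    refine ⟨∑ i, N i, fun i => ?_⟩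
    have h5 : (N i : ℝ) ≤ ((∑ i, N i : ℕ) : ℝ) := by
      exact_mod_cast Finset.single_le_sum (fun _ _ => Nat.zero_le _) (mem_univ i)
    have h6 := hN1 i
    have h7 := hN2 i
    have h8 := hpos i
    constructor
    · rw [one_div, inv_le_comm₀ (by positivity) h8]
      linarith
    · linarith
  obtain ⟨N, hN⟩ := hex
  exact ⟨N, hN, ha N (Set.mem_univ_pi.2 fun i => ⟨(hN i).1, (hN i).2⟩)⟩

lemma clamp_zero : clamp 0 1 0 = 0 := clamp_eq le_rfl zero_le_one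

lemma qq_zero (k : ℕ) (c : ℝ) (x : ℕ) : qq k c 0 x = c * (x:ℝ) ^ k := by
  unfold qq
  rw [clamp_zero, add_zero]

lemma coef_low {k : ℕ} (hk : 1 ≤ k) {s : ℕ} (a : Fin s → ℝ) (ha : ∀ i, 0 < a i) :
    ∀ i, ∃ b : ℝ, 0 < b ∧ ∀ x : ℕ, b * x ≤ (fun (i : Fin s) (x : ℕ) => a i * (x:ℝ) ^ k) i x := by
  intro i
  refine ⟨a i, ha i, fun x => ?_⟩
  simp only
  apply mul_le_mul_of_nonneg_left _ (ha i).le
  exact_mod_cast Nat.le_self_pow (by omega) x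

theorem coef_all (k s : ℕ) (hk : 2 ≤ k) (hs : 2 * k + 1 ≤ s) :
    ∀ᵐ a : Fin s → ℝ, (∀ i, 0 < a i) → ∀ η : ℝ, 0 < η → ∃ c : ℝ, 0 < c ∧ ∃ τ₀ : ℝ,
      ∀ τ : ℝ, τ₀ ≤ τ → c * τ ^ ((s:ℝ) / k - 1) ≤
        ({x : Fin s → ℕ | (∀ i, 1 ≤ x i) ∧ |∑ i, a i * (x i : ℝ) ^ k - τ| ≤ η}.ncard : ℝ) := by
  obtain ⟨m, rfl⟩ : ∃ m, k = m + 1 := ⟨k - 1, by omega⟩
  obtain ⟨n, rfl⟩ : ∃ n, s = (n + 1) + (m + 1) := ⟨s - (m + 1) - 1, by omega⟩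
  have hn : m + 1 ≤ n := by omega
  have hpos : ∀ N : ℕ, (0:ℝ) < 1 / ((N:ℝ) + 1) := fun N => by positivity
  have hle : ∀ N : ℕ, 1 / ((N:ℝ) + 1) ≤ (N:ℝ) + 1 := by
    intro N
    have h0 : (0:ℝ) ≤ N := Nat.cast_nonneg _
    rw [div_le_iff₀ (by positivity)]
    nlinarith
  have h1 : ∀ N : ℕ, ∀ᵐ a ∂(Measure.pi (fun _ : Fin ((n + 1) + (m + 1)) =>
      (volume : Measure ℝ).restrict (Set.Icc (1 / ((N:ℝ) + 1)) ((N:ℝ) + 1)))), ∀ q : ℕ,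
      ∃ cc : ℝ, 0 < cc ∧ ∃ τ0 : ℝ,
      ∀ τ : ℝ, τ0 ≤ τ → ∃ T : Finset (Fin ((n + 1) + (m + 1)) → ℕ),
        cc * τ ^ ((((n + 1) + (m + 1) : ℕ) : ℝ) / ((m + 1 : ℕ) : ℝ) - 1) ≤ T.card ∧
        ∀ x ∈ T, (∀ i, 1 ≤ x i) ∧ |∑ i, qq (m + 1) (clamp (1 / ((N:ℝ) + 1)) ((N:ℝ) + 1) (a i)) 0 (x i) - τ| ≤
          1 / ((q:ℝ) + 1) := by
    intro N
    rw [ae_all_iff]
    intro q
    exact main1 (famCoef hk (hpos N) (hle N)) hn le_rfl (L := 1 / ((q:ℝ) + 1)) (by positivity) (by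
      have h0 : (0:ℝ) ≤ N := Nat.cast_nonneg _
      have h2 : (0:ℝ) ≤ q := Nat.cast_nonneg _
      rw [div_le_iff₀ (by positivity)]
      nlinarith)
  filter_upwards [ae_pos _ h1] with a ha hapos η hη
  obtain ⟨N, hN, hq⟩ := ha hapos
  obtain ⟨q, hqη⟩ := exists_nat_one_div_lt hη
  obtain ⟨cc, hcc, τ0, h⟩ := hq q
  refine ⟨cc, hcc, τ0, fun τ hτ => ?_⟩
  obtain ⟨T, hT1, hT2⟩ := h τ hτ
  refine hT1.trans ?_
  apply card_le_ncard (fun i x => a i * (x:ℝ) ^ (m + 1)) (coef_low (by omega) a hapos) τ η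
    (1 / ((q:ℝ) + 1)) hqη.le T
  intro x hx
  refine ⟨(hT2 x hx).1, ?_⟩
  have e : ∑ i, qq (m + 1) (clamp (1 / ((N:ℝ) + 1)) ((N:ℝ) + 1) (a i)) 0 (x i) =
      ∑ i, a i * (x i : ℝ) ^ (m + 1) := by
    apply sum_congr rfl
    intro i _
    rw [qq_zero, clamp_eq (hN i).1 (hN i).2]
  rw [← e]
  exact (hT2 x hx).2

theorem coef_most (k s : ℕ) (hk : 2 ≤ k) (hs : k + 1 ≤ s) :
    ∀ᵐ a : Fin s → ℝ, (∀ i, 0 < a i) → ∀ η : ℝ, 0 < η → ∃ c : ℝ, 0 < c ∧ ∃ T₀ : ℝ,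
      ∀ T : ℝ, T₀ ≤ T → volume {τ : ℝ | 0 ≤ τ ∧ τ ≤ T ∧
        ({x : Fin s → ℕ | (∀ i, 1 ≤ x i) ∧ |∑ i, a i * (x i : ℝ) ^ k - τ| ≤ η}.ncard : ℝ) <
          c * τ ^ ((s:ℝ) / k - 1)} ≤ ENNReal.ofReal (T ^ (1 - 1 / (8 * (k:ℝ)))) := by
  obtain ⟨n, rfl⟩ : ∃ n, s = n + 1 := ⟨s - 1, by omega⟩
  have hn : k ≤ n := by omega
  have hpos : ∀ N : ℕ, (0:ℝ) < 1 / ((N:ℝ) + 1) := fun N => by positivity
  have hle : ∀ N : ℕ, 1 / ((N:ℝ) + 1) ≤ (N:ℝ) + 1 := by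
    intro N
    have h0 : (0:ℝ) ≤ N := Nat.cast_nonneg _
    rw [div_le_iff₀ (by positivity)]
    nlinarith
  have h1 : ∀ N : ℕ, ∀ᵐ a ∂(Measure.pi (fun _ : Fin (n + 1) =>
      (volume : Measure ℝ).restrict (Set.Icc (1 / ((N:ℝ) + 1)) ((N:ℝ) + 1)))), ∀ q : ℕ,
      ∃ cc : ℝ, 0 < cc ∧ ∃ T0 : ℝ, ∀ T : ℝ, T0 ≤ T →
      volume {τ : ℝ | 0 ≤ τ ∧ τ ≤ T ∧ ¬ ∃ S : Finset (Fin (n + 1) → ℕ),
        cc * τ ^ (((n + 1 : ℕ) : ℝ) / k - 1) ≤ S.card ∧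
        ∀ x ∈ S, (∀ i, 1 ≤ x i) ∧
          |∑ i, qq k (clamp (1 / ((N:ℝ) + 1)) ((N:ℝ) + 1) (a i)) 0 (x i) - τ| ≤ 1 / ((q:ℝ) + 1)} ≤
        ENNReal.ofReal (T ^ (1 - 1 / (8 * (k:ℝ)))) := by
    intro N
    rw [ae_all_iff]
    intro q
    exact main2 (famCoef hk (hpos N) (hle N)) hn (L := 1 / ((q:ℝ) + 1)) (by positivity) (by
      have h0 : (0:ℝ) ≤ N := Nat.cast_nonneg _
      have h2 : (0:ℝ) ≤ q := Nat.cast_nonneg _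
      rw [div_le_iff₀ (by positivity)]
      nlinarith)
  filter_upwards [ae_pos _ h1] with a ha hapos η hη
  obtain ⟨N, hN, hq⟩ := ha hapos
  obtain ⟨q, hqη⟩ := exists_nat_one_div_lt hη
  obtain ⟨cc, hcc, T0, h⟩ := hq q
  refine ⟨cc, hcc, T0, fun T hT => (measure_mono ?_).trans (h T hT)⟩
  intro τ hτ
  obtain ⟨h2, h3, h4⟩ := hτ
  refine ⟨h2, h3, ?_⟩
  rintro ⟨S, hS1, hS2⟩
  have h5 := card_le_ncard (fun i x => a i * (x:ℝ) ^ k) (coef_low (by omega) a hapos) τ η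
    (1 / ((q:ℝ) + 1)) hqη.le S (by
      intro x hx
      refine ⟨(hS2 x hx).1, ?_⟩
      have e : ∑ i, qq k (clamp (1 / ((N:ℝ) + 1)) ((N:ℝ) + 1) (a i)) 0 (x i) =
          ∑ i, a i * (x i : ℝ) ^ k := by
        apply sum_congr rfl
        intro i _
        rw [qq_zero, clamp_eq (hN i).1 (hN i).2]
      rw [← e]
      exact (hS2 x hx).2)
  linarith

end Pool.Agent.X25.MW
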