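import Mathlib
import Pool.Agent.X25.MW.FamShift
import Pool.Agent.X25.MW.FinCoef

/-! Final form for random shifts. -/

set_option autoImplicit false

namespace Pool.Agent.X25.MW
open MeasureTheory Finset Filter

lemma qq_one (k : ℕ) (t : ℝ) (h0 : 0 ≤ t) (h1 : t ≤ 1) (x : ℕ) : qq k 1 t x = ((x:ℝ) + t) ^ k := by
  unfold qq
  rw [clamp_eq h0 h1, one_mul]

lemma shift_low {k : ℕ} (hk : 1 ≤ k) {s : ℕ} (θ : Fin s → ℝ) (hθ : ∀ i, 0 ≤ θ i) :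
    ∀ i, ∃ b : ℝ, 0 < b ∧ ∀ x : ℕ, b * x ≤ (fun (i : Fin s) (x : ℕ) => ((x:ℝ) + θ i) ^ k) i x := by
  intro i
  refine ⟨1, one_pos, fun x => ?_⟩
  simp only [one_mul]
  calc (x:ℝ) ≤ (x:ℝ) ^ k := by exact_mod_cast Nat.le_self_pow (by omega) x
    _ ≤ ((x:ℝ) + θ i) ^ k := by
      gcongr
      linarith [hθ i]

/-- passing to the unit cube -/
lemma ae_cube {s : ℕ} (Q : (Fin s → ℝ) → Prop)
    (h : ∀ᵐ a ∂(Measure.pi (fun _ : Fin s => nu)), Q a) :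
    ∀ᵐ a : Fin s → ℝ, (∀ i, a i ∈ Set.Icc (0:ℝ) 1) → Q a := by
  unfold nu at h
  rw [← Measure.restrict_pi_pi, ae_restrict_iff' (MeasurableSet.univ_pi fun _ => measurableSet_Icc)] at h
  filter_upwards [h] with a ha h1
  exact ha (Set.mem_univ_pi.2 h1)

theorem shift_all (k s : ℕ) (hk : 2 ≤ k) (hs : 2 * k + 1 ≤ s) :
    ∀ᵐ θ : Fin s → ℝ, (∀ i, θ i ∈ Set.Icc (0:ℝ) 1) → ∀ η : ℝ, 0 < η → ∃ c : ℝ, 0 < c ∧ ∃ τ₀ : ℝ,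
      ∀ τ : ℝ, τ₀ ≤ τ → c * τ ^ ((s:ℝ) / k - 1) ≤
        ({x : Fin s → ℕ | (∀ i, 1 ≤ x i) ∧ |∑ i, ((x i : ℝ) + θ i) ^ k - τ| ≤ η}.ncard : ℝ) := by
  obtain ⟨m, rfl⟩ : ∃ m, k = m + 1 := ⟨k - 1, by omega⟩
  obtain ⟨n, rfl⟩ : ∃ n, s = (n + 1) + (m + 1) := ⟨s - (m + 1) - 1, by omega⟩
  have hn : m + 1 ≤ n := by omega
  have h1 : ∀ᵐ a ∂(Measure.pi (fun _ : Fin ((n + 1) + (m + 1)) => nu)), ∀ q : ℕ,
      ∃ cc : ℝ, 0 < cc ∧ ∃ τ0 : ℝ,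
      ∀ τ : ℝ, τ0 ≤ τ → ∃ T : Finset (Fin ((n + 1) + (m + 1)) → ℕ),
        cc * τ ^ ((((n + 1) + (m + 1) : ℕ) : ℝ) / ((m + 1 : ℕ) : ℝ) - 1) ≤ T.card ∧
        ∀ x ∈ T, (∀ i, 1 ≤ x i) ∧ |∑ i, qq (m + 1) 1 (a i) (x i) - τ| ≤ 1 / ((q:ℝ) + 1) := by
    rw [ae_all_iff]
    intro q
    exact main1 (famShift hk) hn le_rfl (L := 1 / ((q:ℝ) + 1)) (by positivity) (by
      have h2 : (0:ℝ) ≤ q := Nat.cast_nonneg _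
      rw [div_le_iff₀ (by positivity)]
      linarith)
  filter_upwards [ae_cube _ h1] with a ha hcube η hη
  have hq := ha hcube
  obtain ⟨q, hqη⟩ := exists_nat_one_div_lt hη
  obtain ⟨cc, hcc, τ0, h⟩ := hq q
  refine ⟨cc, hcc, τ0, fun τ hτ => ?_⟩
  obtain ⟨T, hT1, hT2⟩ := h τ hτ
  refine hT1.trans ?_
  apply card_le_ncard (fun i x => ((x:ℝ) + a i) ^ (m + 1)) (shift_low (by omega) a (fun i => (hcube i).1)) τ η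
    (1 / ((q:ℝ) + 1)) hqη.le T
  intro x hx
  refine ⟨(hT2 x hx).1, ?_⟩
  have e : ∑ i, qq (m + 1) 1 (a i) (x i) = ∑ i, ((x i : ℝ) + a i) ^ (m + 1) := by
    apply sum_congr rfl
    intro i _
    rw [qq_one _ _ (hcube i).1 (hcube i).2]
  rw [← e]
  exact (hT2 x hx).2

theorem shift_most (k s : ℕ) (hk : 2 ≤ k) (hs : k + 1 ≤ s) :
    ∀ᵐ θ : Fin s → ℝ, (∀ i, θ i ∈ Set.Icc (0:ℝ) 1) → ∀ η : ℝ, 0 < η → ∃ c : ℝ, 0 < c ∧ ∃ T₀ : ℝ,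
      ∀ T : ℝ, T₀ ≤ T → volume {τ : ℝ | 0 ≤ τ ∧ τ ≤ T ∧
        ({x : Fin s → ℕ | (∀ i, 1 ≤ x i) ∧ |∑ i, ((x i : ℝ) + θ i) ^ k - τ| ≤ η}.ncard : ℝ) <
          c * τ ^ ((s:ℝ) / k - 1)} ≤ ENNReal.ofReal (T ^ (1 - 1 / (8 * (k:ℝ)))) := by
  obtain ⟨n, rfl⟩ : ∃ n, s = n + 1 := ⟨s - 1, by omega⟩
  have hn : k ≤ n := by omega
  have h1 : ∀ᵐ a ∂(Measure.pi (fun _ : Fin (n + 1) => nu)), ∀ q : ℕ,
      ∃ cc : ℝ, 0 < cc ∧ ∃ T0 : ℝ, ∀ T : ℝ, T0 ≤ T →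
      volume {τ : ℝ | 0 ≤ τ ∧ τ ≤ T ∧ ¬ ∃ S : Finset (Fin (n + 1) → ℕ),
        cc * τ ^ (((n + 1 : ℕ) : ℝ) / k - 1) ≤ S.card ∧
        ∀ x ∈ S, (∀ i, 1 ≤ x i) ∧
          |∑ i, qq k 1 (a i) (x i) - τ| ≤ 1 / ((q:ℝ) + 1)} ≤
        ENNReal.ofReal (T ^ (1 - 1 / (8 * (k:ℝ)))) := by
    rw [ae_all_iff]
    intro q
    exact main2 (famShift hk) hn (L := 1 / ((q:ℝ) + 1)) (by positivity) (by
      have h2 : (0:ℝ) ≤ q := Nat.cast_nonneg _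
      rw [div_le_iff₀ (by positivity)]
      linarith)
  filter_upwards [ae_cube _ h1] with a ha hcube η hη
  have hq := ha hcube
  obtain ⟨q, hqη⟩ := exists_nat_one_div_lt hη
  obtain ⟨cc, hcc, T0, h⟩ := hq q
  refine ⟨cc, hcc, T0, fun T hT => (measure_mono ?_).trans (h T hT)⟩
  intro τ hτ
  obtain ⟨h2, h3, h4⟩ := hτ
  refine ⟨h2, h3, ?_⟩
  rintro ⟨S, hS1, hS2⟩
  have h5 := card_le_ncard (fun i x => ((x:ℝ) + a i) ^ k) (shift_low (by omega) a (fun i => (hcube i).1)) τ η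
    (1 / ((q:ℝ) + 1)) hqη.le S (by
      intro x hx
      refine ⟨(hS2 x hx).1, ?_⟩
      have e : ∑ i, qq k 1 (a i) (x i) = ∑ i, ((x i : ℝ) + a i) ^ k := by
        apply sum_congr rfl
        intro i _
        rw [qq_one _ _ (hcube i).1 (hcube i).2]
      rw [← e]
      exact (hS2 x hx).2)
  linarith

end Pool.Agent.X25.MW
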