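import Mathlib
import Pool.Agent.X25.MW.Lat
import Pool.Agent.X25.MW.FinShift

/-! The asymptotic formula for lattice points in thin shells. -/

set_option autoImplicit false

namespace Pool.Agent.X25.MW
open MeasureTheory Finset Filter

/-- event for the first block -/
def EvA (k n : ℕ) (θ : Fin n → ℝ) : Prop := ∀ q : ℕ, ∀ᶠ J : ℕ in atTop,
  ∫⁻ u : ℝ, ENNReal.ofReal (gg k (2 ^ J) n (1 / ((q:ℝ) + 1)) θ u ^ 2) <
      ENNReal.ofReal (((2 ^ J : ℕ):ℝ) ^ (2 * n) / ((2 ^ J : ℕ):ℝ) ^ k / (rho ^ J) ^ 30)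

/-- event for the second block -/
def EvB (k : ℕ) (θ' : Fin k → ℝ) : Prop := ∀ q p : ℕ, ∀ᶠ J : ℕ in atTop,
  ∫⁻ u : ℝ, ENNReal.ofReal (rs (((p:ℝ) + 1) / ((q:ℝ) + 1)) (range (2 * 2 ^ J)) (fun i => pp k (2 ^ J) (θ' i)) u ^ 2) <
      ENNReal.ofReal ((rho ^ J) ^ 2 * (((2 ^ J : ℕ):ℝ) ^ (2 * k) / ((2 ^ J : ℕ):ℝ) ^ k))

lemma ae_EvA {k n : ℕ} (hk : 2 ≤ k) (hn : k + 1 ≤ n) :
    ∀ᵐ θ ∂(Measure.pi (fun _ : Fin n => nu)), EvA k n θ := by
  unfold EvA
  rw [ae_all_iff]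
  intro q
  exact aeA2 hk hn (by positivity)

lemma ae_EvB {k : ℕ} (hk : 2 ≤ k) :
    ∀ᵐ θ ∂(Measure.pi (fun _ : Fin k => nu)), EvB k θ := by
  unfold EvB
  rw [ae_all_iff]
  intro q
  rw [ae_all_iff]
  intro p
  exact aeB2 hk le_rfl (by positivity)

theorem lim_cube {k n : ℕ} (hk : 2 ≤ k) (hn : k + 1 ≤ n) {θ : Fin (n + k) → ℝ}
    (hθ : ∀ i, θ i ∈ Set.Icc (0:ℝ) 1) (hA : EvA k n (fun i => θ (Fin.castAdd k i)))
    (hB : EvB k (fun i => θ (Fin.natAdd n i))) {η : ℝ} (hη : 0 < η) :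
    Tendsto (fun τ : ℝ => ((latt k (n + k) θ τ η).ncard : ℝ) / τ ^ ((n:ℝ) / k)) atTop
      (nhds (2 * η * (Vk k k * Vk k n))) := by
  have hk1 : 1 ≤ k := by omega
  set A : ℝ := Vk k k * Vk k n with hAd
  have hA0 : 0 < A := mul_pos (Vk_pos k k) (Vk_pos k n)
  rw [tendsto_order]
  constructor
  · intro a ha
    obtain ⟨q, hq⟩ := exists_nat_one_div_lt (show 0 < min ((2 * η * A - a) / (2 * A)) η / 2 by
      have h1 : 0 < (2 * η * A - a) / (2 * A) := div_pos (by linarith) (by positivity)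
      have := lt_min h1 hη
      linarith)
    set L : ℝ := 1 / ((q:ℝ) + 1) with hLd
    have hq0 : (0:ℝ) < (q:ℝ) + 1 := by positivity
    have hL : 0 < L := by positivity
    have hL1 : 2 * L < (2 * η * A - a) / (2 * A) := by
      have := min_le_left ((2 * η * A - a) / (2 * A)) η
      linarith
    have hL2 : 2 * L < η := by
      have := min_le_right ((2 * η * A - a) / (2 * A)) η
      linarith
    have hL3 : (2 * L) * (2 * A) < 2 * η * A - a := by
      rwa [lt_div_iff₀ (by positivity)] at hL1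
    set N : ℕ := ⌊(2 * η - L) * (q + 1)⌋₊ with hN
    have hx0 : 0 ≤ (2 * η - L) * (q + 1) := by
      apply mul_nonneg _ hq0.le
      linarith
    have hN1 : (N:ℝ) ≤ (2 * η - L) * (q + 1) := Nat.floor_le hx0
    have hN2 : (2 * η - L) * (q + 1) < N + 1 := Nat.lt_floor_add_one _
    have hLq : L * (q + 1) = 1 := by rw [hLd]; field_simp
    have hN3 : (1:ℝ) ≤ N := by
      have h1 : (0:ℝ) < N := by
        have : (2:ℝ) * (L * (q + 1)) < η * (q + 1) := by
          calc (2:ℝ) * (L * (q + 1)) = 2 * L * (q + 1) := by ring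
            _ < _ := by gcongr
        nlinarith
      have h2 : 0 < N := by exact_mod_cast h1
      exact_mod_cast h2
    obtain ⟨p, hp⟩ : ∃ p : ℕ, N = p + 1 := ⟨N - 1, by
      have : 1 ≤ N := by exact_mod_cast hN3
      omega⟩
    set H : ℝ := ((p:ℝ) + 1) / ((q:ℝ) + 1) with hHd
    have hH : 0 < H := by positivity
    have hHN : H = N / (q + 1) := by rw [hHd, hp]; push_cast; ring
    have hH1 : H ≤ 2 * η - L := by
      rw [hHN, div_le_iff₀ hq0]
      exact hN1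
    have hH2 : 2 * η - 2 * L < H := by
      rw [hHN, lt_div_iff₀ hq0]
      have : (2 * η - 2 * L) * (q + 1) = (2 * η - L) * (q + 1) - L * (q + 1) := by ring
      rw [this, hLq]
      linarith
    have hHA : a < H * A := by nlinarith
    obtain ⟨τ0, hτ0⟩ := asy_box hk hn hL hH _ _ (hA q) (hB q p) (ε := L * (H * A - a) / 2) (by
      have : 0 < H * A - a := by linarith
      positivity)
    filter_upwards [eventually_ge_atTop τ0, eventually_ge_atTop 1] with τ h1 h2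
    obtain ⟨P, hP, _, hlow⟩ := hτ0 τ h1
    have hτe : 0 < τ ^ ((n:ℝ) / k) := by positivity
    rw [lt_div_iff₀ hτe]
    have h3 := latt_cnt2 (k := k) (n := n) (l := k) (P := P) (θ := θ) (τ := τ) (η := (L + H) / 2) hθ (by linarith)
    rw [← h3] at hlow
    have h4 := latt_mono hk1 hθ τ (show (L + H) / 2 ≤ η by linarith)
    have h5 : ((latt k (n + k) θ τ ((L + H) / 2)).ncard : ℝ) ≤ ((latt k (n + k) θ τ η).ncard : ℝ) := by
      exact_mod_cast h4
    have h6 : L * (((H * A + a) / 2) * τ ^ ((n:ℝ) / k)) ≤ L * ((latt k (n + k) θ τ η).ncard : ℝ) := by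
      calc L * (((H * A + a) / 2) * τ ^ ((n:ℝ) / k)) =
          (L * H * (Vk k k * Vk k n) - L * (H * A - a) / 2) * τ ^ ((n:ℝ) / k) := by rw [← hAd]; ring
        _ ≤ _ := hlow
        _ ≤ _ := by gcongr
    have h7 := le_of_mul_le_mul_left h6 hL
    have h8 : a * τ ^ ((n:ℝ) / k) < (H * A + a) / 2 * τ ^ ((n:ℝ) / k) := by
      apply mul_lt_mul_of_pos_right _ hτe
      linarith
    linarith
  · intro b hb
    obtain ⟨q, hq⟩ := exists_nat_one_div_lt (show 0 < (b - 2 * η * A) / (2 * A) by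
      apply div_pos (by linarith) (by positivity))
    set L : ℝ := 1 / ((q:ℝ) + 1) with hLd
    have hq0 : (0:ℝ) < (q:ℝ) + 1 := by positivity
    have hL : 0 < L := by positivity
    have hL3 : L * (2 * A) < b - 2 * η * A := by
      rwa [lt_div_iff₀ (by positivity)] at hq
    have hLq : L * (q + 1) = 1 := by rw [hLd]; field_simp
    set N : ℕ := ⌈(2 * η + L) * (q + 1)⌉₊ with hN
    have hx0 : 0 < (2 * η + L) * (q + 1) := by positivity
    have hN1 : (2 * η + L) * (q + 1) ≤ N := Nat.le_ceil _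
    have hN2 : (N:ℝ) < (2 * η + L) * (q + 1) + 1 := Nat.ceil_lt_add_one hx0.le
    have hN3 : 0 < N := Nat.ceil_pos.2 hx0
    obtain ⟨p, hp⟩ : ∃ p : ℕ, N = p + 1 := ⟨N - 1, by omega⟩
    set H : ℝ := ((p:ℝ) + 1) / ((q:ℝ) + 1) with hHd
    have hH : 0 < H := by positivity
    have hHN : H = N / (q + 1) := by rw [hHd, hp]; push_cast; ring
    have hH1 : 2 * η + L ≤ H := by
      rw [hHN, le_div_iff₀ hq0]
      exact hN1
    have hH2 : H < 2 * η + 2 * L := by
      rw [hHN, div_lt_iff₀ hq0]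
      have : (2 * η + 2 * L) * (q + 1) = (2 * η + L) * (q + 1) + L * (q + 1) := by ring
      rw [this, hLq]
      linarith
    have hHA : H * A < b := by nlinarith
    obtain ⟨τ0, hτ0⟩ := asy_box hk hn hL hH _ _ (hA q) (hB q p) (ε := L * (b - H * A) / 2) (by
      have : 0 < b - H * A := by linarith
      positivity)
    filter_upwards [eventually_ge_atTop τ0, eventually_ge_atTop 1] with τ h1 h2
    obtain ⟨P, hP, hup, _⟩ := hτ0 τ h1
    have hτe : 0 < τ ^ ((n:ℝ) / k) := by positivity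
    rw [div_lt_iff₀ hτe]
    have h3 := latt_cnt2 (k := k) (n := n) (l := k) (P := P) (θ := θ) (τ := τ) (η := (H - L) / 2) hθ (by linarith)
    rw [← h3] at hup
    have h4 := latt_mono hk1 hθ τ (show η ≤ (H - L) / 2 by linarith)
    have h5 : ((latt k (n + k) θ τ η).ncard : ℝ) ≤ ((latt k (n + k) θ τ ((H - L) / 2)).ncard : ℝ) := by
      exact_mod_cast h4
    have h6 : L * ((latt k (n + k) θ τ η).ncard : ℝ) ≤ L * (((H * A + b) / 2) * τ ^ ((n:ℝ) / k)) := by
      calc L * ((latt k (n + k) θ τ η).ncard : ℝ) ≤ L * ((latt k (n + k) θ τ ((H - L) / 2)).ncard : ℝ) := by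
            gcongr
        _ ≤ _ := hup
        _ = _ := by rw [← hAd]; ring
    have h7 := le_of_mul_le_mul_left h6 hL
    have h8 : (H * A + b) / 2 * τ ^ ((n:ℝ) / k) < b * τ ^ ((n:ℝ) / k) := by
      apply mul_lt_mul_of_pos_right _ hτe
      linarith
    linarith

/-- from the unit cube to the whole space -/
lemma ae_periodic {d : ℕ} (Q : (Fin d → ℝ) → Prop) (hQ : ∀ (θ : Fin d → ℝ) (z : Fin d → ℤ),
    Q θ → Q (fun i => θ i + z i)) (h : ∀ᵐ θ : Fin d → ℝ, (∀ i, θ i ∈ Set.Icc (0:ℝ) 1) → Q θ) :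
    ∀ᵐ θ : Fin d → ℝ, Q θ := by
  have h1 : ∀ᵐ θ : Fin d → ℝ, ∀ z : Fin d → ℤ,
      (∀ i, (θ - fun i => (z i : ℝ)) i ∈ Set.Icc (0:ℝ) 1) → Q (θ - fun i => (z i : ℝ)) := by
    rw [ae_all_iff]
    intro z
    exact (measurePreserving_sub_right volume (fun i => (z i : ℝ))).quasiMeasurePreserving.ae h
  filter_upwards [h1] with θ hθ
  have h2 := hθ (fun i => ⌊θ i⌋) (fun i => by
    constructor
    · simp only [Pi.sub_apply]
      linarith [Int.floor_le (θ i)]
    · simp only [Pi.sub_apply]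
      linarith [Int.lt_floor_add_one (θ i)])
  have h3 := hQ _ (fun i => ⌊θ i⌋) h2
  have e : (fun i => (θ - fun i => ((⌊θ i⌋ : ℤ) : ℝ)) i + ((⌊θ i⌋ : ℤ) : ℝ)) = θ := by
    funext i
    simp
  rwa [e] at h3

lemma Vk_prod {k n : ℕ} (hk : 1 ≤ k) : Vk k k * Vk k n =
    (2 * Real.Gamma (1 / k + 1)) ^ (n + k) / Real.Gamma (((n + k : ℕ) : ℝ) / k) := by
  have hk0 : (k:ℝ) ≠ 0 := by
    have : (0:ℝ) < k := by exact_mod_cast hk
    exact this.ne'
  unfold Vk
  rw [div_self hk0, show (1:ℝ) + 1 = 2 by norm_num, Real.Gamma_two, div_one, pow_add]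
  have e : ((n + k : ℕ) : ℝ) / k = (n:ℝ) / k + 1 := by
    push_cast
    rw [add_div, div_self hk0]
  rw [e]
  ring

theorem lim_all (k d : ℕ) (hk : 2 ≤ k) (hd : 2 * k + 1 ≤ d) :
    ∀ᵐ θ : Fin d → ℝ, ∀ η : ℝ, 0 < η →
      Tendsto (fun τ : ℝ => ((latt k d θ τ η).ncard : ℝ) / τ ^ ((d:ℝ) / k - 1)) atTop
        (nhds (2 * η * ((2 * Real.Gamma (1 / k + 1)) ^ d / Real.Gamma ((d:ℝ) / k)))) := by
  obtain ⟨n, rfl⟩ : ∃ n, d = n + k := ⟨d - k, by omega⟩
  have hn : k + 1 ≤ n := by omega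
  have hk0 : (k:ℝ) ≠ 0 := by
    have : (0:ℝ) < k := by exact_mod_cast (by omega : 0 < k)
    exact this.ne'
  apply ae_periodic
  · intro θ z h η hη
    have := h η hη
    simp_rw [latt_add]
    exact this
  · have h1 := ae_blocks nu n k (EvA k n) (EvB k) (ae_EvA hk hn) (ae_EvB hk)
    filter_upwards [ae_cube _ h1] with θ hθ hcube η hη
    obtain ⟨hA, hB⟩ := hθ hcube
    have h2 := lim_cube hk hn hcube hA hB hη
    rw [Vk_prod (by omega : 1 ≤ k)] at h2
    have e : (((n + k : ℕ) : ℝ)) / k - 1 = (n:ℝ) / k := by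
      push_cast
      rw [add_div, div_self hk0]
      ring
    rw [e]
    exact h2

end Pool.Agent.X25.MW
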