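import Mathlib
import Pool.Agent.X25.MW.Lim

/-! Almost all radii, in all dimensions above `k`. -/

set_option autoImplicit false

namespace Pool.Agent.X25.MW
open MeasureTheory Finset Filter

/-- all rational widths -/
def EvR (k n : ℕ) (θ : Fin n → ℝ) : Prop := ∀ q p : ℕ, ∀ᶠ J : ℕ in atTop,
  ∫⁻ u : ℝ, ENNReal.ofReal (gg k (2 ^ J) n (((p:ℝ) + 1) / ((q:ℝ) + 1)) θ u ^ 2) <
      ENNReal.ofReal (((2 ^ J : ℕ):ℝ) ^ (2 * n) / ((2 ^ J : ℕ):ℝ) ^ k / (rho ^ J) ^ 30)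

lemma ae_EvR {k n : ℕ} (hk : 2 ≤ k) (hn : k + 1 ≤ n) :
    ∀ᵐ θ ∂(Measure.pi (fun _ : Fin n => nu)), EvR k n θ := by
  unfold EvR
  rw [ae_all_iff]
  intro q
  rw [ae_all_iff]
  intro p
  exact aeA2 hk hn (by positivity)

lemma hh_diff_low {e : ℝ} (he : 1 ≤ e) {a b : ℝ} (ha : 0 < a) (hab : a ≤ b) :
    e * a ^ (e - 1) * (b - a) ≤ hh e b - hh e a := by
  have h2 := one_add_mul_self_le_rpow_one_add (s := b / a - 1) (by
    have : 0 ≤ b / a := div_nonneg (ha.le.trans hab) ha.le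
    linarith) he
  rw [add_sub_cancel, Real.div_rpow (ha.le.trans hab) ha.le] at h2
  have hbe : 0 < a ^ e := by positivity
  rw [le_div_iff₀ hbe] at h2
  have e1 : a ^ e = a ^ (e - 1) * a := by
    rw [← Real.rpow_add_one ha.ne']
    congr 1; ring
  rw [hh_of_nonneg (ha.le.trans hab), hh_of_nonneg ha.le]
  have h5 : (1 + e * (b / a - 1)) * a ^ e = a ^ e + e * a ^ (e - 1) * (b - a) := by
    rw [e1]
    field_simp
  rw [h5] at h2
  linarith

/-- the mean, asymptotically -/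
lemma Mn_lim {k n : ℕ} (hk : 1 ≤ k) (hn : k + 1 ≤ n) {L : ℝ} (hL : 0 < L) :
    Tendsto (fun τ : ℝ => Mn k n L τ / τ ^ ((n:ℝ) / k - 1)) atTop (nhds (Vk k n * ((n:ℝ) / k) * L)) := by
  have hk0 : (0:ℝ) < k := by exact_mod_cast hk
  set e : ℝ := (n:ℝ) / k with he
  have he1 : 1 < e := by
    rw [he, lt_div_iff₀ hk0, one_mul]
    exact_mod_cast (by omega : k < n)
  have hV := Vk_pos k n
  have he2 : 0 < e - 1 := by linarith
  have h1 := (shift_lim he2 (-(L / 2))).const_mul (Vk k n * e * L)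
  have h2 := (shift_lim he2 (L / 2)).const_mul (Vk k n * e * L)
  rw [mul_one] at h1 h2
  refine tendsto_of_tendsto_of_tendsto_of_le_of_le' h1 h2 ?_ ?_
  · filter_upwards [eventually_ge_atTop (max 1 L)] with τ hτ
    have hτ1 : 1 ≤ τ := (le_max_left _ _).trans hτ
    have hτ2 : L ≤ τ := (le_max_right _ _).trans hτ
    have hτe : 0 < τ ^ (e - 1) := by positivity
    rw [← mul_div_assoc]
    apply div_le_div_of_nonneg_right _ hτe.le
    unfold Mn
    rw [← he, hh_of_nonneg (by linarith : 0 ≤ τ + -(L / 2))]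
    have h3 := hh_diff_low he1.le (a := τ - L / 2) (b := τ + L / 2) (by linarith) (by linarith)
    calc Vk k n * e * L * (τ + -(L / 2)) ^ (e - 1) = Vk k n * (e * (τ - L / 2) ^ (e - 1) * (τ + L / 2 - (τ - L / 2))) := by
          rw [← sub_eq_add_neg]; ring
      _ ≤ _ := by gcongr
  · filter_upwards [eventually_ge_atTop (max 1 L)] with τ hτ
    have hτ1 : 1 ≤ τ := (le_max_left _ _).trans hτ
    have hτe : 0 < τ ^ (e - 1) := by positivity
    rw [← mul_div_assoc]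
    apply div_le_div_of_nonneg_right _ hτe.le
    have h3 := Mn_le hk (by omega : k ≤ n) hL (u := τ) (by linarith)
    rw [← he] at h3
    rw [hh_of_nonneg (by linarith : 0 ≤ τ + L / 2)]
    refine h3.trans (le_of_eq ?_)
    ring

/-- one width, all large radii outside a small set -/
lemma bad_one {k n : ℕ} (P : ℕ) {L ε E : ℝ} (hε : 0 < ε) (θ : Fin n → ℝ)
    (hA : ∫⁻ u : ℝ, ENNReal.ofReal (gg k P n L θ u ^ 2) < ENNReal.ofReal E) :
    volume {u : ℝ | ε ≤ |gg k P n L θ u|} ≤ ENNReal.ofReal (E / ε ^ 2) := by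
  have hgm : Measurable (gg k P n L θ) := by
    have h := gg_meas (k := k) (n := n) P L
    have e : gg k P n L θ = (fun w : (Fin n → ℝ) × ℝ => gg k P n L w.1 w.2) ∘ (fun u => (θ, u)) := rfl
    rw [e]
    exact h.comp (measurable_const.prodMk measurable_id)
  have hsub : {u : ℝ | ε ≤ |gg k P n L θ u|} ⊆
      {u : ℝ | ENNReal.ofReal (ε ^ 2) ≤ ENNReal.ofReal (gg k P n L θ u ^ 2)} := by
    intro u hu
    have hu' : ε ≤ |gg k P n L θ u| := hu
    show ENNReal.ofReal (ε ^ 2) ≤ ENNReal.ofReal (gg k P n L θ u ^ 2)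
    apply ENNReal.ofReal_le_ofReal
    rw [← sq_abs (gg k P n L θ u)]
    gcongr
  refine (measure_mono hsub).trans ?_
  have hk4 : ENNReal.ofReal (ε ^ 2) ≠ 0 := by
    simp only [ne_eq, ENNReal.ofReal_eq_zero, not_le]
    positivity
  refine (meas_ge_le_lintegral_div (ENNReal.measurable_ofReal.comp (hgm.pow_const 2)).aemeasurable hk4
    ENNReal.ofReal_ne_top).trans ?_
  refine (ENNReal.div_le_div_right hA.le _).trans ?_
  rw [← ENNReal.ofReal_div_of_pos (by positivity)]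

theorem most_width {k n : ℕ} (hk : 2 ≤ k) (hn : k + 1 ≤ n) {L : ℝ} (hL : 0 < L) {θ : Fin n → ℝ}
    (hθ : ∀ i, θ i ∈ Set.Icc (0:ℝ) 1)
    (hA : ∀ᶠ J : ℕ in atTop, ∫⁻ u : ℝ, ENNReal.ofReal (gg k (2 ^ J) n L θ u ^ 2) <
      ENNReal.ofReal (((2 ^ J : ℕ):ℝ) ^ (2 * n) / ((2 ^ J : ℕ):ℝ) ^ k / (rho ^ J) ^ 30))
    {ε : ℝ} (hε : 0 < ε) : ∃ X C : ℝ, 0 < X ∧ 0 < C ∧ ∀ T : ℝ, X ≤ T →
      volume {τ : ℝ | 0 ≤ τ ∧ τ ≤ T ∧ ε * τ ^ ((n:ℝ) / k - 1) <
        |((latt k n θ τ (L / 2)).ncard : ℝ) - Vk k n * ((n:ℝ) / k) * L * τ ^ ((n:ℝ) / k - 1)|} ≤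
        ENNReal.ofReal (X + C * T ^ (1 - 15 / (32 * (k:ℝ)))) := by
  have hk1 : 1 ≤ k := by omega
  have hk0 : (0:ℝ) < k := by exact_mod_cast hk1
  set e : ℝ := (n:ℝ) / k with he
  have he1 : 1 < e := by
    rw [he, lt_div_iff₀ hk0, one_mul]
    exact_mod_cast (by omega : k < n)
  have hrho := one_lt_rho
  set A : ℝ := Vk k n * e * L with hAd
  -- the threshold
  set ε1 : ℝ := ε / 2 / (2 ^ (k + 1)) ^ (e - 1) with hε1
  have hε10 : 0 < ε1 := by positivity
  have hM := (Mn_lim hk1 hn hL)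
  rw [← he] at hM
  have hM1 := (tendsto_order.1 hM).1 (A - ε / 2) (by linarith)
  have hM2 := (tendsto_order.1 hM).2 (A + ε / 2) (by linarith)
  obtain ⟨τ1, hτ1⟩ := eventually_atTop.1 (hM1.and hM2)
  obtain ⟨J1, hJ1⟩ := eventually_atTop.1 hA
  set X : ℝ := max (max τ1 (((2 ^ J1 : ℕ) : ℝ) ^ k)) (L + 1) with hX
  have hX0 : 1 < X := lt_of_lt_of_le (by linarith) (le_max_right _ _)
  set z : ℝ := 2 ^ k / rho ^ 30 with hz
  have hz1 : 1 < z := by
    rw [hz, lt_div_iff₀ (by positivity), one_mul]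
    calc rho ^ 30 < rho ^ 64 := pow_lt_pow_right₀ hrho (by norm_num)
      _ = 2 := rho_pow
      _ = 2 ^ 1 := by norm_num
      _ ≤ 2 ^ k := pow_le_pow_right₀ (by norm_num) (by omega)
  have hz0 : 0 < z - 1 := by linarith
  set c8 : ℝ := 1 - 15 / (32 * (k:ℝ)) with hc8
  have hc80 : 0 < c8 := by
    rw [hc8, sub_pos, div_lt_one (by positivity)]
    have : (1:ℝ) ≤ k := by exact_mod_cast hk1
    linarith
  set CC : ℝ := 1 / ε1 ^ 2 * (z / (z - 1)) * (2 ^ (k + 1)) ^ c8 with hCC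
  have hCC0 : 0 < CC := by positivity
  refine ⟨X, CC, by linarith, hCC0, fun T hT => ?_⟩
  set bad : ℕ → Set ℝ := fun J => {u : ℝ | ε1 * (((2 ^ J : ℕ):ℝ) ^ n / ((2 ^ J : ℕ):ℝ) ^ k) ≤ |gg k (2 ^ J) n L θ u|}
    with hbad
  obtain ⟨JT, hJTa, hJTb⟩ := scale (k := k) hk1 (x := T + L) (by linarith)
  have hcover : {τ : ℝ | 0 ≤ τ ∧ τ ≤ T ∧ ε * τ ^ (e - 1) <
        |((latt k n θ τ (L / 2)).ncard : ℝ) - A * τ ^ (e - 1)|} ⊆ Set.Icc 0 X ∪ ⋃ j ∈ Icc J1 JT, bad j := by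
    intro τ hτ
    obtain ⟨h1, h2, h3⟩ := hτ
    by_cases hτX : τ ≤ X
    · exact Or.inl ⟨h1, hτX⟩
    · right
      rw [not_le] at hτX
      have g1 : τ1 ≤ τ := ((le_max_left _ _).trans (le_max_left _ _)).trans hτX.le
      have g2 : ((2 ^ J1 : ℕ) : ℝ) ^ k ≤ τ := ((le_max_right _ _).trans (le_max_left _ _)).trans hτX.le
      have g3 : L + 1 ≤ τ := (le_max_right _ _).trans hτX.le
      obtain ⟨J, hJa, hJb⟩ := scale (k := k) hk1 (x := τ + L) (by linarith)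
      have hJJ : J1 ≤ J := by
        by_contra hcon
        have h1 : 2 ^ J ≤ 2 ^ J1 := Nat.pow_le_pow_right (by norm_num) (by omega)
        have h2 : ((2 ^ J : ℕ) : ℝ) ^ k ≤ ((2 ^ J1 : ℕ) : ℝ) ^ k := by
          have : ((2 ^ J : ℕ) : ℝ) ≤ ((2 ^ J1 : ℕ) : ℝ) := by exact_mod_cast h1
          gcongr
        linarith
      have hJT : J ≤ JT := by
        by_contra hcon
        have h1 : 2 ^ (JT + 1) ≤ 2 ^ J := Nat.pow_le_pow_right (by norm_num) (by omega)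
        have h2 : ((2 ^ (JT + 1) : ℕ) : ℝ) ^ k ≤ ((2 ^ J : ℕ) : ℝ) ^ k := by
          have : ((2 ^ (JT + 1) : ℕ) : ℝ) ≤ ((2 ^ J : ℕ) : ℝ) := by exact_mod_cast h1
          gcongr
        have h3 : ((2 ^ (JT + 1) : ℕ) : ℝ) ^ k = 2 ^ k * ((2 ^ JT : ℕ) : ℝ) ^ k := by
          push_cast
          rw [pow_succ, mul_pow]; ring
        have h4 : (2:ℝ) ^ k * (τ + L) < 2 ^ k * ((2 ^ JT : ℕ) : ℝ) ^ k := by
          have : τ + L < ((2 ^ JT : ℕ) : ℝ) ^ k := by linarith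
          gcongr
        linarith
      rw [Set.mem_iUnion₂]
      refine ⟨J, mem_Icc.2 ⟨hJJ, hJT⟩, ?_⟩
      show ε1 * (((2 ^ J : ℕ):ℝ) ^ n / ((2 ^ J : ℕ):ℝ) ^ k) ≤ |gg k (2 ^ J) n L θ τ|
      set P : ℕ := 2 ^ J with hPd
      have hP0 : (0:ℝ) < P := by
        have : 0 < P := Nat.pos_of_ne_zero (by rw [hPd]; positivity)
        exact_mod_cast this
      have hgg : gg k P n L θ τ = ((latt k n θ τ (L / 2)).ncard : ℝ) - Mn k n L τ := by
        unfold gg
        rw [if_pos (by linarith), latt_card (k := k) (P := P) hθ (by linarith)]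
        have : 2 * (L / 2) = L := by ring
        rw [this]
      have hτe : 0 < τ ^ (e - 1) := by
        have : 0 < τ := by linarith
        positivity
      obtain ⟨hm1, hm2⟩ := hτ1 τ g1
      rw [lt_div_iff₀ hτe] at hm1
      rw [div_lt_iff₀ hτe] at hm2
      have hPk : ((P:ℝ) ^ k) ^ (e - 1) = (P:ℝ) ^ n / (P:ℝ) ^ k := by
        rw [Real.rpow_sub_one (by positivity)]
        congr 1
        rw [← Real.rpow_natCast (P:ℝ) k, ← Real.rpow_mul hP0.le, he, ← Real.rpow_natCast (P:ℝ) n]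
        congr 1
        field_simp
      have h9 : (P:ℝ) ^ n / (P:ℝ) ^ k ≤ (2 ^ (k + 1)) ^ (e - 1) * τ ^ (e - 1) := by
        rw [← hPk, ← Real.mul_rpow (by positivity) (by linarith)]
        apply Real.rpow_le_rpow (by positivity) _ (by linarith)
        calc (P:ℝ) ^ k ≤ 2 ^ k * (τ + L) := hJb
          _ ≤ 2 ^ k * (2 * τ) := by
              apply mul_le_mul_of_nonneg_left _ (by positivity)
              linarith
          _ = _ := by ring
      have h10 : ε1 * ((P:ℝ) ^ n / (P:ℝ) ^ k) ≤ ε / 2 * τ ^ (e - 1) := by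
        calc ε1 * ((P:ℝ) ^ n / (P:ℝ) ^ k) ≤ ε1 * ((2 ^ (k + 1)) ^ (e - 1) * τ ^ (e - 1)) := by gcongr
          _ = _ := by rw [hε1]; field_simp
      refine h10.trans ?_
      rw [hgg]
      set N : ℝ := ((latt k n θ τ (L / 2)).ncard : ℝ)
      have h11 : |N - A * τ ^ (e - 1)| ≤ |N - Mn k n L τ| + |Mn k n L τ - A * τ ^ (e - 1)| := abs_sub_le _ _ _
      have h12 : |Mn k n L τ - A * τ ^ (e - 1)| ≤ ε / 2 * τ ^ (e - 1) := by
        rw [abs_le]
        constructor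
        · linarith
        · linarith
      linarith
  have hvol : ∀ j ∈ Icc J1 JT, volume (bad j) ≤ ENNReal.ofReal (1 / ε1 ^ 2 * z ^ j) := by
    intro j hj
    have h1 := hJ1 j (mem_Icc.1 hj).1
    have hp : (0:ℝ) < ((2 ^ j : ℕ):ℝ) := by positivity
    have hr : (0:ℝ) < rho ^ j := by positivity
    refine (bad_one (2 ^ j) (by positivity) θ h1).trans ?_
    apply ENNReal.ofReal_le_ofReal
    apply le_of_eq
    have e5 : z ^ j = ((2 ^ j : ℕ):ℝ) ^ k / (rho ^ j) ^ 30 := by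
      rw [hz, div_pow]
      push_cast
      rw [← pow_mul, ← pow_mul, ← pow_mul, ← pow_mul, mul_comm k j, mul_comm 30 j]
    rw [e5]
    have e6 : ((2 ^ j : ℕ):ℝ) ^ (2 * n) = ((2 ^ j : ℕ):ℝ) ^ n * ((2 ^ j : ℕ):ℝ) ^ n := by ring
    rw [e6]
    field_simp
  have hzs : ∑ j ∈ Icc J1 JT, 1 / ε1 ^ 2 * z ^ j ≤ CC * T ^ c8 := by
    rw [← mul_sum]
    have h1 : ∑ j ∈ Icc J1 JT, z ^ j ≤ ∑ j ∈ range (JT + 1), z ^ j := by
      apply Finset.sum_le_sum_of_subset_of_nonneg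
      · intro j hj
        rw [mem_Icc] at hj
        rw [mem_range]
        omega
      · intro j _ _
        positivity
    have h2 : ∑ j ∈ range (JT + 1), z ^ j ≤ z / (z - 1) * z ^ JT := by
      rw [geom_sum_eq hz1.ne']
      rw [div_mul_eq_mul_div]
      gcongr
      rw [pow_succ]
      linarith
    have h3 : z ^ JT ≤ (2 ^ (k + 1)) ^ c8 * T ^ c8 := by
      have h4 : z ^ JT = (((2 ^ JT : ℕ) : ℝ) ^ k) ^ c8 := by
        have e2 : rho ^ 30 = (2:ℝ) ^ ((15:ℝ) / 32) := by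
          unfold rho
          rw [← Real.rpow_natCast, ← Real.rpow_mul (by norm_num)]
          norm_num
        have e1 : (((2 ^ JT : ℕ) : ℝ) ^ k) = (2:ℝ) ^ ((k * JT : ℕ) : ℝ) := by
          rw [Real.rpow_natCast]
          push_cast
          rw [← pow_mul, mul_comm]
        rw [e1, hz, div_pow, e2, ← Real.rpow_natCast _ JT, ← Real.rpow_natCast _ JT, ← Real.rpow_natCast 2 k,
          ← Real.rpow_mul (by norm_num), ← Real.rpow_mul (by norm_num), ← Real.rpow_sub (by norm_num),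
          ← Real.rpow_mul (by norm_num)]
        congr 1
        rw [hc8]
        push_cast
        field_simp
      rw [h4, ← Real.mul_rpow (by positivity) (by linarith)]
      apply Real.rpow_le_rpow (by positivity) _ hc80.le
      calc (((2 ^ JT : ℕ) : ℝ) ^ k) ≤ 2 ^ k * (T + L) := hJTb
        _ ≤ 2 ^ k * (2 * T) := by
            have : L ≤ X := le_trans (by linarith) (le_max_right _ _)
            apply mul_le_mul_of_nonneg_left _ (by positivity)
            linarith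
        _ = _ := by ring
    have h4 : 0 ≤ z / (z - 1) := by positivity
    calc 1 / ε1 ^ 2 * ∑ j ∈ Icc J1 JT, z ^ j ≤ 1 / ε1 ^ 2 * (z / (z - 1) * ((2 ^ (k + 1)) ^ c8 * T ^ c8)) := by
          apply mul_le_mul_of_nonneg_left _ (by positivity)
          exact (h1.trans h2).trans (mul_le_mul_of_nonneg_left h3 h4)
      _ = _ := by rw [hCC]; ring
  calc _ ≤ volume (Set.Icc 0 X ∪ ⋃ j ∈ Icc J1 JT, bad j) := measure_mono hcover
    _ ≤ volume (Set.Icc 0 X) + volume (⋃ j ∈ Icc J1 JT, bad j) := measure_union_le _ _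
    _ ≤ ENNReal.ofReal X + ∑ j ∈ Icc J1 JT, volume (bad j) := by
        gcongr
        · rw [Real.volume_Icc, sub_zero]
        · exact measure_biUnion_finset_le _ _
    _ ≤ ENNReal.ofReal X + ∑ j ∈ Icc J1 JT, ENNReal.ofReal (1 / ε1 ^ 2 * z ^ j) := by
        gcongr with j hj
        exact hvol j hj
    _ = ENNReal.ofReal (X + ∑ j ∈ Icc J1 JT, 1 / ε1 ^ 2 * z ^ j) := by
        rw [← ENNReal.ofReal_sum_of_nonneg (fun j _ => by positivity), ← ENNReal.ofReal_add (by linarith)]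
        exact sum_nonneg fun j _ => by positivity
    _ ≤ _ := by
        apply ENNReal.ofReal_le_ofReal
        linarith

end Pool.Agent.X25.MW
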