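import Mathlib
import Pool.Agent.X25.MW.AlmostR

/-! Almost all radii: final form. -/

set_option autoImplicit false

namespace Pool.Agent.X25.MW
open MeasureTheory Finset Filter

theorem most_cube {k n : ℕ} (hk : 2 ≤ k) (hn : k + 1 ≤ n) {θ : Fin n → ℝ}
    (hθ : ∀ i, θ i ∈ Set.Icc (0:ℝ) 1) (hR : EvR k n θ) {η ε : ℝ} (hη : 0 < η) (hε : 0 < ε) :
    ∃ T0 : ℝ, ∀ T : ℝ, T0 ≤ T →
      volume {τ : ℝ | 0 ≤ τ ∧ τ ≤ T ∧ ε * τ ^ ((n:ℝ) / k - 1) <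
        |((latt k n θ τ η).ncard : ℝ) - 2 * η * (Vk k n * ((n:ℝ) / k)) * τ ^ ((n:ℝ) / k - 1)|} ≤
        ENNReal.ofReal (T ^ (1 - 1 / (3 * (k:ℝ)))) := by
  have hk1 : 1 ≤ k := by omega
  have hk0 : (0:ℝ) < k := by exact_mod_cast hk1
  have hn0 : (0:ℝ) < n := by exact_mod_cast (by omega : 0 < n)
  set e : ℝ := (n:ℝ) / k with he
  have he0 : 0 < e := by positivity
  set A : ℝ := Vk k n * e with hA
  have hA0 : 0 < A := mul_pos (Vk_pos k n) he0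
  obtain ⟨q, hq⟩ := exists_nat_one_div_lt (show 0 < min (ε / (2 * A)) (2 * η) by
    have h1 : 0 < ε / (2 * A) := by positivity
    exact lt_min h1 (by positivity))
  have hq0 : (0:ℝ) < (q:ℝ) + 1 := by positivity
  have hq1 : 1 / ((q:ℝ) + 1) < ε / (2 * A) := hq.trans_le (min_le_left _ _)
  have hq2 : 1 / ((q:ℝ) + 1) < 2 * η := hq.trans_le (min_le_right _ _)
  have hq3 : 1 < 2 * η * (q + 1) := by
    rwa [div_lt_iff₀ hq0] at hq2
  set N : ℕ := ⌊2 * η * (q + 1)⌋₊ with hN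
  have hN1 : (N:ℝ) ≤ 2 * η * (q + 1) := Nat.floor_le (by positivity)
  have hN2 : 2 * η * (q + 1) < N + 1 := Nat.lt_floor_add_one _
  have hN3 : 1 ≤ N := Nat.le_floor (by exact_mod_cast hq3.le)
  obtain ⟨p, hp⟩ : ∃ p : ℕ, N = p + 1 := ⟨N - 1, by omega⟩
  set L1 : ℝ := ((p:ℝ) + 1) / ((q:ℝ) + 1) with hL1
  set L2 : ℝ := ((N:ℝ) + 1) / ((q:ℝ) + 1) with hL2
  have hL10 : 0 < L1 := by positivity
  have hL20 : 0 < L2 := by positivity
  have hL1N : L1 = N / (q + 1) := by rw [hL1, hp]; push_cast; ring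
  have a1 : L1 ≤ 2 * η := by rw [hL1N, div_le_iff₀ hq0]; exact hN1
  have a2 : 2 * η ≤ L2 := by rw [hL2, le_div_iff₀ hq0]; exact hN2.le
  have a3 : L2 - L1 = 1 / (q + 1) := by rw [hL1N, hL2, ← sub_div]; ring
  have a4 : A * (1 / ((q:ℝ) + 1)) ≤ ε / 2 := by
    have : A * (1 / ((q:ℝ) + 1)) ≤ A * (ε / (2 * A)) := by gcongr
    refine this.trans (le_of_eq ?_)
    field_simp
  obtain ⟨X1, C1, hX1, hC1, h1⟩ := most_width hk hn hL10 hθ (hR q p) (half_pos hε)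
  obtain ⟨X2, C2, hX2, hC2, h2⟩ := most_width hk hn hL20 hθ (hR q N) (half_pos hε)
  set c8 : ℝ := 1 - 15 / (32 * (k:ℝ)) with hc8
  have hc80 : 0 < c8 := by
    rw [hc8, sub_pos, div_lt_one (by positivity)]
    have : (1:ℝ) ≤ k := by exact_mod_cast hk1
    linarith
  obtain ⟨T1, hT1⟩ : ∃ T1 : ℝ, ∀ T, T1 ≤ T → (X1 + C1 * T ^ c8) + (X2 + C2 * T ^ c8) ≤
      T ^ (1 - 1 / (3 * (k:ℝ))) := by
    have ha : 0 < 15 / (32 * (k:ℝ)) - 1 / (3 * (k:ℝ)) := by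
      have : 15 / (32 * (k:ℝ)) - 1 / (3 * (k:ℝ)) = (13 / 96) / k := by field_simp; norm_num
      rw [this]
      positivity
    have h1 : Tendsto (fun T : ℝ => T ^ (15 / (32 * (k:ℝ)) - 1 / (3 * (k:ℝ)))) atTop atTop :=
      tendsto_rpow_atTop ha
    obtain ⟨T1, h2⟩ := eventually_atTop.1 (h1.eventually_ge_atTop (X1 + C1 + (X2 + C2)))
    refine ⟨max T1 1, fun T hT => ?_⟩
    have hTT : 1 ≤ T := le_trans (le_max_right _ _) hT
    have h3 := h2 T (le_trans (le_max_left _ _) hT)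
    have h4 : 1 ≤ T ^ c8 := Real.one_le_rpow hTT hc80.le
    have h5 : T ^ (1 - 1 / (3 * (k:ℝ))) = T ^ c8 * T ^ (15 / (32 * (k:ℝ)) - 1 / (3 * (k:ℝ))) := by
      rw [← Real.rpow_add (by linarith)]
      congr 1
      rw [hc8]
      ring
    rw [h5]
    calc (X1 + C1 * T ^ c8) + (X2 + C2 * T ^ c8) ≤ T ^ c8 * (X1 + C1 + (X2 + C2)) := by nlinarith
      _ ≤ _ := by gcongr
  refine ⟨max T1 (max X1 X2), fun T hT => ?_⟩
  have b1 : T1 ≤ T := (le_max_left _ _).trans hT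
  have b2 : X1 ≤ T := ((le_max_left _ _).trans (le_max_right _ _)).trans hT
  have b3 : X2 ≤ T := ((le_max_right _ _).trans (le_max_right _ _)).trans hT
  have hsub : {τ : ℝ | 0 ≤ τ ∧ τ ≤ T ∧ ε * τ ^ (e - 1) <
        |((latt k n θ τ η).ncard : ℝ) - 2 * η * A * τ ^ (e - 1)|} ⊆
      {τ : ℝ | 0 ≤ τ ∧ τ ≤ T ∧ ε / 2 * τ ^ (e - 1) <
        |((latt k n θ τ (L1 / 2)).ncard : ℝ) - Vk k n * e * L1 * τ ^ (e - 1)|} ∪
      {τ : ℝ | 0 ≤ τ ∧ τ ≤ T ∧ ε / 2 * τ ^ (e - 1) <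
        |((latt k n θ τ (L2 / 2)).ncard : ℝ) - Vk k n * e * L2 * τ ^ (e - 1)|} := by
    intro τ hτ
    obtain ⟨c1, c2, c3⟩ := hτ
    by_contra hcon
    rw [Set.mem_union, not_or] at hcon
    have d1 : |((latt k n θ τ (L1 / 2)).ncard : ℝ) - Vk k n * e * L1 * τ ^ (e - 1)| ≤ ε / 2 * τ ^ (e - 1) := by
      by_contra hh
      exact hcon.1 ⟨c1, c2, not_le.1 hh⟩
    have d2 : |((latt k n θ τ (L2 / 2)).ncard : ℝ) - Vk k n * e * L2 * τ ^ (e - 1)| ≤ ε / 2 * τ ^ (e - 1) := by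
      by_contra hh
      exact hcon.2 ⟨c1, c2, not_le.1 hh⟩
    rw [← hA] at d1 d2
    have m1 : ((latt k n θ τ (L1 / 2)).ncard : ℝ) ≤ ((latt k n θ τ η).ncard : ℝ) := by
      exact_mod_cast latt_mono hk1 hθ τ (by linarith : L1 / 2 ≤ η)
    have m2 : ((latt k n θ τ η).ncard : ℝ) ≤ ((latt k n θ τ (L2 / 2)).ncard : ℝ) := by
      exact_mod_cast latt_mono hk1 hθ τ (by linarith : η ≤ L2 / 2)
    have hτe : 0 ≤ τ ^ (e - 1) := by positivity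
    have f1 : A * L2 * τ ^ (e - 1) ≤ (2 * η * A + ε / 2) * τ ^ (e - 1) := by
      apply mul_le_mul_of_nonneg_right _ hτe
      nlinarith
    have f2 : (2 * η * A - ε / 2) * τ ^ (e - 1) ≤ A * L1 * τ ^ (e - 1) := by
      apply mul_le_mul_of_nonneg_right _ hτe
      nlinarith
    have g1 := (abs_le.1 d1).1
    have g2 := (abs_le.1 d2).2
    have : |((latt k n θ τ η).ncard : ℝ) - 2 * η * A * τ ^ (e - 1)| ≤ ε * τ ^ (e - 1) := by
      rw [abs_le]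
      constructor <;> nlinarith
    linarith
  calc _ ≤ _ := measure_mono hsub
    _ ≤ _ := measure_union_le _ _
    _ ≤ ENNReal.ofReal (X1 + C1 * T ^ c8) + ENNReal.ofReal (X2 + C2 * T ^ c8) := add_le_add (h1 T b2) (h2 T b3)
    _ = ENNReal.ofReal ((X1 + C1 * T ^ c8) + (X2 + C2 * T ^ c8)) := by
        rw [← ENNReal.ofReal_add]
        · have : 0 < T := by linarith
          positivity
        · have : 0 < T := by linarith
          positivity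
    _ ≤ _ := ENNReal.ofReal_le_ofReal (hT1 T b1)

theorem most_all (k d : ℕ) (hk : 2 ≤ k) (hd : k + 1 ≤ d) :
    ∀ᵐ θ : Fin d → ℝ, ∀ η : ℝ, 0 < η → ∀ ε : ℝ, 0 < ε → ∃ T0 : ℝ, ∀ T : ℝ, T0 ≤ T →
      volume {τ : ℝ | 0 ≤ τ ∧ τ ≤ T ∧ ε * τ ^ ((d:ℝ) / k - 1) <
        |((latt k d θ τ η).ncard : ℝ) -
          2 * η * ((2 * Real.Gamma (1 / k + 1)) ^ d / Real.Gamma ((d:ℝ) / k)) * τ ^ ((d:ℝ) / k - 1)|} ≤
        ENNReal.ofReal (T ^ (1 - 1 / (3 * (k:ℝ)))) := by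
  have hk0 : (0:ℝ) < k := by exact_mod_cast (by omega : 0 < k)
  have hd0 : (0:ℝ) < d := by exact_mod_cast (by omega : 0 < d)
  have hc : (2 * Real.Gamma (1 / k + 1)) ^ d / Real.Gamma ((d:ℝ) / k) = Vk k d * ((d:ℝ) / k) := by
    unfold Vk
    have hg : 0 < Real.Gamma ((d:ℝ) / k) := Real.Gamma_pos_of_pos (by positivity)
    rw [Real.Gamma_add_one (s := (d:ℝ) / k) (by positivity)]
    have hdk : (d:ℝ) / k ≠ 0 := by positivity
    generalize Real.Gamma (1 / (k:ℝ) + 1) = G1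
    generalize hG : Real.Gamma ((d:ℝ) / k) = G2 at hg
    field_simp
  rw [hc]
  apply ae_periodic
  · intro θ z h η hη ε hε
    have := h η hη ε hε
    simp_rw [latt_add]
    exact this
  · filter_upwards [ae_cube _ (ae_EvR hk hd)] with θ hθ hcube η hη ε hε
    exact most_cube hk hd hcube (hθ hcube) hη hε

end Pool.Agent.X25.MW
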