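import Mathlib
import Pool.Agent.X25.MW.Lim

/-! The second moment, uniformly in the width of the shell, and its consequences. -/

set_option autoImplicit false

namespace Pool.Agent.X25.MW
open MeasureTheory Finset Filter

theorem momA3 {k n : ℕ} (hk : 2 ≤ k) (hn : k + 1 ≤ n) :
    ∃ C : ℝ, 0 ≤ C ∧ ∀ L : ℝ, 0 < L → ∀ J : ℕ,
      ∫⁻ ω, (∫⁻ u : ℝ, ENNReal.ofReal (gg k (2 ^ J) n L ω u ^ 2)) ∂(Measure.pi (fun _ : Fin n => nu)) ≤
      ENNReal.ofReal (C * (L ^ 2 + L) * (((2 ^ J : ℕ):ℝ) ^ (2 * n) / ((2 ^ J : ℕ):ℝ) ^ k / (rho ^ J) ^ 31)) := by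
  classical
  have hpi := Real.pi_pos
  obtain ⟨Cl, hCl, hCl'⟩ := lam_bound (3 * n) (by omega)
  have hk0 : (0:ℝ) < k := by
    have : 0 < k := by omega
    exact_mod_cast this
  have hnk : (k:ℝ) ≤ n := by
    have : k ≤ n := by omega
    exact_mod_cast this
  obtain ⟨m, rfl⟩ : ∃ m, n = m + 1 := ⟨n - 1, by omega⟩
  set n : ℕ := m + 1 with hnm
  set K1 : ℝ := 4 * Real.pi * k with hK1
  have hK10 : 0 ≤ K1 := by positivity
  refine ⟨2 * (((n : ℝ) * K1 * 2 ^ m) ^ 2) + 4 * 2 ^ n * (12 ^ n * Cl) +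
    4 * 2 ^ n * (2 * Real.pi * 12 ^ n * Cl), by positivity, ?_⟩
  intro L hL J
  set P : ℝ := ((2 ^ J : ℕ) : ℝ) with hPdef
  set y : ℝ := rho ^ J with hy'
  have hy : 1 ≤ y := one_le_rho_pow J
  have hyP : y ^ 64 = P := rho_pow_pow J
  have hP' : (1:ℝ) ≤ P := by
    have : 1 ≤ 2 ^ J := Nat.one_le_two_pow
    rw [hPdef]
    exact_mod_cast this
  have hP0 : (0:ℝ) < P := by linarith
  have hy0 : 0 < y := by linarith
  set Q : ℝ := P ^ k with hQ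
  have hQ0 : 0 < Q := by positivity
  set lam : ℝ := ((J:ℝ) + 1) with hlam
  have hlam0 : 0 ≤ lam := by positivity
  have hlamN : lam ^ (3 * n) ≤ Cl * y := hCl' J
  have hbd := boundA2 (ι := Fin n) hL (range (2 * 2 ^ J)) nu nu (fun ω => pp k (2 ^ J) ω)
    (fun _ t => pp k (2 ^ J) t) (measurable_pp k (2 ^ J))
    (fun x => (measurable_pp k (2 ^ J) x).comp measurable_snd)
    (fun ω u => gg k (2 ^ J) n L ω u) (gg_jensen (by omega) (by omega) hL.le)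
    (a := y ^ 32 / Q) (N := 2 * P) (δ := K1 * y ^ 32) (V := 1) (Bd := 12 * lam ^ 3 * P)
    (D := 12 * lam ^ 3) (e := 2 / k) (n := n) (by simp) (by
      rw [div_mul_eq_mul_div, le_div_iff₀ hk0]; linarith) (by positivity) (by simp) zero_le_one (by
      rw [card_range, hPdef]; push_cast; exact le_rfl)
    (by positivity) (by positivity) (by positivity) (by positivity) ?_ ?_ ?_
  · refine hbd.trans (ENNReal.ofReal_le_ofReal ?_)
    have hz0 : 0 < P ^ (2 * n) / Q := by positivity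
    -- first term
    have t1 : 2 * (y ^ 32 / Q) * (L ^ 2 * (1 ^ n *
        ((n : ℝ) * (K1 * y ^ 32) * (2 * P) ^ n / (2 * P)) ^ 2)) ≤
        2 * (L ^ 2 * ((n : ℝ) * K1 * 2 ^ m) ^ 2) * (P ^ (2 * n) / Q / y ^ 31) := by
      have e : 2 * (y ^ 32 / Q) * (L ^ 2 * (1 ^ n *
        ((n : ℝ) * (K1 * y ^ 32) * (2 * P) ^ n / (2 * P)) ^ 2)) =
        2 * (L ^ 2 * ((n : ℝ) * K1 * 2 ^ m) ^ 2) * (P ^ (2 * n) / Q * (y ^ 96 / P ^ 2)) := by
        have e1 : (2 * P) ^ n / (2 * P) = 2 ^ m * P ^ m := by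
          rw [hnm, pow_succ, mul_div_assoc, div_self (by positivity), mul_one, mul_pow]
        rw [mul_div_assoc, e1, one_pow, one_mul]
        have e2 : P ^ (2 * n) = (P ^ m) ^ 2 * P ^ 2 := by rw [hnm]; ring
        rw [e2]
        field_simp
      rw [e]
      have h1 : y ^ 96 / P ^ 2 ≤ 1 / y ^ 31 := by
        rw [div_le_div_iff₀ (by positivity) (by positivity), ← hyP, one_mul]
        have h7 : y ^ 127 ≤ y ^ 128 := pow_le_pow_right₀ hy (by norm_num)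
        calc y ^ 96 * y ^ 31 = y ^ 127 := by ring
          _ ≤ y ^ 128 := h7
          _ = (y ^ 64) ^ 2 := by ring
      calc _ ≤ 2 * (L ^ 2 * ((n : ℝ) * K1 * 2 ^ m) ^ 2) * (P ^ (2 * n) / Q * (1 / y ^ 31)) := by gcongr
        _ = _ := by ring
    have t2 : (12 * lam ^ 3 * P) ^ n * L ≤ (12 ^ n * Cl * L) * (P ^ (2 * n) / Q / y ^ 31) := by
      have h1 : y * P ^ n ≤ P ^ (2 * n) / Q / y ^ 31 := by
        rw [div_div, le_div_iff₀ (by positivity)]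
        have h2 : y ^ 32 ≤ P := by
          rw [← hyP]
          exact pow_le_pow_right₀ hy (by norm_num)
        calc y * P ^ n * (Q * y ^ 31) = P ^ n * (Q * y ^ 32) := by ring
          _ ≤ P ^ n * (Q * P) := by gcongr
          _ = P ^ n * P ^ (k + 1) := by rw [hQ]; ring
          _ ≤ P ^ n * P ^ n := by
              apply mul_le_mul_of_nonneg_left _ (by positivity)
              exact pow_le_pow_right₀ hP' (by omega)
          _ = P ^ (2 * n) := by ring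
      calc (12 * lam ^ 3 * P) ^ n * L = 12 ^ n * lam ^ (3 * n) * P ^ n * L := by
            rw [mul_pow, mul_pow, ← pow_mul]
        _ ≤ 12 ^ n * (Cl * y) * P ^ n * L := by gcongr
        _ = (12 ^ n * Cl * L) * (y * P ^ n) := by ring
        _ ≤ _ := by gcongr
    have t3 : 2 * Real.pi * L ^ 2 * (12 * lam ^ 3) ^ n *
        ((y ^ 32 / Q)⁻¹) ^ ((2:ℝ) / k * n - 1) ≤ (2 * Real.pi * L ^ 2 * 12 ^ n * Cl) *
          (P ^ (2 * n) / Q / y ^ 31) := by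
      have hexp : 1 ≤ (2:ℝ) / k * n - 1 := by
        have : 2 ≤ (2:ℝ) / k * n := by
          rw [div_mul_eq_mul_div, le_div_iff₀ hk0]; linarith
        linarith
      have e1 : ((y ^ 32 / Q)⁻¹) ^ ((2:ℝ) / k * n - 1) ≤ P ^ (2 * n) / Q / y ^ 32 := by
        rw [inv_div, Real.div_rpow hQ0.le (by positivity)]
        have e2 : Q ^ ((2:ℝ) / k * n - 1) = P ^ (2 * n) / Q := by
          rw [Real.rpow_sub_one hQ0.ne', hQ, ← Real.rpow_natCast P k, ← Real.rpow_mul hP0.le]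
          congr 1
          rw [← Real.rpow_natCast P (2 * n)]
          congr 1
          push_cast
          field_simp
        rw [e2]
        apply div_le_div_of_nonneg_left hz0.le (by positivity)
        have h5 : (1:ℝ) ≤ y ^ 32 := one_le_pow₀ hy
        calc y ^ 32 = (y ^ 32) ^ (1:ℝ) := (Real.rpow_one _).symm
          _ ≤ _ := Real.rpow_le_rpow_of_exponent_le h5 hexp
      calc _ ≤ 2 * Real.pi * L ^ 2 * (12 * lam ^ 3) ^ n * (P ^ (2 * n) / Q / y ^ 32) := by gcongr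
        _ = 2 * Real.pi * L ^ 2 * 12 ^ n * lam ^ (3 * n) * (P ^ (2 * n) / Q / y ^ 32) := by
            rw [mul_pow, ← pow_mul]; ring
        _ ≤ 2 * Real.pi * L ^ 2 * 12 ^ n * (Cl * y) * (P ^ (2 * n) / Q / y ^ 32) := by gcongr
        _ = _ := by field_simp
    calc _ = 2 * (y ^ 32 / Q) * (L ^ 2 * (1 ^ n *
        ((n : ℝ) * (K1 * y ^ 32) * (2 * P) ^ n / (2 * P)) ^ 2)) +
        4 * 2 ^ n * ((12 * lam ^ 3 * P) ^ n * L) + 4 * 2 ^ n *
        (2 * Real.pi * L ^ 2 * (12 * lam ^ 3) ^ n *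
        ((y ^ 32 / Q)⁻¹) ^ ((2:ℝ) / k * n - 1)) := by ring
      _ ≤ 2 * (L ^ 2 * ((n : ℝ) * K1 * 2 ^ m) ^ 2) * (P ^ (2 * n) / Q / y ^ 31) +
        4 * 2 ^ n * ((12 ^ n * Cl * L) * (P ^ (2 * n) / Q / y ^ 31)) +
        4 * 2 ^ n * ((2 * Real.pi * L ^ 2 * 12 ^ n * Cl) * (P ^ (2 * n) / Q / y ^ 31)) := by gcongr
      _ = (2 * (((n : ℝ) * K1 * 2 ^ m) ^ 2) * L ^ 2 + 4 * 2 ^ n * (12 ^ n * Cl) * L +
    4 * 2 ^ n * (2 * Real.pi * 12 ^ n * Cl) * L ^ 2) * (P ^ (2 * n) / Q / y ^ 31) := by ring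
      _ ≤ (2 * (((n : ℝ) * K1 * 2 ^ m) ^ 2) * (L ^ 2 + L) + 4 * 2 ^ n * (12 ^ n * Cl) * (L ^ 2 + L) +
    4 * 2 ^ n * (2 * Real.pi * 12 ^ n * Cl) * (L ^ 2 + L)) * (P ^ (2 * n) / Q / y ^ 31) := by
          have hL2 : 0 < L ^ 2 := by positivity
          gcongr <;> linarith
      _ = _ := by ring
  · intro α hα ω t
    have h1 := pp_lip k (2 ^ J) (by omega) ω t α
    refine h1.trans ?_
    rw [← hK1, ← hPdef, ← hQ]
    gcongr
    rwa [le_div_iff₀ hQ0] at hα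
  · intro α hα
    have hα0 : α ≠ 0 := by
      intro h
      rw [h, abs_zero] at hα
      have : 0 < y ^ 32 / Q := by positivity
      linarith
    refine (pp_bound hk J α hα0).trans (le_of_eq ?_)
    rw [hPdef]
    push_cast
    ring
  · intro α hα
    have hα0 : α ≠ 0 := by
      intro h
      rw [h, abs_zero] at hα
      have : 0 < y ^ 32 / Q := by positivity
      linarith
    rw [integral_const, probReal_univ, one_smul]
    refine (pp_bound hk J α hα0).trans (le_of_eq ?_)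
    rw [hPdef]
    push_cast
    ring


theorem aeA3 {k n : ℕ} (hk : 2 ≤ k) (hn : k + 1 ≤ n) (w : ℕ → ℝ) (hw : ∀ J, 0 < w J) (hw1 : ∀ J, w J ≤ 1) :
    ∀ᵐ ω ∂(Measure.pi (fun _ : Fin n => nu)), ∀ᶠ J : ℕ in atTop,
      ∫⁻ u : ℝ, ENNReal.ofReal (gg k (2 ^ J) n (w J) ω u ^ 2) <
      ENNReal.ofReal (((2 ^ J : ℕ):ℝ) ^ (2 * n) / ((2 ^ J : ℕ):ℝ) ^ k / (rho ^ J) ^ 30) := by
  obtain ⟨C, hC, h⟩ := momA3 hk hn
  have hrho := one_lt_rho
  apply borel_cantelli (Measure.pi (fun _ : Fin n => nu)) (fun J ω =>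
      ∫⁻ u : ℝ, ENNReal.ofReal (gg k (2 ^ J) n (w J) ω u ^ 2)) ?_
      (fun J => ((2 ^ J : ℕ):ℝ) ^ (2 * n) / ((2 ^ J : ℕ):ℝ) ^ k / (rho ^ J) ^ 30) ?_ (C * 2)
  · intro J
    have hj : (1:ℝ) ≤ rho ^ J := one_le_rho_pow J
    have hj0 : (0:ℝ) < rho ^ J := by linarith
    refine (h (w J) (hw J) J).trans ?_
    apply ENNReal.ofReal_le_ofReal
    have h0 := hw J
    have h1 := hw1 J
    have e : ((2 ^ J : ℕ):ℝ) ^ (2 * n) / ((2 ^ J : ℕ):ℝ) ^ k / (rho ^ J) ^ 30 / rho ^ J =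
        ((2 ^ J : ℕ):ℝ) ^ (2 * n) / ((2 ^ J : ℕ):ℝ) ^ k / (rho ^ J) ^ 31 := by
      field_simp
    rw [e]
    have h2 : w J ^ 2 + w J ≤ 2 := by nlinarith
    gcongr
  · intro J
    have := (ENNReal.measurable_ofReal.comp ((gg_meas (k := k) (n := n) (2 ^ J) (w J)).pow_const 2)).lintegral_prod_right'
      (ν := (volume : Measure ℝ))
    exact this
  · intro J
    have h2 : (0:ℝ) < ((2 ^ J : ℕ):ℝ) := by positivity
    have h3 : 0 < rho := by linarith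
    positivity

/-- the widths -/
noncomputable def wid (J : ℕ) : ℝ := 1 / (rho ^ J) ^ 7

lemma wid_pos (J : ℕ) : 0 < wid J := by
  have := one_le_rho_pow J
  unfold wid
  positivity

lemma wid_le (J : ℕ) : wid J ≤ 1 := by
  have h := one_le_rho_pow J
  unfold wid
  rw [div_le_one (by positivity)]
  exact one_le_pow₀ h

/-- event for the first block -/
def EvA3 (k n : ℕ) (θ : Fin n → ℝ) : Prop := ∀ᶠ J : ℕ in atTop,
  ∫⁻ u : ℝ, ENNReal.ofReal (gg k (2 ^ J) n (wid J) θ u ^ 2) <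
      ENNReal.ofReal (((2 ^ J : ℕ):ℝ) ^ (2 * n) / ((2 ^ J : ℕ):ℝ) ^ k / (rho ^ J) ^ 30)

/-- event for the second block -/
def EvB3 (k : ℕ) (θ' : Fin k → ℝ) : Prop := ∀ p : ℕ, ∀ᶠ J : ℕ in atTop,
  ∫⁻ u : ℝ, ENNReal.ofReal (rs ((p:ℝ) + 1) (range (2 * 2 ^ J)) (fun i => pp k (2 ^ J) (θ' i)) u ^ 2) <
      ENNReal.ofReal ((rho ^ J) ^ 2 * (((2 ^ J : ℕ):ℝ) ^ (2 * k) / ((2 ^ J : ℕ):ℝ) ^ k))

lemma ae_EvA3 {k n : ℕ} (hk : 2 ≤ k) (hn : k + 1 ≤ n) :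
    ∀ᵐ θ ∂(Measure.pi (fun _ : Fin n => nu)), EvA3 k n θ :=
  aeA3 hk hn wid wid_pos wid_le

lemma ae_EvB3 {k : ℕ} (hk : 2 ≤ k) :
    ∀ᵐ θ ∂(Measure.pi (fun _ : Fin k => nu)), EvB3 k θ := by
  unfold EvB3
  rw [ae_all_iff]
  intro p
  exact aeB2 hk le_rfl (by positivity)

lemma rs_mono_width {ι : Type*} [Fintype ι] [DecidableEq ι] {H H' : ℝ} (h : H ≤ H') (B : Finset ℕ)
    (p : ι → ℕ → ℝ) (u : ℝ) : rs H B p u ≤ rs H' B p u := by
  unfold rs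
  apply sum_le_sum
  intro x _
  rw [ph_eq, ph_eq]
  split_ifs with h1 h2
  · exact le_rfl
  · exfalso; apply h2; linarith
  · exact zero_le_one
  · exact le_rfl

lemma EvB3.bound {k : ℕ} {θ' : Fin k → ℝ} (h : EvB3 k θ') (H0 : ℝ) : ∀ᶠ J : ℕ in atTop, ∀ H : ℝ, H ≤ H0 →
    ∫⁻ u : ℝ, ENNReal.ofReal (rs H (range (2 * 2 ^ J)) (fun i => pp k (2 ^ J) (θ' i)) u ^ 2) <
      ENNReal.ofReal ((rho ^ J) ^ 2 * (((2 ^ J : ℕ):ℝ) ^ (2 * k) / ((2 ^ J : ℕ):ℝ) ^ k)) := by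
  filter_upwards [h ⌈H0⌉₊] with J hJ H hH
  refine lt_of_le_of_lt ?_ hJ
  apply lintegral_mono
  intro u
  apply ENNReal.ofReal_le_ofReal
  have h1 := rs_nonneg H (range (2 * 2 ^ J)) (fun i => pp k (2 ^ J) (θ' i)) u
  have h2 : H ≤ (⌈H0⌉₊ : ℝ) + 1 := by linarith [Nat.le_ceil H0]
  have h3 := rs_mono_width h2 (range (2 * 2 ^ J)) (fun i => pp k (2 ^ J) (θ' i)) u
  gcongr

end Pool.Agent.X25.MW
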