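import Mathlib
import Pool.Agent.X25.MW.Mom3

/-! The asymptotic formula with a power saving. -/

set_option autoImplicit false

namespace Pool.Agent.X25.MW
open MeasureTheory Finset Filter

/-- two sided bound for one width -/
lemma one_width {k n : ℕ} (hk : 2 ≤ k) (hn : k + 1 ≤ n) {L H H0 τ : ℝ} (hL : 0 < L) (hL1 : L ≤ 1) (hH : 0 < H)
    (hHH : H ≤ H0) (hτH : H0 + 1 ≤ τ) (θ : Fin n → ℝ) (θ' : Fin k → ℝ) (J : ℕ)
    (hJ : τ + 1 + H0 < ((2 ^ J : ℕ) : ℝ) ^ k)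
    (hA : ∫⁻ u : ℝ, ENNReal.ofReal (gg k (2 ^ J) n L θ u ^ 2) <
      ENNReal.ofReal (((2 ^ J : ℕ):ℝ) ^ (2 * n) / ((2 ^ J : ℕ):ℝ) ^ k / (rho ^ J) ^ 30))
    (hB : ∫⁻ u : ℝ, ENNReal.ofReal (rs H (range (2 * 2 ^ J)) (fun i => pp k (2 ^ J) (θ' i)) u ^ 2) <
      ENNReal.ofReal ((rho ^ J) ^ 2 * (((2 ^ J : ℕ):ℝ) ^ (2 * k) / ((2 ^ J : ℕ):ℝ) ^ k))) :
    L * cnt2 (range (2 * 2 ^ J)) (fun i => pp k (2 ^ J) (θ i)) (fun i => pp k (2 ^ J) (θ' i)) τ ((H - L) / 2) ≤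
        L * H * (Vk k k * Vk k n) * hh ((n:ℝ) / k) (τ + H / 2 + L / 2) +
        (k * 2 ^ (k - 1) * (2 * (Vk k n * ((n:ℝ) / k) * H0)) * L + 2) * (((2 ^ J : ℕ):ℝ) ^ n / (rho ^ J) ^ 14) ∧
      L * H * (Vk k k * Vk k n) * hh ((n:ℝ) / k) (τ - H / 2 - L / 2) -
        (k * 2 ^ (k - 1) * (2 * (Vk k n * ((n:ℝ) / k) * H0)) * L + 2) * (((2 ^ J : ℕ):ℝ) ^ n / (rho ^ J) ^ 14) ≤
      L * cnt2 (range (2 * 2 ^ J)) (fun i => pp k (2 ^ J) (θ i)) (fun i => pp k (2 ^ J) (θ' i)) τ ((L + H) / 2) := by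
  have hk1 : 1 ≤ k := by omega
  have hkn : k ≤ n := by omega
  have hk0 : (0:ℝ) < k := by exact_mod_cast hk1
  have hn0 : (0:ℝ) < n := by exact_mod_cast (by omega : 0 < n)
  have hH00 : 0 < H0 := hH.trans_le hHH
  set e : ℝ := (n:ℝ) / k with he
  have he0 : 0 < e := by positivity
  have he1 : 1 ≤ e := by
    rw [he, le_div_iff₀ hk0, one_mul]
    exact_mod_cast hkn
  have hV := Vk_pos k k
  have hV' := Vk_pos k n
  set C4 : ℝ := k * 2 ^ (k - 1) * (2 * (Vk k n * e * H0)) with hC4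
  have hC40 : 0 ≤ C4 := by positivity
  have hrho := one_lt_rho
  set y : ℝ := rho ^ J with hy'
  have hy : 1 ≤ y := one_le_rho_pow J
  have hy0 : 0 < y := by linarith
  set P : ℕ := 2 ^ J with hPd
  have hyP : y ^ 64 = (P:ℝ) := rho_pow_pow J
  have hP1 : 1 ≤ P := Nat.one_le_two_pow
  have hP1' : (1:ℝ) ≤ P := by exact_mod_cast hP1
  have hP0 : (0:ℝ) < P := by linarith
  have hJa : τ + L + H < (P:ℝ) ^ k := by linarith
  set δ : ℝ := y ^ 16 * ((P:ℝ) ^ k / (P:ℝ) ^ n) with hδ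
  have hδ0 : 0 < δ := by positivity
  obtain ⟨hI, herr⟩ := err_bound (τ := τ) θ (fun i => pp k P (θ' i)) hδ0 hA hB
  have hsplit := conv_split hk1 hkn hL hH hJa θ θ' hI
  have hup := conv_upper hL.le H (range (2 * P)) (fun i => pp k P (θ i)) (fun i => pp k P (θ' i)) τ
  have hlow := conv_lower hL.le H (range (2 * P)) (fun i => pp k P (θ i)) (fun i => pp k P (θ' i)) τ
  have hPu := Phi_up hk1 hkn hL hH hP1 (by linarith) hJa θ'
  have hPl := Phi_low hk1 hkn hL hH hP1 (by linarith) hJa θ'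
  -- the error terms
  have t1 : δ * ((P:ℝ) ^ (2 * n) / (P:ℝ) ^ k / y ^ 30) + y ^ 2 * ((P:ℝ) ^ (2 * k) / (P:ℝ) ^ k) / δ =
      2 * ((P:ℝ) ^ n / y ^ 14) := by
    have e1 : (P:ℝ) ^ (2 * n) = P ^ n * P ^ n := by ring
    have e2 : (P:ℝ) ^ (2 * k) = P ^ k * P ^ k := by ring
    rw [hδ, e1, e2]
    field_simp
    ring
  have hPk : (P:ℝ) ^ n = ((P:ℝ) ^ k) ^ e := by
    rw [← Real.rpow_natCast (P:ℝ) k, ← Real.rpow_mul hP0.le, he, ← Real.rpow_natCast (P:ℝ) n]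
    congr 1
    field_simp
  have t2 : k * (2 * (P:ℝ)) ^ (k - 1) * (2 * (Mn k n L (τ + H / 2) * H)) ≤ C4 * L * ((P:ℝ) ^ n / y ^ 14) := by
    have h1 := Mn_le hk1 hkn hL (u := τ + H / 2) (by linarith)
    rw [← he] at h1
    have h2 : (τ + H / 2 + L / 2) ^ (e - 1) ≤ ((P:ℝ) ^ k) ^ (e - 1) := by
      apply Real.rpow_le_rpow (by linarith) _ (by linarith)
      linarith
    have h3 : ((P:ℝ) ^ k) ^ (e - 1) = (P:ℝ) ^ n / (P:ℝ) ^ k := by
      rw [Real.rpow_sub_one (by positivity), ← hPk]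
    have h4 : Mn k n L (τ + H / 2) ≤ Vk k n * (e * L) * ((P:ℝ) ^ n / (P:ℝ) ^ k) := by
      calc _ ≤ Vk k n * (e * (τ + H / 2 + L / 2) ^ (e - 1) * L) := h1
        _ ≤ Vk k n * (e * ((P:ℝ) ^ n / (P:ℝ) ^ k) * L) := by
            rw [← h3]
            gcongr
        _ = _ := by ring
    have h5 : (P:ℝ) ^ (k - 1) * ((P:ℝ) ^ n / (P:ℝ) ^ k) ≤ (P:ℝ) ^ n / y ^ 14 := by
      have e1 : (P:ℝ) ^ k = P ^ (k - 1) * P := by
        rw [← pow_succ]; congr 1; omega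
      rw [e1]
      have e2 : (P:ℝ) ^ (k - 1) * ((P:ℝ) ^ n / (P ^ (k - 1) * P)) = (P:ℝ) ^ n / P := by
        field_simp
      rw [e2]
      apply div_le_div_of_nonneg_left (by positivity) (by positivity)
      rw [← hyP]
      exact pow_le_pow_right₀ hy (by norm_num)
    have hM0 := Mn_nonneg k n hL.le (τ + H / 2)
    calc _ ≤ k * (2 * (P:ℝ)) ^ (k - 1) * (2 * (Vk k n * (e * L) * ((P:ℝ) ^ n / (P:ℝ) ^ k) * H0)) := by gcongr
      _ = C4 * L * ((P:ℝ) ^ (k - 1) * ((P:ℝ) ^ n / (P:ℝ) ^ k)) := by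
          rw [hC4, mul_pow]; ring
      _ ≤ _ := by gcongr
  rw [t1] at herr
  have herr' := abs_le.1 herr
  rw [← he] at hPu hPl
  constructor
  · calc _ ≤ _ := hlow
      _ = _ := hsplit
      _ ≤ _ := by
          have := herr'.2
          linarith
  · calc _ ≤ _ := ?_
      _ = _ := hsplit.symm
      _ ≤ _ := hup
    have := herr'.1
    linarith

theorem pow_cube {k n : ℕ} (hk : 2 ≤ k) (hn : k + 1 ≤ n) {θ : Fin (n + k) → ℝ}
    (hθ : ∀ i, θ i ∈ Set.Icc (0:ℝ) 1) (hA : EvA3 k n (fun i => θ (Fin.castAdd k i)))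
    (hB : EvB3 k (fun i => θ (Fin.natAdd n i))) {η : ℝ} (hη : 0 < η) :
    ∃ C : ℝ, 0 < C ∧ ∃ τ0 : ℝ, 1 ≤ τ0 ∧ ∀ τ : ℝ, τ0 ≤ τ →
      |((latt k (n + k) θ τ η).ncard : ℝ) - 2 * η * (Vk k k * Vk k n) * τ ^ ((n:ℝ) / k)| ≤
        C * τ ^ ((n:ℝ) / k - 7 / (64 * k)) := by
  have hk1 : 1 ≤ k := by omega
  have hkn : k ≤ n := by omega
  have hk0 : (0:ℝ) < k := by exact_mod_cast hk1
  have hn0 : (0:ℝ) < n := by exact_mod_cast (by omega : 0 < n)
  set e : ℝ := (n:ℝ) / k with he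
  have he0 : 0 < e := by positivity
  have he1 : 1 ≤ e := by
    rw [he, le_div_iff₀ hk0, one_mul]
    exact_mod_cast hkn
  have hV := Vk_pos k k
  have hV' := Vk_pos k n
  set A : ℝ := Vk k k * Vk k n with hAd
  have hA0 : 0 < A := mul_pos hV hV'
  set H0 : ℝ := 2 * η + 1 with hH0
  set C4 : ℝ := k * 2 ^ (k - 1) * (2 * (Vk k n * e * H0)) with hC4
  have hC40 : 0 ≤ C4 := by positivity
  set C6 : ℝ := 2 * η * A * (e * (η + 1)) + A + C4 + 2 with hC6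
  have hC60 : 0 < C6 := by positivity
  have hrho := one_lt_rho
  have hlim : Tendsto (fun J : ℕ => wid J) atTop (nhds 0) := by
    have h1 : Tendsto (fun J : ℕ => (rho ^ J) ^ 7) atTop atTop :=
      (tendsto_pow_atTop (by norm_num)).comp (tendsto_pow_atTop_atTop_of_one_lt hrho)
    exact tendsto_const_nhds.div_atTop h1
  have hev := (hA.and (hB.bound H0)).and (hlim.eventually (gt_mem_nhds hη))
  obtain ⟨J1, hJ1⟩ := eventually_atTop.1 hev
  refine ⟨C6 * (2 ^ (k + 1)) ^ e, by positivity, max (((2 ^ J1 : ℕ) : ℝ) ^ k) (H0 + 1), ?_, fun τ hτ => ?_⟩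
  · refine le_max_of_le_right ?_
    rw [hH0]; linarith
  have g2 : ((2 ^ J1 : ℕ) : ℝ) ^ k ≤ τ := (le_max_left _ _).trans hτ
  have g3 : H0 + 1 ≤ τ := (le_max_right _ _).trans hτ
  have hH01 : 1 < H0 := by rw [hH0]; linarith
  have g4 : 1 ≤ τ := by linarith
  obtain ⟨J, hJa, hJb⟩ := scale (k := k) hk1 (x := τ + 1 + H0) (by linarith)
  have hJJ : J1 ≤ J := by
    by_contra hcon
    have h1 : 2 ^ J ≤ 2 ^ J1 := Nat.pow_le_pow_right (by norm_num) (by omega)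
    have h2 : ((2 ^ J : ℕ) : ℝ) ^ k ≤ ((2 ^ J1 : ℕ) : ℝ) ^ k := by
      have : ((2 ^ J : ℕ) : ℝ) ≤ ((2 ^ J1 : ℕ) : ℝ) := by exact_mod_cast h1
      gcongr
    linarith
  obtain ⟨⟨hA', hB'⟩, hC'⟩ := hJ1 J hJJ
  set L : ℝ := wid J with hLd
  have hL : 0 < L := wid_pos J
  have hL1 : L ≤ 1 := wid_le J
  have h01 := one_width hk hn hL hL1 (H := 2 * η + L) (H0 := H0) (τ := τ) (by positivity) (by rw [hH0]; linarith)
    g3 _ _ J hJa hA' (hB' _ (by rw [hH0]; linarith))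
  have h02 := one_width hk hn hL hL1 (H := 2 * η - L) (H0 := H0) (τ := τ) (by linarith) (by rw [hH0]; linarith)
    g3 _ _ J hJa hA' (hB' _ (by rw [hH0]; linarith))
  have h1 := h01.1
  have h2 := h02.2
  rw [show (2 * η + L - L) / 2 = η by ring] at h1
  rw [show (L + (2 * η - L)) / 2 = η by ring] at h2
  set y : ℝ := rho ^ J with hy'
  have hy : 1 ≤ y := one_le_rho_pow J
  have hy0 : 0 < y := by linarith
  set P : ℕ := 2 ^ J with hPd
  have hyP : y ^ 64 = (P:ℝ) := rho_pow_pow J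
  have hP1 : 1 ≤ P := Nat.one_le_two_pow
  have hP1' : (1:ℝ) ≤ P := by exact_mod_cast hP1
  have hP0 : (0:ℝ) < P := by linarith
  have hLy : L = 1 / y ^ 7 := rfl
  have hcnt := latt_cnt2 (k := k) (n := n) (l := k) (P := P) (θ := θ) (τ := τ) (η := η) hθ (by linarith)
  rw [← hcnt] at h1 h2
  rw [← he, ← hAd, ← hC4] at h1 h2
  set N : ℝ := ((latt k (n + k) θ τ η).ncard : ℝ) with hN
  have hPk : (P:ℝ) ^ n = ((P:ℝ) ^ k) ^ e := by
    rw [← Real.rpow_natCast (P:ℝ) k, ← Real.rpow_mul hP0.le, he, ← Real.rpow_natCast (P:ℝ) n]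
    congr 1
    field_simp
  have h3 : ((P:ℝ) ^ k) ^ (e - 1) = (P:ℝ) ^ n / (P:ℝ) ^ k := by
    rw [Real.rpow_sub_one (by positivity), ← hPk]
  have hyk : y ^ 7 ≤ (P:ℝ) ^ k := by
    calc y ^ 7 ≤ y ^ 64 := pow_le_pow_right₀ hy (by norm_num)
      _ = P := hyP
      _ ≤ (P:ℝ) ^ k := le_self_pow₀ hP1' (by omega)
  have hPn : 0 < (P:ℝ) ^ n := by positivity
  set Z : ℝ := (P:ℝ) ^ n / y ^ 7 with hZ
  have hZ0 : 0 < Z := by positivity
  have q1 : (P:ℝ) ^ n / (P:ℝ) ^ k ≤ Z := div_le_div_of_nonneg_left hPn.le (by positivity) hyk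
  have q2 : (C4 * L + 2) * ((P:ℝ) ^ n / y ^ 14) ≤ L * ((C4 + 2) * Z) := by
    have e1 : (P:ℝ) ^ n / y ^ 14 = L * Z := by
      rw [hLy, hZ]; field_simp
    rw [e1]
    have : (C4 * L + 2) ≤ C4 + 2 := by nlinarith
    calc (C4 * L + 2) * (L * Z) ≤ (C4 + 2) * (L * Z) := by gcongr
      _ = _ := by ring
  have q3 : L * (P:ℝ) ^ n = Z := by rw [hLy, hZ]; ring
  have u1 : N ≤ (2 * η + L) * A * hh e (τ + (2 * η + L) / 2 + L / 2) + (C4 + 2) * Z := by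
    have h5 : L * N ≤ L * ((2 * η + L) * A * hh e (τ + (2 * η + L) / 2 + L / 2) + (C4 + 2) * Z) := by
      calc L * N ≤ _ := h1
        _ ≤ L * (2 * η + L) * A * hh e (τ + (2 * η + L) / 2 + L / 2) + L * ((C4 + 2) * Z) := by gcongr
        _ = _ := by ring
    exact le_of_mul_le_mul_left h5 hL
  have u2 : (2 * η - L) * A * hh e (τ - (2 * η - L) / 2 - L / 2) - (C4 + 2) * Z ≤ N := by
    have h5 : L * ((2 * η - L) * A * hh e (τ - (2 * η - L) / 2 - L / 2) - (C4 + 2) * Z) ≤ L * N := by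
      calc _ = L * (2 * η - L) * A * hh e (τ - (2 * η - L) / 2 - L / 2) - L * ((C4 + 2) * Z) := by ring
        _ ≤ _ := by gcongr
        _ ≤ _ := h2
    exact le_of_mul_le_mul_left h5 hL
  have hτe : hh e τ = τ ^ e := hh_of_nonneg (by linarith)
  have u3 : hh e (τ + (2 * η + L) / 2 + L / 2) ≤ τ ^ e + e * (η + 1) * Z := by
    have h5 := hh_diff he1 (a := τ) (b := τ + (2 * η + L) / 2 + L / 2) (by linarith) (by linarith)
    rw [hτe] at h5
    have h6 : (τ + (2 * η + L) / 2 + L / 2) ^ (e - 1) ≤ ((P:ℝ) ^ k) ^ (e - 1) := by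
      apply Real.rpow_le_rpow (by linarith) _ (by linarith)
      linarith
    have h7 : e * (τ + (2 * η + L) / 2 + L / 2) ^ (e - 1) * (τ + (2 * η + L) / 2 + L / 2 - τ) ≤
        e * Z * (η + 1) := by
      have h8 : (τ + (2 * η + L) / 2 + L / 2) ^ (e - 1) ≤ Z := h6.trans (h3.le.trans q1)
      have h9 : τ + (2 * η + L) / 2 + L / 2 - τ ≤ η + 1 := by linarith
      have h10 : 0 ≤ τ + (2 * η + L) / 2 + L / 2 - τ := by linarith
      gcongr
    linarith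
  have u4 : hh e (τ + (2 * η + L) / 2 + L / 2) ≤ (P:ℝ) ^ n := by
    rw [hPk, hh_of_nonneg (by linarith)]
    apply Real.rpow_le_rpow (by linarith) _ he0.le
    linarith
  have u5 : τ ^ e - e * η * Z ≤ hh e (τ - (2 * η - L) / 2 - L / 2) := by
    have h5 := hh_diff he1 (a := τ - (2 * η - L) / 2 - L / 2) (b := τ) (by linarith) (by linarith)
    rw [hτe] at h5
    have h6 : τ ^ (e - 1) ≤ ((P:ℝ) ^ k) ^ (e - 1) := by
      apply Real.rpow_le_rpow (by linarith) _ (by linarith)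
      linarith
    have h7 : e * τ ^ (e - 1) * (τ - (τ - (2 * η - L) / 2 - L / 2)) ≤ e * Z * η := by
      have h8 : τ ^ (e - 1) ≤ Z := h6.trans (h3.le.trans q1)
      have h9 : τ - (τ - (2 * η - L) / 2 - L / 2) = η := by ring
      rw [h9]
      gcongr
    linarith
  have u6 : hh e (τ - (2 * η - L) / 2 - L / 2) ≤ (P:ℝ) ^ n := by
    rw [hPk, hh_of_nonneg (by linarith)]
    apply Real.rpow_le_rpow (by linarith) _ he0.le
    linarith
  have v1 : N - 2 * η * A * τ ^ e ≤ C6 * Z := by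
    have w1 : L * A * hh e (τ + (2 * η + L) / 2 + L / 2) ≤ A * Z := by
      calc L * A * hh e (τ + (2 * η + L) / 2 + L / 2) ≤ L * A * (P:ℝ) ^ n := by gcongr
        _ = A * (L * (P:ℝ) ^ n) := by ring
        _ = _ := by rw [q3]
    have w2 : 2 * η * A * hh e (τ + (2 * η + L) / 2 + L / 2) ≤ 2 * η * A * (τ ^ e + e * (η + 1) * Z) := by
      gcongr
    calc _ ≤ (2 * η + L) * A * hh e (τ + (2 * η + L) / 2 + L / 2) + (C4 + 2) * Z - 2 * η * A * τ ^ e := by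
          linarith
      _ = 2 * η * A * hh e (τ + (2 * η + L) / 2 + L / 2) + L * A * hh e (τ + (2 * η + L) / 2 + L / 2) +
          (C4 + 2) * Z - 2 * η * A * τ ^ e := by ring
      _ ≤ 2 * η * A * (τ ^ e + e * (η + 1) * Z) + A * Z + (C4 + 2) * Z - 2 * η * A * τ ^ e := by linarith
      _ = _ := by rw [hC6]; ring
  have v2 : -(C6 * Z) ≤ N - 2 * η * A * τ ^ e := by
    have w1 : L * A * hh e (τ - (2 * η - L) / 2 - L / 2) ≤ A * Z := by
      calc L * A * hh e (τ - (2 * η - L) / 2 - L / 2) ≤ L * A * (P:ℝ) ^ n := by gcongr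
        _ = A * (L * (P:ℝ) ^ n) := by ring
        _ = _ := by rw [q3]
    have w2 : 2 * η * A * (τ ^ e - e * η * Z) ≤ 2 * η * A * hh e (τ - (2 * η - L) / 2 - L / 2) := by
      gcongr
    have w3 : 2 * η * A * (e * η * Z) ≤ 2 * η * A * (e * (η + 1)) * Z := by
      have : e * η * Z ≤ e * (η + 1) * Z := by gcongr; linarith
      calc _ ≤ 2 * η * A * (e * (η + 1) * Z) := by gcongr
        _ = _ := by ring
    calc -(C6 * Z) ≤ 2 * η * A * (τ ^ e - e * η * Z) - A * Z - (C4 + 2) * Z - 2 * η * A * τ ^ e := by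
          rw [hC6]; linarith
      _ ≤ 2 * η * A * hh e (τ - (2 * η - L) / 2 - L / 2) - L * A * hh e (τ - (2 * η - L) / 2 - L / 2) -
          (C4 + 2) * Z - 2 * η * A * τ ^ e := by linarith
      _ = (2 * η - L) * A * hh e (τ - (2 * η - L) / 2 - L / 2) - (C4 + 2) * Z - 2 * η * A * τ ^ e := by ring
      _ ≤ _ := by linarith
  have v3 : |N - 2 * η * A * τ ^ e| ≤ C6 * Z := abs_le.2 ⟨v2, v1⟩
  refine v3.trans ?_
  have h9 : (P:ℝ) ^ n ≤ (2 ^ (k + 1)) ^ e * τ ^ e := by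
    rw [hPk, ← Real.mul_rpow (by positivity) (by linarith)]
    apply Real.rpow_le_rpow (by positivity) _ he0.le
    calc (P:ℝ) ^ k ≤ 2 ^ k * (τ + 1 + H0) := hJb
      _ ≤ 2 ^ k * (2 * τ) := by
          apply mul_le_mul_of_nonneg_left _ (by positivity)
          linarith
      _ = _ := by ring
  have h10 : τ ^ (7 / (64 * (k:ℝ))) ≤ y ^ 7 := by
    have e1 : y ^ 7 = ((P:ℝ) ^ k) ^ (7 / (64 * (k:ℝ))) := by
      rw [← Real.rpow_natCast (P:ℝ) k, ← Real.rpow_mul hP0.le, ← hyP, ← Real.rpow_natCast y 64,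
        ← Real.rpow_mul hy0.le, ← Real.rpow_natCast y 7]
      congr 1
      push_cast
      field_simp
    rw [e1]
    apply Real.rpow_le_rpow (by linarith) _ (by positivity)
    linarith
  have h11 : Z ≤ (2 ^ (k + 1)) ^ e * τ ^ (e - 7 / (64 * (k:ℝ))) := by
    rw [Real.rpow_sub (by linarith), hZ, ← mul_div_assoc]
    apply div_le_div₀ (by positivity) h9 (by positivity) h10
  calc C6 * Z ≤ C6 * ((2 ^ (k + 1)) ^ e * τ ^ (e - 7 / (64 * (k:ℝ)))) := by gcongr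
    _ = _ := by ring

theorem pow_all (k d : ℕ) (hk : 2 ≤ k) (hd : 2 * k + 1 ≤ d) :
    ∀ᵐ θ : Fin d → ℝ, ∀ η : ℝ, 0 < η → ∃ C : ℝ, 0 < C ∧ ∃ τ0 : ℝ, 1 ≤ τ0 ∧ ∀ τ : ℝ, τ0 ≤ τ →
      |((latt k d θ τ η).ncard : ℝ) -
        2 * η * ((2 * Real.Gamma (1 / k + 1)) ^ d / Real.Gamma ((d:ℝ) / k)) * τ ^ ((d:ℝ) / k - 1)| ≤
        C * τ ^ ((d:ℝ) / k - 1 - 7 / (64 * k)) := by
  obtain ⟨n, rfl⟩ : ∃ n, d = n + k := ⟨d - k, by omega⟩
  have hn : k + 1 ≤ n := by omega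
  have hk0 : (k:ℝ) ≠ 0 := by
    have : (0:ℝ) < k := by exact_mod_cast (by omega : 0 < k)
    exact this.ne'
  apply ae_periodic
  · intro θ z h η hη
    have := h η hη
    simp_rw [latt_add]
    exact this
  · have h1 := ae_blocks nu n k (EvA3 k n) (EvB3 k) (ae_EvA3 hk hn) (ae_EvB3 hk)
    filter_upwards [ae_cube _ h1] with θ hθ hcube η hη
    obtain ⟨hA, hB⟩ := hθ hcube
    have h2 := pow_cube hk hn hcube hA hB hη
    rw [Vk_prod (by omega : 1 ≤ k)] at h2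
    have e : (((n + k : ℕ) : ℝ)) / k - 1 = (n:ℝ) / k := by
      push_cast
      rw [add_div, div_self hk0]
      ring
    rw [e]
    exact h2

end Pool.Agent.X25.MW
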