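import Mathlib
import Pool.Agent.X25.MW.Lat

/-! Dimensions at most `k`: many empty shells. -/

set_option autoImplicit false

namespace Pool.Agent.X25.MW
open MeasureTheory Finset Filter

/-- integers near a real number -/
lemma near_card (θ R : ℝ) (hR : 1 ≤ R) : ((Finset.Icc ⌈θ - R⌉ ⌊θ + R⌋).card : ℝ) ≤ 3 * R := by
  rw [Int.card_Icc]
  have h1 : θ - R ≤ ⌈θ - R⌉ := Int.le_ceil _
  have h2 : (⌊θ + R⌋ : ℝ) ≤ θ + R := Int.floor_le _
  rcases le_total 0 (⌊θ + R⌋ + 1 - ⌈θ - R⌉) with h | h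
  · have h3 : (((⌊θ + R⌋ + 1 - ⌈θ - R⌉).toNat : ℤ) : ℝ) = ((⌊θ + R⌋ + 1 - ⌈θ - R⌉ : ℤ) : ℝ) := by
      rw [Int.toNat_of_nonneg h]
    have h4 : (((⌊θ + R⌋ + 1 - ⌈θ - R⌉).toNat : ℕ) : ℝ) = ((⌊θ + R⌋ + 1 - ⌈θ - R⌉ : ℤ) : ℝ) := by
      rw [← h3]; norm_cast
    rw [h4]
    push_cast
    linarith
  · rw [Int.toNat_of_nonpos h]
    simp
    linarith

theorem few_full {k d : ℕ} (hk : 1 ≤ k) (hd : 1 ≤ d) (hdk : d ≤ k) (θ : Fin d → ℝ) {η : ℝ} (hη : 0 < η)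
    (hη2 : η ≤ 1 / (8 * 3 ^ d)) {T : ℝ} (hT : 1 ≤ T) :
    volume {τ : ℝ | 0 ≤ τ ∧ τ ≤ T ∧ (latt k d θ τ η).ncard ≠ 0} ≤ ENNReal.ofReal (T / 2) := by
  classical
  have hk0 : (0:ℝ) < k := by exact_mod_cast hk
  set R : ℝ := (T + η) ^ (1 / (k:ℝ)) with hR
  have hTη : 1 ≤ T + η := by linarith
  have hR1 : 1 ≤ R := Real.one_le_rpow hTη (by positivity)
  have hRk : R ^ k = T + η := by
    rw [hR, ← Real.rpow_natCast, ← Real.rpow_mul (by linarith)]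
    rw [one_div, inv_mul_cancel₀ hk0.ne', Real.rpow_one]
  set F : Finset (Fin d → ℤ) := Fintype.piFinset (fun i => Finset.Icc ⌈θ i - R⌉ ⌊θ i + R⌋) with hF
  have hFc : (F.card : ℝ) ≤ 3 ^ d * (T + η) := by
    rw [hF, Fintype.card_piFinset]
    push_cast
    calc ∏ i : Fin d, ((Finset.Icc ⌈θ i - R⌉ ⌊θ i + R⌋).card : ℝ) ≤ ∏ _i : Fin d, (3 * R) :=
          prod_le_prod (fun _ _ => Nat.cast_nonneg _) (fun i _ => near_card (θ i) R hR1)
      _ = 3 ^ d * R ^ d := by simp [mul_pow]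
      _ ≤ 3 ^ d * R ^ k := by
          apply mul_le_mul_of_nonneg_left _ (by positivity)
          exact pow_le_pow_right₀ hR1 hdk
      _ = _ := by rw [hRk]
  have hcover : {τ : ℝ | 0 ≤ τ ∧ τ ≤ T ∧ (latt k d θ τ η).ncard ≠ 0} ⊆
      ⋃ m ∈ F, Set.Icc ((∑ i, |(m i : ℝ) - θ i| ^ k) - η) ((∑ i, |(m i : ℝ) - θ i| ^ k) + η) := by
    intro τ hτ
    obtain ⟨h1, h2, h3⟩ := hτ
    have h4 : (latt k d θ τ η).Nonempty := by
      by_contra hcon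
      rw [Set.not_nonempty_iff_eq_empty] at hcon
      rw [hcon] at h3
      exact h3 (Set.ncard_empty _)
    obtain ⟨m, hm⟩ := h4
    have h5 : |∑ i, |(m i : ℝ) - θ i| ^ k - τ| ≤ η := hm
    have h6 := abs_le.1 h5
    rw [Set.mem_iUnion₂]
    refine ⟨m, ?_, ?_, ?_⟩
    · rw [hF, Fintype.mem_piFinset]
      intro i
      have h7 : |(m i : ℝ) - θ i| ^ k ≤ R ^ k := by
        have h8 : |(m i : ℝ) - θ i| ^ k ≤ ∑ i, |(m i : ℝ) - θ i| ^ k :=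
          single_le_sum (f := fun i => |(m i : ℝ) - θ i| ^ k) (fun _ _ => by positivity) (mem_univ i)
        rw [hRk]
        linarith [h6.2]
      have h9 : |(m i : ℝ) - θ i| ≤ R := le_of_pow_le_pow_left₀ (by omega) (by linarith) h7
      rw [abs_le] at h9
      rw [mem_Icc]
      constructor
      · rw [Int.ceil_le]
        linarith [h9.1]
      · rw [Int.le_floor]
        linarith [h9.2]
    · linarith [h6.2]
    · linarith [h6.1]
  calc _ ≤ volume (⋃ m ∈ F, Set.Icc ((∑ i, |(m i : ℝ) - θ i| ^ k) - η) ((∑ i, |(m i : ℝ) - θ i| ^ k) + η)) :=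
        measure_mono hcover
    _ ≤ ∑ m ∈ F, volume (Set.Icc ((∑ i, |(m i : ℝ) - θ i| ^ k) - η) ((∑ i, |(m i : ℝ) - θ i| ^ k) + η)) :=
        measure_biUnion_finset_le _ _
    _ = ∑ m ∈ F, ENNReal.ofReal (2 * η) := by
        apply sum_congr rfl
        intro m _
        rw [Real.volume_Icc]
        congr 1
        ring
    _ = ENNReal.ofReal (F.card * (2 * η)) := by
        rw [sum_const, nsmul_eq_mul, ENNReal.ofReal_mul (Nat.cast_nonneg _), ENNReal.ofReal_natCast]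
    _ ≤ _ := by
        apply ENNReal.ofReal_le_ofReal
        have h3d : (1:ℝ) ≤ 3 ^ d := one_le_pow₀ (by norm_num)
        have hη3 : η * (8 * 3 ^ d) ≤ 1 := by
          rwa [le_div_iff₀ (by positivity)] at hη2
        have hη1 : η ≤ 1 := by nlinarith
        calc (F.card : ℝ) * (2 * η) ≤ (3 ^ d * (T + η)) * (2 * η) := by gcongr
          _ = (η * (8 * 3 ^ d)) * (T + η) / 4 := by ring
          _ ≤ 1 * (T + η) / 4 := by gcongr
          _ ≤ _ := by linarith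

/-- the set of empty shells is large -/
theorem many_empty {k d : ℕ} (hk : 1 ≤ k) (hd : 1 ≤ d) (hdk : d ≤ k) (θ : Fin d → ℝ) {η : ℝ} (hη : 0 < η)
    (hη2 : η ≤ 1 / (8 * 3 ^ d)) {T : ℝ} (hT : 1 ≤ T) :
    ENNReal.ofReal (T / 2) ≤ volume {τ : ℝ | 0 ≤ τ ∧ τ ≤ T ∧ (latt k d θ τ η).ncard = 0} := by
  have h1 := few_full hk hd hdk θ hη hη2 hT
  have h2 : Set.Icc (0:ℝ) T ⊆ {τ : ℝ | 0 ≤ τ ∧ τ ≤ T ∧ (latt k d θ τ η).ncard ≠ 0} ∪
      {τ : ℝ | 0 ≤ τ ∧ τ ≤ T ∧ (latt k d θ τ η).ncard = 0} := by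
    intro τ hτ
    by_cases h : (latt k d θ τ η).ncard = 0
    · exact Or.inr ⟨hτ.1, hτ.2, h⟩
    · exact Or.inl ⟨hτ.1, hτ.2, h⟩
  have h3 : ENNReal.ofReal T ≤ ENNReal.ofReal (T / 2) +
      volume {τ : ℝ | 0 ≤ τ ∧ τ ≤ T ∧ (latt k d θ τ η).ncard = 0} := by
    calc ENNReal.ofReal T = volume (Set.Icc (0:ℝ) T) := by rw [Real.volume_Icc, sub_zero]
      _ ≤ _ := measure_mono h2
      _ ≤ _ := measure_union_le _ _
      _ ≤ _ := by gcongr
  have h4 : ENNReal.ofReal T = ENNReal.ofReal (T / 2) + ENNReal.ofReal (T / 2) := by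
    rw [← ENNReal.ofReal_add (by linarith) (by linarith)]
    congr 1
    ring
  rw [h4] at h3
  exact (ENNReal.add_le_add_iff_left ENNReal.ofReal_ne_top).1 h3

end Pool.Agent.X25.MW
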